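import Pool.Agent.W_c2305b_h35.CellLeans

/-!
# Leans, cell by cell: the turning is bounded for the sides of the cell only

Same proof as `C2305bFat.cell_leans` (helper35), with a weaker hypothesis.
-/

open MeasureTheory Set Module W82

namespace C2305bFat

open C2305b (Pl t6 HexBound)
open C2305b.TL (cr)

/-- **Leans, cell by cell.** -/
theorem cell_leans' {α κ l0 : ℝ} (hα : 0 < α) (hκ : 0 < κ) (hl0 : 0 < l0) : ∃ CL : ℝ, 0 < CL ∧
    ∃ c0 : ℝ, 0 < c0 ∧ ∀ (K : Set Pl) (U W : Pl) (hh : ℝ), IsCompact K → NearP K U W hh →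
      K ⊆ Metric.closedBall 0 α → κ ≤ cr U W →
    ∀ (ι : Type) [Fintype ι] (D : Set Pl) (P : ι → Set Pl) (hV : Vio D P K) (T : Pl → Pl),
      Frame D P T →
    ∀ φ : ℝ, (∀ A B : Pl, A ≠ 0 → B ≠ 0 → dt A B = dt U W → cr A B = cr U W →
        C2305bAF.dr B = C2305bAF.dr A + ((φ : ℝ) : AddCircle Real.pi)) →
    ∀ i (hnd : (interior (convexHull ℝ (S P i))).Nonempty), hh + miss K P i ≤ c0 →
      (∀ s ∈ hV.til.sides hV.hull, segment ℝ s.1 s.2 ⊆ P i → cap D s.1 s.2 ⊆ P i →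
        turn T s.1 s.2 ≤ c0) →
    ∃ θ : AddCircle Real.pi, ∀ e ∈ (hV.til.toTL hV.hull).edges ⟨i, hnd⟩, l0 ≤ dist e.1 e.2 →
      ∃ k : ℤ, |k| ≤ 1 ∧ ∃ ls le : ℝ,
        ((Side D P e.1 e.2 ∧ cap D e.1 e.2 ⊆ P i) →
          ls ≤ CL * (hh + miss K P i) ∧ -(CL * (hh + miss K P i)) ≤ le ∧
          le - ls = turn T e.1 e.2 ∧
          C2305bAF.dr (T e.1) = θ + (((k : ℝ) * φ : ℝ) : AddCircle Real.pi) +
            ((ls : ℝ) : AddCircle Real.pi) ∧
          C2305bAF.dr (T e.2) = θ + (((k : ℝ) * φ : ℝ) : AddCircle Real.pi) +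
            ((le : ℝ) : AddCircle Real.pi)) ∧
        (¬ (Side D P e.1 e.2 ∧ cap D e.1 e.2 ⊆ P i) →
          le = ls ∧ |ls| ≤ CL * (hh + miss K P i) ∧
          C2305bAF.dr (e.2 - e.1) = θ + (((k : ℝ) * φ : ℝ) : AddCircle Real.pi) +
            ((ls : ℝ) : AddCircle Real.pi)) := by
  obtain ⟨C, hC, c1, hc1, HA⟩ := lean_arc hα hκ hl0
  obtain ⟨C', hC', c2, hc2, HD⟩ := lean_dart hα hκ hl0
  refine ⟨max C C', lt_max_of_lt_left hC, min c1 c2, lt_min hc1 hc2, ?_⟩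
  intro K U W hh hK H hKα hκU ι _ D P hV T hT φ hφ i hnd hhm hturn
  set TT := hV.til.toTL hV.hull with hTT
  obtain ⟨hm, o, A, B, X, hAB1, hAB2, HF⟩ := cell_frame hV hK H hKα hκU i
  have hCC : C * (hh + miss K P i) ≤ max C C' * (hh + miss K P i) :=
    mul_le_mul_of_nonneg_right (le_max_left _ _) (add_nonneg H.h0 hm)
  have hCC' : C' * (hh + miss K P i) ≤ max C C' * (hh + miss K P i) :=
    mul_le_mul_of_nonneg_right (le_max_right _ _) (add_nonneg H.h0 hm)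
  have hΔ : 0 < cr A B := by rw [hAB1]; exact H.pos
  have hA0 : A ≠ 0 := by
    rintro rfl
    have : cr (0 : Pl) B = 0 := by unfold cr; show 0 * _ - 0 * _ = _; ring
    linarith
  have hB0 : B ≠ 0 := by
    rintro rfl
    have : cr A (0 : Pl) = 0 := by unfold cr; show _ * 0 - _ * 0 = _; ring
    linarith
  have hdrAB := hφ A B hA0 hB0 hAB2 hAB1
  refine ⟨C2305bAF.dr A, fun e he hl => ?_⟩
  have hE := TT.mem_edges.mp he
  have hp1 : e.1 ∈ P i := hV.til.hull_sub i hE.1.2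
  have hp2 : e.2 ∈ P i := hV.til.hull_sub i hE.2.1.2
  have hl' : l0 ≤ ‖e.2 - e.1‖ := by rwa [dist_comm, dist_eq_norm] at hl
  by_cases hS : Side D P e.1 e.2 ∧ cap D e.1 e.2 ⊆ P i
  · obtain ⟨hside, hcap⟩ := hS
    have ht := hturn e ((hV.til.mem_sides hV.hull).2 hside)
      ((hV.til.conv i).segment_subset hp1 hp2) hcap
    obtain ⟨k, lp, lq, r1, r2, r3, r4, r5⟩ := HA o A B e.1 e.2 (T e.1) (T e.2) X (P i) hh
      (miss K P i) HF hΔ (hhm.trans (min_le_left _ _)) hp1 hp2 hl' (hT _ hside.1).1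
      (hT _ hside.2.1).1 (fun y hy => (hT _ hside.1).2 y (hV.til.sub i hy))
      (fun y hy => (hT _ hside.2.1).2 y (hV.til.sub i hy)) (ht.trans (min_le_left _ _))
    obtain ⟨n, hn, hdn⟩ := dr_side hdrAB k
    have hck := cA_ne hA0 hB0 k
    refine ⟨n, hn, lp, lq, fun _ => ⟨r2.trans hCC, (neg_le_neg hCC).trans r3, ?_, ?_, ?_⟩,
      fun h0 => absurd ⟨hside, hcap⟩ h0⟩
    · rw [r1]
      unfold turn
      ring
    · rw [dr_of_rot hck (hT _ hside.1).1 r4, hdn]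
    · rw [dr_of_rot hck (hT _ hside.2.1).1 r5, hdn]
  · have hleft := left_of_edge hV.til hV.hull hE hS
    obtain ⟨k, l, r1, r2⟩ := HD o A B e.1 e.2 X (P i) hh (miss K P i) HF hΔ
      (hhm.trans (min_le_right _ _)) hp1 hp2 hl' hleft
    obtain ⟨n, hn, hdn⟩ := dr_side hdrAB k
    have hck := cA_ne hA0 hB0 k
    have hw : e.2 - e.1 ≠ 0 := sub_ne_zero.2 hE.2.2.1
    refine ⟨n, hn, l, l, fun h0 => absurd h0 hS, fun _ => ⟨rfl, r1.trans hCC', ?_⟩⟩
    rw [dr_of_rot hck hw r2, hdn]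

end C2305bFat
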