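import Pool.Agent.W82_c2305b.AF9
import Pool.Agent.W82_c2305b.CellLeans2
import Pool.Agent.W_c2305b_h77.Top
import Pool.Agent.W_c2305b_h35.Plug1
import Pool.Agent.W_c2305b_h52.Stat4
import Pool.Agent.W_c2305b_h72.Cut
import Pool.Agent.W_c2305ba_h79.NearAbs5

/-!
# MP_c2305b_co, ALLFAT: bodies near the parallelograms
-/

open Set Module MeasureTheory Topology Filter

namespace C2305bAF

open W82
open C2305b (t6)
open C2305b.TL (cr dt)
open C2305bH52.Dow (sm)
open C2305bFat (Vio Frame turn NearP miss capsOf Own SpC)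

section fields

variable {ι : Type} [Fintype ι] {D : Set V} {P : ι → Set V} {h : Tiling D P}
  {hi : (interior (convexHull ℝ (Vb D P))).Nonempty} {own : V × V → ι} {Tf : V → V}
  {ls le : ι → V × V → ℝ} {kk : ι → V × V → ℤ} {m : ι → ℝ} {A6 τ : ℝ} {c : V → V} {l0 e1 : ℝ}

theorem plug_Wv {v : V} : v ∈ (plug h hi own Tf ls le kk m A6 τ c l0 e1).W ↔ v ∈ Wv P := by
  rw [plug_W, Wv, mem_iUnion]

theorem plug_eW : ∀ i, ∀ e ∈ (plug h hi own Tf ls le kk m A6 τ c l0 e1).E i,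
    (e.1 ∈ (plug h hi own Tf ls le kk m A6 τ c l0 e1).W ∧
      (plug h hi own Tf ls le kk m A6 τ c l0 e1).In e.1 i) ∧
    (e.2 ∈ (plug h hi own Tf ls le kk m A6 τ c l0 e1).W ∧
      (plug h hi own Tf ls le kk m A6 τ c l0 e1).In e.2 i) := by
  intro i e he
  obtain ⟨hn, he'⟩ := plug_mem he
  obtain ⟨h1, h2⟩ := edge_mem he'
  exact ⟨⟨h1.1, h.hull_sub i h1.2⟩, ⟨h2.1, h.hull_sub i h2.2⟩⟩

theorem plug_out : ∀ i, ∀ e ∈ (plug h hi own Tf ls le kk m A6 τ c l0 e1).E i,
    ∀ e' ∈ (plug h hi own Tf ls le kk m A6 τ c l0 e1).E i, e.1 = e'.1 → e = e' := by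
  intro i e he e' he' h0
  obtain ⟨hn, h1⟩ := plug_mem he
  obtain ⟨hn', h2⟩ := plug_mem he'
  rw [C2305b.TL.Tiling.mem_edges] at h1 h2
  rw [← h0] at h2
  exact Prod.ext h0 ((h.toTL hi).next_unique _ h2 h1)

theorem plug_inn : ∀ i, ∀ e ∈ (plug h hi own Tf ls le kk m A6 τ c l0 e1).E i,
    ∀ e' ∈ (plug h hi own Tf ls le kk m A6 τ c l0 e1).E i, e.2 = e'.2 → e = e' := by
  intro i e he e' he' h0
  obtain ⟨hn, h1⟩ := plug_mem he
  obtain ⟨hn', h2⟩ := plug_mem he'
  rw [C2305b.TL.Tiling.mem_edges] at h1 h2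
  rw [← h0] at h2
  exact Prod.ext ((h.toTL hi).prev_unique _ h2 h1) h0

theorem plug_short (hc : ∀ v ∈ Wv P, ∀ w ∈ Wv P, dist v w < l0 → c v = c w) :
    ∀ i, ∀ e ∈ (plug h hi own Tf ls le kk m A6 τ c l0 e1).E i,
    ¬ (plug h hi own Tf ls le kk m A6 τ c l0 e1).lo e →
    (plug h hi own Tf ls le kk m A6 τ c l0 e1).c e.1 =
      (plug h hi own Tf ls le kk m A6 τ c l0 e1).c e.2 := by
  intro i e he hlo
  obtain ⟨h1, h2⟩ := plug_eW i e he
  exact hc _ (plug_Wv.mp h1.1) _ (plug_Wv.mp h2.1) (not_le.mp hlo)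

theorem plug_hasCell : ∀ v ∈ (plug h hi own Tf ls le kk m A6 τ c l0 e1).W,
    ∃ i, (plug h hi own Tf ls le kk m A6 τ c l0 e1).In v i := by
  intro v hv
  obtain ⟨i, hv⟩ := plug_W.mp hv
  exact ⟨i, hv.1.1⟩

theorem nfU {α : Type} [Fintype α] {Q : α → Prop} {inst : DecidablePred Q} :
    (@Finset.filter α Q inst Finset.univ).card = ({i | Q i} : Set α).ncard := by
  rw [← Set.ncard_coe_finset]
  congr 1
  ext i
  simp

theorem nfW {α : Type} {W : Finset α} {Q : α → Prop} {inst : DecidablePred Q} :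
    (@Finset.filter α Q inst W).card = ({i | i ∈ W ∧ Q i} : Set α).ncard := by
  rw [← Set.ncard_coe_finset]
  congr 1
  ext i
  simp

theorem plug_cut {N0 : ℕ} {C5 μ0 : ℝ}
    (Hf : ∀ bad : Set ι, (∀ i, i ∉ bad → 1 ≤ (volume (P i)).toReal) → ∀ sp : Set V, sp.Finite →
      ∀ k0 : ℝ, 1 ≤ k0 →
    ∃ f : V → ℝ, (∀ v, 0 ≤ f v ∧ f v ≤ 1) ∧
      (∀ v ∈ Wv P, ∀ i ∈ bad, v ∈ P i → f v = 0) ∧
      (∀ v ∈ Wv P, v ∈ sp → f v = 0) ∧
      (∀ v ∈ Wv P, ∀ w ∈ Wv P, c v = c w → f v = f w) ∧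
      (∀ i, ∀ v ∈ Wv P, ∀ w ∈ Wv P, v ∈ P i → w ∈ P i → |f v - f w| ≤ C5 / k0) ∧
      (({i | i ∉ bad ∧ ∃ v ∈ Wv P, v ∈ P i ∧ f v < 1} : Set ι).ncard : ℝ) ≤
        C5 * k0 ^ 2 * (bad.ncard + sp.ncard) ∧
      (∀ v ∈ Wv P, 0 < f v →
        ({i | ∃ w ∈ Wv P, w ∈ P i ∧ c w = c v} : Set ι).ncard ≤ N0 ∧
        (∀ i, ∀ w ∈ Wv P, w ∈ P i → c w = c v → i ∉ bad) ∧
        ({w | w ∈ Wv P ∧ c w = c v} : Set V).ncard ≤ N0 ∧
        ∀ w ∈ Wv P, c w = c v → dist v w ≤ 1) ∧
      (∀ i, ({v | v ∈ Wv P ∧ v ∈ P i ∧ 0 < f v} : Set V).ncard ≤ N0) ∧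
      (∀ v ∈ Wv P, f v = 0 → ∃ w ∈ Wv P, c w = c v ∧ (w ∈ sp ∨ ∃ i ∈ bad, w ∈ P i)))
    (hm : ∀ i, m i ≤ μ0 → 1 ≤ (volume (P i)).toReal) :
    ∀ (μ : ℝ) (sp : Finset V) (k0 : ℝ), 0 < μ → μ ≤ μ0 →
      sp ⊆ (plug h hi own Tf ls le kk m A6 τ c l0 e1).W → 1 ≤ k0 →
    ∃ f : V → ℝ, (plug h hi own Tf ls le kk m A6 τ c l0 e1).Cut N0 C5
      ((plug h hi own Tf ls le kk m A6 τ c l0 e1).bad μ) sp k0 f := by
  classical
  intro μ sp k0 hμ hμ0 hsp hk0
  generalize hSy : plug h hi own Tf ls le kk m A6 τ c l0 e1 = Sy at hsp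
  have kW : ∀ v, v ∈ Sy.W ↔ v ∈ Wv P := by intro v; rw [← hSy]; exact plug_Wv
  have kIn : ∀ v i, Sy.In v i ↔ v ∈ P i := by intro v i; rw [← hSy]; rfl
  have kc : ∀ v, Sy.c v = c v := by intro v; rw [← hSy]; rfl
  have km : Sy.m = m := by rw [← hSy]; rfl
  clear hSy
  obtain ⟨f, f1, f2, f3, f4, f5, f6, f7, f8, f9⟩ := Hf ((Sy.bad μ : Finset ι) : Set ι) (by
    intro i hi'
    apply hm
    rw [Finset.mem_coe, C2305bA.Sys.bad, Finset.mem_filter] at hi'
    by_contra hcon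
    push Not at hcon
    exact hi' ⟨Finset.mem_univ _, Or.inl (by rw [km]; linarith)⟩) (sp : Set V)
    sp.finite_toSet k0 hk0
  refine ⟨f, ?_⟩
  constructor
  · exact fun v => (f1 v).1
  · exact fun v => (f1 v).2
  · intro v hv i hib hvi
    exact f2 v ((kW v).mp hv) i hib ((kIn v i).mp hvi)
  · intro v hv
    exact f3 v ((kW v).mp (hsp hv)) hv
  · intro v hv w hw hcc
    rw [kc, kc] at hcc
    exact f4 v ((kW v).mp hv) w ((kW w).mp hw) hcc
  · intro i v hv w hw hvi hwi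
    exact f5 i v ((kW v).mp hv) w ((kW w).mp hw) ((kIn v i).mp hvi) ((kIn w i).mp hwi)
  · rw [Set.ncard_coe_finset, Set.ncard_coe_finset] at f6
    refine le_trans (le_of_eq ?_) f6
    rw [nfU]
    congr 2
    ext i
    simp only [Set.mem_ofPred_eq, kW, kIn, Finset.mem_coe]
  · intro v hv hfv
    have h1 := (f7 v ((kW v).mp hv) hfv).1
    refine le_trans (le_of_eq ?_) h1
    rw [nfU]
    congr 1
    ext i
    simp only [Set.mem_ofPred_eq, kW, kIn, kc]
  · intro v hv hfv w hw hcc i hwi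
    rw [kc, kc] at hcc
    have h1 := (f7 v ((kW v).mp hv) hfv).2.1 i w ((kW w).mp hw) ((kIn w i).mp hwi) hcc
    rw [Finset.mem_coe] at h1
    exact h1
  · intro v hv hfv
    have h1 := (f7 v ((kW v).mp hv) hfv).2.2.1
    refine le_trans (le_of_eq ?_) h1
    rw [nfW]
    congr 1
    ext w
    simp only [Set.mem_ofPred_eq, kW, kc]
  · intro i
    have h1 := f8 i
    refine le_trans (le_of_eq ?_) h1
    rw [nfW]
    congr 1
    ext w
    simp only [Set.mem_ofPred_eq, kW, kIn]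
  · intro v hv hfv
    obtain ⟨w, hw, hcw, h1⟩ := f9 v ((kW v).mp hv) hfv
    refine ⟨w, (kW w).mpr hw, by rw [kc, kc]; exact hcw, ?_⟩
    rcases h1 with h1 | ⟨i, hib, hwi⟩
    · exact Or.inl h1
    · exact Or.inr ⟨i, hib, (kIn w i).mpr hwi⟩

end fields

/-- **Near the parallelograms.** -/
theorem near_vio (α : ℝ) : ∃ s0 : ℝ, 0 < s0 ∧ ∃ B : ℕ, ∀ K : Set V, Convex ℝ K → IsCompact K →
    (∀ v ∈ K, -v ∈ K) → Metric.closedBall 0 1 ⊆ K → K ⊆ Metric.closedBall 0 α →
    sm (gauge K) 6 - sm (gauge K) 5 ≤ s0 →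
    ∀ (ι : Type) [Fintype ι] (D : Set V) (P : ι → Set V), Vio D P K → (Vb D P).ncard ≤ B := by
  classical
  -- constants
  set al : ℝ := max α 1 with hal
  have hal1 : 1 ≤ al := le_max_right _ _
  have hal0 : 0 < al := by linarith
  obtain ⟨l0, hl0, N0, C5, hC5, Hcut⟩ := cluster_cutoff (2 * al) 1 (by linarith) one_pos
  obtain ⟨CL, hCL, c0, hc0, Hcell⟩ := C2305bFat.cell_leans' (α := al) (κ := 1 / 2) (l0 := l0)
    hal0 (by norm_num) hl0
  obtain ⟨e3, he3, hnum⟩ := C2305bFat.hnum (2 * N0 ^ 2)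
  have hC1p : 0 < 572 * al ^ 2 + 6 := by positivity
  have hCcp : 0 < 8 * al ^ 2 := by positivity
  set μ1 : ℝ := min (min 1 (c0 / 2)) (1 / (16 * al ^ 2)) with hμ1
  have hμ1p : 0 < μ1 := by
    refine lt_min (lt_min one_pos (by linarith)) (by positivity)
  have hμ11 : μ1 ≤ 1 := (min_le_left _ _).trans (min_le_left _ _)
  have hμ12 : μ1 ≤ c0 / 2 := (min_le_left _ _).trans (min_le_right _ _)
  have hμ13 : μ1 ≤ 1 / (16 * al ^ 2) := min_le_right _ _
  obtain ⟨μ0, hμ0, hμ01, e1, he1, he11, Habs⟩ := C2305bA.Sys.near_abs N0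
    (by positivity : 0 < 11 * CL) hCcp hC1p hC5 hμ1p he3 hnum
  obtain ⟨M, HM⟩ := C2305bFat.spM he1
  obtain ⟨s0, hs0, Bm, HB⟩ := Habs M
  obtain ⟨B, hBm⟩ := exists_nat_ge Bm
  refine ⟨min (min s0 (c0 / 22)) 1, lt_min (lt_min hs0 (by positivity)) one_pos, B, ?_⟩
  intro K hconv hK hsym hball hKα hσs ι _ D P hV
  have hKal : K ⊆ Metric.closedBall 0 al :=
    hKα.trans (Metric.closedBall_subset_closedBall (le_max_left _ _))
  have hint : (interior K).Nonempty :=
    ⟨0, interior_mono hball (Metric.ball_subset_interior_closedBall (Metric.mem_ball_self one_pos))⟩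
  have hNr := C2305bH52.Dow.nrm_gauge hK hconv hsym hint
  have hσ0' : 0 ≤ sm (gauge K) 6 - sm (gauge K) 5 :=
    C2305bH52.Dow.sig_nonneg hsym hK hconv hint
  have hσ1' : sm (gauge K) 6 - sm (gauge K) 5 ≤ 1 := hσs.trans (min_le_right _ _)
  -- the frame of the body
  have h56 : t6 K ≤ C2305bH52.Dow.tm 5 K +
      ENNReal.ofReal (sm (gauge K) 6 - sm (gauge K) 5) := by
    have h5 : 0 ≤ sm (gauge K) 5 := ENNReal.toReal_nonneg.trans
      (C2305bH52.Dow.area_le_sm hNr (show 2 ≤ 5 by norm_num) (S := ∅) (by simp) (by simp))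
    rw [C2305bH52.Dow.tm_eq hsym hK hconv hint (by norm_num),
      C2305bH52.Dow.t6_eq hsym hK hconv hint, ← ENNReal.ofReal_add h5 hσ0']
    apply ENNReal.ofReal_le_ofReal
    linarith
  obtain ⟨U, W, hUW, hsq, hbox⟩ := C2305bFat.static11 hconv hK hsym hball hσ0' h56
  have hNP : NearP K U W (11 * (sm (gauge K) 6 - sm (gauge K) 5)) :=
    ⟨by linarith, by linarith, hsq, hbox⟩
  have hU0 : U ≠ 0 := by
    rintro rfl
    have : cr (0 : V) W = 0 := C2305b.TL.cr_zero_left W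
    linarith
  have hW0 : W ≠ 0 := by
    rintro rfl
    have : cr U (0 : V) = 0 := C2305b.TL.cr_zero_right U
    linarith
  obtain ⟨φ, -, -, hφ⟩ := exists_phi U W hU0 hW0
  have hφ' : ∀ A B : V, A ≠ 0 → B ≠ 0 → dt A B = dt U W → cr A B = cr U W →
      dr B = dr A + ((φ : ℝ) : AddCircle Real.pi) := by
    intro A B hA hB h1 h2
    have := hφ 1 A B (Or.inl rfl) hA hB h1 (by rw [one_mul]; exact h2)
    rw [one_mul] at this
    exact this
  -- support directions and owners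
  obtain ⟨Tf, hT⟩ := C2305bFat.exists_frame hV
  obtain ⟨i0, j0, -⟩ := hV.two
  have _ : Nonempty ι := ⟨i0⟩
  obtain ⟨own, ho⟩ := C2305bFat.exists_own hV.til hV.hull
  -- clusters
  have hdiam : ∀ i, ∀ x ∈ P i, ∀ y ∈ P i, dist x y ≤ 2 * al := by
    intro i x hx y hy
    rw [dist_eq_norm]
    exact hV.cop.dist_le hKal hx hy
  obtain ⟨c, hc, Hf⟩ := Hcut hV.til hdiam
  -- good cells
  have hvol : 3 ≤ (volume K).toReal := by
    have h1 : (volume (Metric.closedBall (0 : V) 1)).toReal ≤ (volume K).toReal :=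
      ENNReal.toReal_mono hK.measure_lt_top.ne (measure_mono hball)
    rw [EuclideanSpace.volume_closedBall_fin_two, ENNReal.toReal_mul, ENNReal.toReal_pow,
      ENNReal.toReal_ofReal zero_le_one, ENNReal.toReal_ofReal Real.pi_pos.le] at h1
    linarith [Real.pi_gt_three]
  have hGnd : ∀ i, miss K P i ≤ μ0 → ¬ SpC hV Tf own e1 i →
      (interior (convexHull ℝ (S P i))).Nonempty := by
    intro i h1 h2
    refine C2305bFat.nondeg_of hV hK hball hKal hT he1.le (he11.trans hμ11) ?_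
      (hμ01.trans hμ11) own ho h1 h2
    have h3 : e1 ≤ 1 / (16 * al ^ 2) := he11.trans hμ13
    rw [le_div_iff₀ (by positivity)] at h3
    nlinarith
  have hLe := exists_leans hV Tf l0 CL φ
    (fun i => 11 * (sm (gauge K) 6 - sm (gauge K) 5) + miss K P i)
    (fun i => miss K P i ≤ μ0 ∧ ¬ SpC hV Tf own e1 i) (by
    intro i hn hGi
    exact Hcell K U W (11 * (sm (gauge K) 6 - sm (gauge K) 5)) hK hNP hKal hUW ι D P hV Tf hT φ
      hφ' i hn
      (by
        have h1 := hGi.1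
        have h2 : sm (gauge K) 6 - sm (gauge K) 5 ≤ c0 / 22 :=
          hσs.trans ((min_le_left _ _).trans (min_le_right _ _))
        linarith)
      (by
        intro s hs hseg hcap
        obtain ⟨g1, g2⟩ := ho s hs
        have hown : own s = i := C2305bFat.own_unique hV.til ((hV.til.mem_sides hV.hull).1 hs)
          g1 hseg g2 hcap
        have h1 := C2305bFat.not_spC hGi.2 hs hown
        linarith))
  obtain ⟨θ, kk, ls, le, hL⟩ := hLe
  rcases hσ0'.lt_or_eq with hpos | hzero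
  · have hOk : (plug hV.til hV.hull own Tf ls le kk (miss K P)
        (sm (gauge K) 6) (sm (gauge K) 6 - sm (gauge K) 5) c l0 e1).Ok N0 M (11 * CL) (8 * al ^ 2)
        (572 * al ^ 2 + 6) C5 μ0 e1 (sm (gauge K) 6 - sm (gauge K) 5) φ
        ((Vb D P).ncard : ℝ) := by
      have hLL : ∀ i, CL * (11 * (sm (gauge K) 6 - sm (gauge K) 5) + miss K P i) ≤
          11 * CL * ((sm (gauge K) 6 - sm (gauge K) 5) + miss K P i) := by
        intro i
        have h1 := C2305bFat.miss_nonneg hV hK i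
        have h2 := mul_nonneg hCL.le h1
        nlinarith
      exact {
        mnn := C2305bFat.plug_mnn hV hK
        lossnn := C2305bFat.plug_lossnn hV hsym hK hconv hint
        eW := plug_eW
        out := plug_out
        inn := plug_inn
        short := plug_short hc
        kk1 := fun i e _ => hL.kk1 i e
        tunn := C2305bFat.plug_tunn hV
        inner := C2305bFat.plug_inner hV ho hLL (fun i hn h1 h2 e he hd hs => by
          obtain ⟨a1, a2, -⟩ := hL.nsd i hn ⟨h1, h2⟩ e he hd hs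
          exact ⟨a1, a2⟩)
        bdry := C2305bFat.plug_bdry hV ho hLL (fun i hn h1 h2 e he hd hs => by
          obtain ⟨a1, a2, a3, -, -⟩ := hL.sd i hn ⟨h1, h2⟩ e he hd hs
          exact ⟨a1, a2, a3⟩)
        tu1 := C2305bFat.plug_tu1 hV ho
        hasCell := plug_hasCell
        clus := by
          intro x _ hx
          have kW : ∀ v, v ∈ (hV.til.toTL hV.hull).W → v ∈ Wv P := by
            intro v hv
            have h1 : v ∈ (plug hV.til hV.hull own Tf ls le kk (miss K P) 0 0 c l0 e1).W := hv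
            exact plug_Wv.mp h1
          exact plug_clus hV hT ho hL (fun i hi => hGnd i hi.1 hi.2)
            (fun v hv w hw => hc v (kW v hv) w (kW w hw)) x hx
        cut := plug_cut Hf (fun i hi => by
          unfold miss at hi
          linarith [hμ01.trans hμ11])
        acc := C2305bFat.plug_acc hV hsym hK hconv hint
        cl := C2305bFat.plug_cl hV hsym hK hconv hint ho hKal hσ1' hNP
        cap := C2305bFat.plug_cap hV hKal hT ho (he11.trans hμ11) hGnd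
        spM := by
          have := HM K ι D P hV Tf hT own
          refine le_trans (le_of_eq ?_) this
          congr 1 }
    have := HB ι V _ _ φ _ hpos (hσs.trans ((min_le_left _ _).trans (min_le_left _ _))) hOk
    have h2 : ((Vb D P).ncard : ℝ) ≤ B := this.trans hBm
    exact_mod_cast h2
  · exfalso
    have hacc := C2305bFat.vio_account hV hsym hK hconv hint own
    have hcl := C2305bFat.plug_cl (T := Tf) (ls := ls) (le := le) (kk := kk) (c := c) (l0 := l0)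
      (e1 := e1) hV hsym hK hconv hint ho hKal hσ1' hNP
    rw [← hzero, zero_mul] at hacc
    have h3 : ∑ i, (capsOf hV.til hV.hull own i -
        lossOf P (sm (gauge K) 6) (sm (gauge K) 6 - sm (gauge K) 5) i) ≤ 0 := by
      refine Finset.sum_nonpos fun i _ => ?_
      have h4 := hcl i
      have h5 := C2305bFat.miss_nonneg hV hK i
      have h6 : (572 * al ^ 2 + 6) * (sm (gauge K) 6 - sm (gauge K) 5) = 0 := by
        rw [← hzero, mul_zero]
      have h7 : capsOf hV.til hV.hull own i -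
          lossOf P (sm (gauge K) 6) (sm (gauge K) 6 - sm (gauge K) 5) i ≤
          (572 * al ^ 2 + 6) * (sm (gauge K) 6 - sm (gauge K) 5) - miss K P i := h4
      linarith
    rw [← hzero] at h3
    linarith

/-- The near part of the theorem on bounded eccentricity. -/
theorem near (α : ℝ) : C2305bFat.NearBound α := by
  obtain ⟨s0, hs0, B, H⟩ := near_vio α
  refine ⟨s0, hs0, B, ?_⟩
  intro K hconv hK hsym hball hKα ht ι _ D P hV
  refine H K hconv hK hsym hball hKα ?_ ι D P hV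
  have hint : (interior K).Nonempty :=
    ⟨0, interior_mono hball (Metric.ball_subset_interior_closedBall (Metric.mem_ball_self one_pos))⟩
  have hNr := C2305bH52.Dow.nrm_gauge hK hconv hsym hint
  have h5 : 0 ≤ sm (gauge K) 5 := ENNReal.toReal_nonneg.trans
    (C2305bH52.Dow.area_le_sm hNr (show 2 ≤ 5 by norm_num) (S := ∅) (by simp) (by simp))
  rw [C2305bH52.Dow.tm_eq hsym hK hconv hint (by norm_num),
    C2305bH52.Dow.t6_eq hsym hK hconv hint, ← ENNReal.ofReal_add h5 hs0.le] at ht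
  have := (ENNReal.ofReal_le_ofReal_iff (by linarith)).1 ht
  linarith

end C2305bAF
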