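import Pool.Agent.W82_c2305b.CoreA
import Pool.Agent.W_c2305b_h68.RigTwo

/-!
The core statement from the gap, the rigidity and part B.
-/

open Set Module Topology Filter MeasureTheory
open scoped Pointwise

namespace W82

open C2305b.TL (cr)
open C2305b.Rig (Am)
open C2305b (dil)
open C2305bB (Fr mis)
open C2305bH52 (needle)

/-- The interface to part B. -/
def PartB (R τ G a : ℝ) : Prop :=
  ∃ kap : ℝ, 0 < kap ∧ kap ≤ 1 ∧ ∀ C1 : ℝ, 0 ≤ C1 → ∃ kap' : ℝ, 0 < kap' ∧ kap' ≤ kap ∧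
    ∀ C2 : ℝ, 0 ≤ C2 → ∀ L1 : ℝ, ∃ B : ℝ,
    ∀ (L : ℝ), 1 ≤ L → ∀ (ι : Type) [Fintype ι] (D : Set V) (P : ι → Set V) (h : Tiling D P)
      (hi : (interior (convexHull ℝ (Vb D P))).Nonempty) (F : ι → Fr) (o : ι → V) (Lam : ℝ),
      (∀ i, P i ⊆ needle L (F i) (o i) (R / 2)) →
      (∀ i, (volume (P i)).toReal ≤ G) →
      0 ≤ Lam →
      Lam + τ * (Vb D P).ncard + 6 * τ ≤
        ∑ p ∈ h.sides hi, (volume (cap D p.1 p.2)).toReal →
      τ * (Tv D P).ncard ≤ Lam →
      (L1 ≤ L → ∃ Bad : Finset ({i : ι // (interior (convexHull ℝ (S P i))).Nonempty} ×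
          {i : ι // (interior (convexHull ℝ (S P i))).Nonempty}),
        (Bad.card : ℝ) ≤ C1 * (Lam + (Vb D P).ncard) ∧
        ∀ i j v w, (h.toTL hi).Tw i j v w → (i, j) ∉ Bad →
          mis L (F i) (F j) ≤ kap ∧ ((h.toTL hi).edges i).card ≤ 6 ∧
            a ≤ (volume ((h.toTL hi).P i)).toReal) →
      (L1 ≤ L → ∃ Bad : Finset ({i : ι // (interior (convexHull ℝ (S P i))).Nonempty} ×
          {i : ι // (interior (convexHull ℝ (S P i))).Nonempty}),
        (Bad.card : ℝ) ≤ C2 * (Lam + (Vb D P).ncard) ∧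
        ∀ i j v w, (h.toTL hi).Tw i j v w → (i, j) ∉ Bad → mis L (F i) (F j) ≤ kap') →
      ((Vb D P).ncard : ℝ) ≤ B

/-- Rigidity with an offset: one level. -/
theorem level_bad {ι : Type} [Fintype ι] {D : Set V} {P : ι → Set V} (h : Tiling D P)
    (hi : (interior (convexHull ℝ (Vb D P))).Nonempty) {K0 : Set V}
    {T6 A6 τ g ε G η κ ν a b co so L : ℝ} {t : ι → Bool} {c s : ι → ℝ} {o : ι → V}
    (hη : 0 < η) (hg : 0 < g) (hτ : 0 < τ) (hG : 0 ≤ G)
    (hl : ∀ i, 0 ≤ lossOf P A6 τ i)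
    (hgap : ∀ i, (S P i).ncard ≠ 6 → g / 2 ≤ lossOf P A6 τ i)
    (hm : ∀ i, ((S P i).ncard : ℝ) ≤ (6 + 4 * G / τ) + lossOf P A6 τ i / τ)
    (hC : Cells P K0 ν ε a b co so t c s o) (hT : T6 ≤ A6) (hL : 0 < L)
    (hfr : ∀ i, c i ^ 2 + (s i / L) ^ 2 = 1)
    (hR : RigAt K0 T6 ν ε a b co so η κ) :
    ∃ Bad : Finset ({i : ι // (interior (convexHull ℝ (S P i))).Nonempty} ×
          {i : ι // (interior (convexHull ℝ (S P i))).Nonempty}),
      (Bad.card : ℝ) ≤ 4 * Cnp g τ G η * (h.Lam A6 τ + (Vb D P).ncard) ∧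
      ∀ i j v w, (h.toTL hi).Tw i j v w → (i, j) ∉ Bad →
        mis L (mkFr L (c i) (s i) (hfr i)) (mkFr L (c j) (s j) (hfr j)) ≤ κ ∧
          ((h.toTL hi).edges i).card ≤ 6 ∧ T6 - η ≤ (volume ((h.toTL hi).P i)).toReal := by
  obtain ⟨Bad, h1, h2⟩ := h.badset_le hi hη hg hτ hG hl hgap hm
  refine ⟨Bad, h1, fun i j v w hTw hn => ?_⟩
  have hgood := h2 i j v w hTw hn
  have hvi : v ∈ P i := h.hull_sub i hTw.1.1.2
  have hvj : v ∈ P j := h.hull_sub j hTw.2.2.1.2
  have hp := hgood.2.2 i hvi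
  obtain ⟨h3, h4⟩ := Perfect.edges h hi hp
  refine ⟨?_, h3.le, by linarith⟩
  rw [mis_mkFr hL]
  exact (h.rigid hi hC hT hR hgood hTw.1).2 i j hvi hvj

/-- **The core statement.** -/
theorem core_of_partB {K0 : Set V} {T6 τ g R0 : ℝ} (hK0c : Convex ℝ K0)
    (hK0 : K0 ⊆ Metric.closedBall 0 R0) (hT60 : 0 < T6)
    (hT6 : ENNReal.ofReal T6 ≤ C2305b.t6 K0) (hG : Gap K0 T6 τ g)
    (hR3 : C2305b.Rig.Rigid3 K0 T6)
    (hPB : ∀ R τ G a : ℝ, 1 ≤ R → 0 < τ → 0 < G → 0 < a → PartB R τ G a) :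
    C2305b.Core K0 := by
  classical
  have hτ := hG.tau
  have hg := hG.pos
  -- bounds of the body
  set R1 := max R0 1 with hR1
  have hR11 : 1 ≤ R1 := le_max_right _ _
  have hK1 : K0 ⊆ Metric.closedBall 0 R1 :=
    hK0.trans (Metric.closedBall_subset_closedBall (le_max_left _ _))
  have hvK0 : volume K0 ≠ ⊤ :=
    ((measure_mono hK1).trans_lt (isCompact_closedBall (0 : V) R1).measure_lt_top).ne
  set G := max 1 (volume K0).toReal with hGdef
  have hG1 : 1 ≤ G := le_max_left _ _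
  have hG0 : volume K0 ≤ ENNReal.ofReal G := by
    rw [← ENNReal.ofReal_toReal hvK0]
    exact ENNReal.ofReal_le_ofReal (le_max_right _ _)
  have hGnn : 0 ≤ G := by linarith
  -- rigidity
  obtain ⟨Ro, hRo, hrig⟩ := rigid_two hR3
  set R := 8 * (1 + Ro) * R1 + 1 with hRdef
  have hR1' : 1 ≤ R := by
    have : 0 ≤ 8 * (1 + Ro) * R1 := by positivity
    linarith
  obtain ⟨kap, hkap, hkap1, hPB⟩ := hPB R τ (4 * G) (T6 / 2) hR1' hτ (by linarith) (by linarith)
  obtain ⟨η1, hη1, hrig1⟩ := hrig kap hkap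
  set η1' := min η1 (T6 / 2) with hη1'
  have hη1'0 : 0 < η1' := lt_min hη1 (by linarith)
  obtain ⟨kap', hkap', -, hPB⟩ := hPB (4 * Cnp g τ G η1')
    (by have := Cnp_nonneg hg hτ hGnn hη1'0; linarith)
  obtain ⟨η2, hη2, ν0, hν0, ε0, hε0, hlev⟩ := hrig1 kap' hkap'
  obtain ⟨B0, hB0⟩ := hPB (4 * Cnp g τ G η2)
    (by have := Cnp_nonneg hg hτ hGnn hη2; linarith) (1 / ν0)
  set B := max B0 0 with hBdef
  have hBnn : 0 ≤ B := le_max_right _ _
  -- the walk
  set M := (1 + Ro) * (2 * R1) with hMdef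
  have hM0 : 0 < M := by positivity
  set cc := τ ^ 2 / (32 * M ^ 3) with hcc
  have hcc0 : 0 < cc := by positivity
  obtain ⟨N', hN'⟩ := exists_nat_gt (8 * M * B / cc)
  set N := N' + 1 with hNdef
  have hN0 : (0 : ℝ) < N := by rw [hNdef]; positivity
  have hNB : 8 * M * B < N * cc := by
    rw [div_lt_iff₀ hcc0] at hN'
    have : (N' : ℝ) * cc ≤ N * cc := by
      apply mul_le_mul_of_nonneg_right _ hcc0.le
      rw [hNdef]; push_cast; linarith
    linarith
  obtain ⟨η3, hη3, hrig3⟩ := hrig (1 / N) (by positivity)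
  obtain ⟨η4, -, ν3, hν3, ε3, hε3, hlev3⟩ := hrig3 1 one_pos
  set η3' := min (min η3 (g / 2)) (T6 / 2) with hη3'
  have hη3'0 : 0 < η3' := lt_min (lt_min hη3 (by linarith)) (by linarith)
  have hη3'1 : η3' ≤ η3 := (min_le_left _ _).trans (min_le_left _ _)
  have hη3'2 : η3' ≤ g / 2 := (min_le_left _ _).trans (min_le_right _ _)
  have hη3'3 : η3' ≤ T6 / 2 := min_le_right _ _
  -- constants of the count
  set W := (4 * G + 1) * B with hW
  have hWnn : 0 ≤ W := by positivity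
  set V1 := (volume (Metric.closedBall (0 : V) 1)).toReal with hV1
  have hV1nn : 0 ≤ V1 := ENNReal.toReal_nonneg
  set n1 := (Cnp g τ G η3' + 2 / g) * W with hn1
  set n2 := 19 ^ N * (4 * Cnp g τ G η3' * W) with hn2
  set n3 := (4 * B * (4 * ((1 / ν3) * M))) ^ 2 * V1 / (T6 / 2) with hn3
  have hCnp3 : 0 ≤ Cnp g τ G η3' := Cnp_nonneg hg hτ hGnn hη3'0
  have hn2nn : 0 ≤ n2 := by positivity
  have hn3nn : 0 ≤ n3 := by positivity
  obtain ⟨N0, hN0'⟩ := exists_nat_gt (n1 + n2 + n3)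
  refine ⟨min (min ε0 ε3) (min 1 (g / (6 * G))), ?_, N0 + 3, ?_⟩
  · have : 0 < g / (6 * G) := by positivity
    exact lt_min (lt_min hε0 hε3) (lt_min one_pos this)
  intro K hKc hKcpt hK0K hKε l a b hl hab D hDc hDcpt hDi ι _ C f d o c s σ hf hC hint hcov hcs hσ
    hbody hcard
  set ε := min (min ε0 ε3) (min 1 (g / (6 * G))) with hεdef
  have hε : 0 < ε := by
    have : 0 < g / (6 * G) := by positivity
    exact lt_min (lt_min hε0 hε3) (lt_min one_pos this)
  have hε1 : ε ≤ 1 := (min_le_right _ _).trans (min_le_left _ _)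
  have hεε0 : ε ≤ ε0 := (min_le_left _ _).trans (min_le_left _ _)
  have hεε3 : ε ≤ ε3 := (min_le_left _ _).trans (min_le_right _ _)
  have hεG : 3 * ε * G ≤ g / 2 := by
    have h1 : ε ≤ g / (6 * G) := (min_le_right _ _).trans (min_le_right _ _)
    rw [le_div_iff₀ (by linarith)] at h1
    linarith
  have hl0 : l ≠ 0 := by positivity
  have hlinv : l⁻¹ ≠ 0 := inv_ne_zero hl0
  -- area of hexagons in K
  have ht6top : C2305b.t6 K ≠ ⊤ := by
    refine ((C2305b.t6_le hKc).trans_lt ?_).ne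
    exact hKcpt.measure_lt_top
  set A6 := (C2305b.t6 K).toReal with hA6def
  have hA6 : C2305b.t6 K = ENNReal.ofReal A6 := (ENNReal.ofReal_toReal ht6top).symm
  have hA6nn : 0 ≤ A6 := ENNReal.toReal_nonneg
  have hTA : T6 ≤ A6 := by
    have h1 : ENNReal.ofReal T6 ≤ C2305b.t6 K := hT6.trans (C2305b.t6_mono hK0K)
    have h2 := ENNReal.toReal_mono ht6top h1
    rwa [ENNReal.toReal_ofReal hT60.le] at h2
  by_contra hviol
  push Not at hviol
  -- rescaling
  have hT0 : Tiling D C := tiling_of_core hDc hDcpt hf hC hint hcov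
  set e := dilE l⁻¹ hlinv with he
  set P : ι → Set V := fun i => e '' C i with hP
  have h : Tiling (e '' D) P := hT0.map e
  have hvolD : volume (e '' D) = volume D := volume_dilE hlinv D
  have hviol' : Fintype.card ι * A6 < (volume (e '' D)).toReal := by
    rw [hvolD]
    have h1 : (Fintype.card ι : ENNReal) * C2305b.t6 K ≠ ⊤ :=
      ENNReal.mul_ne_top (ENNReal.natCast_ne_top _) ht6top
    have h2 := (ENNReal.toReal_lt_toReal h1 hDcpt.measure_lt_top.ne).mpr hviol
    rwa [ENNReal.toReal_mul, ENNReal.toReal_natCast] at h2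
  have hcop : Copies P K := copies_of_core hl hab hcs hσ hbody
  -- two cells, interior
  have hcard3 : 2 < Fintype.card ι := by omega
  have hi : (interior (convexHull ℝ (Vb (e '' D) P))).Nonempty := by
    by_contra hcon
    have := h.two_cells_of_degenerate hcon
    omega
  obtain ⟨i₀, j₀, hij₀⟩ := Fintype.exists_pair_of_one_lt_card (by omega : 1 < Fintype.card ι)
  obtain ⟨hlnn, hgap, hm, hvol⟩ := h.losses hG hK0c hG0 hGnn hε.le hε1 hεG hKε hcop hTA hA6nn hA6
  set b' := (((Vb (e '' D) P).ncard : ℕ) : ℝ) with hb'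
  have hb'nn : 0 ≤ b' := Nat.cast_nonneg _
  have hacc := h.account hi hij₀ (A6 := A6) hτ.le
  have hsidesum : ∑ p ∈ h.sides hi, ((volume (cap (e '' D) p.1 p.2)).toReal - τ) =
      ∑ p ∈ h.sides hi, (volume (cap (e '' D) p.1 p.2)).toReal - τ * b' := by
    rw [Finset.sum_sub_distrib, Finset.sum_const, h.card_sides hi, nsmul_eq_mul]
    ring
  rw [hsidesum] at hacc
  have hLamdef : h.Lam A6 τ = τ * ((Tv (e '' D) P).ncard +
      2 * ∑ v ∈ h.M, (exc (e '' D) P v : ℝ)) + ∑ i, lossOf P A6 τ i := rfl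
  rw [← hLamdef] at hacc
  have hLamnn : 0 ≤ h.Lam A6 τ := h.Lam_nonneg hτ.le hlnn
  have hmain : h.Lam A6 τ + τ * b' + 6 * τ ≤
      ∑ p ∈ h.sides hi, (volume (cap (e '' D) p.1 p.2)).toReal := by linarith
  have hcaps : ∑ p ∈ h.sides hi, (volume (cap (e '' D) p.1 p.2)).toReal ≤ 4 * G * b' := by
    calc ∑ p ∈ h.sides hi, (volume (cap (e '' D) p.1 p.2)).toReal
        ≤ ∑ p ∈ h.sides hi, 4 * G := by
          refine Finset.sum_le_sum fun p hp => ?_
          exact h.cap_le hvol ((h.mem_sides hi).mp hp)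
      _ = 4 * G * b' := by
          rw [Finset.sum_const, h.card_sides hi, nsmul_eq_mul]
          ring
  -- the parameter
  set L := l ^ 2 with hLdef
  have hL1 : 1 ≤ L := one_le_pow₀ hl
  have hL0 : 0 < L := by linarith
  set ν := 1 / l ^ 4 with hνdef
  have hνL : ν = 1 / L ^ 2 := by rw [hνdef, hLdef]; ring
  have hνpos : 0 < ν := by rw [hνdef]; positivity
  have hν1 : ν ≤ 1 := by
    rw [hνL, div_le_one (by positivity)]
    exact one_le_pow₀ hL1
  have hνsmall : ∀ x : ℝ, 0 < x → 1 / x ≤ L → ν ≤ x := by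
    intro x hx hxL
    rw [div_le_iff₀ hx] at hxL
    rw [hνL, div_le_iff₀ (by positivity)]
    have h1 : L * x * 1 ≤ L * x * L := mul_le_mul_of_nonneg_left hL1 (by positivity)
    have h2 : x * L ^ 2 = L * x * L := by ring
    rw [h2]
    exact hxL.trans (by rw [mul_one] at h1; exact h1)
  have hfrgen : ∀ co so : ℝ, co ^ 2 + ν * so ^ 2 = 1 → ∀ i,
      cN ν co so (tp (σ i)) (c i) (s i * l ^ 2) ^ 2 +
        (sN ν co so (tp (σ i)) (c i) (s i * l ^ 2) / L) ^ 2 = 1 := by
    intro co so ho i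
    have h1 : c i ^ 2 + ν * (s i * l ^ 2) ^ 2 = 1 := by
      have := hcs i
      rw [hνdef]
      field_simp
      linarith
    have h2 := cN_sN ho h1 (tp (σ i))
    rw [div_pow, ← h2, hνL]
    ring
  -- part B
  have hbB : b' ≤ B := by
    obtain ⟨co, so, ho, hso, hlevels⟩ : ∃ co so : ℝ, co ^ 2 + ν * so ^ 2 = 1 ∧ |so| ≤ Ro ∧
        (1 / ν0 ≤ L → RigAt K0 T6 ν ε a b co so η1 kap ∧ RigAt K0 T6 ν ε a b co so η2 kap') := by
      by_cases hbig : 1 / ν0 ≤ L
      · obtain ⟨co, so, h1, -, h2, h3, h4⟩ :=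
          hlev ν hνpos (hνsmall ν0 hν0 hbig) ε hε.le hεε0 a b hab
        exact ⟨co, so, h1, h2, fun _ => ⟨h3, h4⟩⟩
      · exact ⟨1, 0, by ring, by simpa using hRo, fun h0 => absurd h0 hbig⟩
    have hcells := cells_of_core hε.le hKε hl hab ho hcs hσ hbody
    have hfr := hfrgen co so ho
    refine le_trans ?_ (le_max_left B0 0)
    refine hB0 L hL1 ι (e '' D) P h hi (fun i => mkFr L _ _ (hfr i)) (fun i => dil l⁻¹ (o i))
      (h.Lam A6 τ) ?_ hvol hLamnn hmain (h.tv_le_Lam hτ.le hlnn) ?_ ?_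
    · intro i
      have hRR : 8 * (1 + Ro) * R1 ≤ R := by rw [hRdef]; linarith
      exact hcells.needle hK1 hab hε.le hε1 hL1 hνL hso (by linarith) hRR i (hfr i)
    · intro hbig
      obtain ⟨Bad, h1, h2⟩ := level_bad h hi hη1'0 hg hτ hGnn hlnn hgap hm hcells hTA hL0 hfr
        ((hlevels hbig).1.mono (min_le_left _ _) le_rfl)
      refine ⟨Bad, h1, fun i j v w hTw hn => ?_⟩
      obtain ⟨h3, h4, h5⟩ := h2 i j v w hTw hn
      refine ⟨h3, h4, le_trans ?_ h5⟩
      have : η1' ≤ T6 / 2 := min_le_right _ _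
      linarith
    · intro hbig
      obtain ⟨Bad, h1, h2⟩ := level_bad h hi hη2 hg hτ hGnn hlnn hgap hm hcells hTA hL0 hfr
        (hlevels hbig).2
      exact ⟨Bad, h1, fun i j v w hTw hn => (h2 i j v w hTw hn).1⟩
  -- counting
  have hWb : h.Lam A6 τ + b' ≤ W := by
    rw [hW]
    have h1 : 4 * G * b' ≤ 4 * G * B := mul_le_mul_of_nonneg_left hbB (by linarith)
    have h2 : 0 ≤ τ * b' := by positivity
    linarith
  set perf := Finset.univ.filter (fun i => Perfect (e '' D) P (lossOf P A6 τ) η3' i) with hperf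
  set nonp := Finset.univ.filter (fun i => ¬ Perfect (e '' D) P (lossOf P A6 τ) η3' i) with hnonp
  have hsplit : perf.card + nonp.card = Fintype.card ι := by
    rw [hperf, hnonp, Finset.card_filter_add_card_filter_not, Finset.card_univ]
  have hnp : (nonp.card : ℝ) ≤ n1 := by
    refine (h.card_nonperfect hη3'0 hg hτ hGnn hlnn hgap hm).trans ?_
    rw [hn1]
    apply mul_le_mul_of_nonneg_left hWb
    positivity
  have hp : (perf.card : ℝ) ≤ n2 + n3 := by
    by_cases hbig : 1 / ν3 ≤ L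
    · -- the walk
      obtain ⟨co, so, ho, -, hso, hR, -⟩ :=
        hlev3 ν hνpos (hνsmall ν3 hν3 hbig) ε hε.le hεε3 a b hab
      have hcells := cells_of_core hε.le hKε hl hab ho hcs hσ hbody
      have hR' := hR.mono hη3'1 le_rfl
      have hsub : perf ⊆ reach (e '' D) P (lossOf P A6 τ) η3' N := by
        intro i hip
        have hpi := (Finset.mem_filter.mp hip).2
        refine h.walk hi hG hK0c hG0 hGnn hε.le hε1 hεG hKε hcop hTA hη3'2 hcells hK1 hab
          hνpos.le hν1 hso le_rfl hM0 (by positivity) hR' ?_ ?_ hpi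
        · rw [mul_one_div, div_self hN0.ne']
        · refine lt_of_le_of_lt ?_ hNB
          exact mul_le_mul_of_nonneg_left hbB (by positivity)
      have h1 : perf.card ≤ 19 ^ N * (reach (e '' D) P (lossOf P A6 τ) η3' 0).card :=
        (Finset.card_le_card hsub).trans (h.reach_card _ _ N)
      have h2 := h.reach_zero hi (lossOf P A6 τ) η3'
      have h3 := h.nonperfect_le hη3'0 hg hτ hGnn hlnn hgap hm
      have h4 : ((reach (e '' D) P (lossOf P A6 τ) η3' 0).card : ℝ) ≤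
          4 * Cnp g τ G η3' * W := by
        have h5 : ((reach (e '' D) P (lossOf P A6 τ) η3' 0).card : ℝ) ≤
            4 * ∑ i ∈ nonp, (((S P i).ncard : ℝ) + h.tn i) := by
          have := (Nat.cast_le (α := ℝ)).mpr h2
          push_cast at this
          exact this
        refine h5.trans ?_
        rw [mul_assoc]
        apply mul_le_mul_of_nonneg_left _ (by norm_num : (0 : ℝ) ≤ 4)
        exact h3.trans (mul_le_mul_of_nonneg_left hWb hCnp3)
      have h6 : (perf.card : ℝ) ≤ n2 := by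
        rw [hn2]
        have h7 : (perf.card : ℝ) ≤ 19 ^ N * ((reach (e '' D) P (lossOf P A6 τ) η3' 0).card : ℝ) := by
          exact_mod_cast h1
        exact h7.trans (mul_le_mul_of_nonneg_left h4 (by positivity))
      linarith
    · -- small eccentricity
      push Not at hbig
      have ho : (1 : ℝ) ^ 2 + ν * 0 ^ 2 = 1 := by ring
      have hcells := cells_of_core hε.le hKε hl hab ho hcs hσ hbody
      have hso : |(0 : ℝ)| ≤ Ro := by simpa using hRo
      have h1 := h.card_perfect_area (A6 := A6) (τ := τ) (η := η3') (a := T6 / 2) (by linarith)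
      have h2 := h.area_hull_le hi (m := 4 * (L * M)) (B := B) (by positivity)
        (fun i p hp q hq k => hcells.extent hK1 hab hε.le hε1 hL1 hνL hso le_rfl hp hq k) hbB
      have h3 : (4 * B * (4 * (L * M))) ^ 2 * V1 ≤ (4 * B * (4 * ((1 / ν3) * M))) ^ 2 * V1 := by
        apply mul_le_mul_of_nonneg_right _ hV1nn
        apply pow_le_pow_left₀ (by positivity)
        apply mul_le_mul_of_nonneg_left _ (by positivity)
        apply mul_le_mul_of_nonneg_left _ (by norm_num)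
        exact mul_le_mul_of_nonneg_right hbig.le hM0.le
      have h4 : (perf.card : ℝ) ≤ n3 := by
        rw [hn3, le_div_iff₀ (by linarith)]
        exact (h1.trans h2).trans h3
      linarith
  have hfin : (Fintype.card ι : ℝ) ≤ n1 + n2 + n3 := by
    rw [← hsplit]
    push_cast
    linarith
  have hlt : (Fintype.card ι : ℝ) < N0 := lt_of_le_of_lt hfin hN0'
  have : Fintype.card ι < N0 := by exact_mod_cast hlt
  omega

end W82
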