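import Pool.Agent.W82_c2305b.Sel3

/-!
Existence of a cheap block with many good sides: the final statement.
-/

open Set Module MeasureTheory

namespace W82

open C2305b.TL
open C2305bB (Blk Cost goodSides Meets Lvl1 Lvl2 Fr Fits mis)
open C2305bH52 (needle)

variable {ι : Type} {D : Set V} {P : ι → Set V}

open Classical in
/-- **Selection of a block**, for given sets of bad pairs. -/
theorem sel_block {R τ G : ℝ} (_hR : 1 ≤ R) (hτ : 0 < τ) (hG : 0 < G) (W M : ℕ)
    (hW : 1 ≤ W) (hM : 3 ≤ M) {C1 C2 : ℝ} (hC1 : 1 ≤ C1) (hC2 : 1 ≤ C2) :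
    ∃ B0 : ℝ, ∀ (L : ℝ), 1 ≤ L → ∀ (ι : Type) [Fintype ι] (D : Set V) (P : ι → Set V)
      (h : Tiling D P) (hi : (interior (convexHull ℝ (Vb D P))).Nonempty) (F : ι → Fr)
      (o : ι → V) (Lam : ℝ),
      (∀ i, P i ⊆ needle L (F i) (o i) (R / 2)) →
      (∀ i, (volume (P i)).toReal ≤ G) →
      0 ≤ Lam →
      Lam + τ * (Vb D P).ncard + 6 * τ ≤
        ∑ p ∈ h.sides hi, (volume (cap D p.1 p.2)).toReal →
      τ * (Tv D P).ncard ≤ Lam →
      ∀ Bad1 Bad2 : Finset ({i : ι // (interior (convexHull ℝ (S P i))).Nonempty} ×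
          {i : ι // (interior (convexHull ℝ (S P i))).Nonempty}),
      (Bad1.card : ℝ) ≤ C1 * (Lam + (Vb D P).ncard) →
      (Bad2.card : ℝ) ≤ C2 * (Lam + (Vb D P).ncard) →
      B0 < ((Vb D P).ncard : ℝ) →
      ∃ q : ℕ → V,
        Blk L R (Real.tan (Real.pi / M)) (h.toTL hi) D (fun i => F i) W q ∧
        τ / (8 * G) * W ≤ ((goodSides τ D W q).card : ℝ) ∧
        (((h.toTL hi).sideVerts W q).card : ℝ) ≤ 8 * G / τ * (G / τ + 4 * (G + 1)) * W ∧
        ((Bad1.filter fun s => Meets (h.toTL hi) (q 0) (q W) s).card : ℝ) ≤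
          8 * G / τ * (G / τ + 4 * (G + 1)) * C1 * W ∧
        ((Bad2.filter fun s => Meets (h.toTL hi) (q 0) (q W) s).card : ℝ) ≤
          8 * G / τ * (G / τ + 4 * (G + 1)) * C2 * W := by
  classical
  set c := τ / (8 * G) with hc
  have hc0 : 0 < c := by positivity
  set K := G / τ + 4 * (G + 1) with hK
  have hK0 : 0 < K := by positivity
  refine ⟨max (((2 * M + 1 : ℕ) + 1) * W / (2 * c)) W, ?_⟩
  intro L hL ι _ D P h hi F o Lam hneedle hvol hLam hmain htv Bad1 Bad2 hBad1 hBad2 hbig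
  set T := h.toTL hi with hT
  set b := (Vb D P).ncard with hb
  obtain ⟨q, C⟩ := h.exists_cycle hi
  rw [← hb] at C
  have hL0 : 0 < L := by linarith
  have hWb : W < b := by
    have := lt_of_le_of_lt (le_max_right _ _) hbig
    exact_mod_cast this
  have hb1 : (((2 * M + 1 : ℕ) : ℝ) + 1) * W ≤ 2 * c * b := by
    have := lt_of_le_of_lt (le_max_left _ _) hbig
    rw [div_lt_iff₀ (by positivity)] at this
    linarith
  set nb := b / W with hnb
  have hnbW : nb * W ≤ b := Nat.div_mul_le_self b W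
  have hblock : ∀ β < nb, β * W + W ≤ b := by
    intro β hβ
    calc β * W + W = (β + 1) * W := by ring
      _ ≤ nb * W := Nat.mul_le_mul_right _ hβ
      _ ≤ b := hnbW
  -- caps
  have hcap : ∀ r, (volume (cap D (q r) (q (r + 1)))).toReal ≤ G := fun r =>
    h.cap_le hvol (C.side r)
  rw [C.sum_sides h hi] at hmain
  have hsumG : ∑ r ∈ Finset.range b, (volume (cap D (q r) (q (r + 1)))).toReal ≤ G * b := by
    calc ∑ r ∈ Finset.range b, (volume (cap D (q r) (q (r + 1)))).toReal
        ≤ ∑ r ∈ Finset.range b, G := Finset.sum_le_sum fun r _ => hcap r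
      _ = G * b := by rw [Finset.sum_const, Finset.card_range, nsmul_eq_mul]; ring
  have hb0 : 0 < b := by omega
  have hb0' : (0 : ℝ) < b := by exact_mod_cast hb0
  have hmain' : Lam + τ * b + 6 * τ ≤
      ∑ r ∈ Finset.range b, (volume (cap D (q r) (q (r + 1)))).toReal := hmain
  have hLamG : Lam ≤ G * b := by
    have : 0 ≤ τ * (b : ℝ) := by positivity
    linarith
  -- good sides
  set good : ℕ → ℕ := fun β => (goodSides τ D W (fun r => q (β * W + r))).card with hgood
  set g : ℕ → ℕ := fun r =>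
    if τ / 2 ≤ (volume (cap D (q r) (q (r + 1)))).toReal then 1 else 0 with hg
  have hgoodsum : ∀ β, good β = ∑ r ∈ Finset.range W, g (β * W + r) := by
    intro β
    simp only [hgood, hg, goodSides]
    rw [Finset.card_filter]
    rfl
  have hgoodW : ∀ β < nb, good β ≤ W := by
    intro β _
    simp only [hgood, goodSides]
    refine (Finset.card_filter_le _ _).trans ?_
    rw [Finset.card_range]
  have hkk : ∑ r ∈ Finset.range b, g r ≤ (∑ β ∈ Finset.range nb, good β) + W := by
    have h1 : b = nb * W + b % W := by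
      have := Nat.div_add_mod b W
      rw [mul_comm] at this
      exact this.symm
    conv_lhs => rw [h1]
    rw [Finset.sum_range_add, sum_blocks]
    have h2 : ∑ x ∈ Finset.range (b % W), g (nb * W + x) ≤ W := by
      calc ∑ x ∈ Finset.range (b % W), g (nb * W + x) ≤ ∑ x ∈ Finset.range (b % W), 1 := by
            refine Finset.sum_le_sum fun x _ => ?_
            simp only [hg]
            split_ifs <;> omega
        _ = b % W := by rw [Finset.sum_const, Finset.card_range, smul_eq_mul, mul_one]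
        _ ≤ W := (Nat.mod_lt _ (by omega)).le
    have h3 : ∑ β ∈ Finset.range nb, ∑ r ∈ Finset.range W, g (β * W + r) =
        ∑ β ∈ Finset.range nb, good β := Finset.sum_congr rfl fun β _ => (hgoodsum β).symm
    rw [h3]
    omega
  have hk : 4 * c * b ≤ (∑ β ∈ Finset.range nb, (good β : ℝ)) + W := by
    have h1 : ∑ r ∈ Finset.range b, (volume (cap D (q r) (q (r + 1)))).toReal ≤
        G * (∑ r ∈ Finset.range b, (g r : ℝ)) + τ / 2 * b := by
      have h2 : τ / 2 * b = ∑ r ∈ Finset.range b, τ / 2 := by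
        rw [Finset.sum_const, Finset.card_range, nsmul_eq_mul]; ring
      rw [h2, Finset.mul_sum, ← Finset.sum_add_distrib]
      refine Finset.sum_le_sum fun r _ => ?_
      simp only [hg]
      split_ifs with h3
      · have := hcap r
        push_cast
        linarith
      · push Not at h3
        push_cast
        linarith
    have h2 : (∑ r ∈ Finset.range b, (g r : ℝ)) ≤
        (∑ β ∈ Finset.range nb, (good β : ℝ)) + W := by exact_mod_cast hkk
    refine le_trans ?_ h2
    have h3 : τ / 2 * b ≤ G * (∑ r ∈ Finset.range b, (g r : ℝ)) := by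
      have : 0 ≤ Lam := hLam
      linarith
    have h4 : 4 * c * b = τ / 2 * b / G := by rw [hc]; field_simp; ring
    rw [h4, div_le_iff₀ hG]
    linarith
  -- excluded blocks
  set wide := (Finset.range nb).filter fun β => ∀ p ∈ convexHull ℝ (Vb D P),
      cr (q (β * W + W) - q (β * W)) (p - q (β * W)) ≤ 0 with hwide
  set nflat := (Finset.range nb).filter fun β => ∃ k, k + 1 < W ∧ ∃ j < 2 * M,
      cr (ray L (j * (Real.pi / M))) (q (β * W + k + 1) - q (β * W + k)) < 0 ∧
      0 ≤ cr (ray L (j * (Real.pi / M))) (q (β * W + k + 1 + 1) - q (β * W + k + 1)) with hnflat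
  have hwc : wide.card ≤ 1 := h.wide_card hi C hW hnbW hWb
  have hfc : nflat.card ≤ 2 * M := h.nonflat hi C hW hnbW
  have hEx : (wide ∪ nflat).card ≤ 2 * M + 1 := by
    refine (Finset.card_union_le _ _).trans ?_
    omega
  set Q := Finset.range nb \ (wide ∪ nflat) with hQ
  have hQb : ∀ β ∈ Q, β * W + W ≤ b := fun β hβ =>
    hblock β (Finset.mem_range.mp (Finset.mem_sdiff.mp hβ).1)
  have hQw : ∀ β ∈ Q, ¬ ∀ p ∈ convexHull ℝ (Vb D P),
      cr (q (β * W + W) - q (β * W)) (p - q (β * W)) ≤ 0 := by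
    intro β hβ h0
    rw [hQ, Finset.mem_sdiff, Finset.mem_union, not_or] at hβ
    exact hβ.2.1 (Finset.mem_filter.mpr ⟨hβ.1, h0⟩)
  -- costs
  set cost : ℕ → ℝ := fun β =>
    ((T.sideVerts W (fun r => q (β * W + r))).card : ℝ) +
    ((Bad1.filter fun s => Meets T (q (β * W)) (q (β * W + W)) s).card : ℝ) / C1 +
    ((Bad2.filter fun s => Meets T (q (β * W)) (q (β * W + W)) s).card : ℝ) / C2 with hcost
  have hC10 : 0 < C1 := by linarith
  have hC20 : 0 < C2 := by linarith
  have hcost0 : ∀ β, 0 ≤ cost β := by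
    intro β
    simp only [hcost]
    positivity
  have hcs : ∑ β ∈ Q, cost β ≤ K * b := by
    simp only [hcost]
    rw [Finset.sum_add_distrib, Finset.sum_add_distrib, ← Finset.sum_div, ← Finset.sum_div]
    have s1 : ∑ β ∈ Q, ((T.sideVerts W (fun r => q (β * W + r))).card : ℝ) ≤ G / τ * b := by
      have h1 := h.verts_sum hi C hW Q hQb
      have h2 : ∑ β ∈ Q, ((T.sideVerts W (fun r => q (β * W + r))).card : ℝ) ≤
          ((Tv D P).ncard : ℝ) := by exact_mod_cast h1
      refine h2.trans ?_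
      rw [div_mul_eq_mul_div, le_div_iff₀ hτ]
      linarith
    have s2 : (∑ β ∈ Q, ((Bad1.filter fun s => Meets T (q (β * W)) (q (β * W + W)) s).card : ℝ))
        / C1 ≤ 2 * (G + 1) * b := by
      have h1 := h.meets_sum hi C hW Q hQb hQw Bad1
      have h2 : (∑ β ∈ Q, ((Bad1.filter fun s =>
          Meets T (q (β * W)) (q (β * W + W)) s).card : ℝ)) ≤ 2 * (Bad1.card : ℝ) := by
        exact_mod_cast h1
      rw [div_le_iff₀ hC10]
      refine h2.trans ?_
      have h3 : C1 * (Lam + b) ≤ C1 * ((G + 1) * b) := by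
        apply mul_le_mul_of_nonneg_left _ hC10.le
        linarith
      linarith
    have s3 : (∑ β ∈ Q, ((Bad2.filter fun s => Meets T (q (β * W)) (q (β * W + W)) s).card : ℝ))
        / C2 ≤ 2 * (G + 1) * b := by
      have h1 := h.meets_sum hi C hW Q hQb hQw Bad2
      have h2 : (∑ β ∈ Q, ((Bad2.filter fun s =>
          Meets T (q (β * W)) (q (β * W + W)) s).card : ℝ)) ≤ 2 * (Bad2.card : ℝ) := by
        exact_mod_cast h1
      rw [div_le_iff₀ hC20]
      refine h2.trans ?_
      have h3 : C2 * (Lam + b) ≤ C2 * ((G + 1) * b) := by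
        apply mul_le_mul_of_nonneg_left _ hC20.le
        linarith
      linarith
    have h4 : K * b = G / τ * b + 2 * (G + 1) * b + 2 * (G + 1) * b := by rw [hK]; ring
    rw [h4]
    linarith
  obtain ⟨β, hβ, hβE, hβg, hβc⟩ := select_block hnbW good cost (wide ∪ nflat) hEx hc0 hK0 hgoodW
    hcost0 hk hcs hb0 hb1
  have hβQ : β ∈ Q := Finset.mem_sdiff.mpr ⟨Finset.mem_range.mpr hβ, hβE⟩
  have hβb := hQb β hβQ
  have hVD : convexHull ℝ (Vb D P) ⊆ D :=
    convexHull_min (fun x hx => h.sh_sub hx.1) h.convD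
  have hKA : K / c = 8 * G / τ * (G / τ + 4 * (G + 1)) := by
    rw [hc, ← hK]; field_simp
  refine ⟨fun r => q (β * W + r), ?_, ?_⟩
  · -- the block
    refine ⟨h.convD, hVD, hi, h.toTL_sharp hi, ?_, ?_, ?_, ?_, ?_, ?_, ?_, ?_⟩
    · intro i z hz z' hz'
      have h1 := C2305bH52.needle_sub (hneedle i (h.hull_sub i hz)) (hneedle i (h.hull_sub i hz'))
      have h2 : 2 * (R / 2) = R := by ring
      rw [h2] at h1
      exact h1
    · intro r _
      show q (β * W + r) ∈ h.M
      rw [h.mem_M]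
      have h1 : q (β * W + r) ∈ ⋃ i, S P i := by
        rw [h.union_S]
        exact Or.inr (C.mem _)
      exact mem_iUnion.mp h1
    · intro r _
      exact subset_convexHull ℝ _ (C.mem _)
    · intro r _
      exact (C.mem _).2.2
    · intro r _
      exact (C.side _).2.2.1
    · intro r _ z hz
      have h1 := (h.side_iff hi).mp (C.side (β * W + r))
      have h2 : z ∈ (h.sideTL hi).P () := by
        change z ∈ convexHull ℝ (h.vb_finite.toFinset : Set V)
        rw [Set.Finite.coe_toFinset]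
        exact hz
      exact h1.2.2.2.1 z h2
    · intro r _
      obtain ⟨k, hk1, hk2⟩ := h.cap_cell (C.side (β * W + r))
      refine ⟨F k, o k, ?_, ?_, ?_⟩
      · exact hneedle k (hk1 (left_mem_segment ℝ _ _))
      · exact hneedle k (hk1 (right_mem_segment ℝ _ _))
      · exact hk2.trans (hneedle k)
    · intro r hr r' hr'
      have key := sector_of_no_mark (W := W) hL0 hM
        (e := fun k => q (β * W + k + 1) - q (β * W + k)) (by
          intro k _
          exact sub_ne_zero.mpr (C.side _).2.2.1) (by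
          intro k _
          exact (h.sideTL hi).turn_nonneg ((h.side_iff hi).mp (C.side (β * W + k)))
            ((h.side_iff hi).mp (C.side (β * W + k + 1)))) (by
          intro k hk j hj h0
          rw [Finset.mem_union, not_or] at hβE
          apply hβE.2
          rw [hnflat, Finset.mem_filter]
          exact ⟨Finset.mem_range.mpr hβ, k, hk, j, hj, h0⟩) hr hr'
      exact key
  · -- the costs
    have hcostβ : cost β ≤ 8 * G / τ * (G / τ + 4 * (G + 1)) * W := by
      rw [← hKA]; exact hβc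
    simp only [hcost] at hcostβ
    have t1 : (0 : ℝ) ≤ ((T.sideVerts W (fun r => q (β * W + r))).card : ℝ) := Nat.cast_nonneg _
    have t2 : (0 : ℝ) ≤ ((Bad1.filter fun s =>
        Meets T (q (β * W)) (q (β * W + W)) s).card : ℝ) / C1 := by positivity
    have t3 : (0 : ℝ) ≤ ((Bad2.filter fun s =>
        Meets T (q (β * W)) (q (β * W + W)) s).card : ℝ) / C2 := by positivity
    refine ⟨hβg, by linarith, ?_, ?_⟩
    · have h1 : ((Bad1.filter fun s => Meets T (q (β * W)) (q (β * W + W)) s).card : ℝ) / C1 ≤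
          8 * G / τ * (G / τ + 4 * (G + 1)) * W := by linarith
      rw [div_le_iff₀ hC10] at h1
      calc _ ≤ 8 * G / τ * (G / τ + 4 * (G + 1)) * W * C1 := h1
        _ = _ := by ring
    · have h1 : ((Bad2.filter fun s => Meets T (q (β * W)) (q (β * W + W)) s).card : ℝ) / C2 ≤
          8 * G / τ * (G / τ + 4 * (G + 1)) * W := by linarith
      rw [div_le_iff₀ hC20] at h1
      calc _ ≤ 8 * G / τ * (G / τ + 4 * (G + 1)) * W * C2 := h1
        _ = _ := by ring

/-- **Selection of a block.** -/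
theorem exists_block {R τ G a : ℝ} (hR : 1 ≤ R) (hτ : 0 < τ) (hG : 0 < G) (W M : ℕ)
    (hW : 1 ≤ W) (hM : 3 ≤ M) {C1 C2 : ℝ} (hC1 : 1 ≤ C1) (hC2 : 1 ≤ C2) (κ κ' L1 : ℝ) :
    ∃ B0 : ℝ, ∀ (L : ℝ), 1 ≤ L → ∀ (ι : Type) [Fintype ι] (D : Set V) (P : ι → Set V)
      (h : Tiling D P) (hi : (interior (convexHull ℝ (Vb D P))).Nonempty) (F : ι → Fr)
      (o : ι → V) (Lam : ℝ),
      (∀ i, P i ⊆ needle L (F i) (o i) (R / 2)) →
      (∀ i, (volume (P i)).toReal ≤ G) →
      0 ≤ Lam →
      Lam + τ * (Vb D P).ncard + 6 * τ ≤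
        ∑ p ∈ h.sides hi, (volume (cap D p.1 p.2)).toReal →
      τ * (Tv D P).ncard ≤ Lam →
      (L1 ≤ L → ∃ Bad : Finset ({i : ι // (interior (convexHull ℝ (S P i))).Nonempty} ×
          {i : ι // (interior (convexHull ℝ (S P i))).Nonempty}),
        (Bad.card : ℝ) ≤ C1 * (Lam + (Vb D P).ncard) ∧
        ∀ i j v w, (h.toTL hi).Tw i j v w → (i, j) ∉ Bad →
          mis L (F i) (F j) ≤ κ ∧ ((h.toTL hi).edges i).card ≤ 6 ∧
            a ≤ (volume ((h.toTL hi).P i)).toReal) →
      (L1 ≤ L → ∃ Bad : Finset ({i : ι // (interior (convexHull ℝ (S P i))).Nonempty} ×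
          {i : ι // (interior (convexHull ℝ (S P i))).Nonempty}),
        (Bad.card : ℝ) ≤ C2 * (Lam + (Vb D P).ncard) ∧
        ∀ i j v w, (h.toTL hi).Tw i j v w → (i, j) ∉ Bad → mis L (F i) (F j) ≤ κ') →
      B0 < ((Vb D P).ncard : ℝ) →
      ∃ q : ℕ → V,
        Blk L R (Real.tan (Real.pi / M)) (h.toTL hi) D (fun i => F i) W q ∧
        Cost L τ a κ κ' (τ / (8 * G)) (8 * G / τ * (G / τ + 4 * (G + 1))) C1 C2 L1
          (h.toTL hi) D (fun i => F i) W q := by
  classical
  obtain ⟨B0, hB0⟩ := sel_block hR hτ hG W M hW hM hC1 hC2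
  refine ⟨B0, ?_⟩
  intro L hL ι _ D P h hi F o Lam hneedle hvol hLam hmain htv hB1 hB2 hbig
  obtain ⟨Bad1, Bad2, hBad1, hBad2, hLv⟩ : ∃ Bad1 Bad2 :
      Finset ({i : ι // (interior (convexHull ℝ (S P i))).Nonempty} ×
          {i : ι // (interior (convexHull ℝ (S P i))).Nonempty}),
      (Bad1.card : ℝ) ≤ C1 * (Lam + (Vb D P).ncard) ∧
      (Bad2.card : ℝ) ≤ C2 * (Lam + (Vb D P).ncard) ∧
      (L1 ≤ L → Lvl1 L κ a (h.toTL hi) (fun i => F i) Bad1 ∧
        Lvl2 L κ' (h.toTL hi) (fun i => F i) Bad2) := by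
    by_cases hLL : L1 ≤ L
    · obtain ⟨Bad1, h1, h2⟩ := hB1 hLL
      obtain ⟨Bad2, h3, h4⟩ := hB2 hLL
      exact ⟨Bad1, Bad2, h1, h3, fun _ => ⟨h2, h4⟩⟩
    · refine ⟨∅, ∅, ?_, ?_, fun h0 => absurd h0 hLL⟩
      · rw [Finset.card_empty, Nat.cast_zero]; positivity
      · rw [Finset.card_empty, Nat.cast_zero]; positivity
  obtain ⟨q, hq, h1, h2, h3, h4⟩ := hB0 L hL ι D P h hi F o Lam hneedle hvol hLam hmain htv
    Bad1 Bad2 hBad1 hBad2 hbig
  exact ⟨q, hq, h1, h2, fun hLL => ⟨Bad1, Bad2, (hLv hLL).1, (hLv hLL).2, h3, h4⟩⟩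

end W82
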