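import Pool.Agent.W82_c2305b.Partition

/-!
Partition lemma with the noncrossing hypothesis of the problem.
-/

open Set Module

namespace W82

/-- Noncrossing in the sense of the problem: both differences are connected (or empty). -/
def Noncrossing (A B : Set V) : Prop := IsPreconnected (A \ B) ∧ IsPreconnected (B \ A)

/-- **Partition lemma**, compact version with the hypothesis of the problem. -/
theorem partition_noncrossing {ι : Type*} [Finite ι] {K : ι → Set V}
    (hconv : ∀ i, Convex ℝ (K i)) (hcomp : ∀ i, IsCompact (K i))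
    (hint : ∀ i, (interior (K i)).Nonempty)
    (hnc : ∀ i j, i ≠ j → Noncrossing (K i) (K j)) {D : Set V} (hD : Convex ℝ D)
    (hDc : IsCompact D) (hDi : (interior D).Nonempty) (hcov : D ⊆ ⋃ i, K i) :
    ∃ (J : Set ι) (P : ι → Set V) (f : ι → ι → V →L[ℝ] ℝ) (c : ι → ι → ℝ),
      (∀ i ∈ J, ∀ j ∈ J, i ≠ j → f i j ≠ 0 ∧ f j i = - f i j ∧ c j i = - c i j) ∧
      (∀ i ∈ J, P i = {x | x ∈ D ∧ ∀ j ∈ J, i ≠ j → f i j x ≤ c i j}) ∧
      (∀ i ∈ J, P i ⊆ K i) ∧ (∀ i ∈ J, (interior (P i)).Nonempty) ∧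
      D = ⋃ i ∈ J, P i :=
  partition hconv (fun i => (hcomp i).isClosed) hint
    (fun i j hij => not_cross_of_isPreconnected (hconv i) (hconv j) (hnc i j hij).1)
    hD hDc.isClosed hDi hcov

end W82
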