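import Pool.Agent.W82_c2305b.Rigid
import Pool.Agent.W_c2305b_h73.Top

/-!
The gap hypothesis and the losses of the cells.
-/

open Set Module Topology Filter MeasureTheory
open scoped Pointwise

namespace W82

open C2305b.TL (cr)
open C2305bH68.Ord (Corners)

/-- Gap hypothesis: polygons with `m ≠ 6` corners in `K0` lie below the line through `T6` with
slope `τ`, with a margin `g`. -/
structure Gap (K0 : Set V) (T6 τ g : ℝ) : Prop where
  tau : 0 < τ
  pos : 0 < g
  ne6 : ∀ S : Finset V, (S : Set V) ⊆ K0 → Corners S → S.card ≠ 6 →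
    (volume (convexHull ℝ (S : Set V))).toReal ≤ T6 + τ * ((S.card : ℝ) - 6) - g

theorem corners_image {S : Finset V} (L : V →ₗ[ℝ] V) (o : V)
    (hinj : Function.Injective L) (f : V → V) (hf : ∀ p, f p = o + L p) {Y : Finset V}
    (hY : S = Y.map ⟨f, fun x y hxy => hinj (by
      rw [hf, hf] at hxy; exact add_left_cancel hxy)⟩) (h : Corners S) : Corners Y := by
  intro p hp hcon
  have hfa : ∃ F : V →ᵃ[ℝ] V, ∀ p, F p = f p :=
    ⟨AffineMap.const ℝ V o + L.toAffineMap, fun p => by rw [hf]; simp⟩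
  obtain ⟨F, hF⟩ := hfa
  have hfp : f p ∈ S := by
    rw [hY, Finset.mem_map]
    exact ⟨p, hp, rfl⟩
  apply h (f p) hfp
  have h1 : F p ∈ F '' convexHull ℝ ((Y : Set V) \ {p}) := mem_image_of_mem _ hcon
  rw [AffineMap.image_convexHull] at h1
  rw [← hF]
  refine convexHull_mono ?_ h1
  rintro _ ⟨y, ⟨hy, hyp⟩, rfl⟩
  refine ⟨?_, ?_⟩
  · rw [hY, Finset.coe_map]
    exact ⟨y, hy, (hF y).symm⟩
  · intro h2
    apply hyp
    have h3 : F y = F p := h2
    rw [hF, hF, hf, hf] at h3
    exact hinj (add_left_cancel h3)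

/-- The gap inequality in an affine image of `K0`. -/
theorem Gap.affine {K0 : Set V} {T6 τ g : ℝ} (hG : Gap K0 T6 τ g) (L : V →ₗ[ℝ] V)
    (hdet : LinearMap.det L ≠ 0) (o : V) {S : Finset V} (hS : ∀ p ∈ S, ∃ y ∈ K0, p = o + L y)
    (hcor : Corners S) (hcard : S.card ≠ 6) {G : ℝ} (hK0c : Convex ℝ K0)
    (hG0 : volume K0 ≤ ENNReal.ofReal G) (hGnn : 0 ≤ G) :
    (volume (convexHull ℝ (S : Set V))).toReal ≤
      |LinearMap.det L| * min G (T6 + τ * ((S.card : ℝ) - 6) - g) := by
  classical
  have hinj : Function.Injective L := by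
    have := (LinearMap.equivOfDetNeZero L hdet).injective
    exact this
  let f : V → V := fun p => o + L p
  have hfinj : Function.Injective f := fun x y hxy => hinj (add_left_cancel hxy)
  choose! y hyK hyS using hS
  let Y : Finset V := S.image y
  have hYS : S = Y.map ⟨f, hfinj⟩ := by
    ext p
    rw [Finset.mem_map]
    constructor
    · intro hp
      exact ⟨y p, Finset.mem_image_of_mem _ hp, (hyS p hp).symm⟩
    · rintro ⟨z, hz, rfl⟩
      obtain ⟨p, hp, rfl⟩ := Finset.mem_image.mp hz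
      have : f (y p) = p := (hyS p hp).symm
      change f (y p) ∈ S
      rw [this]
      exact hp
  have hYcard : Y.card = S.card := by
    rw [hYS, Finset.card_map]
  have hYK : (Y : Set V) ⊆ K0 := by
    intro z hz
    have hz' : z ∈ Y := hz
    obtain ⟨p, hp, rfl⟩ := Finset.mem_image.mp hz'
    exact hyK p hp
  have hYcor : Corners Y := corners_image L o hinj f (fun _ => rfl) hYS hcor
  have hfa : ∃ F : V →ᵃ[ℝ] V, ∀ p, F p = f p :=
    ⟨AffineMap.const ℝ V o + L.toAffineMap, fun p => by simp [f]⟩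
  obtain ⟨F, hF⟩ := hfa
  have hhull : convexHull ℝ (S : Set V) = (fun p => o + L p) '' convexHull ℝ (Y : Set V) := by
    have h1 : (S : Set V) = F '' (Y : Set V) := by
      rw [hYS, Finset.coe_map]
      apply image_congr
      intro z _
      exact (hF z).symm
    rw [h1, ← AffineMap.image_convexHull]
    apply image_congr
    intro z _
    exact hF z
  rw [hhull, C2305b.volume_affine, ENNReal.toReal_mul, ENNReal.toReal_ofReal (abs_nonneg _)]
  refine mul_le_mul_of_nonneg_left (le_min ?_ ?_) (abs_nonneg _)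
  · have h1 : volume (convexHull ℝ (Y : Set V)) ≤ ENNReal.ofReal G :=
      (measure_mono (convexHull_min hYK hK0c)).trans hG0
    calc (volume (convexHull ℝ (Y : Set V))).toReal ≤ (ENNReal.ofReal G).toReal :=
          ENNReal.toReal_mono ENNReal.ofReal_ne_top h1
      _ = G := ENNReal.toReal_ofReal hGnn
  · have := hG.ne6 Y hYK hYcor (by rw [hYcard]; exact hcard)
    rwa [hYcard] at this

variable {ι : Type*} {D : Set V} {P : ι → Set V}

/-- The cells lie in equiaffine copies of `K`. -/
def Copies (P : ι → Set V) (K : Set V) : Prop :=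
  ∀ i, ∃ (o : V) (L : V →ₗ[ℝ] V), |LinearMap.det L| = 1 ∧ ∀ p ∈ P i, ∃ y ∈ K, p = o + L y

/-- Properties of the losses. -/
theorem Tiling.losses [Finite ι] (h : Tiling D P) {K K0 : Set V} {T6 τ g ε G : ℝ}
    (hG : Gap K0 T6 τ g) (hK0c : Convex ℝ K0) (hG0 : volume K0 ≤ ENNReal.ofReal G)
    (hGnn : 0 ≤ G) (hε : 0 ≤ ε) (hε1 : ε ≤ 1) (hεG : 3 * ε * G ≤ g / 2)
    (hK : K ⊆ (1 + ε) • K0) (hcop : Copies P K) {A6 : ℝ} (hT : T6 ≤ A6) (hA0 : 0 ≤ A6)
    (hA6 : C2305b.t6 K = ENNReal.ofReal A6) :
    (∀ i, 0 ≤ lossOf P A6 τ i) ∧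
    (∀ i, (S P i).ncard ≠ 6 → g / 2 ≤ lossOf P A6 τ i) ∧
    (∀ i, ((S P i).ncard : ℝ) ≤ (6 + 4 * G / τ) + lossOf P A6 τ i / τ) ∧
    (∀ i, (volume (P i)).toReal ≤ 4 * G) := by
  have hτ := hG.tau
  have hg := hG.pos
  -- area of the cells
  have hvolK : volume K ≤ ENNReal.ofReal (4 * G) := by
    refine (measure_mono hK).trans ?_
    rw [C2305b.volume_smul_set]
    calc ENNReal.ofReal ((1 + ε) ^ 2) * volume K0
        ≤ ENNReal.ofReal ((1 + ε) ^ 2) * ENNReal.ofReal G := by gcongr
      _ = ENNReal.ofReal ((1 + ε) ^ 2 * G) := by rw [ENNReal.ofReal_mul (by positivity)]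
      _ ≤ ENNReal.ofReal (4 * G) := by
          apply ENNReal.ofReal_le_ofReal
          apply mul_le_mul_of_nonneg_right _ hGnn
          nlinarith
  have hvolP : ∀ i, volume (P i) ≤ ENNReal.ofReal (4 * G) := by
    intro i
    obtain ⟨o, L, hL, hLP⟩ := hcop i
    have hsub : P i ⊆ (fun p => o + L p) '' K := by
      intro p hp
      obtain ⟨y, hy, rfl⟩ := hLP p hp
      exact ⟨y, hy, rfl⟩
    refine (measure_mono hsub).trans ?_
    rw [C2305b.volume_affine, hL, ENNReal.ofReal_one, one_mul]
    exact hvolK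
  have hvolP' : ∀ i, (volume (P i)).toReal ≤ 4 * G := by
    intro i
    calc (volume (P i)).toReal ≤ (ENNReal.ofReal (4 * G)).toReal :=
          ENNReal.toReal_mono ENNReal.ofReal_ne_top (hvolP i)
      _ = 4 * G := ENNReal.toReal_ofReal (by positivity)
  have hvolS : ∀ i, (volume (convexHull ℝ (S P i))).toReal ≤ 4 * G := by
    intro i
    exact (ENNReal.toReal_mono (h.comp i).measure_lt_top.ne
      (measure_mono (h.hull_sub i))).trans (hvolP' i)
  -- six corners
  have h6 : ∀ i, (S P i).ncard = 6 → (volume (convexHull ℝ (S P i))).toReal ≤ A6 := by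
    intro i hi
    obtain ⟨o, L, hL, hLP⟩ := hcop i
    have hcardf : (h.S_finite i).toFinset.card = 6 := by
      rw [← Set.ncard_eq_toFinset_card _ (h.S_finite i)]; exact hi
    let e := (Finset.equivFinOfCardEq hcardf).symm
    let q : Fin 6 → V := fun k => (e k : V)
    have hq : range q = S P i := by
      ext x
      constructor
      · rintro ⟨k, rfl⟩
        have := (e k).2
        rw [Set.Finite.mem_toFinset] at this
        exact this
      · intro hx
        have hx' : x ∈ (h.S_finite i).toFinset := by rw [Set.Finite.mem_toFinset]; exact hx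
        refine ⟨e.symm ⟨x, hx'⟩, ?_⟩
        simp [q]
    have hle : volume (convexHull ℝ (S P i)) ≤ C2305b.t6 K := by
      rw [← hq]
      have h1 : ∀ k, q k ∈ (fun p => o + L p) '' K := by
        intro k
        have h2 : q k ∈ S P i := by rw [← hq]; exact mem_range_self k
        obtain ⟨y, hy, hyq⟩ := hLP (q k) h2.1.1
        exact ⟨y, hy, hyq.symm⟩
      refine (C2305b.le_t6 h1).trans ?_
      rw [C2305b.t6_affine, hL, ENNReal.ofReal_one, one_mul]
    rw [hA6] at hle
    calc (volume (convexHull ℝ (S P i))).toReal ≤ (ENNReal.ofReal A6).toReal :=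
          ENNReal.toReal_mono ENNReal.ofReal_ne_top hle
      _ = A6 := ENNReal.toReal_ofReal hA0
  -- other numbers of corners
  have hne6 : ∀ i, (S P i).ncard ≠ 6 → g / 2 ≤ lossOf P A6 τ i := by
    intro i hi
    obtain ⟨o, L, hL, hLP⟩ := hcop i
    set Sf := (h.S_finite i).toFinset with hSf
    have hco : (Sf : Set V) = S P i := Set.Finite.coe_toFinset _
    have hcard : Sf.card = (S P i).ncard := (Set.ncard_eq_toFinset_card _ (h.S_finite i)).symm
    have hdet : LinearMap.det (((1 + ε) : ℝ) • L) = (1 + ε) ^ 2 * LinearMap.det L := by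
      rw [LinearMap.det_smul]
      simp
    have hLne : LinearMap.det L ≠ 0 := by
      intro h0
      rw [h0, abs_zero] at hL
      exact zero_ne_one hL
    have habs : |LinearMap.det (((1 + ε) : ℝ) • L)| = (1 + ε) ^ 2 := by
      rw [hdet, abs_mul, hL, mul_one, abs_of_nonneg (by positivity)]
    have h1 := hG.affine (((1 + ε) : ℝ) • L) (by
      rw [hdet]; exact mul_ne_zero (by positivity) hLne) o (S := Sf) (by
        intro p hp
        rw [hSf, Set.Finite.mem_toFinset] at hp
        obtain ⟨y, hy, rfl⟩ := hLP p hp.1.1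
        obtain ⟨z, hz, hzy⟩ := hK hy
        refine ⟨z, hz, ?_⟩
        have hzy' : (1 + ε) • z = y := hzy
        rw [← hzy', map_smul]
        simp) (h.corners i) (by rw [hcard]; exact hi) hK0c hG0 hGnn
    rw [hco, habs, hcard] at h1
    rw [lossOf]
    set x := T6 + τ * (((S P i).ncard : ℝ) - 6) - g with hx
    have h2 : (1 + ε) ^ 2 * min G x ≤ min G x + 3 * ε * G := by
      have h3 : min G x ≤ G := min_le_left _ _
      have h4 : (1 + ε) ^ 2 * min G x = min G x + (2 * ε + ε ^ 2) * min G x := by ring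
      rw [h4]
      have h5 : (2 * ε + ε ^ 2) * min G x ≤ (2 * ε + ε ^ 2) * G :=
        mul_le_mul_of_nonneg_left h3 (by positivity)
      have h6 : (2 * ε + ε ^ 2) * G ≤ 3 * ε * G := by
        apply mul_le_mul_of_nonneg_right _ hGnn
        nlinarith
      linarith
    have h3 : min G x ≤ x := min_le_right _ _
    linarith
  refine ⟨?_, hne6, ?_, hvolP'⟩
  · intro i
    by_cases hi : (S P i).ncard = 6
    · rw [lossOf, hi]
      have := h6 i hi
      push_cast
      linarith
    · have := hne6 i hi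
      linarith
  · intro i
    have h1 := hvolS i
    have h2 : τ * ((S P i).ncard : ℝ) ≤ 6 * τ + 4 * G + lossOf P A6 τ i := by
      rw [lossOf]
      linarith
    have h3 : ((S P i).ncard : ℝ) ≤ (6 * τ + 4 * G + lossOf P A6 τ i) / τ := by
      rw [le_div_iff₀ hτ]
      linarith
    refine h3.trans (le_of_eq ?_)
    field_simp

end W82
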