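import Pool.Agent.W_c2305b_h35.Flux

/-!
# MP_c2305b_co, ALLFAT: directions modulo `π`
-/

open Set Module

namespace C2305bAF

open C2305b.TL

/-- The direction of a vector modulo `π`. -/
noncomputable def dr (x : V) : AddCircle Real.pi :=
  ((Complex.arg ⟨x 0, x 1⟩ : ℝ) : AddCircle Real.pi)

theorem coe_eq_iff {a b : ℝ} :
    (a : AddCircle Real.pi) = (b : AddCircle Real.pi) ↔ Real.sin (a - b) = 0 := by
  rw [← sub_eq_zero, ← AddCircle.coe_sub, AddCircle.coe_eq_zero_iff, Real.sin_eq_zero_iff]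
  simp only [zsmul_eq_mul]

theorem coord {x : V} :
    x 0 = ‖(⟨x 0, x 1⟩ : ℂ)‖ * Real.cos (Complex.arg ⟨x 0, x 1⟩) ∧
      x 1 = ‖(⟨x 0, x 1⟩ : ℂ)‖ * Real.sin (Complex.arg ⟨x 0, x 1⟩) := by
  constructor
  · rw [Complex.norm_mul_cos_arg]
  · rw [Complex.norm_mul_sin_arg]

theorem norm_pos {x : V} (hx : x ≠ 0) : 0 < ‖(⟨x 0, x 1⟩ : ℂ)‖ := by
  rw [norm_pos_iff]
  intro h0
  apply hx
  ext i
  fin_cases i
  · exact congrArg Complex.re h0
  · exact congrArg Complex.im h0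

/-- The master lemma. -/
theorem dr_iff {A b : V} (hA : A ≠ 0) (hb : b ≠ 0) (θ : ℝ) :
    dr b = dr A + (θ : AddCircle Real.pi) ↔ Real.sin θ * dt A b = Real.cos θ * cr A b := by
  unfold dr
  rw [← AddCircle.coe_add, coe_eq_iff]
  obtain ⟨a0, a1⟩ := coord (x := A)
  obtain ⟨b0, b1⟩ := coord (x := b)
  have hr := norm_pos hA
  have hs := norm_pos hb
  set r := ‖(⟨A 0, A 1⟩ : ℂ)‖
  set s := ‖(⟨b 0, b 1⟩ : ℂ)‖
  set α := Complex.arg ⟨A 0, A 1⟩
  set β := Complex.arg ⟨b 0, b 1⟩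
  have e : Real.sin θ * dt A b - Real.cos θ * cr A b = - (r * s) * Real.sin (β - (α + θ)) := by
    unfold dt cr
    rw [a0, a1, b0, b1, Real.sin_sub, Real.sin_add, Real.cos_add]
    ring
  constructor
  · intro h
    rw [h, mul_zero] at e
    linarith
  · intro h
    rw [h, sub_self] at e
    have := mul_pos hr hs
    rcases mul_eq_zero.mp e.symm with h1 | h1
    · linarith
    · exact h1

theorem dr_neg (x : V) : dr (-x) = dr x := by
  by_cases hx : x = 0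
  · rw [hx, neg_zero]
  have h := (dr_iff hx (neg_ne_zero.mpr hx) 0).2 (by
    rw [Real.sin_zero, Real.cos_zero, cr_neg_right, cr_self]; ring)
  rw [h]
  simp

theorem dr_smul {c : ℝ} (hc : c ≠ 0) (x : V) : dr (c • x) = dr x := by
  by_cases hx : x = 0
  · rw [hx, smul_zero]
  have h := (dr_iff hx (smul_ne_zero hc hx) 0).2 (by
    rw [Real.sin_zero, Real.cos_zero, cr_smul_right, cr_self]; ring)
  rw [h]
  simp

theorem dr_arctan {A b : V} (h : dt A b ≠ 0) :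
    dr b = dr A + ((Real.arctan (cr A b / dt A b) : ℝ) : AddCircle Real.pi) := by
  have hA : A ≠ 0 := by rintro rfl; exact h (by simp [dt])
  have hb : b ≠ 0 := by rintro rfl; exact h (by simp [dt])
  rw [dr_iff hA hb]
  have h1 := Real.tan_arctan (cr A b / dt A b)
  have h2 : Real.cos (Real.arctan (cr A b / dt A b)) ≠ 0 := (Real.cos_arctan_pos _).ne'
  rw [Real.tan_eq_sin_div_cos, div_eq_div_iff h2 h] at h1
  rw [h1]; ring

/-- The angle of the frame. -/
theorem exists_phi (U W : V) (hU : U ≠ 0) (hW : W ≠ 0) : ∃ φ : ℝ, 0 ≤ φ ∧ φ < Real.pi ∧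
    ∀ (s : ℝ) (A B : V), (s = 1 ∨ s = -1) → A ≠ 0 → B ≠ 0 → dt A B = dt U W →
      cr A B = s * cr U W → dr B = dr A + ((s * φ : ℝ) : AddCircle Real.pi) := by
  have : Fact (0 < Real.pi) := ⟨Real.pi_pos⟩
  obtain ⟨φ, hφ, he⟩ : ∃ φ ∈ Ico (0 : ℝ) (0 + Real.pi),
      (φ : AddCircle Real.pi) = dr W - dr U := by
    have := AddCircle.coe_image_Ico_eq Real.pi 0
    have h2 : dr W - dr U ∈ ((↑) : ℝ → AddCircle Real.pi) '' Ico 0 (0 + Real.pi) := by
      rw [this]; exact mem_univ _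
    exact h2
  rw [zero_add] at hφ
  refine ⟨φ, hφ.1, hφ.2, fun s A B hs hA hB h1 h2 => ?_⟩
  have h3 : dr W = dr U + (φ : AddCircle Real.pi) := by rw [he]; abel
  rw [dr_iff hU hW] at h3
  rw [dr_iff hA hB, h1, h2]
  rcases hs with rfl | rfl
  · rw [one_mul, one_mul]; exact h3
  · rw [neg_one_mul, neg_one_mul, Real.sin_neg, Real.cos_neg]
    linarith

end C2305bAF
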