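import Pool.Agent.W82_c2305b.AF1

/-!
# MP_c2305b_co, ALLFAT: the vertex equation and the cluster equation
-/

open Set Module

namespace C2305bAF

open C2305b.TL

theorem coe_sum {α : Type*} (S : Finset α) (f : α → ℝ) :
    ((∑ x ∈ S, f x : ℝ) : AddCircle Real.pi) = ∑ x ∈ S, ((f x : ℝ) : AddCircle Real.pi) :=
  map_sum (QuotientAddGroup.mk' (AddSubgroup.zmultiples Real.pi)) f S

section

variable {J : Type*} [Fintype J] (T : Tiling J) {M : Type*} [AddCommGroup M]

/-- The edges of a tile, summed with a function which is odd under reversal. -/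
theorem sum_odd (ψ : V × V → M) (h : ∀ p, ψ p.swap = - ψ p) :
    ∑ i, ∑ p ∈ T.inEdges i, ψ p = 0 := by
  classical
  let _ : LinearOrder J := LinearOrder.lift' (Fintype.equivFin J) (Equiv.injective _)
  rw [T.sum_all_inEdges (fun _ => ψ)]
  refine Finset.sum_eq_zero fun i _ => Finset.sum_eq_zero fun j _ =>
    Finset.sum_eq_zero fun p _ => ?_
  rw [h, add_neg_cancel]

open Classical in
/-- Value at the start of an edge. -/
noncomputable def av (d t : V → M) (p : V × V) : M := if T.Bd p.1 p.2 then t p.1 else d (p.2 - p.1)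

open Classical in
/-- Value at the end of an edge. -/
noncomputable def bv (d t : V → M) (p : V × V) : M := if T.Bd p.1 p.2 then t p.2 else d (p.2 - p.1)

/-- **Vertex equation.** -/
theorem vertex_eq (d t : V → M) (hd : ∀ x, d (-x) = d x) (g : V → ℤ) :
    ∑ i, ∑ p ∈ T.edges i, (g p.1 • av T d t p - g p.2 • bv T d t p) = 0 := by
  classical
  have h1 : ∀ i, ∑ p ∈ T.edges i, (g p.1 • t p.1 - g p.2 • t p.2) = 0 := by
    intro i
    have := T.sum_edges_sub i (fun v => - (g v • t v))
    rw [← this]
    exact Finset.sum_congr rfl fun p _ => by abel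
  have h2 : ∀ i, ∑ p ∈ T.edges i, (g p.1 • av T d t p - g p.2 • bv T d t p) =
      ∑ p ∈ T.inEdges i,
        (g p.1 • (d (p.2 - p.1) - t p.1) - g p.2 • (d (p.2 - p.1) - t p.2)) := by
    intro i
    rw [← sub_zero (∑ p ∈ T.edges i, (g p.1 • av T d t p - g p.2 • bv T d t p)), ← h1 i,
      ← Finset.sum_sub_distrib, T.sum_edges_split]
    have e1 : ∑ p ∈ T.bdEdges i, (g p.1 • av T d t p - g p.2 • bv T d t p -
        (g p.1 • t p.1 - g p.2 • t p.2)) = 0 := by
      refine Finset.sum_eq_zero fun p hp => ?_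
      have hb : T.Bd p.1 p.2 := (Finset.mem_filter.mp hp).2
      rw [av, bv, if_pos hb, if_pos hb, sub_self]
    rw [e1, zero_add]
    refine Finset.sum_congr rfl fun p hp => ?_
    have hb : ¬ T.Bd p.1 p.2 := (Finset.mem_filter.mp hp).2
    rw [av, bv, if_neg hb, if_neg hb, smul_sub, smul_sub]
    abel
  simp only [h2]
  refine sum_odd T (fun p => g p.1 • (d (p.2 - p.1) - t p.1) - g p.2 • (d (p.2 - p.1) - t p.2)) ?_
  intro p
  simp only [Prod.fst_swap, Prod.snd_swap]
  rw [show p.1 - p.2 = -(p.2 - p.1) by abel, hd]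
  abel

end

section

variable {J : Type*} [Fintype J] (T : Tiling J)

open Classical in
/-- Indicator. -/
noncomputable def ind (C : Finset V) (v : V) : ℤ := if v ∈ C then 1 else 0

theorem ind_pos {C : Finset V} {v : V} (h : v ∈ C) : ind C v = 1 := by
  classical
  exact if_pos h

theorem ind_neg {C : Finset V} {v : V} (h : v ∉ C) : ind C v = 0 := by
  classical
  exact if_neg h

open Classical in
/-- The number of sides of the second class leaving `C` minus the number entering `C`. -/
noncomputable def deg (sh : V × V → Prop) (s : J → ℤ) (κ : J → V × V → ℤ) (C : Finset V) : ℤ :=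
  ∑ i, s i * ∑ p ∈ (T.edges i).filter (fun p => ¬ sh p), κ i p * (ind C p.1 - ind C p.2)

open Classical in
/-- The sum of the leans. -/
noncomputable def lns (sh : V × V → Prop) (la lb : J → V × V → ℝ) (C : Finset V) : ℝ :=
  ∑ i, ∑ p ∈ (T.edges i).filter (fun p => ¬ sh p),
    ((ind C p.1 : ℝ) * la i p - (ind C p.2 : ℝ) * lb i p)

open Classical in
/-- The turning of the short boundary edges in `C`. -/
noncomputable def trn (sh : V × V → Prop) (τ : V × V → ℝ) (C : Finset V) : ℝ :=
  ∑ i, ∑ p ∈ (T.edges i).filter (fun p => sh p), if T.Bd p.1 p.2 then (ind C p.1 : ℝ) * τ p else 0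

/-- **Cluster equation.** -/
theorem cluster_eq (t : V → AddCircle Real.pi) (sh : V × V → Prop) (C : Finset V)
    (hsh : ∀ i, ∀ p ∈ T.edges i, sh p → (p.1 ∈ C ↔ p.2 ∈ C))
    (θ : J → AddCircle Real.pi) (s : J → ℤ) (κ : J → V × V → ℤ) (la lb : J → V × V → ℝ)
    (τ : V × V → ℝ) (φ : ℝ)
    (ha : ∀ i, ∀ p ∈ T.edges i, ¬ sh p → p.1 ∈ C →
      av T dr t p = θ i + ((s i * κ i p * φ : ℝ) : AddCircle Real.pi) +
        ((la i p : ℝ) : AddCircle Real.pi))
    (hb : ∀ i, ∀ p ∈ T.edges i, ¬ sh p → p.2 ∈ C →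
      bv T dr t p = θ i + ((s i * κ i p * φ : ℝ) : AddCircle Real.pi) +
        ((lb i p : ℝ) : AddCircle Real.pi))
    (hτ : ∀ i, ∀ p ∈ T.edges i, sh p → T.Bd p.1 p.2 → p.1 ∈ C →
      t p.2 = t p.1 + ((τ p : ℝ) : AddCircle Real.pi)) :
    ∃ m : ℤ, Real.pi * m = φ * deg T sh s κ C + (lns T sh la lb C - trn T sh τ C) := by
  classical
  have h0 := vertex_eq T dr t dr_neg (ind C)
  have hi : ∀ i, ∑ p ∈ T.edges i, (ind C p.1 • av T dr t p - ind C p.2 • bv T dr t p) =
      ((φ * (s i * ∑ p ∈ (T.edges i).filter (fun p => ¬ sh p), κ i p * (ind C p.1 - ind C p.2) : ℤ) +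
        (∑ p ∈ (T.edges i).filter (fun p => ¬ sh p),
          ((ind C p.1 : ℝ) * la i p - (ind C p.2 : ℝ) * lb i p) -
        ∑ p ∈ (T.edges i).filter (fun p => sh p),
          if T.Bd p.1 p.2 then (ind C p.1 : ℝ) * τ p else 0) : ℝ) : AddCircle Real.pi) := by
    intro i
    have hθ : ∑ p ∈ (T.edges i).filter (fun p => ¬ sh p), (ind C p.1 - ind C p.2) • θ i = 0 := by
      have h1 := T.sum_edges_sub i (fun v => - (ind C v • θ i))
      have h2 : ∑ p ∈ T.edges i, (ind C p.1 - ind C p.2) • θ i = 0 := by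
        rw [← h1]
        exact Finset.sum_congr rfl fun p _ => by rw [sub_smul]; abel
      rw [← Finset.sum_filter_add_sum_filter_not (T.edges i) (fun p => sh p)] at h2
      have h3 : ∑ p ∈ (T.edges i).filter (fun p => sh p), (ind C p.1 - ind C p.2) • θ i = 0 := by
        refine Finset.sum_eq_zero fun p hp => ?_
        obtain ⟨hp1, hp2⟩ := Finset.mem_filter.mp hp
        have := hsh i p hp1 hp2
        by_cases hC : p.1 ∈ C
        · rw [ind_pos hC, ind_pos (this.mp hC), sub_self, zero_smul]
        · rw [ind_neg hC, ind_neg (fun h => hC (this.mpr h)), sub_self, zero_smul]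
      rw [h3, zero_add] at h2
      exact h2
    rw [← Finset.sum_filter_add_sum_filter_not (T.edges i) (fun p => sh p)]
    have hS : ∑ p ∈ (T.edges i).filter (fun p => sh p),
        (ind C p.1 • av T dr t p - ind C p.2 • bv T dr t p) =
        ((- ∑ p ∈ (T.edges i).filter (fun p => sh p),
          (if T.Bd p.1 p.2 then (ind C p.1 : ℝ) * τ p else 0) : ℝ) : AddCircle Real.pi) := by
      rw [← Finset.sum_neg_distrib, coe_sum]
      refine Finset.sum_congr rfl fun p hp => ?_
      obtain ⟨hp1, hp2⟩ := Finset.mem_filter.mp hp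
      have h5 := hsh i p hp1 hp2
      by_cases hB : T.Bd p.1 p.2
      · rw [av, bv, if_pos hB, if_pos hB, if_pos hB]
        by_cases hC : p.1 ∈ C
        · rw [ind_pos hC, ind_pos (h5.mp hC), one_smul, one_smul, hτ i p hp1 hp2 hB hC]
          simp
        · rw [ind_neg hC, ind_neg (fun h => hC (h5.mpr h))]
          simp
      · rw [av, bv, if_neg hB, if_neg hB, if_neg hB]
        by_cases hC : p.1 ∈ C
        · rw [ind_pos hC, ind_pos (h5.mp hC)]
          simp
        · rw [ind_neg hC, ind_neg (fun h => hC (h5.mpr h))]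
          simp
    have hL : ∑ p ∈ (T.edges i).filter (fun p => ¬ sh p),
        (ind C p.1 • av T dr t p - ind C p.2 • bv T dr t p) =
        ((φ * (s i * ∑ p ∈ (T.edges i).filter (fun p => ¬ sh p),
            κ i p * (ind C p.1 - ind C p.2) : ℤ) +
          ∑ p ∈ (T.edges i).filter (fun p => ¬ sh p),
            ((ind C p.1 : ℝ) * la i p - (ind C p.2 : ℝ) * lb i p) : ℝ) : AddCircle Real.pi) := by
      have e1 : ∀ p ∈ (T.edges i).filter (fun p => ¬ sh p),
          ind C p.1 • av T dr t p - ind C p.2 • bv T dr t p =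
          (ind C p.1 - ind C p.2) • θ i +
            (((φ * (s i * (κ i p * (ind C p.1 - ind C p.2)) : ℤ) +
              ((ind C p.1 : ℝ) * la i p - (ind C p.2 : ℝ) * lb i p)) : ℝ) :
              AddCircle Real.pi) := by
        intro p hp
        obtain ⟨hp1, hp2⟩ := Finset.mem_filter.mp hp
        have h1 : ind C p.1 • av T dr t p = ind C p.1 • θ i +
            (((φ * (s i * (κ i p * ind C p.1) : ℤ) + (ind C p.1 : ℝ) * la i p) : ℝ) :
              AddCircle Real.pi) := by
          by_cases hC : p.1 ∈ C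
          · rw [ind_pos hC, one_smul, one_smul, ha i p hp1 hp2 hC, add_assoc,
              ← AddCircle.coe_add]
            congr 2
            push_cast
            ring
          · rw [ind_neg hC]
            simp
        have h2 : ind C p.2 • bv T dr t p = ind C p.2 • θ i +
            (((φ * (s i * (κ i p * ind C p.2) : ℤ) + (ind C p.2 : ℝ) * lb i p) : ℝ) :
              AddCircle Real.pi) := by
          by_cases hC : p.2 ∈ C
          · rw [ind_pos hC, one_smul, one_smul, hb i p hp1 hp2 hC, add_assoc,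
              ← AddCircle.coe_add]
            congr 2
            push_cast
            ring
          · rw [ind_neg hC]
            simp
        rw [h1, h2, sub_smul]
        have e3 : ((φ * (s i * (κ i p * (ind C p.1 - ind C p.2)) : ℤ) +
              ((ind C p.1 : ℝ) * la i p - (ind C p.2 : ℝ) * lb i p)) : ℝ) =
            (φ * (s i * (κ i p * ind C p.1) : ℤ) + (ind C p.1 : ℝ) * la i p) -
            (φ * (s i * (κ i p * ind C p.2) : ℤ) + (ind C p.2 : ℝ) * lb i p) := by
          push_cast
          ring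
        rw [e3, AddCircle.coe_sub]
        abel
      rw [Finset.sum_congr rfl e1, Finset.sum_add_distrib, hθ, zero_add, ← coe_sum]
      congr 1
      rw [Finset.sum_add_distrib]
      congr 1
      push_cast
      rw [Finset.mul_sum, Finset.mul_sum]
    rw [hS, hL, ← AddCircle.coe_add]
    congr 1
    ring
  simp only [hi] at h0
  rw [← coe_sum, AddCircle.coe_eq_zero_iff] at h0
  obtain ⟨m, hm⟩ := h0
  refine ⟨m, ?_⟩
  rw [zsmul_eq_mul] at hm
  rw [mul_comm, hm, Finset.sum_add_distrib, Finset.sum_sub_distrib, ← Finset.mul_sum]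
  unfold deg lns trn
  push_cast
  rfl

end

end C2305bAF
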