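import Pool.Agent.W82_c2305b.AF2

/-!
# MP_c2305b_co, ALLFAT: the weighted identity
-/

open Set Module

namespace C2305bAF

open C2305b.TL

variable {J : Type*} [Fintype J] (T : Tiling J)

open Classical in
/-- The cluster of `v`. -/
noncomputable def clu (c : V → V) (k : V) : Finset V := T.W.filter (fun w => c w = k)

theorem mem_clu {c : V → V} {k w : V} : w ∈ clu T c k ↔ w ∈ T.W ∧ c w = k := by
  classical
  unfold clu
  rw [Finset.mem_filter]

open Classical in
/-- The value of `f` on the cluster `k`. -/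
noncomputable def Fv (c : V → V) (f : V → ℝ) (k : V) : ℝ :=
  if h : ∃ v ∈ T.W, c v = k then f h.choose else 0

theorem Fv_eq {c : V → V} {f : V → ℝ} (hf : ∀ v ∈ T.W, ∀ w ∈ T.W, c v = c w → f v = f w)
    {v : V} (hv : v ∈ T.W) : Fv T c f (c v) = f v := by
  classical
  have h : ∃ w ∈ T.W, c w = c v := ⟨v, hv, rfl⟩
  unfold Fv
  rw [dif_pos h]
  exact hf _ h.choose_spec.1 _ hv h.choose_spec.2

theorem sum_Fv {c : V → V} {f : V → ℝ} (hf : ∀ v ∈ T.W, ∀ w ∈ T.W, c v = c w → f v = f w)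
    {v : V} (hv : v ∈ T.W) :
    ∑ k ∈ T.W.image c, Fv T c f k * (ind (clu T c k) v : ℝ) = f v := by
  classical
  rw [Finset.sum_eq_single (c v)]
  · rw [ind_pos ((mem_clu T).mpr ⟨hv, rfl⟩), Fv_eq T hf hv]
    simp
  · intro k _ hk
    rw [ind_neg (fun h => hk ((mem_clu T).mp h).2.symm)]
    simp
  · intro h
    exact absurd (Finset.mem_image_of_mem c hv) h

open Classical in
/-- **The weighted identity.** -/
theorem total (sh : V × V → Prop) (c : V → V) (f : V → ℝ)
    (hf : ∀ v ∈ T.W, ∀ w ∈ T.W, c v = c w → f v = f w)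
    (hc : ∀ i, ∀ p ∈ T.edges i, sh p → c p.1 = c p.2)
    (t : V → AddCircle Real.pi)
    (θ : J → AddCircle Real.pi) (s : J → ℤ) (κ : J → V × V → ℤ) (la lb : J → V × V → ℝ)
    (τ : V × V → ℝ) (φ φ0 : ℝ)
    (ha : ∀ i, ∀ p ∈ T.edges i, ¬ sh p → f p.1 ≠ 0 →
      av T dr t p = θ i + ((s i * κ i p * φ : ℝ) : AddCircle Real.pi) +
        ((la i p : ℝ) : AddCircle Real.pi))
    (hb : ∀ i, ∀ p ∈ T.edges i, ¬ sh p → f p.2 ≠ 0 →
      bv T dr t p = θ i + ((s i * κ i p * φ : ℝ) : AddCircle Real.pi) +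
        ((lb i p : ℝ) : AddCircle Real.pi))
    (hτ : ∀ i, ∀ p ∈ T.edges i, sh p → T.Bd p.1 p.2 → f p.1 ≠ 0 →
      t p.2 = t p.1 + ((τ p : ℝ) : AddCircle Real.pi))
    (hn : ∀ v ∈ T.W, f v ≠ 0 → ∀ m : ℤ, Real.pi * m = φ * deg T sh s κ (clu T c (c v)) +
      (lns T sh la lb (clu T c (c v)) - trn T sh τ (clu T c (c v))) →
      Real.pi * m = φ0 * deg T sh s κ (clu T c (c v))) :
    ∑ i, ∑ p ∈ (T.edges i).filter (fun p => ¬ sh p), (f p.1 * la i p - f p.2 * lb i p) -
      ∑ i, ∑ p ∈ (T.edges i).filter (fun p => sh p), (if T.Bd p.1 p.2 then f p.1 * τ p else 0) =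
    (φ0 - φ) * ∑ i, (s i : ℝ) * ∑ p ∈ (T.edges i).filter (fun p => ¬ sh p),
      (κ i p : ℝ) * (f p.1 - f p.2) := by
  classical
  have hW1 : ∀ i, ∀ p ∈ T.edges i, p.1 ∈ T.W := fun i p hp => (T.mem_edges.mp hp).1.1
  have hW2 : ∀ i, ∀ p ∈ T.edges i, p.2 ∈ T.W := fun i p hp => (T.mem_edges.mp hp).2.1.1
  have key : ∀ k ∈ T.W.image c, Fv T c f k * (lns T sh la lb (clu T c k) - trn T sh τ (clu T c k)) =
      Fv T c f k * ((φ0 - φ) * deg T sh s κ (clu T c k)) := by
    intro k hk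
    obtain ⟨v, hv, rfl⟩ := Finset.mem_image.mp hk
    rw [Fv_eq T hf hv]
    by_cases h0 : f v = 0
    · rw [h0, zero_mul, zero_mul]
    congr 1
    have hval : ∀ w, w ∈ clu T c (c v) → f w ≠ 0 := by
      intro w hw
      obtain ⟨hw1, hw2⟩ := (mem_clu T).mp hw
      rw [hf w hw1 v hv hw2]
      exact h0
    obtain ⟨m, hm⟩ := cluster_eq T t sh (clu T c (c v)) (by
        intro i p hp hs
        rw [mem_clu, mem_clu, hc i p hp hs]
        exact ⟨fun h => ⟨hW2 i p hp, h.2⟩, fun h => ⟨hW1 i p hp, h.2⟩⟩) θ s κ la lb τ φ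
      (fun i p hp hs h => ha i p hp hs (hval _ h)) (fun i p hp hs h => hb i p hp hs (hval _ h))
      (fun i p hp hs hB h => hτ i p hp hs hB (hval _ h))
    have h1 := hn v hv h0 m hm
    linarith
  have hsum := Finset.sum_congr rfl key
  simp only [mul_sub] at hsum
  rw [Finset.sum_sub_distrib] at hsum
  have e1 : ∑ k ∈ T.W.image c, Fv T c f k * lns T sh la lb (clu T c k) =
      ∑ i, ∑ p ∈ (T.edges i).filter (fun p => ¬ sh p), (f p.1 * la i p - f p.2 * lb i p) := by
    unfold lns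
    simp only [Finset.mul_sum]
    rw [Finset.sum_comm]
    refine Finset.sum_congr rfl fun i _ => ?_
    rw [Finset.sum_comm]
    refine Finset.sum_congr rfl fun p hp => ?_
    have hp' := (Finset.mem_filter.mp hp).1
    rw [← sum_Fv T hf (hW1 i p hp'), ← sum_Fv T hf (hW2 i p hp'), Finset.sum_mul, Finset.sum_mul,
      ← Finset.sum_sub_distrib]
    exact Finset.sum_congr rfl fun k _ => by ring
  have e2 : ∑ k ∈ T.W.image c, Fv T c f k * trn T sh τ (clu T c k) =
      ∑ i, ∑ p ∈ (T.edges i).filter (fun p => sh p),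
        (if T.Bd p.1 p.2 then f p.1 * τ p else 0) := by
    unfold trn
    simp only [Finset.mul_sum]
    rw [Finset.sum_comm]
    refine Finset.sum_congr rfl fun i _ => ?_
    rw [Finset.sum_comm]
    refine Finset.sum_congr rfl fun p hp => ?_
    have hp' := (Finset.mem_filter.mp hp).1
    by_cases hB : T.Bd p.1 p.2
    · rw [if_pos hB]
      simp only [if_pos hB]
      rw [← sum_Fv T hf (hW1 i p hp'), Finset.sum_mul]
      exact Finset.sum_congr rfl fun k _ => by ring
    · rw [if_neg hB]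
      simp only [if_neg hB, mul_zero, Finset.sum_const_zero]
  have e3 : ∑ k ∈ T.W.image c, (Fv T c f k * (φ0 * deg T sh s κ (clu T c k)) -
        Fv T c f k * (φ * deg T sh s κ (clu T c k))) =
      (φ0 - φ) * ∑ i, (s i : ℝ) * ∑ p ∈ (T.edges i).filter (fun p => ¬ sh p),
        (κ i p : ℝ) * (f p.1 - f p.2) := by
    unfold deg
    have : ∀ k, Fv T c f k * (φ0 * ((∑ i, s i * ∑ p ∈ (T.edges i).filter (fun p => ¬ sh p),
          κ i p * (ind (clu T c k) p.1 - ind (clu T c k) p.2) : ℤ) : ℝ)) -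
        Fv T c f k * (φ * ((∑ i, s i * ∑ p ∈ (T.edges i).filter (fun p => ¬ sh p),
          κ i p * (ind (clu T c k) p.1 - ind (clu T c k) p.2) : ℤ) : ℝ)) =
        (φ0 - φ) * ∑ i, ∑ p ∈ (T.edges i).filter (fun p => ¬ sh p),
          (s i : ℝ) * (κ i p) * (Fv T c f k * (ind (clu T c k) p.1 : ℝ) -
            Fv T c f k * (ind (clu T c k) p.2 : ℝ)) := by
      intro k
      push_cast
      rw [← mul_sub, ← sub_mul, mul_left_comm]
      congr 1
      rw [Finset.mul_sum]
      refine Finset.sum_congr rfl fun i _ => ?_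
      rw [← mul_assoc, Finset.mul_sum]
      refine Finset.sum_congr rfl fun p _ => ?_
      ring
    rw [Finset.sum_congr rfl (fun k _ => this k), ← Finset.mul_sum]
    congr 1
    rw [Finset.sum_comm]
    refine Finset.sum_congr rfl fun i _ => ?_
    rw [Finset.sum_comm, Finset.mul_sum]
    refine Finset.sum_congr rfl fun p hp => ?_
    have hp' := (Finset.mem_filter.mp hp).1
    rw [← sum_Fv T hf (hW1 i p hp'), ← sum_Fv T hf (hW2 i p hp'), ← Finset.sum_sub_distrib,
      Finset.mul_sum, Finset.mul_sum]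
    exact Finset.sum_congr rfl fun k _ => by ring
  rw [e1, e2] at hsum
  rw [hsum, ← e3]
  exact Finset.sum_congr rfl fun k _ => by ring

end C2305bAF
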