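import Pool.Agent.W82_c2305b.AF3

/-!
# MP_c2305b_co, ALLFAT: the data of the identity, the far inequality, small clusters
-/

open Set Module

namespace C2305bAF

open C2305b.TL

/-- Leans of the long edges. -/
structure Dat {J : Type*} [Fintype J] (T : Tiling J) (sh : V × V → Prop) (c : V → V) (f : V → ℝ)
    (t : V → AddCircle Real.pi) (θ : J → AddCircle Real.pi) (s : J → ℤ) (κ : J → V × V → ℤ)
    (la lb : J → V × V → ℝ) (τ : V × V → ℝ) (e : J → ℝ) (φ : ℝ) : Prop where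
  hf : ∀ v ∈ T.W, ∀ w ∈ T.W, c v = c w → f v = f w
  hc : ∀ i, ∀ p ∈ T.edges i, sh p → c p.1 = c p.2
  f0 : ∀ v, 0 ≤ f v
  inn : ∀ i, ∀ p ∈ T.edges i, ¬ sh p → ¬ T.Bd p.1 p.2 → (f p.1 ≠ 0 ∨ f p.2 ≠ 0) →
    la i p = lb i p ∧ |la i p| ≤ e i ∧
    dr (p.2 - p.1) = θ i + ((s i * κ i p * φ : ℝ) : AddCircle Real.pi) +
      ((la i p : ℝ) : AddCircle Real.pi)
  bd : ∀ i, ∀ p ∈ T.edges i, ¬ sh p → T.Bd p.1 p.2 → (f p.1 ≠ 0 ∨ f p.2 ≠ 0) →
    lb i p = la i p + τ p ∧ la i p ≤ e i ∧ - e i ≤ lb i p ∧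
    t p.1 = θ i + ((s i * κ i p * φ : ℝ) : AddCircle Real.pi) +
      ((la i p : ℝ) : AddCircle Real.pi) ∧
    t p.2 = θ i + ((s i * κ i p * φ : ℝ) : AddCircle Real.pi) +
      ((lb i p : ℝ) : AddCircle Real.pi)
  bs : ∀ i, ∀ p ∈ T.edges i, sh p → T.Bd p.1 p.2 → f p.1 ≠ 0 →
    t p.2 = t p.1 + ((τ p : ℝ) : AddCircle Real.pi)

variable {J : Type*} [Fintype J] {T : Tiling J} {sh : V × V → Prop} {c : V → V} {f : V → ℝ}
  {t : V → AddCircle Real.pi} {θ : J → AddCircle Real.pi} {s : J → ℤ} {κ : J → V × V → ℤ}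
  {la lb : J → V × V → ℝ} {τ : V × V → ℝ} {e : J → ℝ} {φ : ℝ}

section

variable (T sh s κ f)

open Classical in
/-- The gradient sum. -/
noncomputable def grd : ℝ :=
  ∑ i, (s i : ℝ) * ∑ p ∈ (T.edges i).filter (fun p => ¬ sh p), (κ i p : ℝ) * (f p.1 - f p.2)

end

open Classical in
theorem Dat.total (h : Dat T sh c f t θ s κ la lb τ e φ) (φ0 : ℝ)
    (hn : ∀ v ∈ T.W, f v ≠ 0 → ∀ m : ℤ, Real.pi * m = φ * deg T sh s κ (clu T c (c v)) +
      (lns T sh la lb (clu T c (c v)) - trn T sh τ (clu T c (c v))) →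
      Real.pi * m = φ0 * deg T sh s κ (clu T c (c v))) :
    ∑ i, ∑ p ∈ (T.edges i).filter (fun p => ¬ sh p), (f p.1 * la i p - f p.2 * lb i p) -
      ∑ i, ∑ p ∈ (T.edges i).filter (fun p => sh p), (if T.Bd p.1 p.2 then f p.1 * τ p else 0) =
    (φ0 - φ) * grd T sh f s κ := by
  refine C2305bAF.total T sh c f h.hf h.hc t θ s κ la lb τ φ φ0 ?_ ?_ h.bs hn
  · intro i p hp hs h0
    by_cases hB : T.Bd p.1 p.2
    · rw [av, if_pos hB]
      exact (h.bd i p hp hs hB (Or.inl h0)).2.2.2.1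
    · rw [av, if_neg hB]
      exact (h.inn i p hp hs hB (Or.inl h0)).2.2
  · intro i p hp hs h0
    by_cases hB : T.Bd p.1 p.2
    · rw [bv, if_pos hB]
      exact (h.bd i p hp hs hB (Or.inr h0)).2.2.2.2
    · obtain ⟨h1, -, h3⟩ := h.inn i p hp hs hB (Or.inr h0)
      rw [bv, if_neg hB, ← h1]
      exact h3

open Classical in
/-- **The far inequality.** -/
theorem Dat.far (h : Dat T sh c f t θ s κ la lb τ e φ) (φ0 : ℝ)
    (hn : ∀ v ∈ T.W, f v ≠ 0 → ∀ m : ℤ, Real.pi * m = φ * deg T sh s κ (clu T c (c v)) +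
      (lns T sh la lb (clu T c (c v)) - trn T sh τ (clu T c (c v))) →
      Real.pi * m = φ0 * deg T sh s κ (clu T c (c v))) :
    ∑ i, ∑ p ∈ T.bdEdges i, min (f p.1) (f p.2) * τ p ≤
      ∑ i, e i * ∑ p ∈ (T.edges i).filter (fun p => ¬ sh p), |f p.1 - f p.2| -
        (φ0 - φ) * grd T sh f s κ := by
  have h0 := h.total φ0 hn
  have e0 : ∀ i, ∑ p ∈ T.bdEdges i, min (f p.1) (f p.2) * τ p =
      ∑ p ∈ (T.edges i).filter (fun p => sh p),
        (if T.Bd p.1 p.2 then min (f p.1) (f p.2) * τ p else 0) +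
      ∑ p ∈ (T.edges i).filter (fun p => ¬ sh p),
        (if T.Bd p.1 p.2 then min (f p.1) (f p.2) * τ p else 0) := by
    intro i
    rw [Finset.sum_filter_add_sum_filter_not, ← Finset.sum_filter]
    rfl
  have e1 : ∀ i, ∑ p ∈ (T.edges i).filter (fun p => sh p),
      (if T.Bd p.1 p.2 then min (f p.1) (f p.2) * τ p else 0) =
      ∑ p ∈ (T.edges i).filter (fun p => sh p),
        (if T.Bd p.1 p.2 then f p.1 * τ p else 0) := by
    intro i
    refine Finset.sum_congr rfl fun p hp => ?_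
    obtain ⟨hp1, hp2⟩ := Finset.mem_filter.mp hp
    have h1 := T.mem_edges.mp hp1
    rw [← h.hf p.1 h1.1.1 p.2 h1.2.1.1 (h.hc i p hp1 hp2), min_self]
  have e2 : ∀ i, ∑ p ∈ (T.edges i).filter (fun p => ¬ sh p), (f p.1 * la i p - f p.2 * lb i p) ≤
      e i * ∑ p ∈ (T.edges i).filter (fun p => ¬ sh p), |f p.1 - f p.2| -
      ∑ p ∈ (T.edges i).filter (fun p => ¬ sh p),
        (if T.Bd p.1 p.2 then min (f p.1) (f p.2) * τ p else 0) := by
    intro i
    rw [Finset.mul_sum, ← Finset.sum_sub_distrib]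
    refine Finset.sum_le_sum fun p hp => ?_
    obtain ⟨hp1, hp2⟩ := Finset.mem_filter.mp hp
    have f1 := h.f0 p.1
    have f2 := h.f0 p.2
    by_cases hz : f p.1 ≠ 0 ∨ f p.2 ≠ 0
    · by_cases hB : T.Bd p.1 p.2
      · rw [if_pos hB]
        obtain ⟨h1, h2, h3, -, -⟩ := h.bd i p hp1 hp2 hB hz
        rcases le_total (f p.1) (f p.2) with hle | hle
        · rw [min_eq_left hle, abs_of_nonpos (by linarith)]
          have h5 : (f p.2 - f p.1) * (- lb i p) ≤ (f p.2 - f p.1) * e i :=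
            mul_le_mul_of_nonneg_left (by linarith) (by linarith)
          have h6 : f p.1 * lb i p = f p.1 * la i p + f p.1 * τ p := by rw [h1]; ring
          nlinarith
        · rw [min_eq_right hle, abs_of_nonneg (by linarith)]
          have h5 : (f p.1 - f p.2) * la i p ≤ (f p.1 - f p.2) * e i :=
            mul_le_mul_of_nonneg_left (by linarith) (by linarith)
          have h6 : f p.2 * lb i p = f p.2 * la i p + f p.2 * τ p := by rw [h1]; ring
          nlinarith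
      · rw [if_neg hB, sub_zero]
        obtain ⟨h1, h2, -⟩ := h.inn i p hp1 hp2 hB hz
        rw [← h1, ← sub_mul]
        calc (f p.1 - f p.2) * la i p ≤ |(f p.1 - f p.2) * la i p| := le_abs_self _
          _ = |f p.1 - f p.2| * |la i p| := abs_mul _ _
          _ ≤ |f p.1 - f p.2| * e i := mul_le_mul_of_nonneg_left h2 (abs_nonneg _)
          _ = e i * |f p.1 - f p.2| := mul_comm _ _
    · push Not at hz
      rw [hz.1, hz.2]
      simp
  have e3 := Finset.sum_le_sum (fun i (_ : i ∈ Finset.univ) => e2 i)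
  rw [Finset.sum_sub_distrib] at e3
  simp only [e0, e1]
  rw [Finset.sum_add_distrib]
  linarith

end C2305bAF
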