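import Pool.Agent.W82_c2305b.AF4

/-!
# MP_c2305b_co, ALLFAT: small clusters
-/

open Set Module

namespace C2305bAF

open C2305b.TL

variable {J : Type*} [Fintype J] {T : Tiling J} {sh : V × V → Prop} {c : V → V} {f : V → ℝ}
  {t : V → AddCircle Real.pi} {θ : J → AddCircle Real.pi} {s : J → ℤ} {κ : J → V × V → ℤ}
  {la lb : J → V × V → ℝ} {τ : V × V → ℝ} {e : J → ℝ} {φ : ℝ}

omit [Fintype J] in
theorem ind_nonneg (C : Finset V) (v : V) : (0 : ℝ) ≤ (ind C v : ℝ) := by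
  by_cases h : v ∈ C
  · rw [ind_pos h]; norm_num
  · rw [ind_neg h]; norm_num

theorem ind_le (C : Finset V) (v : V) : (ind C v : ℝ) ≤ 1 := by
  by_cases h : v ∈ C
  · rw [ind_pos h]; norm_num
  · rw [ind_neg h]; norm_num

/-- The incidences of a cluster. -/
theorem inc_le {C : Finset V} {N0 : ℕ} (hC : C.card ≤ N0)
    (hI : {i : J | ∃ w ∈ C, w ∈ T.P i}.ncard ≤ N0) :
    ∑ i, ∑ v ∈ T.verts i, (ind C v : ℝ) ≤ (N0 : ℝ) ^ 2 := by
  classical
  have h1 : ∀ i, ∑ v ∈ T.verts i, (ind C v : ℝ) ≤ if ∃ w ∈ C, w ∈ T.P i then (N0 : ℝ) else 0 := by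
    intro i
    by_cases hi : ∃ w ∈ C, w ∈ T.P i
    · rw [if_pos hi]
      calc ∑ v ∈ T.verts i, (ind C v : ℝ) = ∑ v ∈ (T.verts i).filter (fun v => v ∈ C), (1 : ℝ) := by
            rw [Finset.sum_filter]
            refine Finset.sum_congr rfl fun v _ => ?_
            by_cases hv : v ∈ C
            · rw [if_pos hv, ind_pos hv]; norm_num
            · rw [if_neg hv, ind_neg hv]; norm_num
        _ = (((T.verts i).filter (fun v => v ∈ C)).card : ℝ) := by simp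
        _ ≤ C.card := by
            exact_mod_cast Finset.card_le_card fun v hv => (Finset.mem_filter.mp hv).2
        _ ≤ N0 := by exact_mod_cast hC
    · rw [if_neg hi]
      refine le_of_eq (Finset.sum_eq_zero fun v hv => ?_)
      rw [ind_neg (fun h => hi ⟨v, h, (T.mem_verts.mp hv).2⟩)]
      norm_num
  refine (Finset.sum_le_sum fun i _ => h1 i).trans ?_
  rw [← Finset.sum_filter, Finset.sum_const, nsmul_eq_mul, sq]
  refine mul_le_mul_of_nonneg_right ?_ (Nat.cast_nonneg _)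
  rw [Set.ncard_eq_toFinset_card'] at hI
  have : (Finset.univ.filter fun i : J => ∃ w ∈ C, w ∈ T.P i) =
      {i : J | ∃ w ∈ C, w ∈ T.P i}.toFinset := by
    ext i; simp
  rw [this]
  exact_mod_cast hI

theorem inc_fst {C : Finset V} {N0 : ℕ} (hC : C.card ≤ N0)
    (hI : {i : J | ∃ w ∈ C, w ∈ T.P i}.ncard ≤ N0) :
    ∑ i, ∑ p ∈ T.edges i, (ind C p.1 : ℝ) ≤ (N0 : ℝ) ^ 2 := by
  refine le_trans (le_of_eq ?_) (inc_le hC hI)
  exact Finset.sum_congr rfl fun i _ => T.sum_edges_fst i (fun v => (ind C v : ℝ))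

theorem inc_snd {C : Finset V} {N0 : ℕ} (hC : C.card ≤ N0)
    (hI : {i : J | ∃ w ∈ C, w ∈ T.P i}.ncard ≤ N0) :
    ∑ i, ∑ p ∈ T.edges i, (ind C p.2 : ℝ) ≤ (N0 : ℝ) ^ 2 := by
  refine le_trans (le_of_eq ?_) (inc_le hC hI)
  exact Finset.sum_congr rfl fun i _ => T.sum_edges_snd i (fun v => (ind C v : ℝ))

open Classical in
theorem deg_le {C : Finset V} {N0 : ℕ} (hC : C.card ≤ N0)
    (hI : {i : J | ∃ w ∈ C, w ∈ T.P i}.ncard ≤ N0) (hs : ∀ i, |s i| ≤ 1)
    (hκ : ∀ i p, |κ i p| ≤ 1) : |(deg T sh s κ C : ℝ)| ≤ 2 * (N0 : ℝ) ^ 2 := by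
  have h1 := inc_fst hC hI
  have h2 := inc_snd hC hI
  have h3 : |(deg T sh s κ C : ℝ)| ≤
      ∑ i, ∑ p ∈ T.edges i, ((ind C p.1 : ℝ) + (ind C p.2 : ℝ)) := by
    unfold deg
    push_cast
    refine (Finset.abs_sum_le_sum_abs _ _).trans (Finset.sum_le_sum fun i _ => ?_)
    rw [abs_mul]
    have hsi : |(s i : ℝ)| ≤ 1 := by exact_mod_cast hs i
    refine (mul_le_mul_of_nonneg_right hsi (abs_nonneg _)).trans ?_
    rw [one_mul]
    refine (Finset.abs_sum_le_sum_abs _ _).trans ?_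
    refine (Finset.sum_le_sum (f := fun p => |(κ i p : ℝ) * ((ind C p.1 : ℝ) - (ind C p.2 : ℝ))|)
      (g := fun p => (ind C p.1 : ℝ) + (ind C p.2 : ℝ)) fun p _ => ?_).trans ?_
    · have hk : |(κ i p : ℝ)| ≤ 1 := by exact_mod_cast hκ i p
      rw [abs_mul]
      refine (mul_le_mul_of_nonneg_right hk (abs_nonneg _)).trans ?_
      rw [one_mul]
      have a1 := ind_nonneg C p.1
      have a2 := ind_nonneg C p.2
      rw [abs_le]
      constructor <;> linarith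
    · exact Finset.sum_le_sum_of_subset_of_nonneg (Finset.filter_subset _ _)
        fun p _ _ => add_nonneg (ind_nonneg C p.1) (ind_nonneg C p.2)
  simp only [Finset.sum_add_distrib] at h3
  linarith

open Classical in
theorem lns_le {C : Finset V} {N0 : ℕ} (hC : C.card ≤ N0)
    (hI : {i : J | ∃ w ∈ C, w ∈ T.P i}.ncard ≤ N0) {δ : ℝ} (hδ : 0 ≤ δ)
    (ha : ∀ i, ∀ p ∈ T.edges i, ¬ sh p → p.1 ∈ C → la i p ≤ δ)
    (hb : ∀ i, ∀ p ∈ T.edges i, ¬ sh p → p.2 ∈ C → - δ ≤ lb i p) :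
    lns T sh la lb C ≤ 2 * (N0 : ℝ) ^ 2 * δ := by
  have h1 := inc_fst hC hI
  have h2 := inc_snd hC hI
  have h3 : lns T sh la lb C ≤
      ∑ i, ∑ p ∈ T.edges i, ((ind C p.1 : ℝ) + (ind C p.2 : ℝ)) * δ := by
    unfold lns
    refine Finset.sum_le_sum fun i _ => ?_
    refine (Finset.sum_le_sum
      (g := fun p => ((ind C p.1 : ℝ) + (ind C p.2 : ℝ)) * δ) fun p hp => ?_).trans ?_
    · obtain ⟨hp1, hp2⟩ := Finset.mem_filter.mp hp
      have e1 : (ind C p.1 : ℝ) * la i p ≤ (ind C p.1 : ℝ) * δ := by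
        by_cases h : p.1 ∈ C
        · exact mul_le_mul_of_nonneg_left (ha i p hp1 hp2 h) (ind_nonneg C p.1)
        · rw [ind_neg h]; simp
      have e2 : - ((ind C p.2 : ℝ) * lb i p) ≤ (ind C p.2 : ℝ) * δ := by
        by_cases h : p.2 ∈ C
        · have := mul_le_mul_of_nonneg_left (hb i p hp1 hp2 h) (ind_nonneg C p.2)
          linarith
        · rw [ind_neg h]; simp
      linarith
    · exact Finset.sum_le_sum_of_subset_of_nonneg (Finset.filter_subset _ _)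
        fun p _ _ => mul_nonneg (add_nonneg (ind_nonneg C p.1) (ind_nonneg C p.2)) hδ
  simp only [← Finset.sum_mul, Finset.sum_add_distrib] at h3
  nlinarith

open Classical in
theorem abs_lns_le {C : Finset V} {N0 : ℕ} (hC : C.card ≤ N0)
    (hI : {i : J | ∃ w ∈ C, w ∈ T.P i}.ncard ≤ N0) {δ : ℝ} (hδ : 0 ≤ δ)
    (ha : ∀ i, ∀ p ∈ T.edges i, ¬ sh p → p.1 ∈ C → |la i p| ≤ δ)
    (hb : ∀ i, ∀ p ∈ T.edges i, ¬ sh p → p.2 ∈ C → |lb i p| ≤ δ) :
    |lns T sh la lb C| ≤ 2 * (N0 : ℝ) ^ 2 * δ := by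
  rw [abs_le]
  constructor
  · have h1 := lns_le (T := T) (sh := sh) (la := fun i p => - la i p) (lb := fun i p => - lb i p)
      hC hI hδ (fun i p hp hs h => (neg_le_abs _).trans (ha i p hp hs h))
      (fun i p hp hs h => neg_le_neg ((le_abs_self _).trans (hb i p hp hs h)))
    have h2 : lns T sh (fun i p => - la i p) (fun i p => - lb i p) C = - lns T sh la lb C := by
      unfold lns
      rw [← Finset.sum_neg_distrib]
      refine Finset.sum_congr rfl fun i _ => ?_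
      rw [← Finset.sum_neg_distrib]
      exact Finset.sum_congr rfl fun p _ => by ring
    rw [h2] at h1
    linarith
  · exact lns_le hC hI hδ (fun i p hp hs h => (le_abs_self _).trans (ha i p hp hs h))
      (fun i p hp hs h => (neg_le_neg (hb i p hp hs h)).trans (neg_abs_le _))

open Classical in
theorem trn_bd {C : Finset V} {N0 : ℕ} (hC : C.card ≤ N0)
    (hI : {i : J | ∃ w ∈ C, w ∈ T.P i}.ncard ≤ N0) {δ : ℝ} (hδ : 0 ≤ δ)
    (hτ : ∀ i, ∀ p ∈ T.edges i, sh p → T.Bd p.1 p.2 → p.1 ∈ C → 0 ≤ τ p ∧ τ p ≤ δ) :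
    0 ≤ trn T sh τ C ∧ trn T sh τ C ≤ (N0 : ℝ) ^ 2 * δ := by
  constructor
  · unfold trn
    refine Finset.sum_nonneg fun i _ => Finset.sum_nonneg fun p hp => ?_
    obtain ⟨hp1, hp2⟩ := Finset.mem_filter.mp hp
    by_cases hB : T.Bd p.1 p.2
    · rw [if_pos hB]
      by_cases h : p.1 ∈ C
      · exact mul_nonneg (ind_nonneg C p.1) (hτ i p hp1 hp2 hB h).1
      · rw [ind_neg h]; simp
    · rw [if_neg hB]
  · have h1 := inc_fst hC hI
    have h3 : trn T sh τ C ≤ ∑ i, ∑ p ∈ T.edges i, (ind C p.1 : ℝ) * δ := by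
      unfold trn
      refine Finset.sum_le_sum fun i _ => ?_
      refine (Finset.sum_le_sum (g := fun p => (ind C p.1 : ℝ) * δ) fun p hp => ?_).trans ?_
      · obtain ⟨hp1, hp2⟩ := Finset.mem_filter.mp hp
        by_cases hB : T.Bd p.1 p.2
        · rw [if_pos hB]
          by_cases h : p.1 ∈ C
          · exact mul_le_mul_of_nonneg_left (hτ i p hp1 hp2 hB h).2 (ind_nonneg C p.1)
          · rw [ind_neg h]; simp
        · rw [if_neg hB]
          exact mul_nonneg (ind_nonneg C p.1) hδ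
      · exact Finset.sum_le_sum_of_subset_of_nonneg (Finset.filter_subset _ _)
          fun p _ _ => mul_nonneg (ind_nonneg C p.1) hδ
    simp only [← Finset.sum_mul] at h3
    nlinarith

omit [Fintype J] in
theorem edge_mem {i : J} {p : V × V} (hp : p ∈ T.edges i) :
    (p.1 ∈ T.W ∧ p.1 ∈ T.P i) ∧ (p.2 ∈ T.W ∧ p.2 ∈ T.P i) :=
  ⟨(T.mem_edges.mp hp).1, (T.mem_edges.mp hp).2.1⟩

theorem Dat.val (h : Dat T sh c f t θ s κ la lb τ e φ) {v w : V} (hv : v ∈ T.W) (h0 : f v ≠ 0)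
    (hw : w ∈ clu T c (c v)) : f w ≠ 0 := by
  obtain ⟨hw1, hw2⟩ := (mem_clu T).mp hw
  rw [h.hf w hw1 v hv hw2]
  exact h0

/-- **The number lemma at a small cluster.** -/
theorem Dat.num (h : Dat T sh c f t θ s κ la lb τ e φ) {N0 : ℕ} {δ ε φ0 : ℝ}
    (hs : ∀ i, |s i| ≤ 1) (hκ : ∀ i p, |κ i p| ≤ 1)
    (hnum : ∀ d m : ℤ, |(d : ℝ)| ≤ 2 * (N0 : ℝ) ^ 2 → |Real.pi * m - φ * d| ≤ ε →
      Real.pi * m = φ0 * d) (hε : 5 * (N0 : ℝ) ^ 2 * δ ≤ ε) (hδ : 0 ≤ δ)
    {v : V} (hv : v ∈ T.W) (h0 : f v ≠ 0)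
    (hC : (clu T c (c v)).card ≤ N0)
    (hI : {i : J | ∃ w ∈ clu T c (c v), w ∈ T.P i}.ncard ≤ N0)
    (he : ∀ i, (∃ w ∈ clu T c (c v), w ∈ T.P i) → e i ≤ δ)
    (hτ : ∀ i, ∀ p ∈ T.edges i, T.Bd p.1 p.2 → (p.1 ∈ clu T c (c v) ∨ p.2 ∈ clu T c (c v)) →
      0 ≤ τ p ∧ τ p ≤ δ) (m : ℤ)
    (hm : Real.pi * m = φ * deg T sh s κ (clu T c (c v)) +
      (lns T sh la lb (clu T c (c v)) - trn T sh τ (clu T c (c v)))) :
    Real.pi * m = φ0 * deg T sh s κ (clu T c (c v)) := by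
  have hval := fun w hw => h.val hv h0 (w := w) hw
  have hN : 0 ≤ (N0 : ℝ) ^ 2 := by positivity
  have key : ∀ i, ∀ p ∈ T.edges i, ¬ sh p →
      (p.1 ∈ clu T c (c v) ∨ p.2 ∈ clu T c (c v)) → |la i p| ≤ 2 * δ ∧ |lb i p| ≤ 2 * δ := by
    intro i p hp hsp hC'
    obtain ⟨m1, m2⟩ := edge_mem hp
    have hei : e i ≤ δ := by
      rcases hC' with h1 | h1
      · exact he i ⟨p.1, h1, m1.2⟩
      · exact he i ⟨p.2, h1, m2.2⟩
    have hz : f p.1 ≠ 0 ∨ f p.2 ≠ 0 := by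
      rcases hC' with h1 | h1
      · exact Or.inl (hval _ h1)
      · exact Or.inr (hval _ h1)
    by_cases hB : T.Bd p.1 p.2
    · obtain ⟨h1, h2, h3, -, -⟩ := h.bd i p hp hsp hB hz
      obtain ⟨h4, h5⟩ := hτ i p hp hB hC'
      constructor <;> rw [abs_le] <;> constructor <;> linarith
    · obtain ⟨h1, h2, -⟩ := h.inn i p hp hsp hB hz
      rw [← h1]
      exact ⟨by linarith, by linarith⟩
  have h1 := abs_lns_le (T := T) (sh := sh) (la := la) (lb := lb) hC hI (by linarith : 0 ≤ 2 * δ)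
    (fun i p hp hsp hC' => (key i p hp hsp (Or.inl hC')).1)
    (fun i p hp hsp hC' => (key i p hp hsp (Or.inr hC')).2)
  obtain ⟨h2, h3⟩ := trn_bd (T := T) (sh := sh) (τ := τ) hC hI hδ
    (fun i p hp _ hB hC' => hτ i p hp hB (Or.inl hC'))
  have h4 := deg_le (T := T) (sh := sh) (s := s) (κ := κ) hC hI hs hκ
  refine hnum _ m h4 ?_
  have e1 : Real.pi * m - φ * deg T sh s κ (clu T c (c v)) =
    lns T sh la lb (clu T c (c v)) - trn T sh τ (clu T c (c v)) := by rw [hm]; ring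
  rw [e1]
  rw [abs_le] at h1 ⊢
  constructor <;> nlinarith

/-- The one-sided bound. -/
theorem Dat.up (h : Dat T sh c f t θ s κ la lb τ e φ) {N0 : ℕ} {δ : ℝ} (hδ : 0 ≤ δ)
    {v : V} (hv : v ∈ T.W) (h0 : f v ≠ 0)
    (hC : (clu T c (c v)).card ≤ N0)
    (hI : {i : J | ∃ w ∈ clu T c (c v), w ∈ T.P i}.ncard ≤ N0)
    (he : ∀ i, (∃ w ∈ clu T c (c v), w ∈ T.P i) → e i ≤ δ)
    (hτ : ∀ i, ∀ p ∈ T.edges i, sh p → T.Bd p.1 p.2 → p.1 ∈ clu T c (c v) → 0 ≤ τ p) :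
    lns T sh la lb (clu T c (c v)) - trn T sh τ (clu T c (c v)) ≤ 2 * (N0 : ℝ) ^ 2 * δ := by
  classical
  have hval := fun w hw => h.val hv h0 (w := w) hw
  have h1 : lns T sh la lb (clu T c (c v)) ≤ 2 * (N0 : ℝ) ^ 2 * δ := by
    refine lns_le hC hI hδ ?_ ?_
    · intro i p hp hsp hC'
      have hei := he i ⟨p.1, hC', (edge_mem hp).1.2⟩
      by_cases hB : T.Bd p.1 p.2
      · obtain ⟨-, h2, -, -, -⟩ := h.bd i p hp hsp hB (Or.inl (hval _ hC'))
        linarith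
      · obtain ⟨-, h2, -⟩ := h.inn i p hp hsp hB (Or.inl (hval _ hC'))
        exact ((le_abs_self _).trans h2).trans hei
    · intro i p hp hsp hC'
      have hei := he i ⟨p.2, hC', (edge_mem hp).2.2⟩
      by_cases hB : T.Bd p.1 p.2
      · obtain ⟨-, -, h2, -, -⟩ := h.bd i p hp hsp hB (Or.inr (hval _ hC'))
        linarith
      · obtain ⟨h3, h2, -⟩ := h.inn i p hp hsp hB (Or.inr (hval _ hC'))
        rw [← h3]
        have := (neg_le_abs (la i p)).trans (h2.trans hei)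
        linarith
  have h2 : 0 ≤ trn T sh τ (clu T c (c v)) := by
    unfold trn
    refine Finset.sum_nonneg fun i _ => Finset.sum_nonneg fun p hp => ?_
    obtain ⟨hp1, hp2⟩ := Finset.mem_filter.mp hp
    by_cases hB : T.Bd p.1 p.2
    · rw [if_pos hB]
      by_cases hm : p.1 ∈ clu T c (c v)
      · exact mul_nonneg (ind_nonneg _ p.1) (hτ i p hp1 hp2 hB hm)
      · rw [ind_neg hm]; simp
    · rw [if_neg hB]
  linarith

open Classical in
/-- The gradient sum in terms of the clusters. -/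
theorem grd_eq (hf : ∀ v ∈ T.W, ∀ w ∈ T.W, c v = c w → f v = f w) :
    grd T sh f s κ = ∑ k ∈ T.W.image c, Fv T c f k * deg T sh s κ (clu T c k) := by
  unfold grd deg
  have : ∀ k, Fv T c f k * ((∑ i, s i * ∑ p ∈ (T.edges i).filter (fun p => ¬ sh p),
        κ i p * (ind (clu T c k) p.1 - ind (clu T c k) p.2) : ℤ) : ℝ) =
      ∑ i, ∑ p ∈ (T.edges i).filter (fun p => ¬ sh p),
        (s i : ℝ) * (κ i p) * (Fv T c f k * (ind (clu T c k) p.1 : ℝ) -
          Fv T c f k * (ind (clu T c k) p.2 : ℝ)) := by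
    intro k
    push_cast
    rw [Finset.mul_sum]
    refine Finset.sum_congr rfl fun i _ => ?_
    rw [← mul_assoc, Finset.mul_sum]
    refine Finset.sum_congr rfl fun p _ => ?_
    ring
  rw [Finset.sum_congr rfl (fun k _ => this k)]
  rw [Finset.sum_comm]
  refine Finset.sum_congr rfl fun i _ => ?_
  rw [Finset.sum_comm, Finset.mul_sum]
  refine Finset.sum_congr rfl fun p hp => ?_
  have hp' := (Finset.mem_filter.mp hp).1
  rw [← sum_Fv T hf (edge_mem hp').1.1, ← sum_Fv T hf (edge_mem hp').2.1,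
    ← Finset.sum_sub_distrib, Finset.mul_sum, Finset.mul_sum]
  exact Finset.sum_congr rfl fun k _ => by ring

open Classical in
theorem abs_grd_le (hs : ∀ i, |s i| ≤ 1) (hκ : ∀ i p, |κ i p| ≤ 1) :
    |grd T sh f s κ| ≤ ∑ i, ∑ p ∈ (T.edges i).filter (fun p => ¬ sh p), |f p.1 - f p.2| := by
  unfold grd
  refine (Finset.abs_sum_le_sum_abs _ _).trans (Finset.sum_le_sum fun i _ => ?_)
  rw [abs_mul]
  have hsi : |(s i : ℝ)| ≤ 1 := by exact_mod_cast hs i
  refine (mul_le_mul_of_nonneg_right hsi (abs_nonneg _)).trans ?_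
  rw [one_mul]
  refine (Finset.abs_sum_le_sum_abs _ _).trans (Finset.sum_le_sum fun p _ => ?_)
  have hk : |(κ i p : ℝ)| ≤ 1 := by exact_mod_cast hκ i p
  rw [abs_mul]
  refine (mul_le_mul_of_nonneg_right hk (abs_nonneg _)).trans ?_
  rw [one_mul]

end C2305bAF
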