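import Pool.Agent.W82_c2305b.Bridge

/-!
Perfect cells: bookkeeping and the structure at their corners.
-/

open Set Module Topology Filter MeasureTheory

namespace W82

open C2305b.TL (cr)

variable {ι : Type*} {D : Set V} {P : ι → Set V}

/-- Perfect cell. -/
structure Perfect (D : Set V) (P : ι → Set V) (loss : ι → ℝ) (η : ℝ) (i : ι) : Prop where
  card : (S P i).ncard = 6
  small : loss i ≤ η
  full : ∀ v ∈ S P i, v ∈ Fv D P ∧ kv P v = 3
  only : ∀ v ∈ P i, (∃ j, v ∈ S P j) → v ∈ S P i

/-- The corners of the tiling, as a finset. -/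
noncomputable def Tiling.M [Finite ι] (h : Tiling D P) : Finset V := h.union_finite.toFinset

theorem Tiling.mem_M [Finite ι] (h : Tiling D P) {v : V} : v ∈ h.M ↔ ∃ i, v ∈ S P i := by
  rw [Tiling.M, Set.Finite.mem_toFinset, mem_iUnion]

open Classical in
/-- The number of corners of the tiling on cell `i` that are not extreme in it. -/
noncomputable def Tiling.tn [Finite ι] (h : Tiling D P) (i : ι) : ℕ :=
  (h.M.filter fun v => v ∈ P i ∧ v ∉ (P i).extremePoints ℝ).card

open Classical in
/-- Weighted double counting. -/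
theorem Tiling.sum_S [Fintype ι] (h : Tiling D P) (φ : V → ℝ) :
    ∑ i, ∑ v ∈ (h.S_finite i).toFinset, φ v = ∑ v ∈ h.M, (kv P v : ℝ) * φ v := by
  have h1 : ∀ i, ∑ v ∈ (h.S_finite i).toFinset, φ v =
      ∑ v ∈ h.M, if v ∈ S P i then φ v else 0 := by
    intro i
    rw [← Finset.sum_filter]
    refine Finset.sum_congr ?_ fun _ _ => rfl
    ext v
    rw [Finset.mem_filter, Set.Finite.mem_toFinset, h.mem_M]
    exact ⟨fun hv => ⟨⟨i, hv⟩, hv⟩, fun hv => hv.2⟩
  simp only [h1]
  rw [Finset.sum_comm]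
  refine Finset.sum_congr rfl fun v _ => ?_
  rw [← Finset.sum_filter, Finset.sum_const, nsmul_eq_mul]
  congr 2
  rw [kv, Set.ncard_eq_toFinset_card _ (Set.toFinite _)]
  congr 1
  ext i
  simp

/-- Non-extreme incidences are paid by the T-vertices. -/
theorem Tiling.sum_tn [Fintype ι] (h : Tiling D P) : ∑ i, h.tn i ≤ (Tv D P).ncard := by
  classical
  have hTfin : (Tv D P).Finite := h.union_finite.subset (by
    rw [h.union_S]; exact fun v hv => Or.inl (Or.inr hv))
  have h1 : ∀ i, h.tn i = ∑ v ∈ h.M, if v ∈ P i ∧ v ∉ (P i).extremePoints ℝ then 1 else 0 := by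
    intro i
    rw [Tiling.tn, Finset.card_filter]
  simp only [h1]
  rw [Finset.sum_comm, Set.ncard_eq_toFinset_card _ hTfin, Finset.card_eq_sum_ones]
  have hsub : hTfin.toFinset ⊆ h.M := by
    intro v hv
    rw [Set.Finite.mem_toFinset] at hv
    exact h.mem_M.mpr hv.2.1
  have h2 : ∀ v ∈ h.M, v ∉ hTfin.toFinset →
      ∑ i, (if v ∈ P i ∧ v ∉ (P i).extremePoints ℝ then 1 else 0) = 0 := by
    intro v hv hvT
    rw [Finset.sum_eq_zero_iff]
    intro i _
    rw [if_neg]
    rintro ⟨h3, h4⟩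
    obtain ⟨j, hj⟩ := h.mem_M.mp hv
    by_cases hfr : v ∈ frontier D
    · exact h4 (h.vb_sub ⟨S_sub_Sh j hj, hfr⟩ h3).1
    · apply hvT
      rw [Set.Finite.mem_toFinset]
      refine ⟨?_, ⟨j, hj⟩, i, h3, h4⟩
      by_contra hcon
      exact hfr ⟨subset_closure (h.sub i h3), hcon⟩
  rw [← Finset.sum_subset hsub (fun v hv hvT => h2 v hv hvT)]
  refine Finset.sum_le_sum fun v hv => ?_
  rw [Set.Finite.mem_toFinset] at hv
  obtain ⟨-, ⟨l, hl⟩, -⟩ := hv
  rw [← Finset.card_filter, Finset.card_le_one]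
  intro i hi j hj
  simp only [Finset.mem_filter, Finset.mem_univ, true_and] at hi hj
  by_contra hij
  exact h.claimB hij hl.1 hi.1 hi.2 hj.1 hj.2

open Classical in
/-- Bad corners. -/
noncomputable def qv (D : Set V) (P : ι → Set V) (v : V) : ℝ :=
  if v ∈ Fv D P ∧ kv P v = 3 then 0 else 1

theorem qv_nonneg (v : V) : 0 ≤ qv D P v := by
  unfold qv
  split_ifs <;> norm_num

/-- Incidences at bad corners. -/
theorem Tiling.sum_qv [Fintype ι] (h : Tiling D P) :
    ∑ v ∈ h.M, (kv P v : ℝ) * qv D P v ≤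
      4 * ∑ v ∈ h.M, (exc D P v : ℝ) + 2 * (Tv D P).ncard + 2 * (Vb D P).ncard := by
  classical
  have hU := h.union_finite
  have hUU := h.union_S
  have hFfin : (Fv D P).Finite := hU.subset (by rw [hUU]; exact fun v hv => Or.inl (Or.inl hv))
  have hTfin : (Tv D P).Finite := hU.subset (by rw [hUU]; exact fun v hv => Or.inl (Or.inr hv))
  have hBfin : (Vb D P).Finite := hU.subset (by rw [hUU]; exact fun v hv => Or.inr hv)
  have hM : h.M = (hFfin.toFinset ∪ hTfin.toFinset) ∪ hBfin.toFinset := by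
    ext v
    simp only [Tiling.M, Set.Finite.mem_toFinset, Finset.mem_union, hUU, Set.mem_union]
  have hd1 : Disjoint hFfin.toFinset hTfin.toFinset := by
    rw [Finset.disjoint_left]
    intro v hv hv'
    simp only [Set.Finite.mem_toFinset] at hv hv'
    exact Set.disjoint_left.mp disj_FT hv hv'
  have hd2 : Disjoint (hFfin.toFinset ∪ hTfin.toFinset) hBfin.toFinset := by
    rw [Finset.disjoint_left]
    intro v hv hv'
    simp only [Set.Finite.mem_toFinset, Finset.mem_union] at hv hv'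
    rcases hv with hv | hv
    · exact Set.disjoint_left.mp disj_FB hv hv'
    · exact Set.disjoint_left.mp disj_TB hv hv'
  have eF : ∑ v ∈ hFfin.toFinset, (kv P v : ℝ) * qv D P v ≤
      ∑ v ∈ hFfin.toFinset, 4 * (exc D P v : ℝ) := by
    refine Finset.sum_le_sum fun v hv => ?_
    have hv' : v ∈ Fv D P := by simpa using hv
    have h3 := h.kv_F hv'
    have hexc : exc D P v = kv P v - 3 := by rw [exc, if_pos hv']
    by_cases hk : kv P v = 3
    · rw [qv, if_pos ⟨hv', hk⟩, mul_zero]
      positivity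
    · rw [qv, if_neg (fun h0 => hk h0.2), mul_one]
      have : kv P v ≤ 4 * exc D P v := by omega
      exact_mod_cast this
  have eO : ∀ v, (v ∈ Tv D P ∨ v ∈ Vb D P) →
      (kv P v : ℝ) * qv D P v ≤ (exc D P v : ℝ) + 2 := by
    intro v hv
    have hnF : v ∉ Fv D P := by
      rcases hv with hv | hv
      · exact fun h0 => Set.disjoint_left.mp disj_FT h0 hv
      · exact fun h0 => Set.disjoint_left.mp disj_FB h0 hv
    have h2 : 2 ≤ kv P v := by
      rcases hv with hv | hv
      · exact h.kv_T hv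
      · exact h.kv_B hv
    have hexc : exc D P v = kv P v - 2 := by rw [exc, if_neg hnF]
    rw [qv, if_neg (fun h0 => hnF h0.1), mul_one]
    have : kv P v ≤ exc D P v + 2 := by omega
    exact_mod_cast this
  have eT : ∑ v ∈ hTfin.toFinset, (kv P v : ℝ) * qv D P v ≤
      ∑ v ∈ hTfin.toFinset, (exc D P v : ℝ) + 2 * (Tv D P).ncard := by
    rw [Set.ncard_eq_toFinset_card _ hTfin]
    calc ∑ v ∈ hTfin.toFinset, (kv P v : ℝ) * qv D P v
        ≤ ∑ v ∈ hTfin.toFinset, ((exc D P v : ℝ) + 2) :=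
          Finset.sum_le_sum fun v hv => eO v (Or.inl (by simpa using hv))
      _ = _ := by rw [Finset.sum_add_distrib, Finset.sum_const, nsmul_eq_mul]; ring
  have eB : ∑ v ∈ hBfin.toFinset, (kv P v : ℝ) * qv D P v ≤
      ∑ v ∈ hBfin.toFinset, (exc D P v : ℝ) + 2 * (Vb D P).ncard := by
    rw [Set.ncard_eq_toFinset_card _ hBfin]
    calc ∑ v ∈ hBfin.toFinset, (kv P v : ℝ) * qv D P v
        ≤ ∑ v ∈ hBfin.toFinset, ((exc D P v : ℝ) + 2) :=
          Finset.sum_le_sum fun v hv => eO v (Or.inr (by simpa using hv))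
      _ = _ := by rw [Finset.sum_add_distrib, Finset.sum_const, nsmul_eq_mul]; ring
  rw [← Finset.mul_sum] at eF
  rw [hM, Finset.sum_union hd2, Finset.sum_union hd1, Finset.sum_union hd2,
    Finset.sum_union hd1]
  have p1 : (0 : ℝ) ≤ ∑ v ∈ hTfin.toFinset, (exc D P v : ℝ) :=
    Finset.sum_nonneg fun _ _ => Nat.cast_nonneg _
  have p2 : (0 : ℝ) ≤ ∑ v ∈ hBfin.toFinset, (exc D P v : ℝ) :=
    Finset.sum_nonneg fun _ _ => Nat.cast_nonneg _
  linarith

open Classical in
/-- **Bookkeeping**: incidences of the cells that are not perfect. -/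
theorem Tiling.nonperfect [Fintype ι] (h : Tiling D P) (loss : ι → ℝ) {η g τ C₁ : ℝ}
    (hη : 0 < η) (hg : 0 < g) (hτ : 0 < τ) (hC₁ : 0 ≤ C₁)
    (hl : ∀ i, 0 ≤ loss i) (hgap : ∀ i, (S P i).ncard ≠ 6 → g ≤ loss i)
    (hm : ∀ i, ((S P i).ncard : ℝ) ≤ C₁ + loss i / τ) :
    ∑ i ∈ Finset.univ.filter (fun i => ¬ Perfect D P loss η i),
        (((S P i).ncard : ℝ) + h.tn i) ≤
      (C₁ / min (min g η) 1 + 1 / τ + 1) * (∑ i, loss i +
        (4 * ∑ v ∈ h.M, (exc D P v : ℝ) + 3 * (Tv D P).ncard + 2 * (Vb D P).ncard)) := by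
  set g₀ := min (min g η) 1 with hg₀
  have hg₀pos : 0 < g₀ := lt_min (lt_min hg hη) one_pos
  set C := C₁ / g₀ + 1 / τ + 1 with hC
  have hCpos : 0 < C := by positivity
  have key : ∀ i, ¬ Perfect D P loss η i → ((S P i).ncard : ℝ) + h.tn i ≤
      C * (loss i + ∑ v ∈ (h.S_finite i).toFinset, qv D P v + h.tn i) := by
    intro i hi
    set x := loss i + ∑ v ∈ (h.S_finite i).toFinset, qv D P v + h.tn i with hx
    have hq0 : 0 ≤ ∑ v ∈ (h.S_finite i).toFinset, qv D P v :=
      Finset.sum_nonneg fun v _ => qv_nonneg v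
    have ht0 : (0 : ℝ) ≤ h.tn i := Nat.cast_nonneg _
    have hl0 := hl i
    have hxg : g₀ ≤ x := by
      by_cases h1 : (S P i).ncard = 6
      · by_cases h2 : loss i ≤ η
        · by_cases h3 : ∀ v ∈ S P i, v ∈ Fv D P ∧ kv P v = 3
          · -- a T-incidence
            have h4 : ¬ ∀ v ∈ P i, (∃ j, v ∈ S P j) → v ∈ S P i := fun h4 => hi ⟨h1, h2, h3, h4⟩
            push Not at h4
            obtain ⟨v, hv, ⟨j, hj⟩, hvS⟩ := h4
            have hne : v ∉ (P i).extremePoints ℝ := by
              intro hext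
              apply hvS
              refine ⟨hext, ?_⟩
              by_cases hij : j = i
              · subst hij
                exact absurd hj hvS
              · exact ⟨j, hij, hj.1.1⟩
            have : 1 ≤ h.tn i := by
              rw [Tiling.tn, Finset.one_le_card]
              exact ⟨v, by rw [Finset.mem_filter]; exact ⟨h.mem_M.mpr ⟨j, hj⟩, hv, hne⟩⟩
            have h5 : (1 : ℝ) ≤ h.tn i := by exact_mod_cast this
            have : g₀ ≤ 1 := min_le_right _ _
            linarith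
          · push Not at h3
            obtain ⟨v, hv, hv2⟩ := h3
            have hq1 : qv D P v = 1 := by
              rw [qv, if_neg]
              rintro ⟨h5, h6⟩
              exact hv2 h5 h6
            have h6 : qv D P v ≤ ∑ v ∈ (h.S_finite i).toFinset, qv D P v :=
              Finset.single_le_sum (f := fun v => qv D P v) (fun v _ => qv_nonneg v)
                (by rw [Set.Finite.mem_toFinset]; exact hv)
            have : g₀ ≤ 1 := min_le_right _ _
            linarith
        · push Not at h2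
          have : g₀ ≤ η := (min_le_left _ _).trans (min_le_right _ _)
          linarith
      · have h2 := hgap i h1
        have : g₀ ≤ g := (min_le_left _ _).trans (min_le_left _ _)
        linarith
    have hx0 : 0 < x := lt_of_lt_of_le hg₀pos hxg
    have e1 : C₁ ≤ C₁ / g₀ * x := by
      rw [div_mul_eq_mul_div, le_div_iff₀ hg₀pos]
      exact mul_le_mul_of_nonneg_left hxg hC₁
    have e2 : loss i / τ ≤ 1 / τ * x := by
      rw [div_mul_eq_mul_div, one_mul]
      exact div_le_div_of_nonneg_right (by linarith) hτ.le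
    have e3 : (h.tn i : ℝ) ≤ 1 * x := by linarith
    have e4 : C * x = C₁ / g₀ * x + 1 / τ * x + 1 * x := by rw [hC]; ring
    have := hm i
    linarith
  have hall : ∀ i, 0 ≤ C * (loss i + ∑ v ∈ (h.S_finite i).toFinset, qv D P v + h.tn i) := by
    intro i
    have hq0 : 0 ≤ ∑ v ∈ (h.S_finite i).toFinset, qv D P v :=
      Finset.sum_nonneg fun v _ => qv_nonneg v
    have ht0 : (0 : ℝ) ≤ h.tn i := Nat.cast_nonneg _
    have hl0 := hl i
    positivity
  calc ∑ i ∈ Finset.univ.filter (fun i => ¬ Perfect D P loss η i),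
        (((S P i).ncard : ℝ) + h.tn i)
      ≤ ∑ i ∈ Finset.univ.filter (fun i => ¬ Perfect D P loss η i),
        C * (loss i + ∑ v ∈ (h.S_finite i).toFinset, qv D P v + h.tn i) :=
        Finset.sum_le_sum fun i hi => key i (Finset.mem_filter.mp hi).2
    _ ≤ ∑ i, C * (loss i + ∑ v ∈ (h.S_finite i).toFinset, qv D P v + h.tn i) :=
        Finset.sum_le_sum_of_subset_of_nonneg (Finset.filter_subset _ _) fun i _ _ => hall i
    _ = C * (∑ i, loss i + (∑ v ∈ h.M, (kv P v : ℝ) * qv D P v) + ∑ i, (h.tn i : ℝ)) := by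
        rw [← Finset.mul_sum, Finset.sum_add_distrib, Finset.sum_add_distrib, h.sum_S]
    _ ≤ _ := by
        have h1 := h.sum_qv
        have h2 : (∑ i, (h.tn i : ℝ)) ≤ (Tv D P).ncard := by exact_mod_cast h.sum_tn
        refine mul_le_mul_of_nonneg_left ?_ hCpos.le
        linarith

end W82
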