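import Pool.Agent.W82_c2305b.Account
import Pool.Agent.W82_c2305b.Perfect

/-!
# MP_c2305b_co, ALLFAT: boundary edges and sides
-/

open Set Module MeasureTheory Topology Filter

namespace C2305bAF

open W82
open C2305b.TL (cr crL crL_apply)

variable {ι : Type*} {D : Set V} {P : ι → Set V}

/-- A side whose cell is nondegenerate is an edge of this cell, and a boundary edge. -/
theorem side_edge [Finite ι] (h : Tiling D P) (hi : (interior (convexHull ℝ (Vb D P))).Nonempty)
    {p q : V} (hs : Side D P p q) {k : ι} (hk1 : segment ℝ p q ⊆ P k) (hk2 : cap D p q ⊆ P k)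
    (hnd : (interior (convexHull ℝ (S P k))).Nonempty) :
    (h.toTL hi).E ⟨k, hnd⟩ p q ∧ (h.toTL hi).Bd p q := by
  set T := h.toTL hi with hT
  obtain ⟨hp, hq, hne, hl, hfree⟩ := hs
  have hpk : p ∈ P k := hk1 (left_mem_segment ℝ p q)
  have hqk : q ∈ P k := hk1 (right_mem_segment ℝ p q)
  have hpS := h.vb_sub hp hpk
  have hqS := h.vb_sub hq hqk
  have hB : T.Bd p q := by
    intro x hx
    exact convexHull_min hl (C2305b.TL.Tiling.convex_cr (q - p) p) hx
  have hsub : convexHull ℝ (S P k) ⊆ T.R := by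
    have : T.P ⟨k, hnd⟩ ⊆ T.R := by
      rw [← T.union]
      exact subset_iUnion T.P ⟨k, hnd⟩
    exact this
  have hcrpos : ∃ z ∈ P k, 0 < cr (q - p) (z - p) := by
    obtain ⟨z, hz⟩ := hnd
    refine ⟨z, h.hull_sub k (interior_subset hz), ?_⟩
    exact C2305b.TL.cr_pos_of_mem_interior (sub_ne_zero.mpr hne)
      (fun x hx => hB x (hsub hx)) hz
  refine ⟨⟨⟨h.mem_M.mpr ⟨k, hpS⟩, subset_convexHull ℝ _ hpS⟩,
    ⟨h.mem_M.mpr ⟨k, hqS⟩, subset_convexHull ℝ _ hqS⟩, hne, fun x hx => hB x (hsub hx), ?_⟩, hB⟩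
  intro y hy hyo
  obtain ⟨l, hyl⟩ := h.mem_M.mp hy
  have hyk : y ∈ P k := hk1 (openSegment_subset_segment ℝ p q hyo)
  have hlk : k ≠ l := by
    rintro rfl
    have h1 := hyl.1
    rw [mem_extremePoints] at h1
    obtain ⟨h2, h3⟩ := h1.2 p hpk q hqk hyo
    exact hne (h3.trans h2.symm)
  have hyD : y ∈ D := h.sub k hyk
  have hyint : y ∈ interior D := by
    by_contra hcon
    exact hfree y ⟨S_sub_Sh l hyl, by
      rw [frontier, Set.mem_sdiff]; exact ⟨subset_closure hyD, hcon⟩⟩ hyo
  obtain ⟨a, b, ha, hb, hab, hy'⟩ := hyo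
  obtain ⟨z, hzk, hz⟩ := hcrpos
  set ε : ℝ := min a b with hε
  have hε0 : 0 < ε := lt_min ha hb
  have hseg : ∀ r : ℝ, |r| ≤ ε → y + r • (q - p) ∈ P k := by
    intro r hr
    rw [abs_le] at hr
    apply hk1
    refine ⟨a - r, b + r, ?_, ?_, by linarith, ?_⟩
    · have := min_le_left a b; linarith
    · have := min_le_right a b; linarith
    · rw [← hy']; module
  have hhalf := half_nhds (X := P k) (h.conv k) (v := y) (w := ε • (q - p)) (q := z)
    (smul_ne_zero hε0.ne' (sub_ne_zero.mpr hne)) (hseg ε (by rw [abs_of_pos hε0]))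
    (by
      have := hseg (-ε) (by rw [abs_neg, abs_of_pos hε0])
      rw [neg_smul, ← sub_eq_add_neg] at this
      exact this) hzk (-(crL (q - p))) (by
        rw [neg_apply, crL_apply, C2305b.TL.cr_smul_right, C2305b.TL.cr_self]; simp) (by
        rw [neg_apply, crL_apply, neg_apply, crL_apply]
        have h1 : cr (q - p) (y - p) = 0 := by
          have : y - p = b • (q - p) := by
            rw [← hy']
            have : a = 1 - b := by linarith
            rw [this]; module
          rw [this, C2305b.TL.cr_smul_right, C2305b.TL.cr_self, mul_zero]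
        rw [C2305b.TL.cr_sub_right] at h1 hz
        linarith)
  have hev : ∀ᶠ r in 𝓝 y, r ∈ P k := by
    have hDn : ∀ᶠ r in 𝓝 y, r ∈ D := mem_interior_iff_mem_nhds.mp hyint
    filter_upwards [hhalf, hDn] with r hr hrD
    by_cases hc : (-(crL (q - p))) r ≤ (-(crL (q - p))) y
    · exact hr hc
    · apply hk2
      refine ⟨hrD, ?_⟩
      rw [neg_apply, crL_apply, neg_apply, crL_apply] at hc
      have h1 : cr (q - p) (y - p) = 0 := by
        have : y - p = b • (q - p) := by
          rw [← hy']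
          have : a = 1 - b := by linarith
          rw [this]; module
        rw [this, C2305b.TL.cr_smul_right, C2305b.TL.cr_self, mul_zero]
      rw [C2305b.TL.cr_sub_right] at h1 ⊢
      linarith
  have hyik : y ∈ interior (P k) := mem_interior_iff_mem_nhds.mpr hev
  exact h.int_disj hlk hyik hyl.1.1

/-- Every boundary edge is contained in a side. -/
theorem edge_side [Finite ι] (h : Tiling D P) (hi : (interior (convexHull ℝ (Vb D P))).Nonempty)
    {i : {i : ι // (interior (convexHull ℝ (S P i))).Nonempty}} {v w : V}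
    (hE : (h.toTL hi).E i v w) (hB : (h.toTL hi).Bd v w) :
    ∃ p q k, ∃ a b : ℝ, Side D P p q ∧ segment ℝ p q ⊆ P k ∧ cap D p q ⊆ P k ∧
      v = p + a • (q - p) ∧ w = p + b • (q - p) ∧ 0 ≤ a ∧ a < b ∧ b ≤ 1 := by
  set T := h.toTL hi with hT
  set m : V := (1/2 : ℝ) • v + (1/2 : ℝ) • w with hm
  have hvR : v ∈ T.R := by
    rw [← T.union]; exact mem_iUnion.mpr ⟨i, hE.1.2⟩
  have hwR : w ∈ T.R := by
    rw [← T.union]; exact mem_iUnion.mpr ⟨i, hE.2.1.2⟩
  have hne := hE.2.2.1
  have hmR : m ∈ T.R := T.convR.segment_subset hvR hwR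
    ⟨1/2, 1/2, by norm_num, by norm_num, by norm_num, rfl⟩
  have hcrm : cr (w - v) (m - v) = 0 := by
    have : m - v = (1/2 : ℝ) • (w - v) := by rw [hm]; module
    rw [this, C2305b.TL.cr_smul_right, C2305b.TL.cr_self, mul_zero]
  have hmi : m ∉ interior T.R := by
    intro h0
    have := C2305b.TL.cr_pos_of_mem_interior (sub_ne_zero.mpr hne) hB h0
    linarith
  set T1 := h.sideTL hi with hT1
  have hP : T1.P () = convexHull ℝ (Vb D P) := by
    change convexHull ℝ (h.vb_finite.toFinset : Set V) = _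
    rw [Set.Finite.coe_toFinset]
  obtain ⟨p, q, hpq, hmpq⟩ := T1.exists_edge () (x := m) (by rw [hP]; exact hmR)
    (by rw [hP]; exact hmi)
  have hs : Side D P p q := (h.side_iff hi).mpr hpq
  obtain ⟨k, hk1, hk2⟩ := h.cap_cell hs
  have hBpq : ∀ x ∈ T.R, 0 ≤ cr (q - p) (x - p) := by
    intro x hx
    exact convexHull_min hs.2.2.2.1 (C2305b.TL.Tiling.convex_cr (q - p) p) hx
  have hqp : q - p ≠ 0 := sub_ne_zero.mpr hs.2.2.1
  obtain ⟨x, y, hx, hy, hxy, hxym⟩ := hmpq
  have hm2 : m = p + y • (q - p) := by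
    rw [← hxym]
    have : x = 1 - y := by linarith
    rw [this]; module
  have hcm : cr (q - p) (m - p) = 0 := by
    have : m - p = y • (q - p) := by rw [hm2]; module
    rw [this, C2305b.TL.cr_smul_right, C2305b.TL.cr_self, mul_zero]
  have hsum : cr (q - p) (v - p) + cr (q - p) (w - p) = 0 := by
    have e : m - p = (1/2 : ℝ) • (v - p) + (1/2 : ℝ) • (w - p) := by rw [hm]; module
    rw [e, C2305b.TL.cr_add_right, C2305b.TL.cr_smul_right, C2305b.TL.cr_smul_right] at hcm
    linarith
  have h1 := hBpq v hvR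
  have h2 := hBpq w hwR
  obtain ⟨a, ha⟩ := C2305b.TL.exists_smul_of_cr_eq_zero hqp (b := v - p) (by linarith)
  obtain ⟨b, hb⟩ := C2305b.TL.exists_smul_of_cr_eq_zero hqp (b := w - p) (by linarith)
  have hva : v = p + a • (q - p) := by rw [← ha]; abel
  have hwb : w = p + b • (q - p) := by rw [← hb]; abel
  have hab2 : y = (a + b) / 2 := by
    have e : (y - (a + b) / 2) • (q - p) = 0 := by
      have h5 : m = p + ((a + b) / 2) • (q - p) := by
        rw [hm, hva, hwb]; module
      have h6 : p + y • (q - p) = p + ((a + b) / 2) • (q - p) := by rw [← hm2, h5]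
      rw [sub_smul, sub_eq_zero]
      exact add_left_cancel h6
    rcases smul_eq_zero.mp e with h7 | h7
    · linarith
    · exact absurd h7 hqp
  have hwv : w - v = (b - a) • (q - p) := by rw [hva, hwb]; module
  have hba : a < b := by
    obtain ⟨z, hz⟩ := hi
    have h8 := C2305b.TL.cr_pos_of_mem_interior hqp hBpq hz
    have h9 := hB z (interior_subset hz)
    have e : z - v = (z - p) - a • (q - p) := by rw [hva]; module
    rw [hwv, e, C2305b.TL.cr_smul_left, C2305b.TL.cr_sub_right, C2305b.TL.cr_smul_right,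
      C2305b.TL.cr_self, mul_zero, sub_zero] at h9
    have h10 : 0 ≤ b - a := by
      by_contra hcon
      push Not at hcon
      have := mul_neg_of_neg_of_pos hcon h8
      linarith
    rcases h10.lt_or_eq with h11 | h11
    · linarith
    · exfalso
      apply hne
      rw [← sub_eq_zero, hwv, ← h11, zero_smul]
  have hpW : p ∈ T.W := h.mem_M.mpr ⟨k, h.vb_sub hs.1 (hk1 (left_mem_segment ℝ p q))⟩
  have hqW : q ∈ T.W := h.mem_M.mpr ⟨k, h.vb_sub hs.2.1 (hk1 (right_mem_segment ℝ p q))⟩
  have ha0 : 0 ≤ a := by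
    by_contra hcon
    push Not at hcon
    have hb0 : 0 < b := by linarith
    apply hE.2.2.2.2 p hpW
    refine ⟨b / (b - a), -a / (b - a), div_pos hb0 (by linarith), div_pos (by linarith)
      (by linarith), by rw [← add_div]; rw [div_eq_one_iff_eq (by linarith)]; ring, ?_⟩
    rw [hva, hwb]
    have e : (b / (b - a)) • (p + a • (q - p)) + (-a / (b - a)) • (p + b • (q - p)) =
        (b / (b - a) + -a / (b - a)) • p +
          (b / (b - a) * a + -a / (b - a) * b) • (q - p) := by module
    rw [e]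
    have e1 : b / (b - a) + -a / (b - a) = 1 := by
      rw [← add_div, div_eq_one_iff_eq (by linarith)]; ring
    have e2 : b / (b - a) * a + -a / (b - a) * b = 0 := by ring
    rw [e1, e2, one_smul, zero_smul, add_zero]
  have hb1 : b ≤ 1 := by
    by_contra hcon
    push Not at hcon
    have ha1 : a < 1 := by linarith
    apply hE.2.2.2.2 q hqW
    refine ⟨(b - 1) / (b - a), (1 - a) / (b - a), div_pos (by linarith) (by linarith),
      div_pos (by linarith) (by linarith), by
        rw [← add_div]; rw [div_eq_one_iff_eq (by linarith)]; ring, ?_⟩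
    rw [hva, hwb]
    have e : ((b - 1) / (b - a)) • (p + a • (q - p)) + ((1 - a) / (b - a)) • (p + b • (q - p)) =
        ((b - 1) / (b - a) + (1 - a) / (b - a)) • p +
          ((b - 1) / (b - a) * a + (1 - a) / (b - a) * b) • (q - p) := by module
    rw [e]
    have h12 : b - a ≠ 0 := by linarith
    have e1 : (b - 1) / (b - a) + (1 - a) / (b - a) = 1 := by
      rw [← add_div, div_eq_one_iff_eq h12]; ring
    have e2 : (b - 1) / (b - a) * a + (1 - a) / (b - a) * b = 1 := by
      field_simp
      ring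
    rw [e1, e2, one_smul, one_smul]
    abel
  exact ⟨p, q, k, a, b, hs, hk1, hk2, hva, hwb, ha0, hba, hb1⟩

/-- **Boundary edges at nondegenerate cells are sides**, and their caps lie in the cell. -/
theorem bd_side [Finite ι] (h : Tiling D P) (hi : (interior (convexHull ℝ (Vb D P))).Nonempty)
    {i : {i : ι // (interior (convexHull ℝ (S P i))).Nonempty}} {v w : V}
    (hE : (h.toTL hi).E i v w) (hB : (h.toTL hi).Bd v w)
    (hnd : (∀ l, v ∈ P l → (interior (convexHull ℝ (S P l))).Nonempty) ∨
      (∀ l, w ∈ P l → (interior (convexHull ℝ (S P l))).Nonempty)) :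
    Side D P v w ∧ segment ℝ v w ⊆ P i ∧ cap D v w ⊆ P i := by
  obtain ⟨p, q, k, a, b, hs, hk1, hk2, hva, hwb, ha, hab, hb⟩ := edge_side h hi hE hB
  have hseg : ∀ r : ℝ, 0 ≤ r → r ≤ 1 → p + r • (q - p) ∈ segment ℝ p q := by
    intro r h0 h1
    rw [segment_eq_image']
    exact ⟨r, ⟨h0, h1⟩, rfl⟩
  have hkn : (interior (convexHull ℝ (S P k))).Nonempty := by
    rcases hnd with h1 | h1
    · apply h1
      apply hk1
      rw [hva]
      exact hseg a ha (by linarith)
    · apply h1
      apply hk1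
      rw [hwb]
      exact hseg b (by linarith) hb
  obtain ⟨hE2, -⟩ := side_edge h hi hs hk1 hk2 hkn
  have hfree := hE2.2.2.2.2
  have hop : ∀ r : ℝ, 0 < r → r < 1 → p + r • (q - p) ∈ openSegment ℝ p q := by
    intro r h0 h1
    exact ⟨1 - r, r, by linarith, h0, by ring, by module⟩
  have ha0 : a = 0 := by
    rcases ha.lt_or_eq with h1 | h1
    · exfalso
      apply hfree v hE.1.1
      rw [hva]
      exact hop a h1 (by linarith)
    · exact h1.symm
  have hb1 : b = 1 := by
    rcases hb.lt_or_eq with h1 | h1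
    · exfalso
      apply hfree w hE.2.1.1
      rw [hwb]
      exact hop b (by linarith) h1
    · exact h1
  have hv : v = p := by rw [hva, ha0, zero_smul, add_zero]
  have hw : w = q := by rw [hwb, hb1, one_smul]; abel
  subst hv hw
  have hik : i = ⟨k, hkn⟩ := (h.toTL hi).edge_unique hE hE2
  rw [hik]
  exact ⟨hs, hk1, hk2⟩

end C2305bAF
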