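import Pool.Agent.W82_c2305b.AF1
import Pool.Agent.W82_c2305b.AF6
import Pool.Agent.W_c2305b_h35.Turn1

/-!
# MP_c2305b_co, ALLFAT: rotations modulo `π`, cells on the left of their edges
-/

open Set Module MeasureTheory Topology Filter

namespace C2305bAF

open W82
open C2305b.TL (cr dt crL crL_apply cr_self cr_sub_right cr_smul_right)

/-- A rotation adds its angle to the direction modulo `π`. -/
theorem dr_rot {a b : V} {l : ℝ} (ha : a ≠ 0) (hb : b ≠ 0)
    (h : ‖a‖ • b = ‖b‖ • C2305bFat.rot l a) :
    dr b = dr a + ((l : ℝ) : AddCircle Real.pi) := by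
  rw [dr_iff ha hb]
  have hn : ‖a‖ ≠ 0 := norm_ne_zero_iff.mpr ha
  have h0 : ‖a‖ * b 0 = ‖b‖ * (Real.cos l * a 0 - Real.sin l * a 1) := by
    have := congrArg (fun v : V => v 0) h
    simpa [C2305bFat.rot] using this
  have h1 : ‖a‖ * b 1 = ‖b‖ * (Real.sin l * a 0 + Real.cos l * a 1) := by
    have := congrArg (fun v : V => v 1) h
    simpa [C2305bFat.rot] using this
  have e1 : ‖a‖ * dt a b = ‖b‖ * (Real.cos l * dt a a) := by
    unfold dt
    linear_combination a 0 * h0 + a 1 * h1
  have e2 : ‖a‖ * cr a b = ‖b‖ * (Real.sin l * dt a a) := by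
    unfold dt cr
    linear_combination a 0 * h1 - a 1 * h0
  apply mul_left_cancel₀ hn
  linear_combination Real.sin l * e1 - Real.cos l * e2

variable {ι : Type*} {D : Set V} {P : ι → Set V}

/-- Two cells with a common segment are separated by its line. -/
theorem sep_left (h : Tiling D P) {i j : ι} (hij : i ≠ j) {v w z : V} (hvw : w ≠ v)
    (hvi : v ∈ P i) (hwi : w ∈ P i) (hvj : v ∈ P j) (hwj : w ∈ P j) (hz : z ∈ P i)
    (hzp : 0 < cr (w - v) (z - v)) : ∀ x ∈ P i, 0 ≤ cr (w - v) (x - v) := by
  obtain ⟨f, c, hf, h1, h2⟩ := h.sep hij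
  have fv : f v = c := le_antisymm (h1 v hvi) (h2 v hvj)
  have fw : f w = c := le_antisymm (h1 w hwi) (h2 w hwj)
  obtain ⟨l, hl⟩ := C2305b.TL.functional_eq (f := f) (sub_ne_zero.mpr hvw)
    (by rw [map_sub, fv, fw, sub_self])
  have key : ∀ x ∈ P i, l * cr (w - v) (x - v) ≤ 0 := by
    intro x hx
    have := h1 x hx
    have e : f x - f v = l * cr (w - v) (x - v) := by
      rw [hl x, hl v, cr_sub_right]; ring
    linarith
  have hl0 : l < 0 := by
    have h3 := key z hz
    rcases lt_trichotomy l 0 with h4 | h4 | h4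
    · exact h4
    · exfalso
      apply hf
      ext x
      rw [hl x, h4, zero_mul]; rfl
    · have := mul_pos h4 hzp
      linarith
  intro x hx
  have h3 := key x hx
  by_contra hcon
  push Not at hcon
  have := mul_pos_of_neg_of_neg hl0 hcon
  linarith

/-- The true cell is on the left of its edges, except at its own sides. -/
theorem left_of_edge [Finite ι] (h : Tiling D P)
    (hi : (interior (convexHull ℝ (Vb D P))).Nonempty)
    {i : {i : ι // (interior (convexHull ℝ (S P i))).Nonempty}} {v w : V}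
    (hE : (h.toTL hi).E i v w)
    (hn : ¬ (Side D P v w ∧ cap D v w ⊆ P i)) :
    ∀ x ∈ P i, 0 ≤ cr (w - v) (x - v) := by
  have hvi : v ∈ P i := h.hull_sub i hE.1.2
  have hwi : w ∈ P i := h.hull_sub i hE.2.1.2
  obtain ⟨z, hz⟩ := i.2
  have hzp : 0 < cr (w - v) (z - v) :=
    C2305b.TL.cr_pos_of_mem_interior (sub_ne_zero.mpr hE.2.2.1) hE.2.2.2.1 hz
  have hzi : z ∈ P i := h.hull_sub i (interior_subset hz)
  rcases (h.toTL hi).boundary_or_twin hE with hB | ⟨j, hj⟩
  · obtain ⟨p, q, k, a, b, hs, hk1, hk2, hva, hwb, ha, hab, hb⟩ := edge_side h hi hE hB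
    have hseg : ∀ r : ℝ, 0 ≤ r → r ≤ 1 → p + r • (q - p) ∈ segment ℝ p q := by
      intro r h0 h1
      rw [segment_eq_image']
      exact ⟨r, ⟨h0, h1⟩, rfl⟩
    have hvk : v ∈ P k := by
      apply hk1; rw [hva]; exact hseg a ha (by linarith)
    have hwk : w ∈ P k := by
      apply hk1; rw [hwb]; exact hseg b (by linarith) hb
    by_cases hik : (i : ι) = k
    · exfalso
      subst hik
      obtain ⟨hE2, -⟩ := side_edge h hi hs hk1 hk2 i.2
      have hop : ∀ r : ℝ, 0 < r → r < 1 → p + r • (q - p) ∈ openSegment ℝ p q := by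
        intro r h0 h1
        exact ⟨1 - r, r, by linarith, h0, by ring, by module⟩
      have ha0 : a = 0 := by
        rcases ha.lt_or_eq with h1 | h1
        · exfalso
          apply hE2.2.2.2.2 v hE.1.1
          rw [hva]
          exact hop a h1 (by linarith)
        · exact h1.symm
      have hb1 : b = 1 := by
        rcases hb.lt_or_eq with h1 | h1
        · exfalso
          apply hE2.2.2.2.2 w hE.2.1.1
          rw [hwb]
          exact hop b (by linarith) h1
        · exact h1
      have hv : v = p := by rw [hva, ha0, zero_smul, add_zero]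
      have hw : w = q := by rw [hwb, hb1, one_smul]; abel
      subst hv hw
      exact hn ⟨hs, hk2⟩
    · exact sep_left h hik hE.2.2.1 hvi hwi hvk hwk hzi hzp
  · have hij : (i : ι) ≠ j := by
      intro h0
      have h0' : i = j := Subtype.ext h0
      subst h0'
      have h3 := hj.2.2.2.1 z (interior_subset hz)
      have h5 : cr (v - w) (z - w) = -cr (w - v) (z - v) := by simp [cr]; ring
      linarith
    exact sep_left h hij hE.2.2.1 hvi hwi (h.hull_sub j hj.2.1.2) (h.hull_sub j hj.1.2) hzi hzp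

/-- The support directions at the ends of a side, modulo `π`. -/
theorem dr_turn {ι : Type} [Fintype ι] {D K : Set V} {P : ι → Set V} (h : C2305bFat.Vio D P K)
    {T : V → V} (hT : C2305bFat.Frame D P T) {p q : V} (hs : Side D P p q) :
    dr (T q) = dr (T p) + ((C2305bFat.turn T p q : ℝ) : AddCircle Real.pi) :=
  dr_rot (hT p hs.1).1 (hT q hs.2.1).1 (C2305bFat.turn_rot h hT hs)

end C2305bAF
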