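import Pool.Agent.W82_c2305b.AF6
import Pool.Agent.W_c2305b_h35.CellLeans
import Pool.Agent.W_c2305b_h35.Acc
import Pool.Agent.W_c2305ba_h79.NearAbs

/-!
# MP_c2305b_co, ALLFAT: the abstract system of a violation
-/

open Set Module MeasureTheory Topology Filter

namespace C2305bAF

open W82
open C2305b.TL (cr dt)
open C2305bFat (Vio Frame turn NearP miss capsOf Own)

/-- The abstract system attached to a partition with support directions `Tf`. -/
noncomputable def plug {ι : Type} [Fintype ι] {D : Set V} {P : ι → Set V} (h : Tiling D P)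
    (hi : (interior (convexHull ℝ (Vb D P))).Nonempty) (own : V × V → ι) (Tf : V → V)
    (ls le : ι → V × V → ℝ) (kk : ι → V × V → ℤ) (m : ι → ℝ) (A6 τ : ℝ) (c : V → V)
    (l0 e1 : ℝ) : C2305bA.Sys ι V where
  W := (h.toTL hi).W
  In := fun v i => v ∈ P i
  E := fun i => open Classical in
    if hn : (interior (convexHull ℝ (S P i))).Nonempty then (h.toTL hi).edges ⟨i, hn⟩ else ∅
  bd := fun p => p ∈ h.sides hi ∧ (interior (convexHull ℝ (S P (own p)))).Nonempty
  lo := fun p => l0 ≤ dist p.1 p.2
  ls := ls
  le := le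
  kk := kk
  tu := fun p => turn Tf p.1 p.2
  m := m
  cap := capsOf h hi own
  loss := lossOf P A6 τ
  c := c
  Sp := fun i => ∃ s ∈ h.sides hi, own s = i ∧ e1 < turn Tf s.1 s.2

section

variable {ι : Type} [Fintype ι] {D : Set V} {P : ι → Set V} {h : Tiling D P}
  {hi : (interior (convexHull ℝ (Vb D P))).Nonempty} {own : V × V → ι} {Tf : V → V}
  {ls le : ι → V × V → ℝ} {kk : ι → V × V → ℤ} {m : ι → ℝ} {A6 τ : ℝ} {c : V → V} {l0 e1 : ℝ}

theorem plug_E {i : ι} (hn : (interior (convexHull ℝ (S P i))).Nonempty) :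
    (plug h hi own Tf ls le kk m A6 τ c l0 e1).E i = (h.toTL hi).edges ⟨i, hn⟩ := by
  classical
  exact dif_pos hn

theorem plug_mem {i : ι} {e : V × V}
    (he : e ∈ (plug h hi own Tf ls le kk m A6 τ c l0 e1).E i) :
    ∃ hn : (interior (convexHull ℝ (S P i))).Nonempty, e ∈ (h.toTL hi).edges ⟨i, hn⟩ := by
  classical
  by_cases hn : (interior (convexHull ℝ (S P i))).Nonempty
  · rw [plug_E hn] at he
    exact ⟨hn, he⟩
  · have : (plug h hi own Tf ls le kk m A6 τ c l0 e1).E i = ∅ := dif_neg hn
    rw [this] at he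
    simp at he

theorem plug_W {v : V} : v ∈ (plug h hi own Tf ls le kk m A6 τ c l0 e1).W ↔ ∃ i, v ∈ S P i :=
  h.mem_M

/-- A side whose owner is nondegenerate is an edge of the owner only. -/
theorem own_eq (ho : Own h hi own) {i : ι} {hn : (interior (convexHull ℝ (S P i))).Nonempty}
    {e : V × V} (he : e ∈ (h.toTL hi).edges ⟨i, hn⟩) (hs : e ∈ h.sides hi)
    (hno : (interior (convexHull ℝ (S P (own e)))).Nonempty) : own e = i := by
  obtain ⟨h1, h2⟩ := ho e hs
  obtain ⟨h3, -⟩ := side_edge h hi ((h.mem_sides hi).1 hs) h1 h2 hno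
  have h4 := (h.toTL hi).edge_unique h3 ((h.toTL hi).mem_edges.mp he)
  exact congrArg Subtype.val h4

/-- For an edge of a nondegenerate cell: `bd` means that it is a side of this cell. -/
theorem bd_iff (ho : Own h hi own) {i : ι} {hn : (interior (convexHull ℝ (S P i))).Nonempty}
    {e : V × V} (he : e ∈ (h.toTL hi).edges ⟨i, hn⟩) :
    (e ∈ h.sides hi ∧ (interior (convexHull ℝ (S P (own e)))).Nonempty) ↔
      (Side D P e.1 e.2 ∧ cap D e.1 e.2 ⊆ P i) := by
  constructor
  · rintro ⟨hs, hno⟩
    have h1 := own_eq ho he hs hno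
    have h2 := (ho e hs).2
    rw [h1] at h2
    exact ⟨(h.mem_sides hi).1 hs, h2⟩
  · rintro ⟨hs, hc⟩
    have hs' : e ∈ h.sides hi := (h.mem_sides hi).2 hs
    refine ⟨hs', ?_⟩
    by_contra hcon
    have hne : i ≠ own e := by
      intro h0
      rw [← h0] at hcon
      exact hcon hn
    -- the owner has the same chord; the cell `i` would have interior points on both sides
    obtain ⟨h1, h2⟩ := ho e hs'
    have hE := (h.toTL hi).mem_edges.mp he
    obtain ⟨z, hz⟩ := hn
    have hzp : 0 < cr (e.2 - e.1) (z - e.1) :=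
      C2305b.TL.cr_pos_of_mem_interior (sub_ne_zero.mpr hs.2.2.1) hE.2.2.2.1 hz
    have hzi : z ∈ P i := h.hull_sub i (interior_subset hz)
    have hvo : e.1 ∈ P (own e) := h1 (left_mem_segment ℝ _ _)
    have hwo : e.2 ∈ P (own e) := h1 (right_mem_segment ℝ _ _)
    have hleft : ∀ x ∈ P i, 0 ≤ cr (e.2 - e.1) (x - e.1) := by
      obtain ⟨f, c', hf, g1, g2⟩ := h.sep hne
      have fv : f e.1 = c' := le_antisymm (g1 _ (h.hull_sub i hE.1.2)) (g2 _ hvo)
      have fw : f e.2 = c' := le_antisymm (g1 _ (h.hull_sub i hE.2.1.2)) (g2 _ hwo)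
      obtain ⟨l, hl⟩ := C2305b.TL.functional_eq (f := f) (sub_ne_zero.mpr hs.2.2.1)
        (by rw [map_sub, fv, fw, sub_self])
      have key : ∀ x ∈ P i, l * cr (e.2 - e.1) (x - e.1) ≤ 0 := by
        intro x hx
        have := g1 x hx
        have e' : f x - f e.1 = l * cr (e.2 - e.1) (x - e.1) := by
          rw [hl x, hl e.1, C2305b.TL.cr_sub_right (e.2 - e.1) x e.1]; ring
        linarith
      have hl0 : l < 0 := by
        have h3 := key z hzi
        rcases lt_trichotomy l 0 with h4 | h4 | h4
        · exact h4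
        · exfalso
          apply hf
          ext x
          rw [hl x, h4, zero_mul]; rfl
        · have := mul_pos h4 hzp
          linarith
      intro x hx
      have h3 := key x hx
      by_contra hcon'
      push Not at hcon'
      have := mul_pos_of_neg_of_neg hl0 hcon'
      linarith
    -- the cell of the owner has interior points beyond the side
    have hsub : ∀ x ∈ P (own e), cr (e.2 - e.1) (x - e.1) ≤ 0 := by
      -- the hull of its corners is degenerate, so there is no point of the owner on the left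
      intro x hx
      by_contra hpos
      push Not at hpos
      -- `x` on the left and in the hull of the shared points or in a cap
      obtain ⟨f, c', hf, g1, g2⟩ := h.sep hne
      have fv : f e.1 = c' := le_antisymm (g1 _ (h.hull_sub i hE.1.2)) (g2 _ hvo)
      have fw : f e.2 = c' := le_antisymm (g1 _ (h.hull_sub i hE.2.1.2)) (g2 _ hwo)
      obtain ⟨l, hl⟩ := C2305b.TL.functional_eq (f := f) (sub_ne_zero.mpr hs.2.2.1)
        (by rw [map_sub, fv, fw, sub_self])
      have k1 : l * cr (e.2 - e.1) (z - e.1) ≤ 0 := by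
        have := g1 z hzi
        have e' : f z - f e.1 = l * cr (e.2 - e.1) (z - e.1) := by
          rw [hl z, hl e.1, C2305b.TL.cr_sub_right (e.2 - e.1) z e.1]; ring
        linarith
      have k2 : 0 ≤ l * cr (e.2 - e.1) (x - e.1) := by
        have := g2 x hx
        have e' : f x - f e.1 = l * cr (e.2 - e.1) (x - e.1) := by
          rw [hl x, hl e.1, C2305b.TL.cr_sub_right (e.2 - e.1) x e.1]; ring
        linarith
      have hl0 : l ≠ 0 := by
        rintro rfl
        apply hf
        ext y
        rw [hl y, zero_mul]; rfl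
      rcases lt_or_gt_of_ne hl0 with h4 | h4
      · have := mul_neg_of_neg_of_pos h4 hpos
        linarith
      · have := mul_pos h4 hzp
        linarith
    -- an interior point of the owner
    obtain ⟨y, hy⟩ := h.int (own e)
    have hyn : cr (e.2 - e.1) (y - e.1) < 0 := by
      have h5 := C2305b.TL.cr_pos_of_mem_interior (u := -(e.2 - e.1)) (v := e.1)
        (neg_ne_zero.mpr (sub_ne_zero.mpr hs.2.2.1)) (S := P (own e)) (by
          intro x hx
          rw [C2305b.TL.cr_neg_left]
          linarith [hsub x hx]) hy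
      rw [C2305b.TL.cr_neg_left] at h5
      linarith
    have hyc : y ∈ cap D e.1 e.2 := ⟨h.sub _ (interior_subset hy), hyn⟩
    have := hleft y (hc hyc)
    linarith

end

end C2305bAF
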