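import Pool.Agent.W82_c2305b.AF2
import Pool.Agent.W82_c2305b.AF5
import Pool.Agent.W82_c2305b.AF7
import Pool.Agent.W82_c2305b.AF8

/-!
# MP_c2305b_co, ALLFAT: leans of the cells and the cluster equation of the system
-/

open Set Module MeasureTheory Topology Filter

namespace C2305bAF

open W82
open C2305b.TL (cr dt)
open C2305bFat (Vio Frame turn NearP miss capsOf Own)

/-- Leans of the long edges of the cells with property `G`. -/
structure Leans {ι : Type} [Fintype ι] {D K : Set V} {P : ι → Set V} (hV : Vio D P K) (Tf : V → V)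
    (l0 a φ : ℝ) (mm : ι → ℝ) (G : ι → Prop) (θ : ι → AddCircle Real.pi)
    (kk : ι → V × V → ℤ) (ls le : ι → V × V → ℝ) : Prop where
  kk1 : ∀ i e, |kk i e| ≤ 1
  sd : ∀ i (hn : (interior (convexHull ℝ (S P i))).Nonempty), G i →
    ∀ e ∈ (hV.til.toTL hV.hull).edges ⟨i, hn⟩, l0 ≤ dist e.1 e.2 →
    (Side D P e.1 e.2 ∧ cap D e.1 e.2 ⊆ P i) →
      ls i e ≤ a * mm i ∧ -(a * mm i) ≤ le i e ∧ le i e - ls i e = turn Tf e.1 e.2 ∧
      dr (Tf e.1) = θ i + (((kk i e : ℝ) * φ : ℝ) : AddCircle Real.pi) +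
        ((ls i e : ℝ) : AddCircle Real.pi) ∧
      dr (Tf e.2) = θ i + (((kk i e : ℝ) * φ : ℝ) : AddCircle Real.pi) +
        ((le i e : ℝ) : AddCircle Real.pi)
  nsd : ∀ i (hn : (interior (convexHull ℝ (S P i))).Nonempty), G i →
    ∀ e ∈ (hV.til.toTL hV.hull).edges ⟨i, hn⟩, l0 ≤ dist e.1 e.2 →
    ¬ (Side D P e.1 e.2 ∧ cap D e.1 e.2 ⊆ P i) →
      le i e = ls i e ∧ |ls i e| ≤ a * mm i ∧
      dr (e.2 - e.1) = θ i + (((kk i e : ℝ) * φ : ℝ) : AddCircle Real.pi) +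
        ((ls i e : ℝ) : AddCircle Real.pi)

/-- Choice of the leans. -/
theorem exists_leans {ι : Type} [Fintype ι] {D K : Set V} {P : ι → Set V} (hV : Vio D P K)
    (Tf : V → V) (l0 a φ : ℝ) (mm : ι → ℝ) (G : ι → Prop)
    (H : ∀ i (hn : (interior (convexHull ℝ (S P i))).Nonempty), G i →
      ∃ θ : AddCircle Real.pi, ∀ e ∈ (hV.til.toTL hV.hull).edges ⟨i, hn⟩, l0 ≤ dist e.1 e.2 →
      ∃ k : ℤ, |k| ≤ 1 ∧ ∃ ls le : ℝ,
        ((Side D P e.1 e.2 ∧ cap D e.1 e.2 ⊆ P i) →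
          ls ≤ a * mm i ∧ -(a * mm i) ≤ le ∧ le - ls = turn Tf e.1 e.2 ∧
          dr (Tf e.1) = θ + (((k : ℝ) * φ : ℝ) : AddCircle Real.pi) +
            ((ls : ℝ) : AddCircle Real.pi) ∧
          dr (Tf e.2) = θ + (((k : ℝ) * φ : ℝ) : AddCircle Real.pi) +
            ((le : ℝ) : AddCircle Real.pi)) ∧
        (¬ (Side D P e.1 e.2 ∧ cap D e.1 e.2 ⊆ P i) →
          le = ls ∧ |ls| ≤ a * mm i ∧
          dr (e.2 - e.1) = θ + (((k : ℝ) * φ : ℝ) : AddCircle Real.pi) +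
            ((ls : ℝ) : AddCircle Real.pi))) :
    ∃ θ kk ls le, Leans hV Tf l0 a φ mm G θ kk ls le := by
  classical
  have h1 : ∀ i, ∃ θ : AddCircle Real.pi, ∀ e : V × V, ∃ k : ℤ, |k| ≤ 1 ∧ ∃ ls le : ℝ,
      ∀ hn : (interior (convexHull ℝ (S P i))).Nonempty, G i →
      e ∈ (hV.til.toTL hV.hull).edges ⟨i, hn⟩ → l0 ≤ dist e.1 e.2 →
        ((Side D P e.1 e.2 ∧ cap D e.1 e.2 ⊆ P i) →
          ls ≤ a * mm i ∧ -(a * mm i) ≤ le ∧ le - ls = turn Tf e.1 e.2 ∧
          dr (Tf e.1) = θ + (((k : ℝ) * φ : ℝ) : AddCircle Real.pi) +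
            ((ls : ℝ) : AddCircle Real.pi) ∧
          dr (Tf e.2) = θ + (((k : ℝ) * φ : ℝ) : AddCircle Real.pi) +
            ((le : ℝ) : AddCircle Real.pi)) ∧
        (¬ (Side D P e.1 e.2 ∧ cap D e.1 e.2 ⊆ P i) →
          le = ls ∧ |ls| ≤ a * mm i ∧
          dr (e.2 - e.1) = θ + (((k : ℝ) * φ : ℝ) : AddCircle Real.pi) +
            ((ls : ℝ) : AddCircle Real.pi)) := by
    intro i
    by_cases hi : ∃ hn : (interior (convexHull ℝ (S P i))).Nonempty, G i
    · obtain ⟨hn, hG⟩ := hi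
      obtain ⟨θ, hθ⟩ := H i hn hG
      refine ⟨θ, fun e => ?_⟩
      by_cases he : e ∈ (hV.til.toTL hV.hull).edges ⟨i, hn⟩ ∧ l0 ≤ dist e.1 e.2
      · obtain ⟨k, hk, ls, le, h2⟩ := hθ e he.1 he.2
        exact ⟨k, hk, ls, le, fun _ _ _ _ => h2⟩
      · exact ⟨0, by norm_num, 0, 0, fun _ _ h3 h4 => absurd ⟨h3, h4⟩ he⟩
    · exact ⟨0, fun e => ⟨0, by norm_num, 0, 0, fun hn hG => absurd ⟨hn, hG⟩ hi⟩⟩
  choose θ hθ using h1
  choose kk hkk ls le hl using hθ
  exact ⟨θ, kk, ls, le, ⟨hkk, fun i hn hG e he hd hs => (hl i e hn hG he hd).1 hs,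
    fun i hn hG e he hd hs => (hl i e hn hG he hd).2 hs⟩⟩

theorem sum_sub {ι : Type} [Fintype ι] {M : Type*} [AddCommMonoid M] (Q : ι → Prop)
    [Fintype {i // Q i}] (F : ι → M) (hF : ∀ i, ¬ Q i → F i = 0) :
    ∑ i, F i = ∑ i : {i // Q i}, F i := by
  classical
  have h1 : ∑ i : {i // Q i}, F i = ∑ i ∈ Finset.univ.filter Q, F i :=
    (Finset.sum_subtype (Finset.univ.filter Q) (fun x => by simp) F).symm
  rw [h1, Finset.sum_filter]
  refine Finset.sum_congr rfl fun i _ => ?_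
  by_cases hi : Q i
  · rw [if_pos hi]
  · rw [if_neg hi, hF i hi]

open Classical in
/-- **The cluster equation of the system.** -/
theorem plug_clus {ι : Type} [Fintype ι] {D K : Set V} {P : ι → Set V} (hV : Vio D P K)
    {Tf : V → V} (hT : Frame D P Tf) {own : V × V → ι} (ho : Own hV.til hV.hull own)
    {l0 a φ : ℝ} {mm : ι → ℝ} {G : ι → Prop} {θ : ι → AddCircle Real.pi}
    {kk : ι → V × V → ℤ} {ls le : ι → V × V → ℝ}
    (hL : Leans hV Tf l0 a φ mm G θ kk ls le)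
    (hG : ∀ i, G i → (interior (convexHull ℝ (S P i))).Nonempty)
    {m : ι → ℝ} {A6 τ : ℝ} {c : V → V} {e1 : ℝ}
    (hc : ∀ v ∈ (hV.til.toTL hV.hull).W, ∀ w ∈ (hV.til.toTL hV.hull).W, dist v w < l0 → c v = c w)
    (x : V) (hx : ∀ v ∈ (hV.til.toTL hV.hull).W, c v = x → ∀ i, v ∈ P i → G i) :
    ∃ z : ℤ, (plug hV.til hV.hull own Tf ls le kk m A6 τ c l0 e1).Rp x =
      Real.pi * z - φ * (plug hV.til hV.hull own Tf ls le kk m A6 τ c l0 e1).dd x := by
  set T := hV.til.toTL hV.hull with hTdef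
  generalize hSy : plug hV.til hV.hull own Tf ls le kk m A6 τ c l0 e1 = Sy
  have kc : Sy.c = c := by rw [← hSy]; rfl
  have kls : Sy.ls = ls := by rw [← hSy]; rfl
  have kle : Sy.le = le := by rw [← hSy]; rfl
  have kkk : Sy.kk = kk := by rw [← hSy]; rfl
  have ktu : ∀ p, Sy.tu p = turn Tf p.1 p.2 := by intro p; rw [← hSy]; rfl
  have klo : ∀ p, Sy.lo p ↔ l0 ≤ dist p.1 p.2 := by intro p; rw [← hSy]; rfl
  have kbd : ∀ p, Sy.bd p ↔ (p ∈ hV.til.sides hV.hull ∧
      (interior (convexHull ℝ (S P (own p)))).Nonempty) := by intro p; rw [← hSy]; rfl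
  have hE : ∀ i (hn : (interior (convexHull ℝ (S P i))).Nonempty), Sy.E i = T.edges ⟨i, hn⟩ := by
    intro i hn; rw [← hSy]; exact plug_E hn
  have hE0 : ∀ i, ¬ (interior (convexHull ℝ (S P i))).Nonempty → Sy.E i = ∅ := by
    intro i hn; rw [← hSy]; exact dif_neg hn
  clear hSy
  obtain ⟨sh, hsh⟩ : ∃ sh : V × V → Prop, ∀ p, sh p ↔ ¬ (l0 ≤ dist p.1 p.2) :=
    ⟨_, fun _ => Iff.rfl⟩
  set C := clu T c x with hC
  have memC : ∀ v, v ∈ C ↔ v ∈ T.W ∧ c v = x := fun v => mem_clu T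
  have hgood : ∀ v ∈ C, ∀ i, v ∈ P i → G i := fun v hv i hi =>
    hx v ((memC v).mp hv).1 ((memC v).mp hv).2 i hi
  have hnd : ∀ v ∈ C, ∀ i, v ∈ P i → (interior (convexHull ℝ (S P i))).Nonempty :=
    fun v hv i hi => hG i (hgood v hv i hi)
  have hmemP : ∀ i : {i // (interior (convexHull ℝ (S P i))).Nonempty}, ∀ p ∈ T.edges i,
      p.1 ∈ P i ∧ p.2 ∈ P i := fun i p hp =>
    ⟨hV.til.hull_sub i (edge_mem hp).1.2, hV.til.hull_sub i (edge_mem hp).2.2⟩
  have hside : ∀ i : {i // (interior (convexHull ℝ (S P i))).Nonempty}, ∀ p ∈ T.edges i,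
      (p.1 ∈ C ∨ p.2 ∈ C) → T.Bd p.1 p.2 → Side D P p.1 p.2 ∧ cap D p.1 p.2 ⊆ P i := by
    intro i p hp hpC hB
    have h1 := bd_side hV.til hV.hull (T.mem_edges.mp hp) hB (by
      rcases hpC with h2 | h2
      · exact Or.inl (hnd _ h2)
      · exact Or.inr (hnd _ h2))
    exact ⟨h1.1, h1.2.2⟩
  have hBdS : ∀ p : V × V, Side D P p.1 p.2 → T.Bd p.1 p.2 := by
    intro p hs y hy
    exact convexHull_min hs.2.2.2.1 (C2305b.TL.Tiling.convex_cr (p.2 - p.1) p.1) hy
  have hW : ∀ i : {i // (interior (convexHull ℝ (S P i))).Nonempty}, ∀ p ∈ T.edges i,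
      p.1 ∈ T.W ∧ p.2 ∈ T.W := fun i p hp => ⟨(edge_mem hp).1.1, (edge_mem hp).2.1⟩
  obtain ⟨z, hz⟩ := cluster_eq T (fun v => dr (Tf v)) sh C
    (by
      intro i p hp hs
      obtain ⟨w1, w2⟩ := hW i p hp
      have := hc p.1 w1 p.2 w2 (not_le.mp ((hsh p).mp hs))
      rw [memC, memC, this]
      exact ⟨fun h => ⟨w2, h.2⟩, fun h => ⟨w1, h.2⟩⟩)
    (fun i => θ i) (fun _ => 1) (fun i p => kk i p) (fun i p => ls i p) (fun i p => le i p)
    (fun p => turn Tf p.1 p.2) φ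
    (by
      intro i p hp hs hpC
      have hlo : l0 ≤ dist p.1 p.2 := by
        by_contra h0
        exact hs ((hsh p).mpr h0)
      have hGi := hgood _ hpC i (hmemP i p hp).1
      by_cases hB : T.Bd p.1 p.2
      · rw [av, if_pos hB]
        have := (hL.sd i i.2 hGi p hp hlo (hside i p hp (Or.inl hpC) hB)).2.2.2.1
        simpa using this
      · rw [av, if_neg hB]
        have := (hL.nsd i i.2 hGi p hp hlo (fun h0 => hB (hBdS p h0.1))).2.2
        simpa using this)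
    (by
      intro i p hp hs hpC
      have hlo : l0 ≤ dist p.1 p.2 := by
        by_contra h0
        exact hs ((hsh p).mpr h0)
      have hGi := hgood _ hpC i (hmemP i p hp).2
      by_cases hB : T.Bd p.1 p.2
      · rw [bv, if_pos hB]
        have := (hL.sd i i.2 hGi p hp hlo (hside i p hp (Or.inr hpC) hB)).2.2.2.2
        simpa using this
      · rw [bv, if_neg hB]
        obtain ⟨h1, -, h3⟩ := hL.nsd i i.2 hGi p hp hlo (fun h0 => hB (hBdS p h0.1))
        rw [h1]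
        simpa using h3)
    (by
      intro i p hp hs hB hpC
      exact dr_turn hV hT (hside i p hp (Or.inl hpC) hB).1)
  have hind : ∀ v ∈ T.W, (ind C v : ℝ) = if c v = x then 1 else 0 := by
    intro v hv
    by_cases h1 : c v = x
    · rw [if_pos h1, ind_pos ((memC v).mpr ⟨hv, h1⟩)]; norm_num
    · rw [if_neg h1, ind_neg (fun h0 => h1 ((memC v).mp h0).2)]; norm_num
  have hindZ : ∀ v ∈ T.W, ind C v = if c v = x then 1 else 0 := by
    intro v hv
    by_cases h1 : c v = x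
    · rw [if_pos h1, ind_pos ((memC v).mpr ⟨hv, h1⟩)]
    · rw [if_neg h1, ind_neg (fun h0 => h1 ((memC v).mp h0).2)]
  have hfl : ∀ i : {i // (interior (convexHull ℝ (S P i))).Nonempty},
      (T.edges i).filter (fun e => Sy.lo e) = (T.edges i).filter (fun e => ¬ sh e) := by
    intro i
    refine Finset.filter_congr fun p _ => ?_
    rw [klo, hsh, not_not]
  have e1' : (∑ i, ∑ e ∈ (Sy.E i).filter (fun e => Sy.lo e),
      ((if Sy.c e.1 = x then Sy.ls i e else 0) - (if Sy.c e.2 = x then Sy.le i e else 0))) =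
      lns T sh (fun i p => ls i p) (fun i p => le i p) C := by
    refine (sum_sub (fun i => (interior (convexHull ℝ (S P i))).Nonempty) _
      (fun i hn => by rw [hE0 i hn]; simp)).trans ?_
    unfold lns
    refine Finset.sum_congr rfl fun i _ => ?_
    rw [hE i i.2, hfl i]
    refine Finset.sum_congr rfl fun p hp => ?_
    obtain ⟨w1, w2⟩ := hW i p (Finset.mem_filter.mp hp).1
    rw [hind _ w1, hind _ w2, ite_mul, ite_mul, one_mul, one_mul, zero_mul, zero_mul, kc, kls, kle]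
  have e2' : (∑ i, ∑ e ∈ (Sy.E i).filter (fun e => Sy.bd e ∧ ¬ Sy.lo e),
      (if Sy.c e.1 = x then Sy.tu e else 0)) = trn T sh (fun p => turn Tf p.1 p.2) C := by
    refine (sum_sub (fun i => (interior (convexHull ℝ (S P i))).Nonempty) _
      (fun i hn => by rw [hE0 i hn]; simp)).trans ?_
    unfold trn
    refine Finset.sum_congr rfl fun i _ => ?_
    rw [hE i i.2]
    have f1 : ∀ F : V × V → ℝ, ∑ e ∈ (T.edges i).filter (fun e => Sy.bd e ∧ ¬ Sy.lo e), F e =
        ∑ e ∈ (T.edges i).filter (fun e => sh e), if Sy.bd e then F e else 0 := by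
      intro F
      rw [← Finset.sum_filter, Finset.filter_filter]
      refine Finset.sum_congr ?_ fun _ _ => rfl
      refine Finset.filter_congr fun p _ => ?_
      rw [klo, hsh]
      exact and_comm
    rw [f1]
    refine Finset.sum_congr rfl fun p hp => ?_
    have hp' := (Finset.mem_filter.mp hp).1
    obtain ⟨w1, w2⟩ := hW i p hp'
    rw [hind _ w1, kc, ktu]
    by_cases hcx : c p.1 = x
    · have hpC : p.1 ∈ C := (memC _).mpr ⟨w1, hcx⟩
      have hiff : Sy.bd p ↔ T.Bd p.1 p.2 := by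
        have h1 := bd_iff ho (hn := i.2) hp'
        rw [kbd]
        constructor
        · intro h2
          exact hBdS p (h1.mp h2).1
        · intro h2
          exact h1.mpr (hside i p hp' (Or.inl hpC) h2)
      by_cases hb : Sy.bd p
      · rw [if_pos hb, if_pos (hiff.mp hb), if_pos hcx, if_pos hcx, one_mul]
      · rw [if_neg hb, if_neg (fun h0 => hb (hiff.mpr h0))]
    · rw [if_neg hcx, if_neg hcx]
      simp
  have e3' : Sy.dd x = deg T sh (fun _ => 1) (fun i p => kk i p) C := by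
    unfold C2305bA.Sys.dd
    refine (sum_sub (fun i => (interior (convexHull ℝ (S P i))).Nonempty) _
      (fun i hn => by rw [hE0 i hn]; simp)).trans ?_
    unfold deg
    refine Finset.sum_congr rfl fun i _ => ?_
    rw [hE i i.2, one_mul, hfl i]
    refine Finset.sum_congr rfl fun p hp => ?_
    obtain ⟨w1, w2⟩ := hW i p (Finset.mem_filter.mp hp).1
    rw [hindZ _ w1, hindZ _ w2, mul_comm, kc, kkk]
    by_cases h1 : c p.1 = x <;> by_cases h2 : c p.2 = x <;> simp [h1, h2]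
  have hR : Sy.Rp x = lns T sh (fun i p => ls i p) (fun i p => le i p) C -
      trn T sh (fun p => turn Tf p.1 p.2) C := by
    unfold C2305bA.Sys.Rp
    refine congrArg₂ (fun a b : ℝ => a - b) (Eq.trans ?_ e1') (Eq.trans ?_ e2')
    · refine Finset.sum_congr rfl fun i _ => Finset.sum_congr rfl fun e _ => ?_
      by_cases h1 : Sy.c e.1 = x <;> by_cases h2 : Sy.c e.2 = x <;> simp [h1, h2]
    · refine Finset.sum_congr rfl fun i _ => Finset.sum_congr rfl fun e _ => ?_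
      by_cases h1 : Sy.c e.1 = x <;> simp [h1]
  refine ⟨z, ?_⟩
  rw [hR, e3', hz]
  ring

end C2305bAF
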