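import Pool.Agent.W82_c2305b.Bad

/-!
The area account.
-/

open Set Module Topology Filter MeasureTheory

namespace W82

variable {ι : Type*} {D : Set V} {P : ι → Set V}

/-- The loss of a cell. -/
noncomputable def lossOf (P : ι → Set V) (A6 τ : ℝ) (i : ι) : ℝ :=
  A6 + τ * (((S P i).ncard : ℝ) - 6) - (volume (convexHull ℝ (S P i))).toReal

theorem Tiling.vol_S_ne_top [Finite ι] (h : Tiling D P) (i : ι) :
    volume (convexHull ℝ (S P i)) ≠ ⊤ :=
  ((h.S_finite i).isCompact_convexHull ℝ).measure_lt_top.ne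

/-- The area of the hull of the shared boundary points. -/
theorem Tiling.account_hull [Fintype ι] (h : Tiling D P) {i₀ j₀ : ι} (hij : i₀ ≠ j₀)
    {A6 τ : ℝ} (hτ : 0 ≤ τ) :
    (volume (convexHull ℝ (Vb D P))).toReal ≤ Fintype.card ι * A6
      - τ * ((Vb D P).ncard + (Tv D P).ncard + 2 * ∑ v ∈ h.M, (exc D P v : ℝ) + 6)
      - ∑ i, lossOf P A6 τ i := by
  have h1 : (volume (convexHull ℝ (Vb D P))).toReal =
      ∑ i, (volume (convexHull ℝ (S P i))).toReal := by
    rw [h.volume_hull, ENNReal.toReal_sum fun i _ => h.vol_S_ne_top i]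
  have h2 : ∑ i, lossOf P A6 τ i = Fintype.card ι * A6
      + τ * (∑ i, ((S P i).ncard : ℝ) - 6 * Fintype.card ι)
      - ∑ i, (volume (convexHull ℝ (S P i))).toReal := by
    simp only [lossOf]
    rw [Finset.sum_sub_distrib, Finset.sum_add_distrib, Finset.sum_const, ← Finset.mul_sum,
      Finset.sum_sub_distrib, Finset.sum_const, Finset.card_univ, nsmul_eq_mul, nsmul_eq_mul]
    ring
  have h3 := h.corner_count hij h.union_finite
  have h4 : (∑ i, ((S P i).ncard : ℝ)) + (Vb D P).ncard + (Tv D P).ncard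
      + 2 * ∑ v ∈ h.M, (exc D P v : ℝ) + 6 ≤ 6 * Fintype.card ι := by
    have : ((∑ i, (S P i).ncard + (Vb D P).ncard + (Tv D P).ncard
      + 2 * ∑ v ∈ h.M, exc D P v + 6 : ℕ) : ℝ) ≤ ((6 * Fintype.card ι : ℕ) : ℝ) := by
      exact_mod_cast h3
    push_cast at this
    exact this
  have h5 : τ * ((∑ i, ((S P i).ncard : ℝ)) + (Vb D P).ncard + (Tv D P).ncard
      + 2 * ∑ v ∈ h.M, (exc D P v : ℝ) + 6) ≤ τ * (6 * Fintype.card ι) :=
    mul_le_mul_of_nonneg_left h4 hτ
  rw [h1]
  linarith

/-- **The area account.** -/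
theorem Tiling.account [Fintype ι] (h : Tiling D P)
    (hi : (interior (convexHull ℝ (Vb D P))).Nonempty) {i₀ j₀ : ι} (hij : i₀ ≠ j₀)
    {A6 τ : ℝ} (hτ : 0 ≤ τ) :
    (volume D).toReal ≤ Fintype.card ι * A6
      + ∑ p ∈ h.sides hi, ((volume (cap D p.1 p.2)).toReal - τ) - 6 * τ
      - (τ * ((Tv D P).ncard + 2 * ∑ v ∈ h.M, (exc D P v : ℝ)) + ∑ i, lossOf P A6 τ i) := by
  have hD : volume D ≠ ⊤ := h.compD.measure_lt_top.ne
  have hcap : ∀ p : V × V, volume (cap D p.1 p.2) ≠ ⊤ := fun p =>
    ((measure_mono fun z hz => hz.1).trans_lt h.compD.measure_lt_top).ne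
  have hV : volume (convexHull ℝ (Vb D P)) ≠ ⊤ :=
    (h.vb_finite.isCompact_convexHull ℝ).measure_lt_top.ne
  have h1 : (volume D).toReal ≤ (volume (convexHull ℝ (Vb D P))).toReal
      + ∑ p ∈ h.sides hi, (volume (cap D p.1 p.2)).toReal := by
    rw [← ENNReal.toReal_sum fun p _ => hcap p, ← ENNReal.toReal_add hV
      (ENNReal.sum_ne_top.mpr fun p _ => hcap p)]
    exact ENNReal.toReal_mono (ENNReal.add_ne_top.mpr
      ⟨hV, ENNReal.sum_ne_top.mpr fun p _ => hcap p⟩) (h.volume_le_caps hi)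
  have h2 := h.account_hull hij hτ (A6 := A6)
  have h3 : ∑ p ∈ h.sides hi, ((volume (cap D p.1 p.2)).toReal - τ) =
      ∑ p ∈ h.sides hi, (volume (cap D p.1 p.2)).toReal - (Vb D P).ncard * τ := by
    rw [Finset.sum_sub_distrib, Finset.sum_const, h.card_sides hi, nsmul_eq_mul]
  rw [h3]
  linarith

/-- The caps have bounded area. -/
theorem Tiling.cap_le [Finite ι] (h : Tiling D P) {G : ℝ}
    (hG : ∀ i, (volume (P i)).toReal ≤ G) {p q : V} (hs : Side D P p q) :
    (volume (cap D p q)).toReal ≤ G := by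
  obtain ⟨k, -, hk⟩ := h.cap_cell hs
  refine le_trans (ENNReal.toReal_mono (h.comp k).measure_lt_top.ne (measure_mono hk)) (hG k)

/-- If the hull of the shared boundary points has no interior, there are at most two cells. -/
theorem Tiling.two_cells_of_degenerate [Fintype ι] (h : Tiling D P)
    (hi : ¬ (interior (convexHull ℝ (Vb D P))).Nonempty) : Fintype.card ι ≤ 2 := by
  by_contra hcon
  push Not at hcon
  obtain ⟨i, j, k, hij, hik, hjk⟩ := Fintype.two_lt_card_iff.mp hcon
  -- the hull lies on a line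
  obtain ⟨a, ha, b, hb, hab⟩ := h.two_vb hij
  obtain ⟨f, hf, hfab⟩ := exists_functional (b - a) (sub_ne_zero.mpr hab.symm)
  have hfab' : f b = f a := by
    have := hfab
    simp only [map_sub] at this
    linarith
  have hline : ∀ x ∈ convexHull ℝ (Vb D P), f x = f a := by
    intro x hx
    by_contra hne
    apply hi
    -- three points not on a line
    have hsub : convexHull ℝ ({a, b, x} : Set V) ⊆ convexHull ℝ (Vb D P) := by
      refine convexHull_min ?_ (convex_convexHull ℝ _)
      rintro y (rfl | rfl | rfl)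
      · exact subset_convexHull ℝ _ ha
      · exact subset_convexHull ℝ _ hb
      · exact hx
    refine Set.Nonempty.mono (interior_mono hsub) ?_
    rw [interior_convexHull_nonempty_iff_affineSpan_eq_top]
    have hind : AffineIndependent ℝ ![a, b, x] := by
      rw [affineIndependent_iff_linearIndependent_vsub ℝ _ (0 : Fin 3)]
      have h2 : ∀ s t : ℝ, s • (b - a) + t • (x - a) = 0 → s = 0 ∧ t = 0 := by
        intro s t hst
        have h3 := congrArg f hst
        simp only [map_add, map_smul, map_sub, smul_eq_mul, map_zero] at h3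
        rw [hfab', sub_self, mul_zero, zero_add] at h3
        have ht : t = 0 := (mul_eq_zero.mp h3).resolve_right (sub_ne_zero.mpr hne)
        rw [ht, zero_smul, add_zero] at hst
        exact ⟨(smul_eq_zero.mp hst).resolve_right (sub_ne_zero.mpr hab.symm), ht⟩
      rw [Fintype.linearIndependent_iff]
      intro g hg
      let e : Fin 2 ≃ {y : Fin 3 // y ≠ 0} :=
        { toFun := fun y => ⟨y.succ, Fin.succ_ne_zero y⟩
          invFun := fun y => y.1.pred y.2
          left_inv := fun y => by simp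
          right_inv := fun y => by simp }
      rw [← e.sum_comp, Fin.sum_univ_two] at hg
      have h3 := h2 (g (e 0)) (g (e 1)) (by simpa [e] using hg)
      intro y
      obtain ⟨y', rfl⟩ := e.surjective y
      fin_cases y'
      · exact h3.1
      · exact h3.2
    have := hind.affineSpan_eq_top_iff_card_eq_finrank_add_one.mpr (by simp)
    have hr : Set.range ![a, b, x] = ({a, b, x} : Set V) := by
      ext y
      simp only [Set.mem_range, Set.mem_insert_iff, Set.mem_singleton_iff]
      constructor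
      · rintro ⟨i, rfl⟩
        fin_cases i <;> simp
      · rintro (rfl | rfl | rfl)
        · exact ⟨0, rfl⟩
        · exact ⟨1, rfl⟩
        · exact ⟨2, rfl⟩
    rwa [hr] at this
  have hSh : ∀ x ∈ Sh P, f x = f a := fun x hx => hline x (h.sh_hull hx)
  -- the two open halves lie in one cell each
  have half : ∀ (g : V →L[ℝ] ℝ) (c : ℝ), (∀ x ∈ Sh P, g x = c) → ∀ x ∈ D, c < g x →
      ∀ l m, x ∈ P l → (∃ y ∈ P m, c < g y) → l = m := by
    intro g c hg x hx hxc l m hl hm
    obtain ⟨y, hy, hyc⟩ := hm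
    have hN : Convex ℝ (D ∩ {z | c < g z}) := h.convD.inter (convex_halfSpace_gt g.isLinear c)
    have hsub := h.conn hN.isPreconnected inter_subset_left
      (fun z hz hzS => absurd (hg z hzS) (ne_of_gt hz.2)) (x := x) ⟨hx, hxc⟩ hl
    have hyl : y ∈ P l := hsub ⟨h.sub m hy, hyc⟩
    by_contra hlm
    exact absurd (hg y ⟨l, m, hlm, hyl, hy⟩) (ne_of_gt hyc)
  -- every cell has a point off the line
  have off : ∀ l, (∃ y ∈ P l, f a < f y) ∨ (∃ y ∈ P l, -(f a) < (-f) y) := by
    intro l
    by_contra hcon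
    rw [not_or] at hcon
    obtain ⟨h1, h2⟩ := hcon
    push Not at h1 h2
    obtain ⟨y, hy⟩ := h.int l
    have h3 := lt_of_mem_interior f hf h1 hy
    have h4 := h2 y (interior_subset hy)
    rw [neg_apply] at h4
    linarith
  have p1 : ∀ l m, (∃ y ∈ P l, f a < f y) → (∃ y ∈ P m, f a < f y) → l = m := by
    rintro l m ⟨y, hy, hyc⟩ hm
    exact half f (f a) hSh y (h.sub l hy) hyc l m hy hm
  have p2 : ∀ l m, (∃ y ∈ P l, -(f a) < (-f) y) → (∃ y ∈ P m, -(f a) < (-f) y) → l = m := by
    rintro l m ⟨y, hy, hyc⟩ hm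
    exact half (-f) (-(f a)) (fun x hx => by rw [neg_apply, hSh x hx]) y (h.sub l hy) hyc l m hy hm
  rcases off i with h1 | h1 <;> rcases off j with h2 | h2 <;> rcases off k with h3 | h3
  · exact hij (p1 i j h1 h2)
  · exact hij (p1 i j h1 h2)
  · exact hik (p1 i k h1 h3)
  · exact hjk (p2 j k h2 h3)
  · exact hjk (p1 j k h2 h3)
  · exact hik (p2 i k h1 h3)
  · exact hij (p2 i j h1 h2)
  · exact hij (p2 i j h1 h2)

end W82
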