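import Pool.Agent.W82_c2305b.Corner

/-!
The number of edges with a start point which is not good.
-/

open Set Module Topology Filter MeasureTheory

namespace W82

open C2305b.TL (cr)

variable {ι : Type*} {D : Set V} {P : ι → Set V}

/-- Good vertices: full, of valence three, all cells perfect. -/
def GoodV (D : Set V) (P : ι → Set V) (loss : ι → ℝ) (η : ℝ) (v : V) : Prop :=
  v ∈ Fv D P ∧ kv P v = 3 ∧ ∀ j, v ∈ P j → Perfect D P loss η j

open Classical in
/-- The number of edges whose start point is not good. -/
theorem Tiling.bad_edges [Fintype ι] (h : Tiling D P)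
    (hi : (interior (convexHull ℝ (Vb D P))).Nonempty) (loss : ι → ℝ) (η : ℝ) :
    ∑ i, (((h.toTL hi).edges i).filter fun p => ¬ GoodV D P loss η p.1).card ≤
      4 * ∑ i ∈ Finset.univ.filter (fun i => ¬ Perfect D P loss η i),
        ((S P i).ncard + h.tn i) := by
  set T := h.toTL hi with hT
  set N := Finset.univ.filter (fun i => ¬ Perfect D P loss η i) with hN
  -- edges to vertices
  have h1 : ∀ i, ((T.edges i).filter fun p => ¬ GoodV D P loss η p.1).card =
      ((T.verts i).filter fun v => ¬ GoodV D P loss η v).card := by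
    intro i
    rw [Finset.card_filter, Finset.card_filter]
    exact T.sum_edges_fst i (fun v => if ¬ GoodV D P loss η v then 1 else 0)
  simp only [h1]
  -- bad vertices of full type
  obtain ⟨B, hBd⟩ : ∃ B : V → Prop, ∀ v, B v ↔ (v ∈ Fv D P ∧ kv P v = 3 ∧ ∃ j ∈ N, v ∈ S P j) :=
    ⟨_, fun v => Iff.rfl⟩
  have hverts : ∀ i, T.verts i ⊆ h.M.filter fun v => v ∈ P i := by
    intro i v hv
    rw [T.mem_verts] at hv
    rw [Finset.mem_filter]
    exact ⟨hv.1, h.hull_sub i hv.2⟩
  have hcardN : ∀ i : ι, (h.M.filter fun v => v ∈ P i).card ≤ (S P i).ncard + h.tn i := by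
    intro i
    rw [Set.ncard_eq_toFinset_card _ (h.S_finite i), Tiling.tn]
    refine le_trans (Finset.card_le_card ?_) (Finset.card_union_le _ _)
    intro v hv
    rw [Finset.mem_filter, h.mem_M] at hv
    obtain ⟨⟨j, hj⟩, hvi⟩ := hv
    rw [Finset.mem_union, Finset.mem_filter, Set.Finite.mem_toFinset]
    by_cases hext : v ∈ (P i).extremePoints ℝ
    · left
      refine ⟨hext, ?_⟩
      by_cases hij : j = i
      · subst hij
        exact hj.2
      · exact ⟨j, hij, hj.1.1⟩
    · right
      exact ⟨h.mem_M.mpr ⟨j, hj⟩, hvi, hext⟩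
  have key : ∀ i : {i : ι // (interior (convexHull ℝ (S P i))).Nonempty},
      ((T.verts i).filter fun v => ¬ GoodV D P loss η v).card ≤
      (if (i : ι) ∈ N then (S P (i : ι)).ncard + h.tn (i : ι) else 0) +
      ((h.S_finite (i : ι)).toFinset.filter B).card := by
    intro i
    by_cases hiN : (i : ι) ∈ N
    · rw [if_pos hiN]
      refine le_trans ?_ (Nat.le_add_right _ _)
      refine (Finset.card_filter_le _ _).trans ((Finset.card_le_card (hverts i)).trans ?_)
      exact hcardN i
    · rw [if_neg hiN, zero_add]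
      have hperf : Perfect D P loss η (i : ι) := by
        by_contra hcon
        exact hiN (by rw [hN, Finset.mem_filter]; exact ⟨Finset.mem_univ _, hcon⟩)
      refine Finset.card_le_card ?_
      intro v hv
      rw [Finset.mem_filter] at hv
      have hv1 := hverts i hv.1
      rw [Finset.mem_filter, h.mem_M] at hv1
      have hvS : v ∈ S P (i : ι) := hperf.only v hv1.2 hv1.1
      rw [Finset.mem_filter, Set.Finite.mem_toFinset]
      refine ⟨hvS, (hBd v).mpr ⟨(hperf.full v hvS).1, (hperf.full v hvS).2, ?_⟩⟩
      by_contra hcon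
      push Not at hcon
      apply hv.2
      refine ⟨(hperf.full v hvS).1, (hperf.full v hvS).2, fun j hj => ?_⟩
      by_contra hjn
      have hjN : j ∈ N := by rw [hN, Finset.mem_filter]; exact ⟨Finset.mem_univ _, hjn⟩
      exact hcon j hjN ((h.fv_cells (hperf.full v hvS).1).mp hj)
  have hsum : ∑ i : {i : ι // (interior (convexHull ℝ (S P i))).Nonempty},
      ((T.verts i).filter fun v => ¬ GoodV D P loss η v).card ≤
      ∑ i : ι, ((if i ∈ N then (S P i).ncard + h.tn i else 0) +
      ((h.S_finite i).toFinset.filter B).card) := by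
    refine (Finset.sum_le_sum fun i _ => key i).trans ?_
    have h2 := Finset.sum_map (Finset.univ : Finset {i : ι //
        (interior (convexHull ℝ (S P i))).Nonempty}) (Function.Embedding.subtype _)
      (fun i : ι => (if i ∈ N then (S P i).ncard + h.tn i else 0) +
      ((h.S_finite i).toFinset.filter B).card)
    simp only [Function.Embedding.subtype_apply] at h2
    refine h2.symm.le.trans ?_
    exact Finset.sum_le_sum_of_subset (Finset.subset_univ _)
  refine hsum.trans ?_
  rw [Finset.sum_add_distrib, ← Finset.sum_filter]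
  have hNN : Finset.univ.filter (fun i => i ∈ N) = N := by
    ext i
    simp
  rw [hNN]
  -- second sum
  have h3 : ∑ i, ((h.S_finite i).toFinset.filter B).card ≤ 3 * ∑ j ∈ N, (S P j).ncard := by
    have e1 : ∀ i, ((h.S_finite i).toFinset.filter B).card =
        ∑ v ∈ h.M, if (v ∈ S P i ∧ B v) then 1 else 0 := by
      intro i
      rw [← Finset.card_filter]
      congr 1
      ext v
      rw [Finset.mem_filter, Finset.mem_filter, Set.Finite.mem_toFinset, h.mem_M]
      exact ⟨fun hv => ⟨⟨i, hv.1⟩, hv⟩, fun hv => hv.2⟩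
    have e2 : ∀ j, (S P j).ncard = ∑ v ∈ h.M, if v ∈ S P j then 1 else 0 := by
      intro j
      rw [← Finset.card_filter, Set.ncard_eq_toFinset_card _ (h.S_finite j)]
      congr 1
      ext v
      rw [Finset.mem_filter, Set.Finite.mem_toFinset, h.mem_M]
      exact ⟨fun hv => ⟨⟨j, hv⟩, hv⟩, fun hv => hv.2⟩
    simp only [e1, e2]
    rw [Finset.sum_comm, Finset.sum_comm (s := N), Finset.mul_sum]
    refine Finset.sum_le_sum fun v _ => ?_
    rw [← Finset.card_filter, ← Finset.card_filter]
    by_cases hB : B v
    · have h4 : (Finset.univ.filter fun i => v ∈ S P i ∧ B v).card ≤ 3 := by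
        have h5 : (Finset.univ.filter fun i => v ∈ S P i ∧ B v).card ≤ kv P v := by
          have h7 : kv P v = (Set.toFinite {i | v ∈ S P i}).toFinset.card :=
            Set.ncard_eq_toFinset_card _ (Set.toFinite _)
          rw [h7]
          refine Finset.card_le_card ?_
          intro i hi
          rw [Finset.mem_filter] at hi
          simpa using hi.2.1
        exact h5.trans ((hBd v).mp hB).2.1.le
      obtain ⟨-, -, j, hj, hvj⟩ := (hBd v).mp hB
      have h6 : 1 ≤ (N.filter fun j => v ∈ S P j).card := by
        rw [Finset.one_le_card]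
        exact ⟨j, by rw [Finset.mem_filter]; exact ⟨hj, hvj⟩⟩
      omega
    · have h4 : (Finset.univ.filter fun i => v ∈ S P i ∧ B v) = ∅ := by
        rw [Finset.filter_eq_empty_iff]
        rintro i - ⟨-, h5⟩
        exact hB h5
      rw [h4, Finset.card_empty]
      exact Nat.zero_le _
  have h4 : ∑ j ∈ N, (S P j).ncard ≤ ∑ j ∈ N, ((S P j).ncard + h.tn j) :=
    Finset.sum_le_sum fun j _ => Nat.le_add_right _ _
  omega

end W82
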