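import Pool.Agent.W82_c2305b.HangE

/-!
The set of bad pairs for the class Gap + Sym: outside it both tiles are nice.
-/

open Set Module Topology Filter MeasureTheory

namespace W82

open C2305b.TL (cr)

variable {ι : Type*} {D : Set V} {P : ι → Set V}

open Classical in
/-- Pairs of neighbours outside the bad set are nice. -/
theorem Tiling.badsetG [Fintype ι] (h : Tiling D P)
    (hi : (interior (convexHull ℝ (Vb D P))).Nonempty) (loss : ι → ℝ) (η : ℝ) :
    ∃ Bad : Finset ({i : ι // (interior (convexHull ℝ (S P i))).Nonempty} ×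
        {i : ι // (interior (convexHull ℝ (S P i))).Nonempty}),
      Bad.card ≤ 56 * ∑ i ∈ Finset.univ.filter (fun i => ¬ Perfect D P loss η i),
        ((S P i).ncard + h.tn i) ∧
      ∀ i j v w, (h.toTL hi).Tw i j v w → (i, j) ∉ Bad →
        Nice D P loss η i ∧ Nice D P loss η j := by
  let J := {i : ι // (interior (convexHull ℝ (S P i))).Nonempty}
  set T : C2305b.TL.Tiling J := h.toTL hi with hT
  set N := ∑ i ∈ Finset.univ.filter (fun i => ¬ Perfect D P loss η i),
        ((S P i).ncard + h.tn i) with hN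
  -- the pairs with a first component which is not nice
  set B1 : Finset (J × J) :=
    Finset.univ.filter fun p => (∃ d : V × V, T.Tw p.1 p.2 d.1 d.2) ∧ ¬ Nice D P loss η p.1
    with hB1
  have hfac : B1.card ≤ 28 * N := by
    -- the darts of the tiles which are not nice
    set D1 : Finset (Σ _ : J, V × V) :=
      (Finset.univ.filter fun i : J => ¬ Nice D P loss η i).sigma fun i => T.edges i with hD1
    have h1 : B1.card ≤ D1.card := by
      have hch : ∀ p : J × J, ∃ d : V × V, p ∈ B1 → T.Tw p.1 p.2 d.1 d.2 := by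
        intro p
        by_cases hp : p ∈ B1
        · obtain ⟨⟨d, hd⟩, -⟩ := (Finset.mem_filter.mp hp).2
          exact ⟨d, fun _ => hd⟩
        · exact ⟨(0, 0), fun h0 => absurd h0 hp⟩
      choose d hd using hch
      refine Finset.card_le_card_of_injOn (fun p => ⟨p.1, d p⟩) ?_ ?_
      · intro p hp
        have h1 := hd p hp
        have h2 := (Finset.mem_filter.mp hp).2.2
        rw [Finset.mem_coe, hD1, Finset.mem_sigma]
        refine ⟨Finset.mem_filter.mpr ⟨Finset.mem_univ _, h2⟩, ?_⟩
        exact T.mem_edges.mpr h1.1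
      · intro p hp q hq hpq
        have h1 := hd p hp
        have h2 := hd q hq
        simp only [Sigma.mk.injEq, heq_eq_eq] at hpq
        obtain ⟨e1, e2⟩ := hpq
        refine Prod.ext e1 ?_
        have h3 := h1.2
        have h4 := h2.2
        rw [e2] at h3
        exact T.edge_unique h3 h4
    -- split: not perfect, and perfect with a bad vertex
    set A1 := Finset.univ.filter (fun i : J => ¬ Perfect D P loss η i) with hA1
    set A2 := Finset.univ.filter (fun i : J => Perfect D P loss η i ∧ ¬ Nice D P loss η i) with hA2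
    have h2 : (Finset.univ.filter fun i : J => ¬ Nice D P loss η i) ⊆ A1 ∪ A2 := by
      intro i hi1
      rw [Finset.mem_union, hA1, hA2, Finset.mem_filter, Finset.mem_filter]
      by_cases hp : Perfect D P loss η i
      · exact Or.inr ⟨Finset.mem_univ _, hp, (Finset.mem_filter.mp hi1).2⟩
      · exact Or.inl ⟨Finset.mem_univ _, hp⟩
    have h3 : D1.card ≤ ∑ i ∈ A1, (T.edges i).card + ∑ i ∈ A2, (T.edges i).card := by
      rw [hD1, Finset.card_sigma]
      refine (Finset.sum_le_sum_of_subset h2).trans ?_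
      have := Finset.sum_union_inter (s₁ := A1) (s₂ := A2) (f := fun i => (T.edges i).card)
      omega
    have h4 : ∑ i ∈ A1, (T.edges i).card ≤ 4 * N := by
      refine le_trans ?_ (h.bad_edges hi loss η)
      rw [← Finset.card_sigma, ← Finset.card_sigma]
      apply Finset.card_le_card
      intro x hx
      rw [Finset.mem_sigma] at hx ⊢
      refine ⟨Finset.mem_univ _, ?_⟩
      rw [Finset.mem_filter]
      refine ⟨hx.2, fun hg => ?_⟩
      have h5 := (Finset.mem_filter.mp hx.1).2
      apply h5
      have h6 := T.mem_edges.mp hx.2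
      exact hg.2.2 _ (h.hull_sub x.1 h6.1.2)
    have h5 : A2.card ≤ 4 * N := by
      refine le_trans ?_ (h.reach_zero hi loss η)
      refine Finset.card_le_card_of_injOn (fun i : J => (i : ι)) ?_ ?_
      · intro i hi1
        obtain ⟨-, hp, hn⟩ := Finset.mem_filter.mp hi1
        rw [Finset.mem_coe, reach, Finset.mem_filter]
        refine ⟨Finset.mem_univ _, hp, ?_⟩
        by_contra hcon
        push Not at hcon
        exact hn ⟨hp, hcon⟩
      · intro i _ j _ hij
        exact Subtype.ext hij
    have h6 : ∑ i ∈ A2, (T.edges i).card ≤ 6 * A2.card := by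
      rw [mul_comm]
      refine (Finset.sum_le_card_nsmul _ _ 6 fun i hi1 => ?_).trans_eq (by rw [smul_eq_mul])
      have hp := (Finset.mem_filter.mp hi1).2.1
      rw [T.card_edges, ← hp.card, Set.ncard_eq_toFinset_card _ (h.S_finite (i : ι))]
      apply Finset.card_le_card
      intro v hv
      rw [Set.Finite.mem_toFinset]
      have hv2 := T.mem_verts.mp hv
      exact hp.only v (h.hull_sub i hv2.2) (h.mem_M.mp hv2.1)
    omega
  refine ⟨B1 ∪ B1.image Prod.swap, ?_, ?_⟩
  · have h1 : (B1.image Prod.swap).card ≤ B1.card := Finset.card_image_le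
    refine (Finset.card_union_le _ _).trans ?_
    omega
  · intro i j v w hTw hn
    rw [Finset.mem_union, not_or] at hn
    constructor
    · by_contra hcon
      exact hn.1 (Finset.mem_filter.mpr ⟨Finset.mem_univ _, ⟨(v, w), hTw⟩, hcon⟩)
    · by_contra hcon
      apply hn.2
      rw [Finset.mem_image]
      refine ⟨(j, i), Finset.mem_filter.mpr ⟨Finset.mem_univ _, ⟨(w, v), ?_⟩, hcon⟩, rfl⟩
      exact ⟨hTw.2, hTw.1⟩

/-- The bad pairs, counted by the total loss. -/
theorem Tiling.badsetG_le [Fintype ι] (h : Tiling D P)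
    (hi : (interior (convexHull ℝ (Vb D P))).Nonempty) {A6 τ g G η : ℝ}
    (hη : 0 < η) (hg : 0 < g) (hτ : 0 < τ) (hG : 0 ≤ G)
    (hl : ∀ i, 0 ≤ lossOf P A6 τ i)
    (hgap : ∀ i, (S P i).ncard ≠ 6 → g / 2 ≤ lossOf P A6 τ i)
    (hm : ∀ i, ((S P i).ncard : ℝ) ≤ (6 + 4 * G / τ) + lossOf P A6 τ i / τ) :
    ∃ Bad : Finset ({i : ι // (interior (convexHull ℝ (S P i))).Nonempty} ×
        {i : ι // (interior (convexHull ℝ (S P i))).Nonempty}),
      (Bad.card : ℝ) ≤ 56 * Cnp g τ G η * (h.Lam A6 τ + (Vb D P).ncard) ∧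
      ∀ i j v w, (h.toTL hi).Tw i j v w → (i, j) ∉ Bad →
        Nice D P (lossOf P A6 τ) η i ∧ Nice D P (lossOf P A6 τ) η j := by
  classical
  obtain ⟨Bad, h1, h2⟩ := h.badsetG hi (lossOf P A6 τ) η
  refine ⟨Bad, ?_, h2⟩
  have h3 : (Bad.card : ℝ) ≤ 56 * ∑ i ∈ Finset.univ.filter
      (fun i => ¬ Perfect D P (lossOf P A6 τ) η i), (((S P i).ncard : ℝ) + h.tn i) := by
    have := (Nat.cast_le (α := ℝ)).mpr h1
    push_cast at this
    exact this
  refine h3.trans ?_
  have h4 := h.nonperfect_le hη hg hτ hG hl hgap hm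
  rw [mul_assoc]
  exact mul_le_mul_of_nonneg_left h4 (by norm_num)

end W82
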