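import Pool.Agent.W82_c2305b.Sharp
import Pool.Agent.W82_c2305b.Bad
import Pool.Agent.W82_c2305b.Account
import Pool.Agent.W82_c2305b.Gap

/-!
The set of bad pairs of cells.
-/

open Set Module Topology Filter MeasureTheory

namespace W82

open C2305b.TL (cr)

variable {ι : Type*} {D : Set V} {P : ι → Set V}

open Classical in
/-- The bad pairs are at most as many as the bad edges. -/
theorem Tiling.badset [Fintype ι] (h : Tiling D P)
    (hi : (interior (convexHull ℝ (Vb D P))).Nonempty) (loss : ι → ℝ) (η : ℝ) :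
    ∃ Bad : Finset ({i : ι // (interior (convexHull ℝ (S P i))).Nonempty} ×
        {i : ι // (interior (convexHull ℝ (S P i))).Nonempty}),
      Bad.card ≤ 4 * ∑ i ∈ Finset.univ.filter (fun i => ¬ Perfect D P loss η i),
        ((S P i).ncard + h.tn i) ∧
      ∀ i j v w, (h.toTL hi).Tw i j v w → (i, j) ∉ Bad → GoodV D P loss η v := by
  set T := h.toTL hi with hT
  let Bad : Finset ({i : ι // (interior (convexHull ℝ (S P i))).Nonempty} ×
        {i : ι // (interior (convexHull ℝ (S P i))).Nonempty}) :=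
    Finset.univ.filter fun p => ∃ d : V × V, T.Tw p.1 p.2 d.1 d.2 ∧ ¬ GoodV D P loss η d.1
  refine ⟨Bad, ?_, ?_⟩
  · refine le_trans ?_ (h.bad_edges hi loss η)
    have hch : ∀ p : {i : ι // (interior (convexHull ℝ (S P i))).Nonempty} ×
        {i : ι // (interior (convexHull ℝ (S P i))).Nonempty}, ∃ d : V × V, p ∈ Bad →
        T.Tw p.1 p.2 d.1 d.2 ∧ ¬ GoodV D P loss η d.1 := by
      intro p
      by_cases hp : p ∈ Bad
      · obtain ⟨d, hd⟩ := (Finset.mem_filter.mp hp).2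
        exact ⟨d, fun _ => hd⟩
      · exact ⟨(0, 0), fun h0 => absurd h0 hp⟩
    choose d hd using hch
    rw [← Finset.card_sigma]
    refine Finset.card_le_card_of_injOn (fun p => ⟨p.1, d p⟩) ?_ ?_
    · intro p hp
      have h1 := hd p hp
      rw [Finset.mem_coe, Finset.mem_sigma]
      refine ⟨Finset.mem_univ _, ?_⟩
      rw [Finset.mem_filter, T.mem_edges]
      exact ⟨h1.1.1, h1.2⟩
    · intro p hp q hq hpq
      have h1 := hd p hp
      have h2 := hd q hq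
      simp only [Sigma.mk.injEq, heq_eq_eq] at hpq
      obtain ⟨e1, e2⟩ := hpq
      refine Prod.ext e1 ?_
      have h3 := h1.1.2
      have h4 := h2.1.2
      rw [e2] at h3
      exact T.edge_unique h3 h4
  · intro i j v w hTw hn
    by_contra hcon
    apply hn
    exact Finset.mem_filter.mpr ⟨Finset.mem_univ _, (v, w), hTw, hcon⟩

/-- The total loss. -/
noncomputable def Tiling.Lam [Fintype ι] (h : Tiling D P) (A6 τ : ℝ) : ℝ :=
  τ * ((Tv D P).ncard + 2 * ∑ v ∈ h.M, (exc D P v : ℝ)) + ∑ i, lossOf P A6 τ i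

/-- The constant of the count of nonperfect cells. -/
noncomputable def Cnp (g τ G η : ℝ) : ℝ :=
  ((6 + 4 * G / τ) / min (min (g / 2) η) 1 + 1 / τ + 1) * (2 + 3 / τ)

theorem Cnp_nonneg {g τ G η : ℝ} (hg : 0 < g) (hτ : 0 < τ) (hG : 0 ≤ G) (hη : 0 < η) :
    0 ≤ Cnp g τ G η := by
  have : 0 < min (min (g / 2) η) 1 := lt_min (lt_min (by linarith) hη) one_pos
  unfold Cnp
  positivity

theorem Tiling.exc_sum_nonneg [Fintype ι] (h : Tiling D P) :
    0 ≤ ∑ v ∈ h.M, (exc D P v : ℝ) := Finset.sum_nonneg fun _ _ => Nat.cast_nonneg _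

theorem Tiling.Lam_nonneg [Fintype ι] (h : Tiling D P) {A6 τ : ℝ} (hτ : 0 ≤ τ)
    (hl : ∀ i, 0 ≤ lossOf P A6 τ i) : 0 ≤ h.Lam A6 τ := by
  have := h.exc_sum_nonneg
  have h2 : 0 ≤ ∑ i, lossOf P A6 τ i := Finset.sum_nonneg fun i _ => hl i
  unfold Tiling.Lam
  positivity

theorem Tiling.tv_le_Lam [Fintype ι] (h : Tiling D P) {A6 τ : ℝ} (hτ : 0 ≤ τ)
    (hl : ∀ i, 0 ≤ lossOf P A6 τ i) : τ * (Tv D P).ncard ≤ h.Lam A6 τ := by
  have h1 := h.exc_sum_nonneg
  have h2 : 0 ≤ ∑ i, lossOf P A6 τ i := Finset.sum_nonneg fun i _ => hl i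
  have h3 := mul_nonneg hτ h1
  unfold Tiling.Lam
  nlinarith

theorem Tiling.loss_le_Lam [Fintype ι] (h : Tiling D P) {A6 τ : ℝ} (hτ : 0 ≤ τ) :
    ∑ i, lossOf P A6 τ i ≤ h.Lam A6 τ := by
  have h1 := h.exc_sum_nonneg
  have h3 : 0 ≤ τ * ((Tv D P).ncard + 2 * ∑ v ∈ h.M, (exc D P v : ℝ)) := by positivity
  unfold Tiling.Lam
  linarith

open Classical in
/-- The number of nonperfect cells, weighted. -/
theorem Tiling.nonperfect_le [Fintype ι] (h : Tiling D P) {A6 τ g G η : ℝ}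
    (hη : 0 < η) (hg : 0 < g) (hτ : 0 < τ) (hG : 0 ≤ G)
    (hl : ∀ i, 0 ≤ lossOf P A6 τ i)
    (hgap : ∀ i, (S P i).ncard ≠ 6 → g / 2 ≤ lossOf P A6 τ i)
    (hm : ∀ i, ((S P i).ncard : ℝ) ≤ (6 + 4 * G / τ) + lossOf P A6 τ i / τ) :
    ∑ i ∈ Finset.univ.filter (fun i => ¬ Perfect D P (lossOf P A6 τ) η i),
        (((S P i).ncard : ℝ) + h.tn i) ≤
      Cnp g τ G η * (h.Lam A6 τ + (Vb D P).ncard) := by
  have hC1 : 0 ≤ 6 + 4 * G / τ := by positivity
  refine (h.nonperfect (lossOf P A6 τ) hη (g := g / 2) (by linarith) hτ hC1 hl hgap hm).trans ?_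
  have hmin : 0 < min (min (g / 2) η) 1 := lt_min (lt_min (by linarith) hη) one_pos
  rw [Cnp, mul_assoc]
  apply mul_le_mul_of_nonneg_left _ (by positivity)
  have h1 := h.exc_sum_nonneg
  have h2 : 0 ≤ ∑ i, lossOf P A6 τ i := Finset.sum_nonneg fun i _ => hl i
  set e := ∑ v ∈ h.M, (exc D P v : ℝ) with he
  set s := ∑ i, lossOf P A6 τ i with hs
  have hLam : h.Lam A6 τ = τ * ((Tv D P).ncard + 2 * e) + s := rfl
  rw [hLam]
  have hT : (0 : ℝ) ≤ (Tv D P).ncard := Nat.cast_nonneg _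
  have hB : (0 : ℝ) ≤ (Vb D P).ncard := Nat.cast_nonneg _
  generalize ((Tv D P).ncard : ℝ) = t at *
  generalize ((Vb D P).ncard : ℝ) = b at *
  have e1 : (2 + 3 / τ) * (τ * (t + 2 * e) + s + b) =
      2 * τ * (t + 2 * e) + 3 * (t + 2 * e) + 2 * s + 3 / τ * s + 2 * b + 3 / τ * b := by
    field_simp
    ring
  rw [e1]
  have e2 : 0 ≤ 2 * τ * (t + 2 * e) := by positivity
  have e3 : 0 ≤ 3 / τ * s := by positivity
  have e4 : 0 ≤ 3 / τ * b := by positivity
  linarith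

/-- The bad pairs of cells, counted by the total loss. -/
theorem Tiling.badset_le [Fintype ι] (h : Tiling D P)
    (hi : (interior (convexHull ℝ (Vb D P))).Nonempty) {A6 τ g G η : ℝ}
    (hη : 0 < η) (hg : 0 < g) (hτ : 0 < τ) (hG : 0 ≤ G)
    (hl : ∀ i, 0 ≤ lossOf P A6 τ i)
    (hgap : ∀ i, (S P i).ncard ≠ 6 → g / 2 ≤ lossOf P A6 τ i)
    (hm : ∀ i, ((S P i).ncard : ℝ) ≤ (6 + 4 * G / τ) + lossOf P A6 τ i / τ) :
    ∃ Bad : Finset ({i : ι // (interior (convexHull ℝ (S P i))).Nonempty} ×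
        {i : ι // (interior (convexHull ℝ (S P i))).Nonempty}),
      (Bad.card : ℝ) ≤ 4 * Cnp g τ G η * (h.Lam A6 τ + (Vb D P).ncard) ∧
      ∀ i j v w, (h.toTL hi).Tw i j v w → (i, j) ∉ Bad → GoodV D P (lossOf P A6 τ) η v := by
  classical
  obtain ⟨Bad, h1, h2⟩ := h.badset hi (lossOf P A6 τ) η
  refine ⟨Bad, ?_, h2⟩
  have h3 : (Bad.card : ℝ) ≤ 4 * ∑ i ∈ Finset.univ.filter
      (fun i => ¬ Perfect D P (lossOf P A6 τ) η i), (((S P i).ncard : ℝ) + h.tn i) := by
    have := (Nat.cast_le (α := ℝ)).mpr h1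
    push_cast at this
    exact this
  refine h3.trans ?_
  have h4 := h.nonperfect_le hη hg hτ hG hl hgap hm
  rw [mul_assoc]
  exact mul_le_mul_of_nonneg_left h4 (by norm_num)

/-- The tile of a perfect cell has six edges and an area close to the bound. -/
theorem Perfect.edges [Finite ι] (h : Tiling D P)
    (hi : (interior (convexHull ℝ (Vb D P))).Nonempty) {A6 τ η : ℝ}
    {i : {i : ι // (interior (convexHull ℝ (S P i))).Nonempty}}
    (hp : Perfect D P (lossOf P A6 τ) η i) :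
    ((h.toTL hi).edges i).card = 6 ∧ A6 - η ≤ (volume ((h.toTL hi).P i)).toReal := by
  constructor
  · rw [(h.toTL hi).card_edges, ← hp.card, Set.ncard_eq_toFinset_card _ (h.S_finite (i : ι))]
    congr 1
    ext v
    rw [(h.toTL hi).mem_verts, Set.Finite.mem_toFinset]
    constructor
    · rintro ⟨h1, h2⟩
      exact hp.only v (h.hull_sub i h2) (h.mem_M.mp h1)
    · intro h1
      exact ⟨h.mem_M.mpr ⟨i, h1⟩, subset_convexHull ℝ _ h1⟩
  · have h1 := hp.small
    have h2 : (volume ((h.toTL hi).P i)).toReal =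
        (volume (convexHull ℝ (S P (i : ι)))).toReal := rfl
    rw [h2]
    rw [lossOf, hp.card] at h1
    push_cast at h1
    linarith

end W82
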