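import Pool.Agent.W82_c2305b.Caps
import Pool.Agent.W_c2305b_h35.Flux

/-!
From a tiling of a convex body by convex bodies to the polygonal tiling (with edges) of the hull
of the shared boundary points; the sides of that hull and the caps beyond them.
-/

open Set Module Topology Filter MeasureTheory

namespace W82

variable {ι : Type*} {D : Set V} {P : ι → Set V}

theorem extreme_not_interior {X : Set V} {v : V} (hv : v ∈ X.extremePoints ℝ) :
    v ∉ interior X := by
  intro hint
  obtain ⟨w, hw, -⟩ := exists_ker_vec (0 : V →L[ℝ] ℝ)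
  have hev := eventually_add_smul_sub (e := w) (isOpen_interior.mem_nhds hint)
  have hev3 : ∀ᶠ ε in 𝓝[>] (0 : ℝ), 0 < ε := eventually_mem_nhdsWithin
  obtain ⟨ε, ⟨h2, h3⟩, h4⟩ := (hev.and hev3).exists
  exact not_extreme_of_sym (w := ε • w) (smul_ne_zero h4.ne' hw) (interior_subset h2)
    (interior_subset h3) hv

theorem volume_zero_of_interior_empty {X : Set V} (hX : Convex ℝ X) (h : interior X = ∅) :
    volume X = 0 := by
  refine measure_mono_null ?_ (hX.addHaar_frontier volume)
  intro x hx
  refine ⟨subset_closure hx, ?_⟩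
  rw [h]
  exact fun h0 => h0

theorem Tiling.union_finite [Finite ι] (h : Tiling D P) : (⋃ i, S P i).Finite :=
  Set.finite_iUnion h.S_finite

theorem Tiling.union_hulls [Finite ι] (h : Tiling D P) :
    convexHull ℝ (Vb D P) = ⋃ i, convexHull ℝ (S P i) := by
  have hhullD : convexHull ℝ (Vb D P) ⊆ D :=
    convexHull_min (fun x hx => h.sh_sub hx.1) h.convD
  have h1 : convexHull ℝ (Vb D P) = D ∩ convexHull ℝ (Vb D P) :=
    (inter_eq_self_of_subset_right hhullD).symm
  rw [h1]
  have h2 : D ∩ convexHull ℝ (Vb D P) = ⋃ i, (P i ∩ convexHull ℝ (Vb D P)) := by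
    apply Subset.antisymm
    · rintro x ⟨hx, hx'⟩
      rw [h.cover] at hx
      obtain ⟨i, hi⟩ := mem_iUnion.mp hx
      exact mem_iUnion.mpr ⟨i, hi, hx'⟩
    · exact iUnion_subset fun i => inter_subset_inter_left _ (h.sub i)
  rw [h2]
  exact iUnion_congr fun i => h.inter_hull i

theorem Tiling.hull_sub (h : Tiling D P) (i : ι) : convexHull ℝ (S P i) ⊆ P i :=
  convexHull_min (fun _ hv => hv.1.1) (h.conv i)

/-- The polygonal tiling of the hull of the shared boundary points by the nondegenerate hulls of
the corners. -/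
noncomputable def Tiling.toTL [Finite ι] (h : Tiling D P)
    (hi : (interior (convexHull ℝ (Vb D P))).Nonempty) :
    C2305b.TL.Tiling {i : ι // (interior (convexHull ℝ (S P i))).Nonempty} where
  R := convexHull ℝ (Vb D P)
  P := fun i => convexHull ℝ (S P i)
  W := h.union_finite.toFinset
  convR := convex_convexHull ℝ _
  conv := fun i => convex_convexHull ℝ _
  comp := fun i => (h.S_finite i).isCompact_convexHull ℝ
  nonem := fun i => i.2
  disj := by
    intro i j hij
    have hne : (i : ι) ≠ j := fun h0 => hij (Subtype.ext h0)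
    exact (h.disj i j hne).mono (interior_mono (h.hull_sub i)) (interior_mono (h.hull_sub j))
  union := by
    have := Fintype.ofFinite ι
    set U : Set V := ⋃ i : {i : ι // (interior (convexHull ℝ (S P i))).Nonempty},
      convexHull ℝ (S P i) with hU
    have hUc : IsClosed U :=
      isClosed_iUnion_of_finite fun i => (h.S_finite i).isClosed_convexHull ℝ
    apply Subset.antisymm
    · refine iUnion_subset fun i => ?_
      rw [h.union_hulls]
      exact subset_iUnion (fun i => convexHull ℝ (S P i)) (i : ι)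
    · have hopen : IsOpen (interior (convexHull ℝ (Vb D P)) \ U) :=
        isOpen_interior.sdiff hUc
      have hnull : volume (interior (convexHull ℝ (Vb D P)) \ U) = 0 := by
        have hsub : interior (convexHull ℝ (Vb D P)) \ U ⊆
            ⋃ i : {i : ι // ¬ (interior (convexHull ℝ (S P i))).Nonempty},
              convexHull ℝ (S P i) := by
          rintro x ⟨hx, hxU⟩
          have hx1 := interior_subset hx
          rw [h.union_hulls] at hx1
          obtain ⟨i, hxi⟩ := mem_iUnion.mp hx1
          refine mem_iUnion.mpr ⟨⟨i, fun h0 => hxU ?_⟩, hxi⟩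
          exact mem_iUnion.mpr ⟨⟨i, h0⟩, hxi⟩
        refine measure_mono_null hsub (measure_iUnion_null fun i => ?_)
        exact volume_zero_of_interior_empty (convex_convexHull ℝ _)
          (not_nonempty_iff_eq_empty.mp i.2)
      have hempty := hopen.eq_empty_of_measure_zero hnull
      have hint : interior (convexHull ℝ (Vb D P)) ⊆ U := by
        rwa [sdiff_eq_empty] at hempty
      have hcl : convexHull ℝ (Vb D P) ⊆ closure (interior (convexHull ℝ (Vb D P))) := by
        rw [(convex_convexHull ℝ _).closure_interior_eq_closure_of_nonempty_interior hi]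
        exact subset_closure
      exact hcl.trans (closure_minimal hint hUc)
  hull := by
    intro i
    apply Subset.antisymm
    · refine convexHull_mono fun v hv => ⟨?_, subset_convexHull ℝ _ hv⟩
      rw [Set.Finite.coe_toFinset]
      exact mem_iUnion.mpr ⟨i, hv⟩
    · exact convexHull_min (fun v hv => hv.2) (convex_convexHull ℝ _)
  vert := by
    intro i v hv hvi
    rw [Set.Finite.mem_toFinset] at hv
    obtain ⟨j, hj⟩ := mem_iUnion.mp hv
    have hvi' : v ∈ interior (P i) := interior_mono (h.hull_sub i) hvi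
    by_cases hij : (i : ι) = j
    · subst hij
      exact extreme_not_interior hj.1 hvi'
    · exact h.int_disj hij hvi' hj.1.1

/-- A finite set in the boundary of its hull, as a tiling with one tile. -/
noncomputable def oneTL (W : Finset V) (hi : (interior (convexHull ℝ (W : Set V))).Nonempty)
    (hW : ∀ v ∈ W, v ∉ interior (convexHull ℝ (W : Set V))) : C2305b.TL.Tiling Unit where
  R := convexHull ℝ (W : Set V)
  P := fun _ => convexHull ℝ (W : Set V)
  W := W
  convR := convex_convexHull ℝ _
  conv := fun _ => convex_convexHull ℝ _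
  comp := fun _ => W.finite_toSet.isCompact_convexHull ℝ
  nonem := fun _ => hi
  disj := by
    intro i j hij
    exact absurd (Subsingleton.elim i j) hij
  union := by
    apply Subset.antisymm
    · exact iUnion_subset fun _ => Subset.rfl
    · exact subset_iUnion (fun _ : Unit => convexHull ℝ (W : Set V)) ()
  hull := by
    intro i
    rw [inter_eq_self_of_subset_left (subset_convexHull ℝ _)]
  vert := fun _ v hv => hW v hv

/-- The sides of the hull of the shared boundary points. -/
noncomputable def Tiling.sideTL [Finite ι] (h : Tiling D P)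
    (hi : (interior (convexHull ℝ (Vb D P))).Nonempty) : C2305b.TL.Tiling Unit :=
  oneTL h.vb_finite.toFinset (by rwa [Set.Finite.coe_toFinset]) (by
    intro v hv hvi
    rw [Set.Finite.coe_toFinset] at hvi
    rw [Set.Finite.mem_toFinset] at hv
    have hhullD : convexHull ℝ (Vb D P) ⊆ D :=
      convexHull_min (fun x hx => h.sh_sub hx.1) h.convD
    exact hv.2.2 (interior_mono hhullD hvi))

/-- The cap beyond the directed segment `p q`. -/
def cap (D : Set V) (p q : V) : Set V := {z | z ∈ D ∧ C2305b.TL.cr (q - p) (z - p) < 0}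

/-- `(p, q)` is a side of the hull of the shared boundary points. -/
def Side (D : Set V) (P : ι → Set V) (p q : V) : Prop :=
  p ∈ Vb D P ∧ q ∈ Vb D P ∧ q ≠ p ∧ (∀ z ∈ Vb D P, 0 ≤ C2305b.TL.cr (q - p) (z - p)) ∧
    ∀ z ∈ Vb D P, z ∉ openSegment ℝ p q

theorem Tiling.side_iff [Finite ι] (h : Tiling D P)
    (hi : (interior (convexHull ℝ (Vb D P))).Nonempty) {p q : V} :
    Side D P p q ↔ (h.sideTL hi).E () p q := by
  have hW : ∀ v, v ∈ (h.sideTL hi).W ↔ v ∈ Vb D P := fun v => by
    change v ∈ h.vb_finite.toFinset ↔ _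
    rw [Set.Finite.mem_toFinset]
  have hP : (h.sideTL hi).P () = convexHull ℝ (Vb D P) := by
    change convexHull ℝ (h.vb_finite.toFinset : Set V) = _
    rw [Set.Finite.coe_toFinset]
  constructor
  · rintro ⟨h1, h2, h3, h4, h5⟩
    refine ⟨⟨(hW p).mpr h1, ?_⟩, ⟨(hW q).mpr h2, ?_⟩, h3, ?_, ?_⟩
    · rw [hP]; exact subset_convexHull ℝ _ h1
    · rw [hP]; exact subset_convexHull ℝ _ h2
    · rw [hP]
      have := C2305b.TL.Tiling.convex_cr (q - p) p
      intro x hx
      exact convexHull_min h4 this hx
    · intro y hy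
      exact h5 y ((hW y).mp hy)
  · rintro ⟨⟨h1, -⟩, ⟨h2, -⟩, h3, h4, h5⟩
    refine ⟨(hW p).mp h1, (hW q).mp h2, h3, ?_, ?_⟩
    · intro z hz
      apply h4
      rw [hP]
      exact subset_convexHull ℝ _ hz
    · intro z hz
      exact h5 z ((hW z).mpr hz)

/-- The set of sides as a finset. -/
noncomputable def Tiling.sides [Finite ι] (h : Tiling D P)
    (hi : (interior (convexHull ℝ (Vb D P))).Nonempty) : Finset (V × V) :=
  (h.sideTL hi).edges ()

theorem Tiling.mem_sides [Finite ι] (h : Tiling D P)
    (hi : (interior (convexHull ℝ (Vb D P))).Nonempty) {p : V × V} :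
    p ∈ h.sides hi ↔ Side D P p.1 p.2 := by
  rw [h.side_iff hi]
  exact (h.sideTL hi).mem_edges

theorem Tiling.card_sides [Finite ι] (h : Tiling D P)
    (hi : (interior (convexHull ℝ (Vb D P))).Nonempty) :
    (h.sides hi).card = (Vb D P).ncard := by
  classical
  rw [Tiling.sides, (h.sideTL hi).card_edges, Set.ncard_eq_toFinset_card _ h.vb_finite]
  congr 1
  ext v
  rw [(h.sideTL hi).mem_verts]
  change (v ∈ h.vb_finite.toFinset ∧ v ∈ convexHull ℝ (h.vb_finite.toFinset : Set V)) ↔ _
  constructor
  · exact fun h0 => h0.1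
  · intro h0
    exact ⟨h0, subset_convexHull ℝ _ h0⟩

/-- `D` is covered by the hull and the caps. -/
theorem Tiling.cover_caps [Finite ι] (h : Tiling D P)
    (hi : (interior (convexHull ℝ (Vb D P))).Nonempty) :
    D ⊆ convexHull ℝ (Vb D P) ∪ ⋃ p ∈ h.sides hi, cap D p.1 p.2 := by
  intro z hz
  by_cases hzh : z ∈ convexHull ℝ (Vb D P)
  · exact Or.inl hzh
  right
  have hP : (h.sideTL hi).P () = convexHull ℝ (Vb D P) := by
    change convexHull ℝ (h.vb_finite.toFinset : Set V) = _
    rw [Set.Finite.coe_toFinset]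
  have h1 : z ∉ (h.sideTL hi).P () := by rw [hP]; exact hzh
  rw [(h.sideTL hi).hrep ()] at h1
  have h2 : ¬ ∀ v w, (h.sideTL hi).E () v w → 0 ≤ C2305b.TL.cr (w - v) (z - v) := h1
  push Not at h2
  obtain ⟨v, w, hE, hlt⟩ := h2
  refine mem_iUnion₂.mpr ⟨(v, w), ?_, hz, hlt⟩
  rw [h.mem_sides hi]
  exact (h.side_iff hi).mpr hE

theorem Tiling.volume_le_caps [Finite ι] (h : Tiling D P)
    (hi : (interior (convexHull ℝ (Vb D P))).Nonempty) :
    volume D ≤ volume (convexHull ℝ (Vb D P)) + ∑ p ∈ h.sides hi, volume (cap D p.1 p.2) := by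
  refine (measure_mono (h.cover_caps hi)).trans ((measure_union_le _ _).trans ?_)
  gcongr
  exact measure_biUnion_finset_le _ _

/-- Beyond a side there is one cell. -/
theorem Tiling.cap_cell [Finite ι] (h : Tiling D P) {p q : V} (hs : Side D P p q) :
    ∃ k, segment ℝ p q ⊆ P k ∧ cap D p q ⊆ P k := by
  obtain ⟨hp, hq, hne, hl, hfree⟩ := hs
  have hne' : q - p ≠ 0 := sub_ne_zero.mpr hne
  have hg : -(C2305b.TL.crL (q - p)) ≠ 0 := neg_ne_zero.mpr (C2305b.TL.crL_ne_zero hne')
  obtain ⟨k, hk1, hk2⟩ := h.side_cell (-(C2305b.TL.crL (q - p))) hg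
    (β := - C2305b.TL.cr (q - p) p) (by
      intro z hz
      have := hl z hz
      rw [C2305b.TL.cr_sub_right] at this
      rw [neg_apply, C2305b.TL.crL_apply]
      linarith) hp hq (by rw [neg_apply, C2305b.TL.crL_apply]) (by
      rw [neg_apply, C2305b.TL.crL_apply]
      have : C2305b.TL.cr (q - p) (q - p) = 0 := C2305b.TL.cr_self _
      rw [C2305b.TL.cr_sub_right] at this
      linarith) hfree
  refine ⟨k, hk1, ?_⟩
  rintro z ⟨hz, hzc⟩
  apply hk2 z hz
  rw [C2305b.TL.cr_sub_right] at hzc
  rw [neg_apply, C2305b.TL.crL_apply]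
  linarith

end W82
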