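import Pool.Agent.W82_c2305b.Count

/-!
The cells inside the hull of the shared boundary points, and the caps outside.
-/

open Set Module Topology Filter MeasureTheory

namespace W82

variable {ι : Type*} {D : Set V} {P : ι → Set V}

theorem eventually_add_smul_sub {v e : V} {p : V → Prop} (hp : ∀ᶠ r in 𝓝 v, p r) :
    ∀ᶠ ε in 𝓝[>] (0 : ℝ), p (v + ε • e) ∧ p (v - ε • e) := by
  have h1 := eventually_add_smul (e := e) hp
  have h2 := eventually_add_smul (e := -e) hp
  filter_upwards [h1, h2] with ε h3 h4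
  refine ⟨h3, ?_⟩
  have : v - ε • e = v + ε • (-e) := by module
  rw [this]
  exact h4

/-- Everything beyond a supporting line of the shared boundary points lies in one cell. -/
theorem Tiling.beyond [Finite ι] (h : Tiling D P) (g : V →L[ℝ] ℝ) {β : ℝ}
    (hβ : ∀ x ∈ Vb D P, g x ≤ β) {x : V} (hx : x ∈ D) (hgx : β < g x) {k : ι} (hk : x ∈ P k) :
    ∀ y ∈ D, β ≤ g y → y ∈ P k := by
  set N : Set V := D ∩ {z | β < g z} with hN
  have hNconv : Convex ℝ N := h.convD.inter (convex_halfSpace_gt g.isLinear β)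
  have hNS : ∀ z ∈ N, z ∉ Sh P := by
    intro z hz hzS
    have h1 := h.sh_hull hzS
    have h2 : convexHull ℝ (Vb D P) ⊆ {y | g y ≤ β} :=
      convexHull_min hβ (convex_halfSpace_le g.isLinear _)
    exact absurd (show g z ≤ β from h2 h1) (not_le.mpr hz.2)
  have hNk : N ⊆ P k := h.conn hNconv.isPreconnected inter_subset_left hNS ⟨hx, hgx⟩ hk
  intro y hy hgy
  -- y is a limit of points of N
  have hcont : Continuous fun t : ℝ => y + t • (x - y) := by fun_prop
  have ht : Tendsto (fun t : ℝ => y + t • (x - y)) (𝓝[>] 0) (𝓝 y) := by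
    have h1 := hcont.tendsto 0
    simp only [zero_smul, add_zero] at h1
    exact h1.mono_left nhdsWithin_le_nhds
  apply (h.closed k).mem_of_tendsto ht
  have hev1 : ∀ᶠ t in 𝓝[>] (0 : ℝ), t < 1 :=
    (eventually_lt_nhds (zero_lt_one)).filter_mono nhdsWithin_le_nhds
  have hev0 : ∀ᶠ t in 𝓝[>] (0 : ℝ), 0 < t := eventually_mem_nhdsWithin
  filter_upwards [hev0, hev1] with t ht0 ht1
  apply hNk
  have e1 : y + t • (x - y) = (1 - t) • y + t • x := by module
  refine ⟨?_, ?_⟩
  · rw [e1]
    exact h.convD hy hx (by linarith) ht0.le (by ring)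
  · show β < g (y + t • (x - y))
    rw [e1, map_add, map_smul, map_smul, smul_eq_mul, smul_eq_mul]
    nlinarith

/-- Beyond a side of the hull of the shared boundary points. -/
theorem Tiling.side_cell [Finite ι] (h : Tiling D P) (g : V →L[ℝ] ℝ) (hg : g ≠ 0) {β : ℝ}
    (hβ : ∀ x ∈ Vb D P, g x ≤ β) {p q : V} (hp : p ∈ Vb D P) (hq : q ∈ Vb D P)
    (hgp : g p = β) (hgq : g q = β) (hfree : ∀ x ∈ Vb D P, x ∉ openSegment ℝ p q) :
    ∃ k, segment ℝ p q ⊆ P k ∧ ∀ y ∈ D, β < g y → y ∈ P k := by
  have hpD : p ∈ D := h.sh_sub hp.1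
  have hqD : q ∈ D := h.sh_sub hq.1
  by_cases hN : ∃ x ∈ D, β < g x
  · obtain ⟨x, hx, hgx⟩ := hN
    have hx' := hx
    rw [h.cover] at hx'
    obtain ⟨k, hk⟩ := mem_iUnion.mp hx'
    have hb := h.beyond g hβ hx hgx hk
    exact ⟨k, (h.conv k).segment_subset (hb p hpD hgp.ge) (hb q hqD hgq.ge),
      fun y hy hgy => hb y hy hgy.le⟩
  · push Not at hN
    have hun : ∀ z ∈ openSegment ℝ p q, z ∉ Sh P := by
      intro z hz hzS
      have hzs : z ∈ segment ℝ p q := openSegment_subset_segment ℝ p q hz
      have hzD : z ∈ D := h.convD.segment_subset hpD hqD hzs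
      have hgz : g z = β := le_antisymm (le_of_mem_segment g hgp.le hgq.le hzs)
        (ge_of_mem_segment g hgp.ge hgq.ge hzs)
      have hzf : z ∈ frontier D := by
        refine ⟨subset_closure hzD, fun hzi => ?_⟩
        have := lt_of_mem_interior g hg hN hzi
        exact this.ne hgz
      exact hfree z ⟨hzS, hzf⟩ hz
    have hmid : (1 / 2 : ℝ) • p + (1 / 2 : ℝ) • q ∈ openSegment ℝ p q :=
      ⟨1 / 2, 1 / 2, by norm_num, by norm_num, by norm_num, rfl⟩
    have hsubD : openSegment ℝ p q ⊆ D :=
      (openSegment_subset_segment ℝ p q).trans (h.convD.segment_subset hpD hqD)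
    have hmD := hsubD hmid
    rw [h.cover] at hmD
    obtain ⟨k, hk⟩ := mem_iUnion.mp hmD
    have hsub := h.conn (convex_openSegment p q).isPreconnected hsubD hun hmid hk
    refine ⟨k, ?_, fun y hy hgy => absurd (hN y hy) (not_le.mpr hgy)⟩
    rw [← closure_openSegment]
    exact closure_minimal hsub (h.closed k)

/-- If a shared interior point of a cell is not extreme, its neighbours on the line are shared. -/
theorem Tiling.shared_line [Finite ι] (h : Tiling D P) {i j : ι} (hij : i ≠ j) {w u : V}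
    (hwD : w ∈ interior D) (hwj : w ∈ P j) (h1 : w + u ∈ P i) (h2 : w - u ∈ P i) :
    ∀ᶠ ε in 𝓝[>] (0 : ℝ), (w + ε • u ∈ Sh P ∧ w + ε • u ∈ P i) ∧
      (w - ε • u ∈ Sh P ∧ w - ε • u ∈ P i) := by
  obtain ⟨f, c, hf, hf1, hf2⟩ := h.sep hij
  have hwi : w ∈ P i := by
    have : w = (1 / 2 : ℝ) • (w + u) + (1 / 2 : ℝ) • (w - u) := by module
    rw [this]
    exact h.conv i h1 h2 (by norm_num) (by norm_num) (by norm_num)
  have hwc : f w = c := le_antisymm (hf1 w hwi) (hf2 w hwj)
  have hfu : f u = 0 := by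
    have a1 := hf1 _ h1
    have a2 := hf1 _ h2
    simp only [map_add, map_sub] at a1 a2
    linarith
  have key : ∀ r ∈ interior D, f r = c → r ∈ P i → r ∈ Sh P := by
    intro r hr hrc hri
    have hcl : r ∈ closure (interior D ∩ {x | c < f x}) := by
      have h3 := mem_closure_half (-f) (neg_ne_zero.mpr hf) (c := -c) isOpen_interior hr
        (by simp [hrc])
      have h4 : interior D ∩ {x | (-f) x < -c} = interior D ∩ {x | c < f x} := by
        ext y
        simp
      rwa [h4] at h3
    set t' : Set V := ⋃ l : {l // l ≠ i}, P l with ht'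
    have hc' : IsClosed t' := isClosed_iUnion_of_finite fun l => h.closed l
    have hsub : interior D ∩ {x | c < f x} ⊆ t' := by
      rintro x ⟨hx, hxc⟩
      have hxD : x ∈ D := interior_subset hx
      rw [h.cover] at hxD
      obtain ⟨l, hl⟩ := mem_iUnion.mp hxD
      have hli : l ≠ i := by
        rintro rfl
        exact absurd (hf1 x hl) (not_le.mpr hxc)
      exact mem_iUnion.mpr ⟨⟨l, hli⟩, hl⟩
    obtain ⟨⟨l, hli⟩, hl⟩ := mem_iUnion.mp (closure_minimal hsub hc' hcl)
    exact ⟨i, l, fun h0 => hli h0.symm, hri, hl⟩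
  have hev := eventually_add_smul_sub (e := u) (isOpen_interior.mem_nhds hwD)
  have hev1 : ∀ᶠ t in 𝓝[>] (0 : ℝ), t < 1 :=
    (eventually_lt_nhds (zero_lt_one)).filter_mono nhdsWithin_le_nhds
  have hev0 : ∀ᶠ t in 𝓝[>] (0 : ℝ), 0 < t := eventually_mem_nhdsWithin
  filter_upwards [hev, hev0, hev1] with ε h5 h6 h7
  have e1 : w + ε • u ∈ P i := by
    have : w + ε • u = (1 - ε) • w + ε • (w + u) := by module
    rw [this]
    exact h.conv i hwi h1 (by linarith) h6.le (by ring)
  have e2 : w - ε • u ∈ P i := by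
    have : w - ε • u = (1 - ε) • w + ε • (w - u) := by module
    rw [this]
    exact h.conv i hwi h2 (by linarith) h6.le (by ring)
  exact ⟨⟨key _ h5.1 (by simp [hfu, hwc]) e1, e1⟩, ⟨key _ h5.2 (by simp [hfu, hwc]) e2, e2⟩⟩

/-- The part of a cell inside the hull of the shared boundary points is the hull of its
corners. -/
theorem Tiling.inter_hull [Finite ι] (h : Tiling D P) (i : ι) :
    P i ∩ convexHull ℝ (Vb D P) = convexHull ℝ (S P i) := by
  have hVfin := h.vb_finite
  have hhullD : convexHull ℝ (Vb D P) ⊆ D :=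
    convexHull_min (fun x hx => h.sh_sub hx.1) h.convD
  apply Subset.antisymm
  · set X := P i ∩ convexHull ℝ (Vb D P) with hX
    have hXconv : Convex ℝ X := (h.conv i).inter (convex_convexHull ℝ _)
    have hXcomp : IsCompact X := (h.comp i).inter (hVfin.isCompact_convexHull ℝ)
    have hext : X.extremePoints ℝ ⊆ S P i := by
      intro w hw
      have hwX : w ∈ X := hw.1
      by_cases hwS : w ∈ Sh P
      · obtain ⟨k, l, hkl, hk, hl⟩ := hwS
        obtain ⟨j, hij, hj⟩ : ∃ j, i ≠ j ∧ w ∈ P j := by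
          by_cases hik : i = k
          · exact ⟨l, hik ▸ hkl, hl⟩
          · exact ⟨k, hik, hk⟩
        by_cases hfr : w ∈ frontier D
        · exact h.vb_sub ⟨⟨k, l, hkl, hk, hl⟩, hfr⟩ hwX.1
        · have hwD : w ∈ D := h.sub i hwX.1
          have hwi : w ∈ interior D := by
            by_contra hcon
            exact hfr ⟨subset_closure hwD, hcon⟩
          refine ⟨?_, j, hij.symm, hj⟩
          by_contra hne
          obtain ⟨u, hu, hu1, hu2⟩ := exists_sym_of_not_extreme (h.conv i) hwX.1 hne
          have hev := h.shared_line hij hwi hj hu1 hu2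
          have hev0 : ∀ᶠ t in 𝓝[>] (0 : ℝ), 0 < t := eventually_mem_nhdsWithin
          obtain ⟨ε, ⟨h3, h4⟩, h5⟩ := (hev.and hev0).exists
          exact not_extreme_of_sym (X := X) (w := ε • u) (smul_ne_zero h5.ne' hu)
            ⟨h3.2, h.sh_hull h3.1⟩ ⟨h4.2, h.sh_hull h4.1⟩ hw
      · exfalso
        have hwV : w ∈ (convexHull ℝ (Vb D P)).extremePoints ℝ := by
          by_contra hne
          obtain ⟨u, hu, hu1, hu2⟩ :=
            exists_sym_of_not_extreme (convex_convexHull ℝ _) hwX.2 hne
          set t' : Set V := ⋃ l : {l // l ≠ i}, P l with ht'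
          have hc' : IsClosed t' := isClosed_iUnion_of_finite fun l => h.closed l
          have hwt : w ∈ t'ᶜ := by
            intro hwt
            obtain ⟨⟨l, hli⟩, hl⟩ := mem_iUnion.mp hwt
            exact hwS ⟨i, l, fun h0 => hli h0.symm, hwX.1, hl⟩
          have hev := eventually_add_smul_sub (e := u) (hc'.isOpen_compl.mem_nhds hwt)
          have hev0 : ∀ᶠ t in 𝓝[>] (0 : ℝ), 0 < t := eventually_mem_nhdsWithin
          have hev1 : ∀ᶠ t in 𝓝[>] (0 : ℝ), t < 1 :=
            (eventually_lt_nhds (zero_lt_one)).filter_mono nhdsWithin_le_nhds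
          obtain ⟨ε, ⟨h3, h4⟩, h5, h6⟩ := (hev.and (hev0.and hev1)).exists
          have hin : ∀ r ∈ D, r ∈ t'ᶜ → r ∈ P i := by
            intro r hr hrt
            rw [h.cover] at hr
            obtain ⟨l, hl⟩ := mem_iUnion.mp hr
            by_contra hcon
            have hli : l ≠ i := fun h0 => hcon (h0 ▸ hl)
            exact hrt (mem_iUnion.mpr ⟨⟨l, hli⟩, hl⟩)
          have e1 : w + ε • u ∈ convexHull ℝ (Vb D P) := by
            have : w + ε • u = (1 - ε) • w + ε • (w + u) := by module
            rw [this]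
            exact convex_convexHull ℝ _ hwX.2 hu1 (by linarith) h5.le (by ring)
          have e2 : w - ε • u ∈ convexHull ℝ (Vb D P) := by
            have : w - ε • u = (1 - ε) • w + ε • (w - u) := by module
            rw [this]
            exact convex_convexHull ℝ _ hwX.2 hu2 (by linarith) h5.le (by ring)
          exact not_extreme_of_sym (X := X) (w := ε • u) (smul_ne_zero h5.ne' hu)
            ⟨hin _ (hhullD e1) h3, e1⟩ ⟨hin _ (hhullD e2) h4, e2⟩ hw
        exact hwS (extremePoints_convexHull_subset hwV).1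
    have hclosed : IsClosed (convexHull ℝ (S P i)) := (h.S_finite i).isClosed_convexHull ℝ
    calc X = closure (convexHull ℝ (X.extremePoints ℝ)) :=
          (closure_convexHull_extremePoints hXcomp hXconv).symm
      _ ⊆ convexHull ℝ (S P i) := closure_minimal (convexHull_mono hext) hclosed
  · apply subset_inter
    · exact convexHull_min (fun v hv => hv.1.1) (h.conv i)
    · exact convexHull_min (fun v hv => h.sh_hull (S_sub_Sh i hv)) (convex_convexHull ℝ _)

/-- The cells are essentially disjoint. -/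
theorem Tiling.ae_disj (h : Tiling D P) {i j : ι} (hij : i ≠ j) :
    AEDisjoint volume (P i) (P j) := by
  have h0 : volume (frontier (P i)) = 0 := (h.conv i).addHaar_frontier volume
  refine measure_mono_null ?_ h0
  rintro x ⟨hx, hx'⟩
  exact ⟨subset_closure hx, fun hxi => h.int_disj hij hxi hx'⟩

/-- Additivity of area over the cells. -/
theorem Tiling.volume_inter [Fintype ι] (h : Tiling D P) {B : Set V} (hB : MeasurableSet B) :
    volume (D ∩ B) = ∑ i, volume (P i ∩ B) := by
  have h1 : D ∩ B = ⋃ i, (P i ∩ B) := by rw [h.cover, iUnion_inter]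
  rw [h1, measure_iUnion₀, tsum_fintype]
  · intro i j hij
    exact (h.ae_disj hij).mono inter_subset_left inter_subset_left
  · intro i
    exact ((h.closed i).measurableSet.inter hB).nullMeasurableSet

theorem Tiling.volume_hull [Fintype ι] (h : Tiling D P) :
    volume (convexHull ℝ (Vb D P)) = ∑ i, volume (convexHull ℝ (S P i)) := by
  have hhullD : convexHull ℝ (Vb D P) ⊆ D :=
    convexHull_min (fun x hx => h.sh_sub hx.1) h.convD
  have hB : MeasurableSet (convexHull ℝ (Vb D P)) :=
    (h.vb_finite.isClosed_convexHull ℝ).measurableSet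
  have h1 := h.volume_inter hB
  rw [inter_eq_self_of_subset_right hhullD] at h1
  rw [h1]
  refine Finset.sum_congr rfl fun i _ => ?_
  rw [h.inter_hull i]

end W82
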