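import Pool.Agent.W82_c2305b.Gap

/-!
From the data of the core statement to the rescaled tiling.
-/

open Set Module Topology Filter MeasureTheory
open scoped Pointwise

namespace W82

open C2305b.TL (cr)
open C2305b.Rig (Am Off Pos InBody Jt)
open C2305b (rot dil rfx body)

variable {ι : Type*} {D : Set V} {P : ι → Set V}

/-- Image of a tiling under a linear equivalence. -/
theorem Tiling.map (h : Tiling D P) (e : V ≃L[ℝ] V) : Tiling (e '' D) (fun i => e '' P i) where
  convD := h.convD.is_linear_image e.toLinearMap.isLinear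
  compD := h.compD.image e.continuous
  conv := fun i => (h.conv i).is_linear_image e.toLinearMap.isLinear
  comp := fun i => (h.comp i).image e.continuous
  int := fun i => by
    have h1 := e.toHomeomorph.image_interior (P i)
    have h2 : (e.toHomeomorph '' interior (P i)).Nonempty := (h.int i).image _
    rw [h1] at h2
    exact h2
  cover := by
    conv_lhs => rw [h.cover]
    rw [image_iUnion]
  disj := by
    intro i j hij
    have h1 := e.toHomeomorph.image_interior (P i)
    have h2 := e.toHomeomorph.image_interior (P j)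
    change Disjoint (interior (e.toHomeomorph '' P i)) (interior (e.toHomeomorph '' P j))
    rw [← h1, ← h2]
    exact (Set.disjoint_image_iff e.toHomeomorph.injective).mpr (h.disj i j hij)

/-- A tiling from the data of the core statement. -/
theorem tiling_of_core {D : Set V} (hD : Convex ℝ D) (hDc : IsCompact D) {C : ι → Set V}
    {f : ι → ι → V →L[ℝ] ℝ} {d : ι → ι → ℝ}
    (hf : ∀ i j, i ≠ j → f i j ≠ 0 ∧ f j i = - f i j ∧ d j i = - d i j)
    (hC : ∀ i, C i = {x | x ∈ D ∧ ∀ j, i ≠ j → f i j x ≤ d i j})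
    (hint : ∀ i, (interior (C i)).Nonempty) (hcov : D = ⋃ i, C i) : Tiling D C where
  convD := hD
  compD := hDc
  conv := fun i => by
    have : C i = D ∩ ⋂ (j : ι) (_ : i ≠ j), {x | f i j x ≤ d i j} := by
      rw [hC i]
      ext x
      simp
    rw [this]
    exact hD.inter (convex_iInter fun j => convex_iInter fun _ =>
      convex_halfSpace_le (f i j).isLinear _)
  comp := fun i => by
    have : C i = D ∩ ⋂ (j : ι) (_ : i ≠ j), {x | f i j x ≤ d i j} := by
      rw [hC i]
      ext x
      simp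
    rw [this]
    exact hDc.inter_right (isClosed_iInter fun j => isClosed_iInter fun _ =>
      isClosed_le (f i j).continuous continuous_const)
  int := hint
  cover := hcov
  disj := by
    intro i j hij
    rw [Set.disjoint_left]
    intro x hx hx'
    obtain ⟨h1, h2, h3⟩ := hf i j hij
    have e1 : f i j x < d i j := lt_of_mem_interior (f i j) h1 (S := C i) (fun y hy => by
      rw [hC i] at hy
      exact hy.2 j hij) hx
    have e2 : f j i x < d j i := lt_of_mem_interior (f j i) (by
      rw [h2]; exact neg_ne_zero.mpr h1) (S := C j) (fun y hy => by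
      rw [hC j] at hy
      exact hy.2 i hij.symm) hx'
    rw [h2, h3, neg_apply] at e2
    linarith

/-- The stretching as a linear equivalence. -/
noncomputable def dilE (l : ℝ) (hl : l ≠ 0) : V ≃L[ℝ] V :=
  ContinuousLinearEquiv.equivOfInverse
    (LinearMap.toContinuousLinearMap (C2305b.mat !![l, 0; 0, l⁻¹]))
    (LinearMap.toContinuousLinearMap (C2305b.mat !![l⁻¹, 0; 0, l]))
    (by
      intro x
      ext k
      fin_cases k
      · simp [C2305b.mat_0, hl]
      · simp [C2305b.mat_1, hl])
    (by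
      intro x
      ext k
      fin_cases k
      · simp [C2305b.mat_0, hl]
      · simp [C2305b.mat_1, hl])

theorem dilE_apply {l : ℝ} (hl : l ≠ 0) (x : V) : dilE l hl x = dil l x := by
  change C2305b.mat !![l, 0; 0, l⁻¹] x = dil l x
  ext k
  fin_cases k
  · simp [C2305b.mat_0, dil]
  · simp [C2305b.mat_1, dil]

theorem volume_dilE {l : ℝ} (hl : l ≠ 0) (X : Set V) : volume (dilE l hl '' X) = volume X := by
  have h1 : (dilE l hl : V → V) = fun p => (0 : V) + C2305b.mat !![l, 0; 0, l⁻¹] p := by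
    funext x
    rw [zero_add]
    rfl
  rw [h1, C2305b.volume_affine, C2305b.det_mat]
  simp [hl]

/-- The rescaled frame. -/
theorem frame_rescaled {l : ℝ} (hl : l ≠ 0) (c s : ℝ) (x : V) :
    dil l⁻¹ (rot c s (dil l x)) = Am (1 / l ^ 4) c (s * l ^ 2) x := by
  ext k
  fin_cases k
  · simp [dil, rot, Am]
    field_simp
  · simp [dil, rot, Am]
    field_simp

theorem Am_comp (ν c s c' s' : ℝ) (x : V) :
    Am ν c s (Am ν c' s' x) = Am ν (c * c' - ν * s * s') (s * c' + c * s') x := by
  ext k
  fin_cases k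
  · simp [Am]; ring
  · simp [Am]; ring

theorem dil_add (l : ℝ) (x y : V) : dil l (x + y) = dil l x + dil l y := by
  ext k
  fin_cases k
  · simp [dil]; ring
  · simp [dil]; ring

/-- Type of a cell. -/
noncomputable def tp (σ : ℝ) : Bool := decide (σ = -1)

theorem rfx_eq_Jt {σ : ℝ} (hσ : σ = 1 ∨ σ = -1) (x : V) : rfx σ x = Jt (tp σ) x := by
  rcases hσ with rfl | rfl
  · have : tp 1 = false := by simp [tp]; norm_num
    rw [this]
    ext k
    fin_cases k <;> simp [rfx, Jt]
  · have : tp (-1) = true := by simp [tp]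
    rw [this]
    ext k
    fin_cases k <;> simp [rfx, Jt]

theorem inBody_of {K0 : Set V} {a b ε : ℝ} (hab : a ^ 2 + b ^ 2 = 1) (hε : 0 ≤ ε) (t : Bool)
    {y : V} (hy : y ∈ (1 + ε) • K0) : InBody K0 a b t ((1 + ε)⁻¹ • Jt t (rot a b y)) := by
  obtain ⟨z, hz, rfl⟩ := hy
  have hne : (1 + ε) ≠ 0 := by positivity
  have : Am 1 a (-b) (Jt t ((1 + ε)⁻¹ • Jt t (rot a b ((1 + ε) • z)))) = z := by
    cases t
    · ext k
      fin_cases k
      · simp [Am, Jt, rot]
        field_simp
        linear_combination (z 0) * hab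
      · simp [Am, Jt, rot]
        field_simp
        linear_combination (z 1) * hab
    · ext k
      fin_cases k
      · simp [Am, Jt, rot]
        field_simp
        linear_combination (z 0) * hab
      · simp [Am, Jt, rot]
        field_simp
        linear_combination (z 1) * hab
  rw [InBody]
  simp only at this ⊢
  rw [this]
  exact hz

/-- Frames with the offset of the reflected cells removed. -/
noncomputable def cN (ν co so : ℝ) (t : Bool) (c s : ℝ) : ℝ := if t then c * co + ν * s * so else c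
noncomputable def sN (ν co so : ℝ) (t : Bool) (c s : ℝ) : ℝ := if t then s * co - c * so else s

theorem cN_sN {ν co so c s : ℝ} (ho : co ^ 2 + ν * so ^ 2 = 1) (h : c ^ 2 + ν * s ^ 2 = 1)
    (t : Bool) : cN ν co so t c s ^ 2 + ν * sN ν co so t c s ^ 2 = 1 := by
  cases t
  · simpa [cN, sN] using h
  · simp only [cN, sN, if_true]
    linear_combination (co ^ 2 + ν * so ^ 2) * h + ho

theorem Am_cN {ν co so : ℝ} (ho : co ^ 2 + ν * so ^ 2 = 1) (t : Bool) (c s : ℝ) (x : V) :
    Am ν (cN ν co so t c s) (sN ν co so t c s) (Off ν co so t x) = Am ν c s x := by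
  cases t
  · simp [cN, sN, Off]
  · simp only [cN, sN, Off, if_true]
    rw [Am_comp]
    congr 1
    · linear_combination c * ho
    · linear_combination s * ho

/-- The rescaled cells. -/
theorem cells_of_core {K K0 : Set V} {ε l a b co so : ℝ} (hε : 0 ≤ ε) (hK : K ⊆ (1 + ε) • K0)
    (hl : 1 ≤ l) (hab : a ^ 2 + b ^ 2 = 1) (ho : co ^ 2 + 1 / l ^ 4 * so ^ 2 = 1)
    {C : ι → Set V} {o : ι → V} {c s σ : ι → ℝ} (hcs : ∀ i, c i ^ 2 + s i ^ 2 = 1)
    (hσ : ∀ i, σ i = 1 ∨ σ i = -1)
    (hC : ∀ i, C i ⊆ body (o i) (c i) (s i) l (σ i) a b K) :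
    Cells (fun i => dilE l⁻¹ (by positivity) '' C i) K0 (1 / l ^ 4) ε a b co so
      (fun i => tp (σ i)) (fun i => cN (1 / l ^ 4) co so (tp (σ i)) (c i) (s i * l ^ 2))
      (fun i => sN (1 / l ^ 4) co so (tp (σ i)) (c i) (s i * l ^ 2)) (fun i => dil l⁻¹ (o i)) where
  off := ho
  fr := fun i => by
    apply cN_sN ho
    have hl0 : l ≠ 0 := by positivity
    have := hcs i
    field_simp
    linarith
  loc := by
    intro i p hp
    have hl0 : l ≠ 0 := by positivity
    obtain ⟨q, hq, rfl⟩ := hp
    obtain ⟨y, hy, rfl⟩ := hC i hq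
    refine ⟨Jt (tp (σ i)) (rot a b y), ?_, inBody_of hab hε _ (hK hy)⟩
    rw [dilE_apply, Pos, Am_cN ho]
    simp only
    rw [dil_add, frame_rescaled hl0, rfx_eq_Jt (hσ i)]

/-- The rescaled cells are equiaffine copies. -/
theorem copies_of_core {K : Set V} {l a b : ℝ} (hl : 1 ≤ l) (hab : a ^ 2 + b ^ 2 = 1)
    {C : ι → Set V} {o : ι → V} {c s σ : ι → ℝ} (hcs : ∀ i, c i ^ 2 + s i ^ 2 = 1)
    (hσ : ∀ i, σ i = 1 ∨ σ i = -1)
    (hC : ∀ i, C i ⊆ body (o i) (c i) (s i) l (σ i) a b K) :
    Copies (fun i => dilE l⁻¹ (by positivity) '' C i) K := by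
  intro i
  have hl0 : l ≠ 0 := by positivity
  refine ⟨dil l⁻¹ (o i), (C2305b.mat !![l⁻¹, 0; 0, l⁻¹⁻¹]).comp
    (C2305b.mat (C2305b.frM (c i) (s i) l (σ i) a b)), ?_, ?_⟩
  · rw [LinearMap.det_comp, C2305b.det_frM (hcs i) hab hl0, C2305b.det_mat]
    rcases hσ i with h | h <;> rw [h] <;> simp [hl0]
  · rintro _ ⟨q, hq, rfl⟩
    have h1 := hC i hq
    rw [C2305b.body_eq] at h1
    obtain ⟨y, hy, rfl⟩ := h1
    refine ⟨y, hy, ?_⟩
    rw [dilE_apply, LinearMap.comp_apply]
    simp only
    rw [dil_add]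
    congr 1
    ext k
    fin_cases k
    · simp [dil, C2305b.mat_0]
    · simp [dil, C2305b.mat_1]

end W82
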