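import Pool.Agent.W82_c2305b.WalkB
import Pool.Agent.W82_c2305b.Rescale

/-!
Counting cells in terms of the number of shared boundary points.
-/

open Set Module Topology Filter MeasureTheory
open scoped Pointwise

namespace W82

open C2305b.TL (cr)
open C2305b.Rig (Am)

variable {ι : Type*} {D : Set V} {P : ι → Set V}

open Classical in
/-- The number of nonperfect cells. -/
theorem Tiling.card_nonperfect [Fintype ι] (h : Tiling D P) {A6 τ g G η : ℝ}
    (hη : 0 < η) (hg : 0 < g) (hτ : 0 < τ) (hG : 0 ≤ G)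
    (hl : ∀ i, 0 ≤ lossOf P A6 τ i)
    (hgap : ∀ i, (S P i).ncard ≠ 6 → g / 2 ≤ lossOf P A6 τ i)
    (hm : ∀ i, ((S P i).ncard : ℝ) ≤ (6 + 4 * G / τ) + lossOf P A6 τ i / τ) :
    ((Finset.univ.filter (fun i => ¬ Perfect D P (lossOf P A6 τ) η i)).card : ℝ) ≤
      (Cnp g τ G η + 2 / g) * (h.Lam A6 τ + (Vb D P).ncard) := by
  have h1 := h.nonperfect_le hη hg hτ hG hl hgap hm
  have h2 : ((Finset.univ.filter (fun i => ¬ Perfect D P (lossOf P A6 τ) η i)).card : ℝ) ≤
      ∑ i ∈ Finset.univ.filter (fun i => ¬ Perfect D P (lossOf P A6 τ) η i),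
        ((((S P i).ncard : ℝ) + h.tn i) + 2 / g * lossOf P A6 τ i) := by
    rw [Finset.card_eq_sum_ones]
    push_cast
    refine Finset.sum_le_sum fun i _ => ?_
    have t0 : (0 : ℝ) ≤ h.tn i := Nat.cast_nonneg _
    by_cases h6 : (S P i).ncard = 6
    · rw [h6]
      have := hl i
      have : 0 ≤ 2 / g * lossOf P A6 τ i := by positivity
      push_cast
      linarith
    · have h3 := hgap i h6
      have h4 : 2 / g * (g / 2) ≤ 2 / g * lossOf P A6 τ i :=
        mul_le_mul_of_nonneg_left h3 (by positivity)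
      have h5 : 2 / g * (g / 2) = 1 := by field_simp
      have h7 : (0 : ℝ) ≤ (S P i).ncard := Nat.cast_nonneg _
      linarith
  rw [Finset.sum_add_distrib] at h2
  have h3 : ∑ i ∈ Finset.univ.filter (fun i => ¬ Perfect D P (lossOf P A6 τ) η i),
      2 / g * lossOf P A6 τ i ≤ 2 / g * h.Lam A6 τ := by
    rw [← Finset.mul_sum]
    apply mul_le_mul_of_nonneg_left _ (by positivity)
    refine (Finset.sum_le_sum_of_subset_of_nonneg (Finset.subset_univ _)
      fun i _ _ => hl i).trans (h.loss_le_Lam hτ.le)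
  have h4 : (0 : ℝ) ≤ 2 / g * (Vb D P).ncard := by positivity
  have h5 : (Cnp g τ G η + 2 / g) * (h.Lam A6 τ + (Vb D P).ncard) =
      Cnp g τ G η * (h.Lam A6 τ + (Vb D P).ncard) + 2 / g * h.Lam A6 τ +
        2 / g * (Vb D P).ncard := by ring
  rw [h5]
  linarith

open Classical in
/-- Perfect cells are counted by their area. -/
theorem Tiling.card_perfect_area [Fintype ι] (h : Tiling D P) {A6 τ η a : ℝ}
    (ha : a ≤ A6 - η) :
    ((Finset.univ.filter (fun i => Perfect D P (lossOf P A6 τ) η i)).card : ℝ) * a ≤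
      (volume (convexHull ℝ (Vb D P))).toReal := by
  rw [h.volume_hull, ENNReal.toReal_sum fun i _ => h.vol_S_ne_top i]
  calc ((Finset.univ.filter (fun i => Perfect D P (lossOf P A6 τ) η i)).card : ℝ) * a
      = ∑ i ∈ Finset.univ.filter (fun i => Perfect D P (lossOf P A6 τ) η i), a := by
        rw [Finset.sum_const, nsmul_eq_mul]
    _ ≤ ∑ i ∈ Finset.univ.filter (fun i => Perfect D P (lossOf P A6 τ) η i),
        (volume (convexHull ℝ (S P i))).toReal := by
        refine Finset.sum_le_sum fun i hi => ?_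
        have hp := (Finset.mem_filter.mp hi).2
        have h1 := hp.small
        rw [lossOf, hp.card] at h1
        simp only [Nat.cast_ofNat] at h1
        linarith
    _ ≤ ∑ i, (volume (convexHull ℝ (S P i))).toReal :=
        Finset.sum_le_sum_of_subset_of_nonneg (Finset.subset_univ _)
          fun i _ _ => ENNReal.toReal_nonneg

/-- The coordinate functionals. -/
noncomputable def coL (k : Fin 2) : V →ₗ[ℝ] ℝ where
  toFun := fun p => p k
  map_add' := fun x y => by simp
  map_smul' := fun r x => by simp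

/-- The area of the hull is bounded in terms of the number of shared boundary points. -/
theorem Tiling.area_hull_le [Finite ι] (h : Tiling D P)
    (hi : (interior (convexHull ℝ (Vb D P))).Nonempty) {m B : ℝ} (hm0 : 0 ≤ m)
    (hm : ∀ i, ∀ p ∈ P i, ∀ q ∈ P i, ∀ k, |p k - q k| ≤ m) (hB : ((Vb D P).ncard : ℝ) ≤ B) :
    (volume (convexHull ℝ (Vb D P))).toReal ≤
      (4 * B * m) ^ 2 * (volume (Metric.closedBall (0 : V) 1)).toReal := by
  have hB0 : 0 ≤ B := (Nat.cast_nonneg _).trans hB
  obtain ⟨v, hv⟩ := hi.mono interior_subset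
  have hsub : convexHull ℝ (Vb D P) ⊆ Metric.closedBall v (4 * B * m) := by
    intro x hx
    have key : ∀ k, |(x - v) k| ≤ 2 * B * m := by
      intro k
      have h1 := h.width hi (coL k) (m := m) (fun i p hp q hq => hm i p hp q hq k) hx hv
      have h2 := h.width hi (coL k) (m := m) (fun i p hp q hq => hm i p hp q hq k) hv hx
      change x k - v k ≤ _ at h1
      change v k - x k ≤ _ at h2
      have h3 : 2 * (Vb D P).ncard * m ≤ 2 * B * m := by
        apply mul_le_mul_of_nonneg_right _ hm0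
        linarith
      rw [PiLp.sub_apply, abs_le]
      constructor <;> linarith
    rw [mem_closedBall_iff_norm, EuclideanSpace.norm_eq, Fin.sum_univ_two, Real.norm_eq_abs,
      Real.norm_eq_abs, sq_abs, sq_abs]
    apply Real.sqrt_le_iff.mpr
    have k0 := key 0
    have k1 := key 1
    have e0 : (x - v) 0 ^ 2 ≤ (2 * B * m) ^ 2 := by
      rw [← sq_abs]; exact pow_le_pow_left₀ (abs_nonneg _) k0 2
    have e1 : (x - v) 1 ^ 2 ≤ (2 * B * m) ^ 2 := by
      rw [← sq_abs]; exact pow_le_pow_left₀ (abs_nonneg _) k1 2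
    have hp : 0 ≤ B * m := mul_nonneg hB0 hm0
    constructor
    · positivity
    · nlinarith
  have h1 : volume (convexHull ℝ (Vb D P)) ≤
      ENNReal.ofReal ((4 * B * m) ^ 2) * volume (Metric.closedBall (0 : V) 1) := by
    refine (measure_mono hsub).trans ?_
    rw [Measure.addHaar_closedBall' (volume : Measure V) v (by positivity)]
    rw [finrank_euclideanSpace_fin]
  calc (volume (convexHull ℝ (Vb D P))).toReal
      ≤ (ENNReal.ofReal ((4 * B * m) ^ 2) * volume (Metric.closedBall (0 : V) 1)).toReal :=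
        ENNReal.toReal_mono (ENNReal.mul_ne_top ENNReal.ofReal_ne_top
          (isCompact_closedBall (0 : V) 1).measure_lt_top.ne) h1
    _ = (4 * B * m) ^ 2 * (volume (Metric.closedBall (0 : V) 1)).toReal := by
        rw [ENNReal.toReal_mul, ENNReal.toReal_ofReal (by positivity)]

/-- Coordinate extents of the cells. -/
theorem Cells.extent {K0 : Set V} {ν ε a b co so R0 Ro M L : ℝ} {t : ι → Bool} {c s : ι → ℝ}
    {o : ι → V} (hC : Cells P K0 ν ε a b co so t c s o) (hK : K0 ⊆ Metric.closedBall 0 R0)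
    (hab : a ^ 2 + b ^ 2 = 1) (hε : 0 ≤ ε) (hε1 : ε ≤ 1) (hL : 1 ≤ L) (hν : ν = 1 / L ^ 2)
    (hso : |so| ≤ Ro) (hM : (1 + Ro) * (2 * R0) ≤ M) {i : ι} {p q : V} (hp : p ∈ P i)
    (hq : q ∈ P i) (k : Fin 2) : |p k - q k| ≤ 4 * (L * M) := by
  have hL0 : 0 < L := by linarith
  have hν0 : 0 < ν := by rw [hν]; positivity
  have hν1 : ν ≤ 1 := by
    rw [hν, div_le_one (by positivity)]
    nlinarith
  have hunit := hC.fr i
  have hc : |c i| ≤ 1 := by
    apply abs_le_of_sq_le_sq _ zero_le_one
    nlinarith [mul_nonneg hν0.le (sq_nonneg (s i))]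
  have hs : |s i| ≤ L := by
    apply abs_le_of_sq_le_sq _ hL0.le
    have h1 : ν * s i ^ 2 ≤ 1 := by nlinarith [sq_nonneg (c i)]
    rw [hν, div_mul_eq_mul_div, one_mul, div_le_one (by positivity)] at h1
    exact h1
  have hνs : |ν * s i| ≤ 1 := by
    apply abs_le_of_sq_le_sq _ zero_le_one
    have h3 : (ν * s i) ^ 2 = ν * (ν * s i ^ 2) := by ring
    rw [h3]
    have h1 : ν * s i ^ 2 ≤ 1 := by nlinarith [sq_nonneg (c i)]
    nlinarith [mul_nonneg hν0.le (sq_nonneg (s i))]
  have key : ∀ p ∈ P i, ∀ k : Fin 2, |p k - o i k| ≤ 2 * (L * M) := by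
    intro p hp k
    obtain ⟨x, hx, h0, h1⟩ := hC.local hK hab hε hε1 hν0.le hν1 hso hp
    have h0' := h0.trans hM
    have h1' := h1.trans hM
    have hM0 : 0 ≤ M := (abs_nonneg _).trans h0'
    have hLM : M ≤ L * M := by nlinarith
    have e : p k - o i k = (Am ν (c i) (s i) x) k := by rw [hx]; simp
    rw [e]
    fin_cases k
    · simp only [Fin.zero_eta, Am, PiLp.toLp_apply, Matrix.cons_val_zero]
      refine (abs_sub _ _).trans ?_
      rw [abs_mul, abs_mul]
      have := mul_le_mul hc h0' (abs_nonneg _) zero_le_one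
      have := mul_le_mul hνs h1' (abs_nonneg _) zero_le_one
      linarith
    · simp only [Fin.mk_one, Am, PiLp.toLp_apply, Matrix.cons_val_one]
      refine (abs_add_le _ _).trans ?_
      rw [abs_mul, abs_mul]
      have := mul_le_mul hs h0' (abs_nonneg _) hL0.le
      have := mul_le_mul hc h1' (abs_nonneg _) zero_le_one
      linarith
  have e : p k - q k = (p k - o i k) - (q k - o i k) := by ring
  rw [e]
  refine (abs_sub _ _).trans ?_
  have := key p hp k
  have := key q hq k
  linarith

end W82
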