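import Pool.Agent.W82_c2305b.WalkC
import Pool.Agent.W82_c2305b.CoreA

/-!
The core statement from a bound of the number of shared boundary points (no rigidity).
-/

open Set Module Topology Filter MeasureTheory
open scoped Pointwise

namespace W82

open C2305b.TL (cr)
open C2305b.Rig (Am)
open C2305b (dil)
open C2305bB (Fr mis)
open C2305bH52 (needle)

/-- The data at a violation of the area bound. -/
structure Viol (K0 : Set V) (T6 τ g G ε L : ℝ) {ι : Type} [Fintype ι] {D : Set V}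
    {P : ι → Set V} (h : Tiling D P) (hi : (interior (convexHull ℝ (Vb D P))).Nonempty)
    (K : Set V) (A6 a b : ℝ) (t : ι → Bool) (c s : ι → ℝ) (o : ι → V) : Prop where
  L1 : 1 ≤ L
  ab : a ^ 2 + b ^ 2 = 1
  eps0 : 0 < ε
  eps1 : ε ≤ 1
  epsG : 3 * ε * G ≤ g / 2
  cells : Cells P K0 (1 / L ^ 2) ε a b 1 0 t c s o
  fr : ∀ i, c i ^ 2 + (s i / L) ^ 2 = 1
  sub : K ⊆ (1 + ε) • K0
  cop : Copies P K
  TA : T6 ≤ A6
  A0 : 0 ≤ A6
  A6eq : C2305b.t6 K = ENNReal.ofReal A6
  loss0 : ∀ i, 0 ≤ lossOf P A6 τ i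
  gap : ∀ i, (S P i).ncard ≠ 6 → g / 2 ≤ lossOf P A6 τ i
  crd : ∀ i, ((S P i).ncard : ℝ) ≤ (6 + 4 * G / τ) + lossOf P A6 τ i / τ
  vol : ∀ i, (volume (P i)).toReal ≤ 4 * G
  main : h.Lam A6 τ + τ * (Vb D P).ncard + 6 * τ ≤
    ∑ p ∈ h.sides hi, (volume (cap D p.1 p.2)).toReal

/-- The number of shared boundary points is bounded at violations. -/
def BoundB (K0 : Set V) (T6 τ g G : ℝ) : Prop :=
  ∃ ε1 : ℝ, 0 < ε1 ∧ ∃ B : ℝ, ∀ ε : ℝ, ε ≤ ε1 → ∀ L : ℝ, ∀ (ι : Type) [Fintype ι] (D : Set V)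
    (P : ι → Set V) (h : Tiling D P) (hi : (interior (convexHull ℝ (Vb D P))).Nonempty)
    (K : Set V) (A6 a b : ℝ) (t : ι → Bool) (c s : ι → ℝ) (o : ι → V),
    Viol K0 T6 τ g G ε L h hi K A6 a b t c s o → ((Vb D P).ncard : ℝ) ≤ B

/-- **The core statement** from the gap and the bound of the number of shared boundary points. -/
theorem core_of_bound {K0 : Set V} {T6 τ g R0 G : ℝ} (hK0c : Convex ℝ K0)
    (hK0 : K0 ⊆ Metric.closedBall 0 R0) (hT60 : 0 < T6)
    (hT6 : ENNReal.ofReal T6 ≤ C2305b.t6 K0) (hG : Gap K0 T6 τ g)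
    (hG1 : 1 ≤ G) (hG0 : volume K0 ≤ ENNReal.ofReal G)
    (hB : BoundB K0 T6 τ g G) :
    C2305b.Core K0 := by
  classical
  have hτ := hG.tau
  have hg := hG.pos
  -- bounds of the body
  set R1 := max R0 1 with hR1
  have hR11 : 1 ≤ R1 := le_max_right _ _
  have hK1 : K0 ⊆ Metric.closedBall 0 R1 :=
    hK0.trans (Metric.closedBall_subset_closedBall (le_max_left _ _))
  have hGnn : 0 ≤ G := by linarith
  obtain ⟨ε1, hε1pos, B0, hB0⟩ := hB
  set B := max B0 0 with hBdef
  have hBnn : 0 ≤ B := le_max_right _ _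
  -- the walk
  set M := (1 + 0) * (2 * R1) with hMdef
  have hM0 : 0 < M := by positivity
  set μ := 64 * M ^ 2 / τ with hμ
  have hμ0 : 0 ≤ μ := by positivity
  set cc := τ ^ 2 / (256 * M ^ 3) with hcc
  have hcc0 : 0 < cc := by positivity
  obtain ⟨N', hN'⟩ := exists_nat_gt (8 * M * B / cc)
  set N := N' + 1 with hNdef
  have hN0 : (0 : ℝ) < N := by rw [hNdef]; positivity
  have hNB : 8 * M * B < N * cc := by
    rw [div_lt_iff₀ hcc0] at hN'
    have : (N' : ℝ) * cc ≤ N * cc := by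
      apply mul_le_mul_of_nonneg_right _ hcc0.le
      rw [hNdef]; push_cast; linarith
    linarith
  set L2 := max 1 (2 * (N * μ)) with hL2
  have hL21 : 1 ≤ L2 := le_max_left _ _
  set η := min (g / 2) (T6 / 2) with hη
  have hη0 : 0 < η := lt_min (by linarith) (by linarith)
  have hη1 : η ≤ g / 2 := min_le_left _ _
  have hη2 : η ≤ T6 / 2 := min_le_right _ _
  -- constants of the count
  set W := (4 * G + 1) * B with hW
  have hWnn : 0 ≤ W := by positivity
  set V1 := (volume (Metric.closedBall (0 : V) 1)).toReal with hV1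
  have hV1nn : 0 ≤ V1 := ENNReal.toReal_nonneg
  set n1 := (Cnp g τ G η + 2 / g) * W with hn1
  set n2 := 19 ^ N * (4 * Cnp g τ G η * W) with hn2
  set n3 := (4 * B * (4 * (L2 * M))) ^ 2 * V1 / (T6 / 2) with hn3
  have hCnp3 : 0 ≤ Cnp g τ G η := Cnp_nonneg hg hτ hGnn hη0
  have hn2nn : 0 ≤ n2 := by positivity
  have hn3nn : 0 ≤ n3 := by positivity
  obtain ⟨N0, hN0'⟩ := exists_nat_gt (n1 + n2 + n3)
  refine ⟨min ε1 (min 1 (g / (6 * G))), ?_, N0 + 3, ?_⟩
  · have : 0 < g / (6 * G) := by positivity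
    exact lt_min hε1pos (lt_min one_pos this)
  intro K hKc hKcpt hK0K hKε l a b hl hab D hDc hDcpt hDi ι _ C f d o c s σ hf hC hint hcov hcs hσ
    hbody hcard
  set ε := min ε1 (min 1 (g / (6 * G))) with hεdef
  have hε : 0 < ε := by
    have : 0 < g / (6 * G) := by positivity
    exact lt_min hε1pos (lt_min one_pos this)
  have hεε1 : ε ≤ ε1 := min_le_left _ _
  have hε1 : ε ≤ 1 := (min_le_right _ _).trans (min_le_left _ _)
  have hεG : 3 * ε * G ≤ g / 2 := by
    have h1 : ε ≤ g / (6 * G) := (min_le_right _ _).trans (min_le_right _ _)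
    rw [le_div_iff₀ (by linarith)] at h1
    linarith
  have hl0 : l ≠ 0 := by positivity
  have hlinv : l⁻¹ ≠ 0 := inv_ne_zero hl0
  -- area of hexagons in K
  have ht6top : C2305b.t6 K ≠ ⊤ := by
    refine ((C2305b.t6_le hKc).trans_lt ?_).ne
    exact hKcpt.measure_lt_top
  set A6 := (C2305b.t6 K).toReal with hA6def
  have hA6 : C2305b.t6 K = ENNReal.ofReal A6 := (ENNReal.ofReal_toReal ht6top).symm
  have hA6nn : 0 ≤ A6 := ENNReal.toReal_nonneg
  have hTA : T6 ≤ A6 := by
    have h1 : ENNReal.ofReal T6 ≤ C2305b.t6 K := hT6.trans (C2305b.t6_mono hK0K)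
    have h2 := ENNReal.toReal_mono ht6top h1
    rwa [ENNReal.toReal_ofReal hT60.le] at h2
  by_contra hviol
  push Not at hviol
  -- rescaling
  have hT0 : Tiling D C := tiling_of_core hDc hDcpt hf hC hint hcov
  set e := dilE l⁻¹ hlinv with he
  set P : ι → Set V := fun i => e '' C i with hP
  have h : Tiling (e '' D) P := hT0.map e
  have hvolD : volume (e '' D) = volume D := volume_dilE hlinv D
  have hviol' : Fintype.card ι * A6 < (volume (e '' D)).toReal := by
    rw [hvolD]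
    have h1 : (Fintype.card ι : ENNReal) * C2305b.t6 K ≠ ⊤ :=
      ENNReal.mul_ne_top (ENNReal.natCast_ne_top _) ht6top
    have h2 := (ENNReal.toReal_lt_toReal h1 hDcpt.measure_lt_top.ne).mpr hviol
    rwa [ENNReal.toReal_mul, ENNReal.toReal_natCast] at h2
  have hcop : Copies P K := copies_of_core hl hab hcs hσ hbody
  -- two cells, interior
  have hcard3 : 2 < Fintype.card ι := by omega
  have hi : (interior (convexHull ℝ (Vb (e '' D) P))).Nonempty := by
    by_contra hcon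
    have := h.two_cells_of_degenerate hcon
    omega
  obtain ⟨i₀, j₀, hij₀⟩ := Fintype.exists_pair_of_one_lt_card (by omega : 1 < Fintype.card ι)
  obtain ⟨hlnn, hgap, hm, hvol⟩ := h.losses hG hK0c hG0 hGnn hε.le hε1 hεG hKε hcop hTA hA6nn hA6
  set b' := (((Vb (e '' D) P).ncard : ℕ) : ℝ) with hb'
  have hb'nn : 0 ≤ b' := Nat.cast_nonneg _
  have hacc := h.account hi hij₀ (A6 := A6) hτ.le
  have hsidesum : ∑ p ∈ h.sides hi, ((volume (cap (e '' D) p.1 p.2)).toReal - τ) =
      ∑ p ∈ h.sides hi, (volume (cap (e '' D) p.1 p.2)).toReal - τ * b' := by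
    rw [Finset.sum_sub_distrib, Finset.sum_const, h.card_sides hi, nsmul_eq_mul]
    ring
  rw [hsidesum] at hacc
  have hLamdef : h.Lam A6 τ = τ * ((Tv (e '' D) P).ncard +
      2 * ∑ v ∈ h.M, (exc (e '' D) P v : ℝ)) + ∑ i, lossOf P A6 τ i := rfl
  rw [← hLamdef] at hacc
  have hLamnn : 0 ≤ h.Lam A6 τ := h.Lam_nonneg hτ.le hlnn
  have hmain : h.Lam A6 τ + τ * b' + 6 * τ ≤
      ∑ p ∈ h.sides hi, (volume (cap (e '' D) p.1 p.2)).toReal := by linarith
  have hcaps : ∑ p ∈ h.sides hi, (volume (cap (e '' D) p.1 p.2)).toReal ≤ 4 * G * b' := by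
    calc ∑ p ∈ h.sides hi, (volume (cap (e '' D) p.1 p.2)).toReal
        ≤ ∑ p ∈ h.sides hi, 4 * G := by
          refine Finset.sum_le_sum fun p hp => ?_
          exact h.cap_le hvol ((h.mem_sides hi).mp hp)
      _ = 4 * G * b' := by
          rw [Finset.sum_const, h.card_sides hi, nsmul_eq_mul]
          ring
  -- the parameter
  set L := l ^ 2 with hLdef
  have hL1 : 1 ≤ L := one_le_pow₀ hl
  have hL0 : 0 < L := by linarith
  have hνL : 1 / l ^ 4 = 1 / L ^ 2 := by rw [hLdef]; ring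
  have ho : (1 : ℝ) ^ 2 + 1 / l ^ 4 * 0 ^ 2 = 1 := by ring
  have hcells := cells_of_core hε.le hKε hl hab ho hcs hσ hbody
  rw [hνL] at hcells
  have hfr : ∀ i, cN (1 / L ^ 2) 1 0 (tp (σ i)) (c i) (s i * l ^ 2) ^ 2 +
      (sN (1 / L ^ 2) 1 0 (tp (σ i)) (c i) (s i * l ^ 2) / L) ^ 2 = 1 := by
    intro i
    have hgen : ∀ x y : ℝ, x ^ 2 + 1 / L ^ 2 * y ^ 2 = 1 → x ^ 2 + (y / L) ^ 2 = 1 := by
      intro x y hxy
      rw [div_pow, ← hxy]
      ring
    exact hgen _ _ (hcells.fr i)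
  have hV : Viol K0 T6 τ g G ε L h hi K A6 a b (fun i => tp (σ i))
      (fun i => cN (1 / L ^ 2) 1 0 (tp (σ i)) (c i) (s i * l ^ 2))
      (fun i => sN (1 / L ^ 2) 1 0 (tp (σ i)) (c i) (s i * l ^ 2))
      (fun i => dil l⁻¹ (o i)) :=
    ⟨hL1, hab, hε, hε1, hεG, hcells, hfr, hKε, hcop, hTA, hA6nn, hA6, hlnn, hgap, hm, hvol,
      hmain⟩
  have hbB : b' ≤ B := (hB0 ε hεε1 L ι (e '' D) P h hi K A6 a b _ _ _ _ hV).trans
    (le_max_left _ _)
  have hνpos : 0 < 1 / L ^ 2 := by positivity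
  have hν1 : 1 / L ^ 2 ≤ 1 := by
    rw [div_le_one (by positivity)]
    exact one_le_pow₀ hL1
  have hso : |(0 : ℝ)| ≤ 0 := by simp
  -- counting
  have hWb : h.Lam A6 τ + b' ≤ W := by
    rw [hW]
    have h1 : 4 * G * b' ≤ 4 * G * B := mul_le_mul_of_nonneg_left hbB (by linarith)
    have h2 : 0 ≤ τ * b' := by positivity
    linarith
  set perf := Finset.univ.filter (fun i => Perfect (e '' D) P (lossOf P A6 τ) η i) with hperf
  set nonp := Finset.univ.filter (fun i => ¬ Perfect (e '' D) P (lossOf P A6 τ) η i) with hnonp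
  have hsplit : perf.card + nonp.card = Fintype.card ι := by
    rw [hperf, hnonp, Finset.card_filter_add_card_filter_not, Finset.card_univ]
  have hnp : (nonp.card : ℝ) ≤ n1 := by
    refine (h.card_nonperfect hη0 hg hτ hGnn hlnn hgap hm).trans ?_
    rw [hn1]
    apply mul_le_mul_of_nonneg_left hWb
    positivity
  have hp : (perf.card : ℝ) ≤ n2 + n3 := by
    by_cases hbig : L2 ≤ L
    · -- the walk
      have hNμ : 1 / L ^ 2 * (N * μ) ^ 2 ≤ 1 / 4 := by
        have h1 : 2 * (N * μ) ≤ L := (le_max_right _ _).trans hbig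
        have h2 : (2 * (N * μ)) ^ 2 ≤ L ^ 2 := pow_le_pow_left₀ (by positivity) h1 2
        rw [div_mul_eq_mul_div, one_mul, div_le_iff₀ (by positivity)]
        have h3 : (2 * (N * μ)) ^ 2 = 4 * (N * μ) ^ 2 := by ring
        rw [h3] at h2
        linarith
      have hmg : ∀ v, GoodV (e '' D) P (lossOf P A6 τ) η v → ∀ l' m, v ∈ P l' → v ∈ P m →
          |cN (1 / L ^ 2) 1 0 (tp (σ l')) (c l') (s l' * l ^ 2) *
            sN (1 / L ^ 2) 1 0 (tp (σ m)) (c m) (s m * l ^ 2) -
            sN (1 / L ^ 2) 1 0 (tp (σ l')) (c l') (s l' * l ^ 2) *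
            cN (1 / L ^ 2) 1 0 (tp (σ m)) (c m) (s m * l ^ 2)| ≤ μ := by
        intro v hv l' m hl' hm'
        exact h.mis_good hi hG hK0c hG0 hGnn hε.le hε1 hεG hKε hcop hTA hη1 hcells hK1 hab
          hνpos.le hν1 hso le_rfl hM0 hv hl' hm'
      have hsub : perf ⊆ reach (e '' D) P (lossOf P A6 τ) η N := by
        intro i hip
        have hpi := (Finset.mem_filter.mp hip).2
        refine h.walk2 hi hG hK0c hG0 hGnn hε.le hε1 hεG hKε hcop hTA hη1 hcells hK1 hab
          hνpos.le hν1 hso le_rfl hM0 hμ0 hmg hNμ ?_ hpi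
        refine lt_of_le_of_lt ?_ hNB
        exact mul_le_mul_of_nonneg_left hbB (by positivity)
      have h1 : perf.card ≤ 19 ^ N * (reach (e '' D) P (lossOf P A6 τ) η 0).card :=
        (Finset.card_le_card hsub).trans (h.reach_card _ _ N)
      have h2 := h.reach_zero hi (lossOf P A6 τ) η
      have h3 := h.nonperfect_le hη0 hg hτ hGnn hlnn hgap hm
      have h4 : ((reach (e '' D) P (lossOf P A6 τ) η 0).card : ℝ) ≤
          4 * Cnp g τ G η * W := by
        have h5 : ((reach (e '' D) P (lossOf P A6 τ) η 0).card : ℝ) ≤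
            4 * ∑ i ∈ nonp, (((S P i).ncard : ℝ) + h.tn i) := by
          have := (Nat.cast_le (α := ℝ)).mpr h2
          push_cast at this
          exact this
        refine h5.trans ?_
        rw [mul_assoc]
        apply mul_le_mul_of_nonneg_left _ (by norm_num : (0 : ℝ) ≤ 4)
        exact h3.trans (mul_le_mul_of_nonneg_left hWb hCnp3)
      have h6 : (perf.card : ℝ) ≤ n2 := by
        rw [hn2]
        have h7 : (perf.card : ℝ) ≤ 19 ^ N * ((reach (e '' D) P (lossOf P A6 τ) η 0).card : ℝ) := by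
          exact_mod_cast h1
        exact h7.trans (mul_le_mul_of_nonneg_left h4 (by positivity))
      linarith
    · -- small eccentricity
      push Not at hbig
      have h1 := h.card_perfect_area (A6 := A6) (τ := τ) (η := η) (a := T6 / 2) (by linarith)
      have h2 := h.area_hull_le hi (m := 4 * (L * M)) (B := B) (by positivity)
        (fun i p hp q hq k => hcells.extent hK1 hab hε.le hε1 hL1 rfl hso le_rfl hp hq k) hbB
      have h3 : (4 * B * (4 * (L * M))) ^ 2 * V1 ≤ (4 * B * (4 * (L2 * M))) ^ 2 * V1 := by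
        apply mul_le_mul_of_nonneg_right _ hV1nn
        apply pow_le_pow_left₀ (by positivity)
        apply mul_le_mul_of_nonneg_left _ (by positivity)
        apply mul_le_mul_of_nonneg_left _ (by norm_num)
        exact mul_le_mul_of_nonneg_right hbig.le hM0.le
      have h4 : (perf.card : ℝ) ≤ n3 := by
        rw [hn3, le_div_iff₀ (by linarith)]
        exact (h1.trans h2).trans h3
      linarith
  have hfin : (Fintype.card ι : ℝ) ≤ n1 + n2 + n3 := by
    rw [← hsplit]
    push_cast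
    linarith
  have hlt : (Fintype.card ι : ℝ) < N0 := lt_of_le_of_lt hfin hN0'
  have : Fintype.card ι < N0 := by exact_mod_cast hlt
  omega

end W82
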