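import Pool.Agent.W82_c2305b.Account
import Pool.Agent.W_c2305b_h68.Shoe
import Pool.Agent.W_c2305b_h89.Defs

/-!
The energy lemma: call of the rigidity statement at the good vertices.
-/

open Set Module Topology Filter MeasureTheory

namespace W82

open C2305b.TL (cr)
open C2305b.Rig (Am Off Pos Conv6 ar6 InBody)
open C2305bH68.Ord (Corners Nx)

variable {ι : Type*} {D : Set V} {P : ι → Set V}

theorem rig_cr (u v : V) : C2305b.Rig.cr u v = cr u v := rfl

theorem conv6_of_strict {q : Fin 6 → V}
    (h : ∀ k l : Fin 6, l ≠ k → l ≠ k + 1 → 0 < cr (q (k + 1) - q k) (q l - q k)) : Conv6 q := by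
  -- base change identities
  have rot1 : ∀ x y z : V, cr (y - x) (z - x) = cr (z - y) (x - y) := by
    intro x y z; simp [cr]; ring
  have rot2 : ∀ x y z : V, cr (y - x) (z - x) = cr (x - z) (y - z) := by
    intro x y z; simp [cr]; ring
  have pl : ∀ x a b c d : V, cr (a - x) (b - x) * cr (c - x) (d - x)
      - cr (a - x) (c - x) * cr (b - x) (d - x) + cr (a - x) (d - x) * cr (b - x) (c - x) = 0 := by
    intro x a b c d; simp [cr]; ring
  have h01 := h 0
  have h12 := h 1
  have h23 := h 2
  have h34 := h 3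
  have h45 := h 4
  have h50 := h 5
  have n2 : (0 : Fin 6) + 1 = 1 := rfl
  have n3 : (1 : Fin 6) + 1 = 2 := rfl
  have n4 : (2 : Fin 6) + 1 = 3 := rfl
  have n5 : (3 : Fin 6) + 1 = 4 := rfl
  have n6 : (4 : Fin 6) + 1 = 5 := rfl
  have n7 : (5 : Fin 6) + 1 = 0 := rfl
  rw [n2] at h01
  rw [n3] at h12
  rw [n4] at h23
  rw [n5] at h34
  rw [n6] at h45
  rw [n7] at h50
  have a2 := h01 2 (by decide) (by decide)
  have a3 := h01 3 (by decide) (by decide)
  have a4 := h01 4 (by decide) (by decide)
  have a5 := h01 5 (by decide) (by decide)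
  have b3 := h12 3 (by decide) (by decide)
  have b4 := h12 4 (by decide) (by decide)
  have b5 := h12 5 (by decide) (by decide)
  have b0 := h12 0 (by decide) (by decide)
  have c0 := h23 0 (by decide) (by decide)
  have c1 := h23 1 (by decide) (by decide)
  have c4 := h23 4 (by decide) (by decide)
  have c5 := h23 5 (by decide) (by decide)
  have d0 := h34 0 (by decide) (by decide)
  have d1 := h34 1 (by decide) (by decide)
  have d2 := h34 2 (by decide) (by decide)
  have d5 := h34 5 (by decide) (by decide)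
  have e0 := h45 0 (by decide) (by decide)
  have e1 := h45 1 (by decide) (by decide)
  have e2 := h45 2 (by decide) (by decide)
  have e3 := h45 3 (by decide) (by decide)
  have f1 := h50 1 (by decide) (by decide)
  have f2 := h50 2 (by decide) (by decide)
  have f3 := h50 3 (by decide) (by decide)
  have f4 := h50 4 (by decide) (by decide)
  -- the triples
  have t012 : 0 < cr (q 1 - q 0) (q 2 - q 0) := a2
  have t013 : 0 < cr (q 1 - q 0) (q 3 - q 0) := a3
  have t014 : 0 < cr (q 1 - q 0) (q 4 - q 0) := a4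
  have t015 : 0 < cr (q 1 - q 0) (q 5 - q 0) := a5
  have t023 : 0 < cr (q 2 - q 0) (q 3 - q 0) := by rw [rot1]; exact c0
  have t034 : 0 < cr (q 3 - q 0) (q 4 - q 0) := by rw [rot1]; exact d0
  have t045 : 0 < cr (q 4 - q 0) (q 5 - q 0) := by rw [rot1]; exact e0
  have t025 : 0 < cr (q 2 - q 0) (q 5 - q 0) := by rw [rot2]; exact f2
  have t035 : 0 < cr (q 3 - q 0) (q 5 - q 0) := by rw [rot2]; exact f3
  have t123 : 0 < cr (q 2 - q 1) (q 3 - q 1) := b3
  have t124 : 0 < cr (q 2 - q 1) (q 4 - q 1) := b4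
  have t125 : 0 < cr (q 2 - q 1) (q 5 - q 1) := b5
  have t134 : 0 < cr (q 3 - q 1) (q 4 - q 1) := by rw [rot1]; exact d1
  have t145 : 0 < cr (q 4 - q 1) (q 5 - q 1) := by rw [rot1]; exact e1
  have t234 : 0 < cr (q 3 - q 2) (q 4 - q 2) := c4
  have t235 : 0 < cr (q 3 - q 2) (q 5 - q 2) := c5
  have t245 : 0 < cr (q 4 - q 2) (q 5 - q 2) := by rw [rot1]; exact e2
  have t345 : 0 < cr (q 4 - q 3) (q 5 - q 3) := d5
  have t024 : 0 < cr (q 2 - q 0) (q 4 - q 0) := by
    have h1 := pl (q 0) (q 1) (q 2) (q 3) (q 4)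
    have h2 : 0 < cr (q 1 - q 0) (q 3 - q 0) * cr (q 2 - q 0) (q 4 - q 0) := by
      have h3 := mul_pos t012 t034
      have h4 := mul_pos t014 t023
      linarith
    exact (pos_iff_pos_of_mul_pos h2).mp t013
  have t135 : 0 < cr (q 3 - q 1) (q 5 - q 1) := by
    have h1 := pl (q 1) (q 2) (q 3) (q 4) (q 5)
    have h2 : 0 < cr (q 2 - q 1) (q 4 - q 1) * cr (q 3 - q 1) (q 5 - q 1) := by
      have h3 := mul_pos t123 t145
      have h4 := mul_pos t125 t134
      linarith
    exact (pos_iff_pos_of_mul_pos h2).mp t124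
  intro i j k hij hjk
  rw [rig_cr]
  fin_cases i <;> fin_cases j <;> fin_cases k <;> first
    | exact absurd hij (by decide)
    | exact absurd hjk (by decide)
    | exact t012.le
    | exact t013.le
    | exact t014.le
    | exact t015.le
    | exact t023.le
    | exact t024.le
    | exact t025.le
    | exact t034.le
    | exact t035.le
    | exact t045.le
    | exact t123.le
    | exact t124.le
    | exact t125.le
    | exact t134.le
    | exact t135.le
    | exact t145.le
    | exact t234.le
    | exact t235.le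
    | exact t245.le
    | exact t345.le

theorem Tiling.corners [Finite ι] (h : Tiling D P) (i : ι) :
    Corners (h.S_finite i).toFinset :=
  C2305bH68.Ord.corners_of_extreme (A := P i) (h.conv i) fun p hp => by
    rw [Set.Finite.mem_toFinset] at hp
    exact hp.1

/-- The corners of a perfect cell, counterclockwise from a given one. -/
theorem Tiling.sextuple [Finite ι] (h : Tiling D P)
    (hi : (interior (convexHull ℝ (Vb D P))).Nonempty) {loss : ι → ℝ} {η : ℝ}
    {i : {i : ι // (interior (convexHull ℝ (S P i))).Nonempty}}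
    (hp : Perfect D P loss η i) {u v w : V} (hw : (h.toTL hi).E i v w)
    (hu : (h.toTL hi).E i u v) :
    ∃ q : Fin 6 → V, q 0 = v ∧ q 1 = w ∧ q 5 = u ∧ Conv6 q ∧ (∀ k, q k ∈ S P i) ∧
      ar6 q = (volume (convexHull ℝ (S P i))).toReal := by
  set T := h.toTL hi with hT
  set Sf := (h.S_finite (i : ι)).toFinset with hSf
  have hco : (Sf : Set V) = S P i := Set.Finite.coe_toFinset _
  have hcor : Corners Sf := h.corners i
  have hcard : Sf.card = 6 := by
    rw [hSf, ← Set.ncard_eq_toFinset_card _ (h.S_finite (i : ι))]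
    exact hp.card
  have h3 : 3 ≤ Sf.card := by rw [hcard]; norm_num
  have hmem : ∀ x, x ∈ T.W → x ∈ T.P i → x ∈ Sf := by
    intro x hx hxi
    rw [hSf, Set.Finite.mem_toFinset]
    have hx' : x ∈ h.M := hx
    exact hp.only x (h.hull_sub i hxi) (h.mem_M.mp hx')
  have hvS : v ∈ Sf := hmem v hw.1.1 hw.1.2
  have hnx : ∀ x y, T.E i x y → Nx Sf x y := by
    intro x y hxy
    refine ⟨hmem x hxy.1.1 hxy.1.2, hmem y hxy.2.1.1 hxy.2.1.2, hxy.2.2.1, ?_⟩
    intro z hz
    rw [hco] at hz
    exact hxy.2.2.2.1 z hz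
  obtain ⟨q, q0, qinj, qran, qle, qlt, qvol⟩ := C2305bH68.Ord.exists_cyclic_six hcor hcard hvS
  have hqS : ∀ k, q k ∈ Sf := by
    intro k
    have : q k ∈ range q := mem_range_self k
    rw [qran] at this
    exact this
  have hqn : ∀ k, Nx Sf (q k) (q (k + 1)) := by
    intro k
    refine ⟨hqS k, hqS (k + 1), ?_, qle k⟩
    intro h0
    have h1 := qinj h0
    have h2 : ∀ k : ZMod 6, k + 1 ≠ k := by decide
    exact h2 k h1
  have q1 : q 1 = w := by
    have h5 := hqn 0
    rw [zero_add, q0] at h5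
    exact C2305bH68.Ord.nx_unique hcor h3 (hnx v w hw) h5
  have q5 : q 5 = u := by
    have h5 := hqn 5
    have h6 : (5 : ZMod 6) + 1 = 0 := by decide
    rw [h6, q0] at h5
    exact C2305bH68.Ord.nx_prev_unique hcor h3 (hnx u v hu) h5
  refine ⟨q, q0, q1, q5, ?_, ?_, ?_⟩
  · apply conv6_of_strict
    intro k l hl hl'
    exact qlt k (q l) (hqS l) (fun h0 => hl (qinj h0)) (fun h0 => hl' (qinj h0))
  · intro k
    have := hqS k
    rw [hSf, Set.Finite.mem_toFinset] at this
    exact this
  · rw [← hco, qvol]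
    rfl

end W82
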