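import Pool.Agent.W82_c2305b.Rigid
import Pool.Agent.W_c2305b_h52.Good

/-!
From the frames `Am ν c s` to the frames with nonnegative cosine, and needles.
-/

open Set Module

namespace W82

open C2305b.Rig (Am Off Pos InBody Jt)
open C2305bB (Fr Fits mis sn)

/-- The normalized frame. -/
noncomputable def mkFr (L c s : ℝ) (h : c ^ 2 + (s / L) ^ 2 = 1) : Fr :=
  if h0 : 0 ≤ c then ⟨c, s / L, h, h0⟩
  else ⟨-c, -(s / L), by rw [neg_sq, neg_sq]; exact h, by push Not at h0; linarith⟩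

theorem mis_mkFr {L c s c' s' : ℝ} (hL : 0 < L) (h : c ^ 2 + (s / L) ^ 2 = 1)
    (h' : c' ^ 2 + (s' / L) ^ 2 = 1) :
    mis L (mkFr L c s h) (mkFr L c' s' h') = |c * s' - s * c'| := by
  have key : L * |c * (s' / L) - s / L * c'| = |c * s' - s * c'| := by
    rw [← abs_of_pos hL, ← abs_mul, abs_of_pos hL]
    congr 1
    field_simp
  unfold mis sn mkFr
  split_ifs
  · exact key
  · simp only
    rw [← key]
    congr 1
    rw [← abs_neg]
    congr 1
    ring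
  · simp only
    rw [← key]
    congr 1
    rw [← abs_neg]
    congr 1
    ring
  · simp only
    rw [← key]
    congr 1
    congr 1
    ring

theorem fits_mkFr {L c s ρ x y : ℝ} (hL : 0 < L) (h : c ^ 2 + (s / L) ^ 2 = 1) :
    Fits L (mkFr L c s h) ρ x y ↔
      (c * x + 1 / L ^ 2 * s * y) ^ 2 + (c * y - s * x) ^ 2 ≤ ρ ^ 2 := by
  have hL' : L ≠ 0 := hL.ne'
  have e1 : s / L * y / L = 1 / L ^ 2 * s * y := by field_simp
  have e2 : L * (s / L) * x = s * x := by field_simp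
  unfold Fits mkFr
  split_ifs
  · simp only
    rw [e1, e2]
  · simp only
    have e3 : -c * x + -(s / L) * y / L = -(c * x + 1 / L ^ 2 * s * y) := by
      rw [← e1]; ring
    have e4 : -c * y - L * -(s / L) * x = -(c * y - s * x) := by
      rw [← e2]; ring
    rw [e3, e4, neg_sq, neg_sq]

/-- The inverse frame map in coordinates. -/
theorem am_inv {ν c s : ℝ} (h : c ^ 2 + ν * s ^ 2 = 1) (v : V) :
    c * (Am ν c s v) 0 + ν * s * (Am ν c s v) 1 = v 0 ∧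
      c * (Am ν c s v) 1 - s * (Am ν c s v) 0 = v 1 := by
  simp only [Am, PiLp.toLp_apply, Matrix.cons_val_zero, Matrix.cons_val_one]
  constructor
  · linear_combination (v 0) * h
  · linear_combination (v 1) * h

/-- The local points are bounded. -/
theorem inBody_bound {K0 : Set V} {R0 a b ε : ℝ} (hK : K0 ⊆ Metric.closedBall 0 R0)
    (hab : a ^ 2 + b ^ 2 = 1) (hε : 0 ≤ ε) (hε1 : ε ≤ 1) {t : Bool} {x : V}
    (hx : InBody K0 a b t ((1 + ε)⁻¹ • x)) : |x 0| ≤ 2 * R0 ∧ |x 1| ≤ 2 * R0 := by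
  have h1 := hK hx
  rw [mem_closedBall_zero_iff] at h1
  have hR0 : 0 ≤ R0 := (norm_nonneg _).trans h1
  set y := (1 + ε)⁻¹ • x with hy
  have hyx : x = (1 + ε) • y := by
    rw [hy, smul_smul, mul_inv_cancel₀ (by linarith), one_smul]
  have h2 : ‖Am 1 a (-b) (Jt t y)‖ ^ 2 = y 0 ^ 2 + y 1 ^ 2 := by
    rw [EuclideanSpace.norm_sq_eq, Fin.sum_univ_two, Real.norm_eq_abs, Real.norm_eq_abs, sq_abs,
      sq_abs]
    cases t
    · simp only [Am, Jt, PiLp.toLp_apply, Matrix.cons_val_zero, Matrix.cons_val_one,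
        Bool.false_eq_true, if_false]
      linear_combination (y 0 ^ 2 + y 1 ^ 2) * hab
    · simp only [Am, Jt, PiLp.toLp_apply, Matrix.cons_val_zero, Matrix.cons_val_one, if_true]
      linear_combination (y 0 ^ 2 + y 1 ^ 2) * hab
  have h3 : y 0 ^ 2 + y 1 ^ 2 ≤ R0 ^ 2 := by
    rw [← h2]
    exact pow_le_pow_left₀ (norm_nonneg _) h1 2
  have h4 : |y 0| ≤ R0 := abs_le_of_sq_le_sq (by nlinarith [sq_nonneg (y 1)]) hR0
  have h5 : |y 1| ≤ R0 := abs_le_of_sq_le_sq (by nlinarith [sq_nonneg (y 0)]) hR0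
  rw [hyx]
  simp only [PiLp.smul_apply, smul_eq_mul, abs_mul, abs_of_nonneg (by linarith : 0 ≤ 1 + ε)]
  constructor <;> nlinarith [abs_nonneg (y 0), abs_nonneg (y 1)]

/-- The offset map is bounded. -/
theorem off_bound {ν co so Ro r : ℝ} (hν : 0 ≤ ν) (hν1 : ν ≤ 1) (ho : co ^ 2 + ν * so ^ 2 = 1)
    (hso : |so| ≤ Ro) {t : Bool} {x : V} (h0 : |x 0| ≤ r) (h1 : |x 1| ≤ r) :
    |(Off ν co so t x) 0| ≤ (1 + Ro) * r ∧ |(Off ν co so t x) 1| ≤ (1 + Ro) * r := by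
  have hr : 0 ≤ r := (abs_nonneg _).trans h0
  have hRo : 0 ≤ Ro := (abs_nonneg _).trans hso
  cases t
  · simp only [Off, Bool.false_eq_true, if_false]
    constructor <;> nlinarith
  · simp only [Off, if_true, Am, PiLp.toLp_apply, Matrix.cons_val_zero, Matrix.cons_val_one]
    have hco : |co| ≤ 1 := by
      apply abs_le_of_sq_le_sq _ zero_le_one
      nlinarith [mul_nonneg hν (sq_nonneg so)]
    have a0 := abs_le.mp h0
    have a1 := abs_le.mp h1
    have e1 : |co * x 0| ≤ 1 * r := by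
      rw [abs_mul]
      exact mul_le_mul hco h0 (abs_nonneg _) zero_le_one
    have e2 : |ν * so * x 1| ≤ 1 * Ro * r := by
      rw [abs_mul, abs_mul, abs_of_nonneg hν]
      exact mul_le_mul (mul_le_mul hν1 hso (abs_nonneg _) zero_le_one) h1 (abs_nonneg _)
        (by positivity)
    have e3 : |so * x 0| ≤ Ro * r := by
      rw [abs_mul]
      exact mul_le_mul hso h0 (abs_nonneg _) hRo
    have e4 : |co * x 1| ≤ 1 * r := by
      rw [abs_mul]
      exact mul_le_mul hco h1 (abs_nonneg _) zero_le_one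
    constructor
    · refine (abs_sub _ _).trans ?_
      linarith
    · refine (abs_add_le _ _).trans ?_
      linarith

variable {ι : Type*} {D : Set V} {P : ι → Set V}

/-- Local coordinates of the points of the cells. -/
theorem Cells.local {K0 : Set V} {ν ε a b co so R0 Ro : ℝ} {t : ι → Bool} {c s : ι → ℝ}
    {o : ι → V} (hC : Cells P K0 ν ε a b co so t c s o) (hK : K0 ⊆ Metric.closedBall 0 R0)
    (hab : a ^ 2 + b ^ 2 = 1) (hε : 0 ≤ ε) (hε1 : ε ≤ 1) (hν : 0 ≤ ν) (hν1 : ν ≤ 1)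
    (hso : |so| ≤ Ro) {i : ι} {p : V} (hp : p ∈ P i) :
    ∃ x : V, p = o i + Am ν (c i) (s i) x ∧ |x 0| ≤ (1 + Ro) * (2 * R0) ∧
      |x 1| ≤ (1 + Ro) * (2 * R0) := by
  obtain ⟨y, hy, hyK⟩ := hC.loc i p hp
  obtain ⟨h1, h2⟩ := inBody_bound hK hab hε hε1 hyK
  obtain ⟨h3, h4⟩ := off_bound hν hν1 hC.off hso (t := t i) h1 h2
  exact ⟨Off ν co so (t i) y, hy, h3, h4⟩

/-- The cells lie in needles. -/
theorem Cells.needle {K0 : Set V} {ν ε a b co so R0 Ro L : ℝ} {t : ι → Bool} {c s : ι → ℝ}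
    {o : ι → V} (hC : Cells P K0 ν ε a b co so t c s o) (hK : K0 ⊆ Metric.closedBall 0 R0)
    (hab : a ^ 2 + b ^ 2 = 1) (hε : 0 ≤ ε) (hε1 : ε ≤ 1) (hL : 1 ≤ L) (hν : ν = 1 / L ^ 2)
    (hso : |so| ≤ Ro) (hR0 : 0 ≤ R0) {R : ℝ} (hR : 8 * (1 + Ro) * R0 ≤ R)
    (i : ι) (hfr : c i ^ 2 + (s i / L) ^ 2 = 1) :
    P i ⊆ C2305bH52.needle L (mkFr L (c i) (s i) hfr) (o i) (R / 2) := by
  intro p hp
  have hL0 : 0 < L := by linarith
  have hν0 : 0 ≤ ν := by rw [hν]; positivity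
  have hν1 : ν ≤ 1 := by
    rw [hν, div_le_one (by positivity)]
    nlinarith
  have hRo : 0 ≤ Ro := (abs_nonneg _).trans hso
  obtain ⟨x, hx, h0, h1⟩ := hC.local hK hab hε hε1 hν0 hν1 hso hp
  show Fits L _ (R / 2) _ _
  rw [fits_mkFr hL0]
  have e1 : p - o i = Am ν (c i) (s i) x := by rw [hx]; abel
  rw [e1, ← hν, (am_inv (hC.fr i) x).1, (am_inv (hC.fr i) x).2]
  set M := (1 + Ro) * (2 * R0) with hM
  have hM0 : 0 ≤ M := (abs_nonneg _).trans h0
  have h2 : x 0 ^ 2 ≤ M ^ 2 := by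
    rw [← sq_abs]; exact pow_le_pow_left₀ (abs_nonneg _) h0 2
  have h3 : x 1 ^ 2 ≤ M ^ 2 := by
    rw [← sq_abs]; exact pow_le_pow_left₀ (abs_nonneg _) h1 2
  have h4 : 2 * M ≤ R / 2 := by rw [hM]; linarith
  have h5 : (2 * M) ^ 2 ≤ (R / 2) ^ 2 := pow_le_pow_left₀ (by positivity) h4 2
  nlinarith

end W82
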