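import Pool.Agent.W82_c2305b.Badset
import Pool.Agent.W82_c2305b.NeedleFr
import Pool.Agent.W82_c2305b.Energy
import Pool.Agent.W_c2305b_h68.Shoe

/-!
The walk, part 1: corner costs and one step.
-/

open Set Module Topology Filter MeasureTheory
open scoped Pointwise

namespace W82

open C2305b.TL (cr)
open C2305bH68.Ord (Corners Nx)
open C2305b.Rig (Am)

variable {ι : Type*} {D : Set V} {P : ι → Set V}

/-- Area of the hull of a set of corners in a cell, not six in number. -/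
theorem area_ne6 {K K0 : Set V} {T6 τ g ε G : ℝ}
    (hG : Gap K0 T6 τ g) (hK0c : Convex ℝ K0) (hG0 : volume K0 ≤ ENNReal.ofReal G)
    (hGnn : 0 ≤ G) (hε : 0 ≤ ε) (hε1 : ε ≤ 1) (hεG : 3 * ε * G ≤ g / 2)
    (hK : K ⊆ (1 + ε) • K0) (hcop : Copies P K) {i : ι} {Sf : Finset V}
    (hS : (Sf : Set V) ⊆ P i) (hcor : Corners Sf) (hcard : Sf.card ≠ 6) :
    (volume (convexHull ℝ (Sf : Set V))).toReal ≤ T6 + τ * ((Sf.card : ℝ) - 6) - g / 2 := by
  obtain ⟨o, L, hL, hLP⟩ := hcop i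
  have hdet : LinearMap.det (((1 + ε) : ℝ) • L) = (1 + ε) ^ 2 * LinearMap.det L := by
    rw [LinearMap.det_smul]
    simp
  have hLne : LinearMap.det L ≠ 0 := by
    intro h0
    rw [h0, abs_zero] at hL
    exact zero_ne_one hL
  have habs : |LinearMap.det (((1 + ε) : ℝ) • L)| = (1 + ε) ^ 2 := by
    rw [hdet, abs_mul, hL, mul_one, abs_of_nonneg (by positivity)]
  have h1 := hG.affine (((1 + ε) : ℝ) • L) (by
    rw [hdet]; exact mul_ne_zero (by positivity) hLne) o (S := Sf) (by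
      intro p hp
      obtain ⟨y, hy, rfl⟩ := hLP p (hS hp)
      obtain ⟨z, hz, hzy⟩ := hK hy
      refine ⟨z, hz, ?_⟩
      have hzy' : (1 + ε) • z = y := hzy
      rw [← hzy', map_smul]
      simp) hcor hcard hK0c hG0 hGnn
  rw [habs] at h1
  set x := T6 + τ * ((Sf.card : ℝ) - 6) - g with hx
  have h2 : (1 + ε) ^ 2 * min G x ≤ min G x + 3 * ε * G := by
    have h3 : min G x ≤ G := min_le_left _ _
    have h4 : (1 + ε) ^ 2 * min G x = min G x + (2 * ε + ε ^ 2) * min G x := by ring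
    rw [h4]
    have h5 : (2 * ε + ε ^ 2) * min G x ≤ (2 * ε + ε ^ 2) * G :=
      mul_le_mul_of_nonneg_left h3 (by positivity)
    have h6 : (2 * ε + ε ^ 2) * G ≤ 3 * ε * G := by
      apply mul_le_mul_of_nonneg_right _ hGnn
      nlinarith
    linarith
  have h3 : min G x ≤ x := min_le_right _ _
  linarith

/-- A corner of a perfect cell costs at least `2 τ`. -/
theorem Tiling.corner_cost [Finite ι] (h : Tiling D P)
    (hi : (interior (convexHull ℝ (Vb D P))).Nonempty) {K K0 : Set V} {T6 A6 τ g ε G η : ℝ}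
    (hG : Gap K0 T6 τ g) (hK0c : Convex ℝ K0) (hG0 : volume K0 ≤ ENNReal.ofReal G)
    (hGnn : 0 ≤ G) (hε : 0 ≤ ε) (hε1 : ε ≤ 1) (hεG : 3 * ε * G ≤ g / 2)
    (hK : K ⊆ (1 + ε) • K0) (hcop : Copies P K) (hT : T6 ≤ A6) (hη : η ≤ g / 2)
    {i : {i : ι // (interior (convexHull ℝ (S P i))).Nonempty}}
    (hp : Perfect D P (lossOf P A6 τ) η i) {u v w : V} (hw : (h.toTL hi).E i v w)
    (hu : (h.toTL hi).E i u v) : 2 * τ ≤ cr (w - v) (u - v) := by
  set T := h.toTL hi with hT'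
  set Sf := (h.S_finite (i : ι)).toFinset with hSf
  have hco : (Sf : Set V) = S P i := Set.Finite.coe_toFinset _
  have hcard : Sf.card = 6 := by
    rw [hSf, ← Set.ncard_eq_toFinset_card _ (h.S_finite (i : ι))]
    exact hp.card
  have hcor : Corners Sf := h.corners i
  have hmem : ∀ x, x ∈ T.W → x ∈ T.P i → x ∈ Sf := by
    intro x h1 h2
    rw [hSf, Set.Finite.mem_toFinset]
    exact hp.only x (h.hull_sub i h2) (h.mem_M.mp h1)
  have hnx : ∀ x y, T.E i x y → Nx Sf x y := by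
    intro x y hE
    refine ⟨hmem x hE.1.1 hE.1.2, hmem y hE.2.1.1 hE.2.1.2, hE.2.2.1, ?_⟩
    rw [hco]
    exact hE.2.2.2.1
  have hab := hnx u v hu
  have hbc := hnx v w hw
  have hstep := C2305bH68.Ord.step_volume hcor (by omega) hab hbc
  have hcor5 : Corners (Sf.erase v) := hcor.mono (Finset.erase_subset _ _)
  have hcard5 : (Sf.erase v).card = 5 := by
    rw [Finset.card_erase_of_mem hab.2.1]; omega
  have h5 := area_ne6 hG hK0c hG0 hGnn hε hε1 hεG hK hcop (i := (i : ι)) (Sf := Sf.erase v) (by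
    intro x hx
    have hx' : x ∈ (Sf : Set V) := by
      rw [Finset.mem_coe] at hx ⊢
      exact Finset.mem_of_mem_erase hx
    rw [hco] at hx'
    exact hx'.1.1) hcor5 (by omega)
  rw [hcard5] at h5
  have h6 := hp.small
  rw [lossOf, hp.card, ← hco] at h6
  simp only [Nat.cast_ofNat] at h5 h6
  have h7 : cr (v - u) (w - u) = cr (w - v) (u - v) := by
    simp only [cr, PiLp.sub_apply]
    ring
  linarith

/-- First coordinate in the frame. -/
def ux (ν c s : ℝ) (p : V) : ℝ := c * p 0 + ν * s * p 1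

/-- Second coordinate in the frame. -/
def uy (c s : ℝ) (p : V) : ℝ := c * p 1 - s * p 0

theorem ux_sub (ν c s : ℝ) (p q : V) : ux ν c s (p - q) = ux ν c s p - ux ν c s q := by
  simp only [ux, PiLp.sub_apply]; ring

theorem ux_add (ν c s : ℝ) (p q : V) : ux ν c s (p + q) = ux ν c s p + ux ν c s q := by
  simp only [ux, PiLp.add_apply]; ring

theorem uy_sub (c s : ℝ) (p q : V) : uy c s (p - q) = uy c s p - uy c s q := by
  simp only [uy, PiLp.sub_apply]; ring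

theorem uy_add (c s : ℝ) (p q : V) : uy c s (p + q) = uy c s p + uy c s q := by
  simp only [uy, PiLp.add_apply]; ring

theorem cr_frame {ν c s : ℝ} (h : c ^ 2 + ν * s ^ 2 = 1) (p q : V) :
    cr p q = ux ν c s p * uy c s q - uy c s p * ux ν c s q := by
  simp only [cr, ux, uy]
  linear_combination (-(p 0 * q 1 - p 1 * q 0)) * h

theorem ux_Am (ν c s c' s' : ℝ) (x : V) :
    ux ν c s (Am ν c' s' x) = (c * c' + ν * s * s') * x 0 - ν * (c * s' - s * c') * x 1 := by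
  simp only [ux, Am, PiLp.toLp_apply, Matrix.cons_val_zero, Matrix.cons_val_one]
  ring

theorem uy_Am (ν c s c' s' : ℝ) (x : V) :
    uy c s (Am ν c' s' x) = (c * s' - s * c') * x 0 + (c * c' + ν * s * s') * x 1 := by
  simp only [uy, Am, PiLp.toLp_apply, Matrix.cons_val_zero, Matrix.cons_val_one]
  ring

theorem rel_unit {ν c s c' s' : ℝ} (h : c ^ 2 + ν * s ^ 2 = 1) (h' : c' ^ 2 + ν * s' ^ 2 = 1) :
    (c * c' + ν * s * s') ^ 2 + ν * (c * s' - s * c') ^ 2 = 1 := by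
  linear_combination (c' ^ 2 + ν * s' ^ 2) * h + h'

theorem rel_bounds {ν c s c' s' : ℝ} (hν : 0 ≤ ν) (hν1 : ν ≤ 1) (h : c ^ 2 + ν * s ^ 2 = 1)
    (h' : c' ^ 2 + ν * s' ^ 2 = 1) :
    |c * c' + ν * s * s'| ≤ 1 ∧ |ν * (c * s' - s * c')| ≤ 1 := by
  have h1 := rel_unit h h'
  have h2 : 0 ≤ ν * (c * s' - s * c') ^ 2 := by positivity
  constructor
  · apply abs_le_of_sq_le_sq _ zero_le_one
    linarith
  · apply abs_le_of_sq_le_sq _ zero_le_one
    have h3 : (ν * (c * s' - s * c')) ^ 2 = ν * (ν * (c * s' - s * c') ^ 2) := by ring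
    rw [h3]
    nlinarith [sq_nonneg (c * c' + ν * s * s')]

/-- Mismatches add up. -/
theorem rel_tri {ν c₀ s₀ c s c' s' : ℝ} (hν : 0 ≤ ν) (hν1 : ν ≤ 1)
    (h₀ : c₀ ^ 2 + ν * s₀ ^ 2 = 1) (h : c ^ 2 + ν * s ^ 2 = 1) (h' : c' ^ 2 + ν * s' ^ 2 = 1) :
    |c₀ * s' - s₀ * c'| ≤ |c₀ * s - s₀ * c| + |c * s' - s * c'| := by
  have e : c₀ * s' - s₀ * c' = (c₀ * s - s₀ * c) * (c * c' + ν * s * s') +
      (c₀ * c + ν * s₀ * s) * (c * s' - s * c') := by
    linear_combination (-(c₀ * s' - s₀ * c')) * h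
  rw [e]
  refine (abs_add_le _ _).trans ?_
  rw [abs_mul, abs_mul]
  have h1 := (rel_bounds hν hν1 h h').1
  have h2 := (rel_bounds hν hν1 h₀ h).1
  have h3 := abs_nonneg (c₀ * s - s₀ * c)
  have h4 := abs_nonneg (c * s' - s * c')
  nlinarith

/-- Extent of a cell in the first coordinate of any frame. -/
theorem Cells.ux_le {K0 : Set V} {ν ε a b co so R0 Ro M : ℝ} {t : ι → Bool} {c s : ι → ℝ}
    {o : ι → V} (hC : Cells P K0 ν ε a b co so t c s o) (hK : K0 ⊆ Metric.closedBall 0 R0)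
    (hab : a ^ 2 + b ^ 2 = 1) (hε : 0 ≤ ε) (hε1 : ε ≤ 1) (hν : 0 ≤ ν) (hν1 : ν ≤ 1)
    (hso : |so| ≤ Ro) (hM : (1 + Ro) * (2 * R0) ≤ M) {c₀ s₀ : ℝ}
    (h₀ : c₀ ^ 2 + ν * s₀ ^ 2 = 1) {i : ι} {p q : V} (hp : p ∈ P i) (hq : q ∈ P i) :
    |ux ν c₀ s₀ (p - q)| ≤ 4 * M := by
  have key : ∀ p ∈ P i, |ux ν c₀ s₀ (p - o i)| ≤ 2 * M := by
    intro p hp
    obtain ⟨x, hx, h0, h1⟩ := hC.local hK hab hε hε1 hν hν1 hso hp
    have e1 : p - o i = Am ν (c i) (s i) x := by rw [hx]; abel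
    rw [e1, ux_Am]
    obtain ⟨h2, h3⟩ := rel_bounds hν hν1 h₀ (hC.fr i)
    refine (abs_sub _ _).trans ?_
    rw [abs_mul, abs_mul]
    have h4 := h0.trans hM
    have h5 := h1.trans hM
    have h6 := abs_nonneg (x 0)
    have h7 := abs_nonneg (x 1)
    nlinarith
  have e : ux ν c₀ s₀ (p - q) = ux ν c₀ s₀ (p - o i) - ux ν c₀ s₀ (q - o i) := by
    rw [← ux_sub]; congr 1; abel
  rw [e]
  refine (abs_sub _ _).trans ?_
  have := key p hp
  have := key q hq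
  linarith

/-- Extent of a cell in the second coordinate of a nearby frame. -/
theorem Cells.uy_le {K0 : Set V} {ν ε a b co so R0 Ro M : ℝ} {t : ι → Bool} {c s : ι → ℝ}
    {o : ι → V} (hC : Cells P K0 ν ε a b co so t c s o) (hK : K0 ⊆ Metric.closedBall 0 R0)
    (hab : a ^ 2 + b ^ 2 = 1) (hε : 0 ≤ ε) (hε1 : ε ≤ 1) (hν : 0 ≤ ν) (hν1 : ν ≤ 1)
    (hso : |so| ≤ Ro) (hM : (1 + Ro) * (2 * R0) ≤ M) {c₀ s₀ : ℝ}
    (h₀ : c₀ ^ 2 + ν * s₀ ^ 2 = 1) {i : ι} (hrel : |c₀ * s i - s₀ * c i| ≤ 1)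
    {p q : V} (hp : p ∈ P i) (hq : q ∈ P i) :
    |uy c₀ s₀ (p - q)| ≤ 4 * M := by
  have key : ∀ p ∈ P i, |uy c₀ s₀ (p - o i)| ≤ 2 * M := by
    intro p hp
    obtain ⟨x, hx, h0, h1⟩ := hC.local hK hab hε hε1 hν hν1 hso hp
    have e1 : p - o i = Am ν (c i) (s i) x := by rw [hx]; abel
    rw [e1, uy_Am ν]
    obtain ⟨h2, h3⟩ := rel_bounds hν hν1 h₀ (hC.fr i)
    refine (abs_add_le _ _).trans ?_
    rw [abs_mul, abs_mul]
    have h4 := h0.trans hM
    have h5 := h1.trans hM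
    have h6 := abs_nonneg (x 0)
    have h7 := abs_nonneg (x 1)
    nlinarith
  have e : uy c₀ s₀ (p - q) = uy c₀ s₀ (p - o i) - uy c₀ s₀ (q - o i) := by
    rw [← uy_sub]; congr 1; abel
  rw [e]
  refine (abs_sub _ _).trans ?_
  have := key p hp
  have := key q hq
  linarith

/-- Numerical form of one step. -/
theorem step_num {τ M a0 a1 b0 b1 z0 z1 : ℝ} (hτ : 0 < τ) (hM : 0 < M) (ha0 : |a0| ≤ 4 * M)
    (ha1 : |a1| ≤ 4 * M) (hb0 : |b0| ≤ 4 * M) (hb1 : |b1| ≤ 4 * M) (ha : a0 ≤ 0) (hb : b0 ≤ 0)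
    (hab : 2 * τ ≤ a0 * b1 - a1 * b0) (hbz : 2 * τ ≤ b0 * z1 - b1 * z0)
    (hza : 2 * τ ≤ z0 * a1 - z1 * a0) : τ ^ 2 / (32 * M ^ 3) ≤ z0 := by
  set α := a0 * b1 - a1 * b0 with hα
  set β := b0 * z1 - b1 * z0 with hβ
  set γ := z0 * a1 - z1 * a0 with hγ
  have h1 : β * a0 + γ * b0 + α * z0 = 0 := by rw [hα, hβ, hγ]; ring
  have hα0 : 0 < α := by linarith
  have e1 : α ≤ |a0| * |b1| + |a1| * |b0| := by
    have := le_abs_self (a0 * b1)
    have := neg_abs_le (a1 * b0)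
    rw [abs_mul] at *
    linarith
  have hαu : α ≤ 32 * M ^ 2 := by
    have : |a0| * |b1| ≤ (4 * M) * (4 * M) :=
      mul_le_mul ha0 hb1 (abs_nonneg _) (by positivity)
    have : |a1| * |b0| ≤ (4 * M) * (4 * M) :=
      mul_le_mul ha1 hb0 (abs_nonneg _) (by positivity)
    nlinarith
  have hsum : τ / (2 * M) ≤ -a0 + -b0 := by
    rw [div_le_iff₀ (by positivity)]
    rw [abs_of_nonpos ha, abs_of_nonpos hb] at e1
    have : -a0 * |b1| ≤ -a0 * (4 * M) := mul_le_mul_of_nonneg_left hb1 (by linarith)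
    have : |a1| * -b0 ≤ (4 * M) * -b0 := mul_le_mul_of_nonneg_right ha1 (by linarith)
    nlinarith
  have h2 : 2 * τ * (τ / (2 * M)) ≤ α * z0 := by
    have e2 : α * z0 = β * (-a0) + γ * (-b0) := by linarith
    rw [e2]
    have : 2 * τ * (-a0) ≤ β * (-a0) := mul_le_mul_of_nonneg_right hbz (by linarith)
    have : 2 * τ * (-b0) ≤ γ * (-b0) := mul_le_mul_of_nonneg_right hza (by linarith)
    have : 2 * τ * (τ / (2 * M)) ≤ 2 * τ * (-a0 + -b0) :=
      mul_le_mul_of_nonneg_left hsum (by positivity)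
    linarith
  have hz0 : 0 ≤ z0 := by
    by_contra hcon
    push Not at hcon
    have : α * z0 < 0 := mul_neg_of_pos_of_neg hα0 hcon
    have : 0 ≤ 2 * τ * (τ / (2 * M)) := by positivity
    linarith
  rw [div_le_iff₀ (by positivity)]
  have h3 : α * z0 ≤ 32 * M ^ 2 * z0 := mul_le_mul_of_nonneg_right hαu hz0
  have h4 : 2 * τ * (τ / (2 * M)) = τ ^ 2 / M := by field_simp
  rw [h4] at h2
  have h5 : τ ^ 2 / M ≤ 32 * M ^ 2 * z0 := h2.trans h3
  rw [div_le_iff₀ hM] at h5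
  nlinarith

end W82
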