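import Pool.Agent.W82_c2305b.BadG
import Pool.Agent.W_c2305b_h72.LvlOf
import Pool.Agent.W_c2305b_h68.Exact4

/-!
The core statement for the class Gap + Sym from the interface `PartBG`.
-/

open Set Module Topology Filter MeasureTheory
open scoped Pointwise

namespace W82

open C2305b.TL (cr)
open C2305b.Rig (Am Off Pos Conv6 ar6 InBody LeMax StrictMax Sym6)
open C2305bB (Fr mv mvi mvT)
open C2305bG (lx ly PartBG RegAt Lvl)

theorem regAt_mono {K0 : Set V} {T6 ν ε a b η η' om c1 κ : ℝ}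
    (h : RegAt K0 T6 ν ε a b η om c1 κ) (hη : η' ≤ η) : RegAt K0 T6 ν ε a b η' om c1 κ := by
  intro t c s o q h1 h2 h3 h4
  exact h t c s o q h1 h2 h3 fun i => le_trans (by linarith) (h4 i)

theorem lvl_mono {L μ ε c0 c0' a : ℝ} {J : Type} {T : C2305b.TL.Tiling J} {F : J → Fr}
    {Bad : Finset (J × J)} (h : Lvl L μ ε c0 a T F Bad) (hc : c0' ≤ c0) :
    Lvl L μ ε c0' a T F Bad := by
  have key : ∀ i, C2305bG.RegTile L ε c0 a T F i → C2305bG.RegTile L ε c0' a T F i := by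
    intro i hr
    refine ⟨hr.area, hr.inn, hr.sub, hr.ext, hr.sym, ?_⟩
    intro α β h1 h2 h3
    obtain ⟨w, hw, hx⟩ := hr.low α β h1 h2 h3
    exact ⟨w, hw, fun x hx' => (hx x hx').trans (by linarith)⟩
  intro i j v w hTw hn
  obtain ⟨h1, h2, h3⟩ := h i j v w hTw hn
  exact ⟨h1, key i h2, key j h3⟩

/-- **The bound of the number of shared boundary points** from `PartBG`. -/
theorem bound_of_partBG {K0 : Set V} {T6 τ g G R0 : ℝ} (hH : Hyp K0 T6 τ g G R0)
    (hcomp : IsCompact K0) (hsym : ∀ v ∈ K0, -v ∈ K0) (hT60 : 0 < T6)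
    (hle : LeMax K0 T6) (hst : StrictMax K0 T6) (hs : Sym6 K0 T6)
    (hPB : ∀ R τ G a μ c0 m0 : ℝ, 1 ≤ R → 0 < τ → 0 < G → 0 < a → 0 < μ → 0 < c0 → c0 ≤ 1 →
      0 < m0 → m0 ≤ 1 →
      PartBG R τ G a μ c0 m0) :
    BoundB K0 T6 τ g G := by
  classical
  have hτ := hH.gap.tau
  have hg := hH.gap.pos
  have hR1 := hH.R1
  have hG1 := hH.G1
  have hGnn : 0 ≤ G := by linarith
  set μ := 64 * (2 * R0) ^ 2 / τ with hμ
  have hμ0 : 0 < μ := by rw [hμ]; positivity
  set R' := 8 * R0 with hR'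
  have hR'0 : 0 < R' := by rw [hR']; linarith
  have hR'1 : 1 ≤ R' := by rw [hR']; linarith
  set R := (1 + μ) * R' with hRd
  have hRR' : R' ≤ R := by
    have : 0 ≤ μ * R' := by positivity
    rw [hRd]; linarith
  set c0 := min 1 (τ ^ 2 / (1024 * (2 * R0) ^ 3)) with hc0
  have hc00 : 0 < c0 := lt_min one_pos (by positivity)
  set m0 := min 1 (2 * τ / R') with hm0
  have hm00 : 0 < m0 := lt_min one_pos (by positivity)
  obtain ⟨κ, hκ, hκ1, hPB1⟩ := hPB R τ (4 * G) (T6 / 2) μ c0 m0 (hR'1.trans hRR') hτ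
    (by linarith) (by linarith) hμ0 hc00 (min_le_left _ _) hm00 (min_le_left _ _)
  obtain ⟨c1', hc1', hc1'1, om, hom, η1, hη1, ν0, hν0, ε0, hε0, hreg⟩ :=
    C2305bH68.Hang.reg_at hcomp hH.conv hsym hle hst hs hκ
  set c1 := c1' / 2 with hc1
  have hc10 : 0 < c1 := by rw [hc1]; linarith
  have hc11 : c1 ≤ 1 := by rw [hc1]; linarith
  set ω' := min om (min (τ / (16 * R')) (τ / (8 * R' * (μ + 1)))) with hω'
  have hω'0 : 0 < ω' := lt_min hom (lt_min (by positivity) (by positivity))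
  have hω'1 : ω' ≤ om := min_le_left _ _
  have hω'2 : ω' ≤ τ / (16 * R') := (min_le_right _ _).trans (min_le_left _ _)
  have hω'3 : ω' ≤ τ / (8 * R' * (μ + 1)) := (min_le_right _ _).trans (min_le_right _ _)
  set ω := ω' / 2 with hω
  have hω0 : 0 < ω := by rw [hω]; linarith
  set ω2 := τ / (4 * R') with hω2
  have hω20 : 0 < ω2 := by positivity
  have hω2e : R' * ω2 = τ / 4 := by rw [hω2]; field_simp
  have hω'4 : ω' ≤ ω2 / 4 := by
    refine hω'2.trans_eq ?_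
    rw [hω2]; ring
  have hμω : R' * (μ * ω') ≤ τ / 8 := by
    have h1 : R' * (μ * ω') ≤ R' * ((μ + 1) * (τ / (8 * R' * (μ + 1)))) := by
      apply mul_le_mul_of_nonneg_left _ hR'0.le
      apply mul_le_mul (by linarith) hω'3 hω'0.le (by linarith)
    refine h1.trans_eq ?_
    field_simp
  obtain ⟨εp, hεp, hPB2⟩ := hPB1 c1 hc10 hc11 ω hω0
  set δ := min (min εp (ω2 / 4)) (min c1 (κ * c1 ^ 2 / (1 + μ))) with hδ
  have hδ0 : 0 < δ := lt_min (lt_min hεp (by linarith)) (lt_min hc10 (by positivity))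
  have hδ1 : δ ≤ εp := (min_le_left _ _).trans (min_le_left _ _)
  have hδ2 : δ ≤ ω2 / 4 := (min_le_left _ _).trans (min_le_right _ _)
  have hδ3 : δ ≤ c1 := (min_le_right _ _).trans (min_le_left _ _)
  have hδ4 : (1 + μ) * δ ≤ κ * c1 ^ 2 := by
    have : δ ≤ κ * c1 ^ 2 / (1 + μ) := (min_le_right _ _).trans (min_le_right _ _)
    rw [le_div_iff₀ (by linarith)] at this
    linarith
  have hδ5 : R' * δ ≤ τ / 8 := by
    have := mul_le_mul_of_nonneg_left hδ2 hR'0.le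
    linarith
  obtain ⟨η2, hη2, ε2, hε2, hns⟩ := C2305bG.near_sym_data hcomp hle hs hδ0
  set η := min (min η1 η2) (min (g / 2) (T6 / 2)) with hη
  have hη0 : 0 < η := lt_min (lt_min hη1 hη2) (lt_min (by linarith) (by linarith))
  have hηa : η ≤ η1 := (min_le_left _ _).trans (min_le_left _ _)
  have hηb : η ≤ η2 := (min_le_left _ _).trans (min_le_right _ _)
  have hηc : η ≤ g / 2 := (min_le_right _ _).trans (min_le_left _ _)
  have hηd : η ≤ T6 / 2 := (min_le_right _ _).trans (min_le_right _ _)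
  set Q := μ * ((1 + μ) * R') with hQ
  have hQ0 : 0 < Q := by positivity
  set x := min ν0 (min (ω' / 2 / Q) (c1 / Q)) with hx
  have hx0 : 0 < x := lt_min hν0 (lt_min (by positivity) (by positivity))
  have hCnp := Cnp_nonneg hg hτ hGnn hη0
  obtain ⟨B, hB⟩ := hPB2 (56 * Cnp g τ G η) (by linarith) (max (4 * μ) (1 / x))
  refine ⟨min ε0 ε2, lt_min hε0 hε2, B, ?_⟩
  intro ε hεε L ι _ D P h hi K A6 a b t c s o hV
  have hL := hV.L1
  have hL0 : 0 < L := by linarith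
  refine hB L hL ι D P h hi (fun i => mkFr L (c i) (s i) (hV.fr i)) o (h.Lam A6 τ) ?_ hV.vol
    (h.Lam_nonneg hτ.le hV.loss0) hV.main (h.tv_le_Lam hτ.le hV.loss0) ?_
  · intro i
    have hso : |(0 : ℝ)| ≤ 0 := by simp
    exact hV.cells.needle hH.ball hV.ab hV.eps0.le hV.eps1 hL rfl hso (by linarith)
      (by rw [hR'] at hRR'; linarith) i (hV.fr i)
  · intro hbig
    have hL1 : 4 * μ ≤ L := (le_max_left _ _).trans hbig
    have hνx : 1 / L ^ 2 ≤ x := by
      have h1 : 1 / x ≤ L := (le_max_right _ _).trans hbig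
      rw [div_le_iff₀ hx0] at h1
      rw [div_le_iff₀ (by positivity)]
      have h2 : L * x * 1 ≤ L * x * L := mul_le_mul_of_nonneg_left hL (by positivity)
      have h3 : x * L ^ 2 = L * x * L := by ring
      rw [h3]
      exact h1.trans (by rw [mul_one] at h2; exact h2)
    have hν1 : 1 / L ^ 2 ≤ ν0 := hνx.trans (min_le_left _ _)
    have hνpos : 0 < 1 / L ^ 2 := by positivity
    have hν2 : 1 / L ^ 2 * Q ≤ ω' / 2 := by
      have : 1 / L ^ 2 ≤ ω' / 2 / Q := hνx.trans ((min_le_right _ _).trans (min_le_left _ _))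
      rwa [le_div_iff₀ hQ0] at this
    have hν3 : 1 / L ^ 2 * Q ≤ c1 := by
      have : 1 / L ^ 2 ≤ c1 / Q := hνx.trans ((min_le_right _ _).trans (min_le_right _ _))
      rwa [le_div_iff₀ hQ0] at this
    have hν4 : 1 / L ^ 2 * μ * R' ≤ ω' / 2 := by
      refine le_trans ?_ hν2
      rw [hQ, mul_assoc]
      apply mul_le_mul_of_nonneg_left _ hνpos.le
      apply mul_le_mul_of_nonneg_left _ hμ0.le
      exact hRR'
    have hν5 : 1 / L ^ 2 * μ * ((1 + μ) * R') ≤ c1 := by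
      refine le_trans (le_of_eq ?_) hν3
      rw [hQ]; ring
    obtain ⟨Bad, hBc, hBn⟩ := h.badsetG_le hi hη0 hg hτ hGnn hV.loss0 hV.gap hV.crd
    have hsymε := hns η hηb ε hV.eps0.le (hεε.trans (min_le_right _ _)) a b hV.ab
    have hregε := regAt_mono (hreg (1 / L ^ 2) hνpos hν1 ε hV.eps0.le
      (hεε.trans (min_le_left _ _)) a b hV.ab) hηa
    refine ⟨Bad, hBc, ?_, ?_⟩
    · refine lvl_mono (C2305bG.lvl_of h hi hH.gap hH.conv hH.vol hGnn hV.eps0.le hV.eps1 hV.epsG hV.sub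
        hV.cop hV.TA hηc hηd hL hV.cells hH.ball hV.ab (le_refl (2 * R0)) (by linarith) hV.fr
        (fun t q h1 h2 h3 k j => (hsymε t q h1 h2 h3 k j).trans hδ1) ?_) (min_le_right _ _)
      intro i j v w hTw hn
      obtain ⟨n1, n2⟩ := hBn i j v w hTw hn
      exact ⟨n1.1, n2.1, n1.2, n2.2⟩
    · intro z g1 g2 hgg
      refine hV.field hH hηc (δ := δ) (om := om) (c1' := c1') (ω' := ω') (ω2 := ω2) (μ := μ)
        hsymε hregε hμ hL1 ?_ hω'1 ?_ ?_ hμω hδ5 ?_ hδ4 hδ0.le le_rfl (min_le_left _ _)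
        (min_le_right _ _) hBn hL0 z hgg
      · rw [hω]; linarith
      · rw [hω2e]
      · linarith
      · have : 3 * c1' = 6 * c1 := by rw [hc1]; ring
        rw [this]
        linarith

/-- **The core statement for the class Gap + Sym.** -/
theorem core_of_partBG {K0 : Set V} {T6 τ g : ℝ} (hK0c : Convex ℝ K0)
    (hcomp : IsCompact K0) (hsym : ∀ v ∈ K0, -v ∈ K0) (hT60 : 0 < T6)
    (hT6 : ENNReal.ofReal T6 ≤ C2305b.t6 K0) (hG : Gap K0 T6 τ g)
    (hle : LeMax K0 T6) (hst : StrictMax K0 T6) (hs : Sym6 K0 T6)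
    (hPB : ∀ R τ G a μ c0 m0 : ℝ, 1 ≤ R → 0 < τ → 0 < G → 0 < a → 0 < μ → 0 < c0 → c0 ≤ 1 →
      0 < m0 → m0 ≤ 1 →
      PartBG R τ G a μ c0 m0) :
    C2305b.Core K0 := by
  obtain ⟨R0, hR0⟩ := hcomp.isBounded.subset_closedBall (0 : V)
  set R1 := max R0 1 with hR1
  have hK1 : K0 ⊆ Metric.closedBall 0 R1 :=
    hR0.trans (Metric.closedBall_subset_closedBall (le_max_left _ _))
  have hvK0 : volume K0 ≠ ⊤ := hcomp.measure_lt_top.ne
  set G := max 1 (volume K0).toReal with hGdef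
  have hG1 : 1 ≤ G := le_max_left _ _
  have hG0 : volume K0 ≤ ENNReal.ofReal G := by
    rw [← ENNReal.ofReal_toReal hvK0]
    exact ENNReal.ofReal_le_ofReal (le_max_right _ _)
  have hH : Hyp K0 T6 τ g G R1 := ⟨hG, hK0c, hG0, hG1, hK1, le_max_right _ _⟩
  exact core_of_bound hK0c hK1 hT60 hT6 hG hG1 hG0
    (bound_of_partBG hH hcomp hsym hT60 hle hst hs hPB)

end W82
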