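import Pool.Agent.W82_c2305b.Perfect

/-!
The three cells around a full vertex of valence three.
-/

open Set Module Topology Filter MeasureTheory

namespace W82

open C2305b.TL (cr)

variable {ι : Type*} {D : Set V} {P : ι → Set V}

/-- A boundary point of the hull of `Vb` is in `Vb` or inside a side. -/
theorem Tiling.fv_interior [Finite ι] (h : Tiling D P)
    (hi : (interior (convexHull ℝ (Vb D P))).Nonempty) {v : V} (hv : v ∈ Fv D P) :
    v ∈ interior (convexHull ℝ (Vb D P)) := by
  obtain ⟨hvD, ⟨i, hvi⟩, hall⟩ := hv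
  by_contra hcon
  have hP : (h.sideTL hi).P () = convexHull ℝ (Vb D P) := by
    change convexHull ℝ (h.vb_finite.toFinset : Set V) = _
    rw [Set.Finite.coe_toFinset]
  have hvh : v ∈ convexHull ℝ (Vb D P) := h.sh_hull (S_sub_Sh i hvi)
  obtain ⟨p, q, hE, hseg⟩ := (h.sideTL hi).exists_edge () (x := v) (by rw [hP]; exact hvh)
    (by rw [hP]; exact hcon)
  have hside := (h.side_iff hi).mpr hE
  obtain ⟨k, hk, -⟩ := h.cap_cell hside
  have hvp : v ≠ p := by
    rintro rfl
    exact hside.1.2.2 hvD
  have hvq : v ≠ q := by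
    rintro rfl
    exact hside.2.1.2.2 hvD
  have hvo : v ∈ openSegment ℝ p q := mem_openSegment_of_ne_left_right hvp.symm hvq.symm hseg
  have hext := hall k (hk hseg)
  have := (mem_extremePoints.mp hext).2 p (hk (left_mem_segment ℝ p q)) q
    (hk (right_mem_segment ℝ p q)) hvo
  exact hvp this.1.symm

/-- A cell containing an interior point of the hull has a nondegenerate hull of corners. -/
theorem Tiling.nondeg [Finite ι] (h : Tiling D P) {v : V}
    (hv : v ∈ interior (convexHull ℝ (Vb D P))) {l : ι} (hl : v ∈ P l) :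
    (interior (convexHull ℝ (S P l))).Nonempty := by
  rw [← h.inter_hull l, interior_inter]
  have h1 : v ∈ interior (convexHull ℝ (Vb D P)) ∩ closure (interior (P l)) := ⟨hv, h.reg l hl⟩
  have h2 := isOpen_interior.inter_closure h1
  have h3 : (closure (interior (convexHull ℝ (Vb D P)) ∩ interior (P l))).Nonempty := ⟨v, h2⟩
  rw [closure_nonempty_iff] at h3
  rwa [inter_comm]

/-- For a full vertex, the cells containing it are the cells with a corner there. -/
theorem Tiling.fv_cells [Finite ι] (_h : Tiling D P) {v : V} (hv : v ∈ Fv D P) {l : ι} :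
    v ∈ P l ↔ v ∈ S P l := by
  constructor
  · intro hl
    obtain ⟨hvD, ⟨i, hvi⟩, hall⟩ := hv
    refine ⟨hall l hl, ?_⟩
    by_cases hil : i = l
    · subst hil
      exact hvi.2
    · exact ⟨i, hil, hvi.1.1⟩
  · intro hl
    exact hl.1.1

/-- The three cells around a full vertex of valence three: `i`, `j`, `k` counterclockwise
`w → (i) → u → (k) → z → (j) → w`. -/
theorem Tiling.corner [Finite ι] (h : Tiling D P)
    (hi : (interior (convexHull ℝ (Vb D P))).Nonempty) {v : V} (hv : v ∈ Fv D P)
    (hk3 : kv P v = 3) {i : {i : ι // (interior (convexHull ℝ (S P i))).Nonempty}}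
    {w : V} (hE : (h.toTL hi).E i v w) :
    ∃ (j k : {i : ι // (interior (convexHull ℝ (S P i))).Nonempty}) (u z : V),
      (h.toTL hi).E i u v ∧ (h.toTL hi).E j w v ∧ (h.toTL hi).E j v z ∧ (h.toTL hi).E k z v ∧
      (h.toTL hi).E k v u ∧ (i : ι) ≠ j ∧ (i : ι) ≠ k ∧ (j : ι) ≠ k ∧
      ∀ l, v ∈ P l → l = i ∨ l = j ∨ l = k := by
  set T := h.toTL hi with hT
  have hR : T.R = convexHull ℝ (Vb D P) := rfl
  have hvR : v ∈ interior T.R := h.fv_interior hi hv
  have hTP : ∀ l, T.P l = convexHull ℝ (S P l) := fun l => rfl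
  have hvW : v ∈ T.W := hE.1.1
  -- edges at v are not on the boundary
  have hnb1 : ∀ x, x ≠ v → ¬ ∀ y ∈ T.R, 0 ≤ cr (x - v) (y - v) := by
    intro x hx hcon
    have := C2305b.TL.cr_pos_of_mem_interior (sub_ne_zero.mpr hx) hcon hvR
    rw [sub_self, C2305b.TL.cr_zero_right] at this
    exact lt_irrefl _ this
  have hnb2 : ∀ x, x ≠ v → ¬ ∀ y ∈ T.R, 0 ≤ cr (v - x) (y - x) := by
    intro x hx hcon
    have := C2305b.TL.cr_pos_of_mem_interior (sub_ne_zero.mpr hx.symm) hcon hvR
    rw [C2305b.TL.cr_self] at this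
    exact lt_irrefl _ this
  -- twins
  have twin1 : ∀ (a : {i : ι // (interior (convexHull ℝ (S P i))).Nonempty}) (x : V),
      T.E a v x → ∃ b, b ≠ a ∧ T.E b x v := by
    intro a x hx
    rcases T.boundary_or_twin hx with hb | ⟨b, hb⟩
    · exact absurd hb (hnb1 x hx.2.2.1)
    · refine ⟨b, ?_, hb⟩
      rintro rfl
      have := T.common_self b
      have h2 : (v, x) ∈ T.common b b := T.mem_common.mpr ⟨hx, hb⟩
      rw [this] at h2
      simp at h2
  have twin2 : ∀ (a : {i : ι // (interior (convexHull ℝ (S P i))).Nonempty}) (x : V),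
      T.E a x v → ∃ b, b ≠ a ∧ T.E b v x := by
    intro a x hx
    rcases T.boundary_or_twin hx with hb | ⟨b, hb⟩
    · exact absurd hb (hnb2 x hx.2.2.1.symm)
    · refine ⟨b, ?_, hb⟩
      rintro rfl
      have := T.common_self b
      have h2 : (x, v) ∈ T.common b b := T.mem_common.mpr ⟨hx, hb⟩
      rw [this] at h2
      simp at h2
  -- membership
  have hmem1 : ∀ a x, T.E a v x → v ∈ P a := fun a x hx => h.hull_sub a hx.1.2
  have hmem2 : ∀ a x, T.E a x v → v ∈ P a := fun a x hx => h.hull_sub a hx.2.1.2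
  obtain ⟨j, hji, hj⟩ := twin1 i w hE
  obtain ⟨u, hu⟩ := T.exists_prev i hvW hE.1.2
  obtain ⟨k, hki, hk⟩ := twin2 i u hu
  have hji' : (i : ι) ≠ j := fun h0 => hji (Subtype.ext h0.symm)
  have hki' : (i : ι) ≠ k := fun h0 => hki (Subtype.ext h0.symm)
  -- the set of cells at v has three elements
  have hset : {l | v ∈ S P l} = {l | v ∈ P l} := by
    ext l
    exact (h.fv_cells hv).symm
  have hcard : {l | v ∈ P l}.ncard = 3 := by rw [← hset]; exact hk3
  -- three distinct cells exhaust the cells at v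
  have hexh : ∀ a b c : ι, a ≠ b → a ≠ c → b ≠ c → v ∈ P a → v ∈ P b → v ∈ P c →
      ∀ l, v ∈ P l → l = a ∨ l = b ∨ l = c := by
    intro a b c hab hac hbc ha hb hc l hl
    have hsub : ({a, b, c} : Set ι) ⊆ {l | v ∈ P l} := by
      rintro x (rfl | rfl | rfl)
      · exact ha
      · exact hb
      · exact hc
    have h3 : ({a, b, c} : Set ι).ncard = 3 := by
      rw [Set.ncard_eq_three]
      exact ⟨a, b, c, hab, hac, hbc, rfl⟩
    have heq := Set.eq_of_subset_of_ncard_le hsub (by rw [hcard, h3]) (Set.toFinite _)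
    have : l ∈ ({a, b, c} : Set ι) := by rw [heq]; exact hl
    simpa using this
  have hviP : v ∈ P i := hmem1 i w hE
  have hvjP : v ∈ P j := hmem2 j w hj
  have hvkP : v ∈ P k := hmem1 k u hk
  -- j ≠ k
  have hjk : (j : ι) ≠ k := by
    intro hjk
    have hjk' : j = k := Subtype.ext hjk
    subst hjk'
    -- a third cell
    obtain ⟨l, hl, hli, hlj⟩ : ∃ l, v ∈ P l ∧ l ≠ i ∧ l ≠ j := by
      by_contra hcon
      push Not at hcon
      have hsub : {l | v ∈ P l} ⊆ ({(i : ι), (j : ι)} : Set ι) := by
        intro l hl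
        by_cases h1 : l = i
        · exact Or.inl h1
        · exact Or.inr (hcon l hl h1)
      have h2 := Set.ncard_le_ncard hsub (Set.toFinite _)
      have h3 := Set.ncard_pair hji'
      omega
    have hex := hexh i j l hji' hli.symm hlj.symm hviP hvjP hl
    set l' : {i : ι // (interior (convexHull ℝ (S P i))).Nonempty} :=
      ⟨l, h.nondeg hvR hl⟩ with hl'
    have hvl : v ∈ T.P l' := by
      rw [hTP, ← h.inter_hull l]
      exact ⟨hl, interior_subset hvR⟩
    obtain ⟨z, hz⟩ := T.exists_next l' hvW hvl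
    obtain ⟨b, hb, hbz⟩ := twin1 l' z hz
    have hvb := hmem2 b z hbz
    rcases hex b hvb with h1 | h1 | h1
    · have hbi : b = i := Subtype.ext h1
      subst hbi
      have hzu : z = u := T.prev_unique b hu hbz
      subst hzu
      have := T.edge_unique hz hk
      exact hlj (congrArg Subtype.val this)
    · have hbj : b = j := Subtype.ext h1
      subst hbj
      have hzw : z = w := T.prev_unique b hj hbz
      subst hzw
      have := T.edge_unique hz hE
      exact hli (congrArg Subtype.val this)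
    · exact hb (Subtype.ext h1)
  have hex := hexh i j k hji' hki' hjk hviP hvjP hvkP
  obtain ⟨z, hz⟩ := T.exists_next j hvW hj.2.1.2
  obtain ⟨b, hb, hbz⟩ := twin1 j z hz
  have hvb := hmem2 b z hbz
  have hkz : T.E k z v := by
    rcases hex b hvb with h1 | h1 | h1
    · have hbi : b = i := Subtype.ext h1
      subst hbi
      have hzu : z = u := T.prev_unique b hu hbz
      subst hzu
      have := T.edge_unique hz hk
      exact absurd (congrArg Subtype.val this) hjk
    · exact absurd (Subtype.ext h1) hb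
    · have hbk : b = k := Subtype.ext h1
      subst hbk
      exact hbz
  exact ⟨j, k, u, z, hu, hj, hz, hkz, hk, hji', hki', hjk, hex⟩

end W82
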