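import Pool.Agent.W82_c2305b.Dir

/-!
The corner count of a tiling of a planar convex body.
-/

open Set Module Topology Filter

namespace W82

variable {ι : Type*} {D : Set V} {P : ι → Set V}

/-- T-vertices. -/
def Tv (D : Set V) (P : ι → Set V) : Set V :=
  {v | v ∈ interior D ∧ (∃ i, v ∈ S P i) ∧ ∃ j, v ∈ P j ∧ v ∉ (P j).extremePoints ℝ}

/-- Full interior vertices. -/
def Fv (D : Set V) (P : ι → Set V) : Set V :=
  {v | v ∈ interior D ∧ (∃ i, v ∈ S P i) ∧ ∀ j, v ∈ P j → v ∈ (P j).extremePoints ℝ}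

/-- Number of cells with a corner at `v`. -/
noncomputable def kv (P : ι → Set V) (v : V) : ℕ := {i | v ∈ S P i}.ncard

open Classical in
/-- Excess valence. -/
noncomputable def exc (D : Set V) (P : ι → Set V) (v : V) : ℕ :=
  kv P v - (if v ∈ Fv D P then 3 else 2)

theorem disj_FT : Disjoint (Fv D P) (Tv D P) := by
  rw [Set.disjoint_left]
  rintro v ⟨-, -, h1⟩ ⟨-, -, j, hj, hj'⟩
  exact hj' (h1 j hj)

theorem disj_FB : Disjoint (Fv D P) (Vb D P) := by
  rw [Set.disjoint_left]
  rintro v ⟨h1, -, -⟩ ⟨-, h2⟩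
  exact h2.2 h1

theorem disj_TB : Disjoint (Tv D P) (Vb D P) := by
  rw [Set.disjoint_left]
  rintro v ⟨h1, -, -⟩ ⟨-, h2⟩
  exact h2.2 h1

theorem Tiling.union_S (h : Tiling D P) : (⋃ i, S P i) = Fv D P ∪ Tv D P ∪ Vb D P := by
  apply Subset.antisymm
  · intro v hv
    obtain ⟨i, hi⟩ := mem_iUnion.mp hv
    have hvD : v ∈ D := h.sub i hi.1.1
    by_cases hint : v ∈ interior D
    · left
      by_cases hall : ∀ j, v ∈ P j → v ∈ (P j).extremePoints ℝ
      · exact Or.inl ⟨hint, ⟨i, hi⟩, hall⟩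
      · push Not at hall
        exact Or.inr ⟨hint, ⟨i, hi⟩, hall⟩
    · exact Or.inr ⟨S_sub_Sh i hi, subset_closure hvD, hint⟩
  · rintro v ((⟨-, ⟨i, hi⟩, -⟩ | ⟨-, ⟨i, hi⟩, -⟩) | hv)
    · exact mem_iUnion.mpr ⟨i, hi⟩
    · exact mem_iUnion.mpr ⟨i, hi⟩
    · obtain ⟨⟨i, j, hij, hi, hj⟩, hfr⟩ := hv
      exact mem_iUnion.mpr ⟨i, h.vb_sub ⟨⟨i, j, hij, hi, hj⟩, hfr⟩ hi⟩

/-- An interior extreme point lies in at least three cells. -/
theorem Tiling.three_cells [Finite ι] (h : Tiling D P) {v : V} (hv : v ∈ interior D) {i : ι}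
    (hi : v ∈ (P i).extremePoints ℝ) :
    ∃ j k, i ≠ j ∧ i ≠ k ∧ j ≠ k ∧ v ∈ P j ∧ v ∈ P k := by
  have h1 : ∃ j, j ≠ i ∧ v ∈ P j := by
    by_contra hcon
    push Not at hcon
    have hint := h.mem_int_of_only hv hcon
    -- an interior point is not extreme
    obtain ⟨w, hw, -⟩ := exists_ker_vec (0 : V →L[ℝ] ℝ)
    have hev := eventually_add_smul (e := w) (isOpen_interior.mem_nhds hint)
    have hev' := eventually_add_smul (e := -w) (isOpen_interior.mem_nhds hint)
    have hev3 : ∀ᶠ ε in 𝓝[>] (0 : ℝ), 0 < ε := eventually_mem_nhdsWithin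
    obtain ⟨ε, h2, h3, h4⟩ := (hev.and (hev'.and hev3)).exists
    refine not_extreme_of_sym (w := ε • w) (smul_ne_zero h4.ne' hw) (interior_subset h2) ?_ hi
    have : v - ε • w = v + ε • (-w) := by module
    rw [this]
    exact interior_subset h3
  obtain ⟨j, hj, hvj⟩ := h1
  have h2 : ∃ k, k ≠ i ∧ k ≠ j ∧ v ∈ P k := by
    by_contra hcon
    push Not at hcon
    refine h.claimA hv hj.symm ?_ hi.1 hvj hi
    intro k hk
    by_cases hki : k = i
    · exact Or.inl hki
    · by_cases hkj : k = j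
      · exact Or.inr hkj
      · exact absurd hk (hcon k hki hkj)
  obtain ⟨k, hki, hkj, hvk⟩ := h2
  exact ⟨j, k, hj.symm, hki.symm, hkj.symm, hvj, hvk⟩

theorem Tiling.kv_F [Finite ι] (h : Tiling D P) {v : V} (hv : v ∈ Fv D P) : 3 ≤ kv P v := by
  obtain ⟨hint, ⟨i, hi⟩, hall⟩ := hv
  obtain ⟨j, k, hij, hik, hjk, hj, hk⟩ := h.three_cells hint hi.1
  have hsub : ({i, j, k} : Set ι) ⊆ {i | v ∈ S P i} := by
    rintro l (rfl | rfl | rfl)
    · exact hi
    · exact ⟨hall _ hj, i, hij, hi.1.1⟩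
    · exact ⟨hall _ hk, i, hik, hi.1.1⟩
  have hcard : ({i, j, k} : Set ι).ncard = 3 := by
    rw [Set.ncard_eq_three]
    exact ⟨i, j, k, hij, hik, hjk, rfl⟩
  rw [kv, ← hcard]
  exact Set.ncard_le_ncard hsub (Set.toFinite _)

theorem Tiling.kv_T [Finite ι] (h : Tiling D P) {v : V} (hv : v ∈ Tv D P) : 2 ≤ kv P v := by
  obtain ⟨hint, ⟨i, hi⟩, -⟩ := hv
  obtain ⟨j, k, hij, hik, hjk, hj, hk⟩ := h.three_cells hint hi.1
  have : ∃ l, i ≠ l ∧ v ∈ (P l).extremePoints ℝ := by
    by_cases hje : v ∈ (P j).extremePoints ℝ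
    · exact ⟨j, hij, hje⟩
    · by_cases hke : v ∈ (P k).extremePoints ℝ
      · exact ⟨k, hik, hke⟩
      · exact absurd (h.claimB hjk hi.1 hj hje hk hke) id
  obtain ⟨l, hil, hl⟩ := this
  have hsub : ({i, l} : Set ι) ⊆ {i | v ∈ S P i} := by
    rintro m (rfl | rfl)
    · exact hi
    · exact ⟨hl, i, hil, hi.1.1⟩
  have hcard : ({i, l} : Set ι).ncard = 2 := Set.ncard_pair hil
  rw [kv, ← hcard]
  exact Set.ncard_le_ncard hsub (Set.toFinite _)

theorem Tiling.kv_B [Finite ι] (h : Tiling D P) {v : V} (hv : v ∈ Vb D P) : 2 ≤ kv P v := by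
  obtain ⟨⟨i, j, hij, hi, hj⟩, hfr⟩ := hv
  have hsub : ({i, j} : Set ι) ⊆ {i | v ∈ S P i} := by
    rintro m (rfl | rfl)
    · exact h.vb_sub ⟨⟨_, j, hij, hi, hj⟩, hfr⟩ hi
    · exact h.vb_sub ⟨⟨i, _, hij, hi, hj⟩, hfr⟩ hj
  have hcard : ({i, j} : Set ι).ncard = 2 := Set.ncard_pair hij
  rw [kv, ← hcard]
  exact Set.ncard_le_ncard hsub (Set.toFinite _)

/-- The upper count: corners of cells against vertical directions. -/
theorem Tiling.upper_count [Fintype ι] (h : Tiling D P)
    {i₀ j₀ : ι} (hij₀ : i₀ ≠ j₀) :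
    ∑ i, (S P i).ncard + 2 ≤ 2 * Fintype.card ι + 2 * (Fv D P).ncard + (Tv D P).ncard
      + (Vb D P).ncard := by
  classical
  have hSfin : ∀ i, (S P i).Finite := h.S_finite
  have hUfin : (⋃ i, S P i).Finite := Set.finite_iUnion hSfin
  have hU := h.union_S
  have hFfin : (Fv D P).Finite := hUfin.subset (by rw [hU]; exact fun v hv => Or.inl (Or.inl hv))
  have hTfin : (Tv D P).Finite := hUfin.subset (by rw [hU]; exact fun v hv => Or.inl (Or.inr hv))
  have hBfin : (Vb D P).Finite := hUfin.subset (by rw [hU]; exact fun v hv => Or.inr hv)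
  obtain ⟨g, hg, hinj⟩ := exists_injOn_functional hUfin
  obtain ⟨e, he, hge⟩ := exists_ker_vec g
  let Mid : ι → Finset V := fun i =>
    (hSfin i).toFinset.filter fun v => (∃ a ∈ S P i, g a < g v) ∧ (∃ b ∈ S P i, g v < g b)
  -- at most two corners are not in `Mid`
  have hmid : ∀ i, (S P i).ncard ≤ (Mid i).card + 2 := by
    intro i
    rw [Set.ncard_eq_toFinset_card _ (hSfin i)]
    have hsplit : (hSfin i).toFinset ⊆ Mid i ∪
        (((hSfin i).toFinset.filter fun v => ∀ a ∈ S P i, g v ≤ g a) ∪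
        ((hSfin i).toFinset.filter fun v => ∀ b ∈ S P i, g b ≤ g v)) := by
      intro v hv
      simp only [Mid, Finset.mem_union, Finset.mem_filter]
      by_cases h1 : ∃ a ∈ S P i, g a < g v
      · by_cases h2 : ∃ b ∈ S P i, g v < g b
        · exact Or.inl ⟨hv, h1, h2⟩
        · push Not at h2
          exact Or.inr (Or.inr ⟨hv, h2⟩)
      · push Not at h1
        exact Or.inr (Or.inl ⟨hv, h1⟩)
    have hc1 : ((hSfin i).toFinset.filter fun v => ∀ a ∈ S P i, g v ≤ g a).card ≤ 1 := by
      rw [Finset.card_le_one]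
      intro a ha b hb
      simp only [Finset.mem_filter, Set.Finite.mem_toFinset] at ha hb
      exact hinj (mem_iUnion.mpr ⟨i, ha.1⟩) (mem_iUnion.mpr ⟨i, hb.1⟩)
        (le_antisymm (ha.2 b hb.1) (hb.2 a ha.1))
    have hc2 : ((hSfin i).toFinset.filter fun v => ∀ b ∈ S P i, g b ≤ g v).card ≤ 1 := by
      rw [Finset.card_le_one]
      intro a ha b hb
      simp only [Finset.mem_filter, Set.Finite.mem_toFinset] at ha hb
      exact hinj (mem_iUnion.mpr ⟨i, ha.1⟩) (mem_iUnion.mpr ⟨i, hb.1⟩)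
        (le_antisymm (hb.2 a ha.1) (ha.2 b hb.1))
    have := Finset.card_le_card hsplit
    have h3 := Finset.card_union_le (Mid i)
      (((hSfin i).toFinset.filter fun v => ∀ a ∈ S P i, g v ≤ g a) ∪
        ((hSfin i).toFinset.filter fun v => ∀ b ∈ S P i, g b ≤ g v))
    have h4 := Finset.card_union_le ((hSfin i).toFinset.filter fun v => ∀ a ∈ S P i, g v ≤ g a)
        ((hSfin i).toFinset.filter fun v => ∀ b ∈ S P i, g b ≤ g v)
    omega
  -- directions of the middle corners
  have hdir : ∀ i, ∀ v ∈ Mid i, Dir P i v e ∨ Dir P i v (-e) := by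
    intro i v hv
    simp only [Mid, Finset.mem_filter, Set.Finite.mem_toFinset] at hv
    obtain ⟨hvS, ⟨a, ha, hav⟩, ⟨b, hb, hvb⟩⟩ := hv
    exact h.dir_exists g hg he hge hvS.1 ha.1.1 hb.1.1 hav hvb
  -- allowed pairs
  let Al : V → Bool → Prop := fun v s =>
    ∃ i, v ∈ Mid i ∧ Dir P i v (if s then e else -e)
  let M : Finset V := hUfin.toFinset
  let Q : Finset (V × Bool) := (M ×ˢ (Finset.univ : Finset Bool)).filter fun p => Al p.1 p.2
  have hsum : ∑ i, (Mid i).card ≤ Q.card := by
    rw [← Finset.card_sigma]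
    let φ : (Σ _ : ι, V) → V × Bool := fun p => (p.2, if Dir P p.1 p.2 e then true else false)
    apply Finset.card_le_card_of_injOn φ
    · rintro ⟨i, v⟩ hp
      simp only [Finset.coe_sigma, Set.mem_sigma_iff, Finset.mem_coe] at hp
      have hv : v ∈ Mid i := hp.2
      simp only [Q, φ, Finset.coe_filter]
      refine ⟨?_, i, hv, ?_⟩
      · simp only [Finset.mem_product, Finset.mem_univ, and_true, M, Set.Finite.mem_toFinset]
        simp only [Mid, Finset.mem_filter, Set.Finite.mem_toFinset] at hv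
        exact mem_iUnion.mpr ⟨i, hv.1⟩
      · by_cases hd : Dir P i v e
        · simp [hd]
        · have := (hdir i v hv).resolve_left hd
          simp [hd, this]
    · rintro ⟨i, v⟩ hp ⟨j, u⟩ hq hpq
      simp only [Finset.coe_sigma, Set.mem_sigma_iff, Finset.mem_coe] at hp hq
      simp only [φ, Prod.mk.injEq] at hpq
      obtain ⟨rfl, hs⟩ := hpq
      by_cases hd : Dir P i v e
      · by_cases hd' : Dir P j v e
        · have := h.dir_unique hd hd'
          subst this
          rfl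
        · simp [hd, hd'] at hs
      · by_cases hd' : Dir P j v e
        · simp [hd, hd'] at hs
        · have h1 := (hdir i v hp.2).resolve_left hd
          have h2 := (hdir j v hq.2).resolve_left hd'
          have := h.dir_unique h1 h2
          subst this
          rfl
  -- number of allowed directions at each vertex
  have hQ : Q.card = ∑ v ∈ M, ((Finset.univ : Finset Bool).filter fun s => Al v s).card := by
    simp only [Q, Finset.card_filter]
    rw [Finset.sum_product]
  have hu2 : ∀ v, ((Finset.univ : Finset Bool).filter fun s => Al v s).card ≤ 2 := by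
    intro v
    refine (Finset.card_filter_le _ _).trans ?_
    simp
  have hext : ∀ v i, v ∈ Mid i → v ∈ (P i).extremePoints ℝ := by
    intro v i hv
    simp only [Mid, Finset.mem_filter, Set.Finite.mem_toFinset] at hv
    exact hv.1.1
  have hu1 : ∀ v, ¬ (Al v true ∧ Al v false) →
      ((Finset.univ : Finset Bool).filter fun s => Al v s).card ≤ 1 := by
    intro v hv
    rw [Finset.card_le_one]
    intro a ha b hb
    simp only [Finset.mem_filter, Finset.mem_univ, true_and] at ha hb
    cases a <;> cases b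
    · rfl
    · exact absurd ⟨hb, ha⟩ hv
    · exact absurd ⟨ha, hb⟩ hv
    · rfl
  have huT : ∀ v ∈ Tv D P, ((Finset.univ : Finset Bool).filter fun s => Al v s).card ≤ 1 := by
    intro v hv
    apply hu1
    rintro ⟨⟨i, hi, hdi⟩, ⟨k, hk, hdk⟩⟩
    obtain ⟨-, -, j, hj, hj'⟩ := hv
    rcases h.dir_T (e := e) hj hj' with h1 | h1
    · exact h1 i (hext v i hi) (by simpa using hdi)
    · exact h1 k (hext v k hk) (by simpa using hdk)
  have huB : ∀ v ∈ Vb D P, ((Finset.univ : Finset Bool).filter fun s => Al v s).card ≤ 1 := by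
    intro v hv
    apply hu1
    rintro ⟨⟨i, hi, hdi⟩, ⟨k, hk, hdk⟩⟩
    exact h.dir_bd hv.2 (e := e) (by simpa using hdi) (by simpa using hdk)
  -- the two extremal boundary points
  obtain ⟨a, ha, b, hb, hab⟩ := h.two_vb hij₀
  obtain ⟨vmin, hvmin, hmin⟩ := hBfin.exists_minimalFor g _ ⟨a, ha⟩
  obtain ⟨vmax, hvmax, hmax⟩ := hBfin.exists_maximalFor g _ ⟨a, ha⟩
  have hmin' : ∀ x ∈ Vb D P, g vmin ≤ g x := by
    intro x hx
    rcases le_total (g vmin) (g x) with h1 | h1
    · exact h1
    · exact hmin hx h1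
  have hmax' : ∀ x ∈ Vb D P, g x ≤ g vmax := by
    intro x hx
    rcases le_total (g x) (g vmax) with h1 | h1
    · exact h1
    · exact hmax hx h1
  have hUB : Vb D P ⊆ ⋃ i, S P i := by rw [hU]; exact fun v hv => Or.inr hv
  have hne : vmin ≠ vmax := by
    intro h0
    apply hab
    apply hinj (hUB ha) (hUB hb)
    have h1 := hmin' a ha
    have h2 := hmax' a ha
    have h3 := hmin' b hb
    have h4 := hmax' b hb
    rw [← h0] at h2 h4
    linarith
  have hminSh : ∀ x ∈ Sh P, g vmin ≤ g x := by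
    intro x hx
    have h1 := h.sh_hull hx
    have h2 : convexHull ℝ (Vb D P) ⊆ {y | g vmin ≤ g y} :=
      convexHull_min hmin' (convex_halfSpace_ge g.isLinear _)
    exact h2 h1
  have hmaxSh : ∀ x ∈ Sh P, g x ≤ g vmax := by
    intro x hx
    have h1 := h.sh_hull hx
    have h2 : convexHull ℝ (Vb D P) ⊆ {y | g y ≤ g vmax} :=
      convexHull_min hmax' (convex_halfSpace_le g.isLinear _)
    exact h2 h1
  have hu0min : ((Finset.univ : Finset Bool).filter fun s => Al vmin s).card = 0 := by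
    rw [Finset.card_eq_zero, Finset.filter_eq_empty_iff]
    rintro s - ⟨i, hi, -⟩
    simp only [Mid, Finset.mem_filter, Set.Finite.mem_toFinset] at hi
    obtain ⟨-, ⟨x, hx, hxv⟩, -⟩ := hi
    exact absurd (hminSh x (S_sub_Sh i hx)) (not_le.mpr hxv)
  have hu0max : ((Finset.univ : Finset Bool).filter fun s => Al vmax s).card = 0 := by
    rw [Finset.card_eq_zero, Finset.filter_eq_empty_iff]
    rintro s - ⟨i, hi, -⟩
    simp only [Mid, Finset.mem_filter, Set.Finite.mem_toFinset] at hi
    obtain ⟨-, -, ⟨x, hx, hxv⟩⟩ := hi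
    exact absurd (hmaxSh x (S_sub_Sh i hx)) (not_le.mpr hxv)
  -- split M
  have hM : M = (hFfin.toFinset ∪ hTfin.toFinset) ∪ hBfin.toFinset := by
    ext v
    simp only [M, Set.Finite.mem_toFinset, Finset.mem_union, hU, Set.mem_union]
  have hd1 : Disjoint hFfin.toFinset hTfin.toFinset := by
    rw [Finset.disjoint_left]
    intro v hv hv'
    simp only [Set.Finite.mem_toFinset] at hv hv'
    exact Set.disjoint_left.mp disj_FT hv hv'
  have hd2 : Disjoint (hFfin.toFinset ∪ hTfin.toFinset) hBfin.toFinset := by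
    rw [Finset.disjoint_left]
    intro v hv hv'
    simp only [Set.Finite.mem_toFinset, Finset.mem_union] at hv hv'
    rcases hv with hv | hv
    · exact Set.disjoint_left.mp disj_FB hv hv'
    · exact Set.disjoint_left.mp disj_TB hv hv'
  have hsB : ∑ v ∈ hBfin.toFinset, ((Finset.univ : Finset Bool).filter fun s => Al v s).card + 2
      ≤ (Vb D P).ncard := by
    have hmem1 : vmin ∈ hBfin.toFinset := by simpa using hvmin
    have hmem2 : vmax ∈ hBfin.toFinset.erase vmin := by
      rw [Finset.mem_erase]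
      exact ⟨hne.symm, by simpa using hvmax⟩
    rw [← Finset.add_sum_erase _ _ hmem1, ← Finset.add_sum_erase _ _ hmem2, hu0min, hu0max]
    have h1 : ∑ v ∈ (hBfin.toFinset.erase vmin).erase vmax,
        ((Finset.univ : Finset Bool).filter fun s => Al v s).card ≤
        ∑ v ∈ (hBfin.toFinset.erase vmin).erase vmax, 1 := by
      apply Finset.sum_le_sum
      intro v hv
      apply huB
      simpa using Finset.mem_of_mem_erase (Finset.mem_of_mem_erase hv)
    rw [Finset.sum_const, smul_eq_mul, mul_one] at h1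
    have h2 := Finset.card_erase_add_one hmem1
    have h3 := Finset.card_erase_add_one hmem2
    rw [Set.ncard_eq_toFinset_card _ hBfin]
    omega
  have hsF : ∑ v ∈ hFfin.toFinset, ((Finset.univ : Finset Bool).filter fun s => Al v s).card
      ≤ 2 * (Fv D P).ncard := by
    rw [Set.ncard_eq_toFinset_card _ hFfin]
    refine (Finset.sum_le_sum fun v _ => hu2 v).trans ?_
    rw [Finset.sum_const, smul_eq_mul, mul_comm]
  have hsT : ∑ v ∈ hTfin.toFinset, ((Finset.univ : Finset Bool).filter fun s => Al v s).card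
      ≤ (Tv D P).ncard := by
    rw [Set.ncard_eq_toFinset_card _ hTfin]
    refine (Finset.sum_le_sum fun v hv => huT v (by simpa using hv)).trans ?_
    rw [Finset.sum_const, smul_eq_mul, mul_one]
  have htot : Q.card + 2 ≤ 2 * (Fv D P).ncard + (Tv D P).ncard + (Vb D P).ncard := by
    rw [hQ, hM, Finset.sum_union hd2, Finset.sum_union hd1]
    omega
  have hsum2 : ∑ i, (S P i).ncard ≤ ∑ i, (Mid i).card + 2 * Fintype.card ι := by
    refine (Finset.sum_le_sum fun i _ => hmid i).trans ?_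
    rw [Finset.sum_add_distrib, Finset.sum_const, smul_eq_mul, mul_comm, Finset.card_univ]
  omega

/-- Double counting. -/
theorem Tiling.double_count [Fintype ι] (h : Tiling D P) (hU : (⋃ i, S P i).Finite) :
    ∑ i, (S P i).ncard = ∑ v ∈ hU.toFinset, kv P v := by
  classical
  have hSfin : ∀ i, (S P i).Finite := h.S_finite
  have h1 := Finset.sum_card_bipartiteAbove_eq_sum_card_bipartiteBelow
    (s := (Finset.univ : Finset ι)) (t := hU.toFinset) (fun i v => v ∈ S P i)
  have h2 : ∀ i, (S P i).ncard =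
      (Finset.bipartiteAbove (fun i v => v ∈ S P i) hU.toFinset i).card := by
    intro i
    rw [Set.ncard_eq_toFinset_card _ (hSfin i)]
    congr 1
    ext v
    simp only [Set.Finite.mem_toFinset, Finset.mem_bipartiteAbove]
    exact ⟨fun hv => ⟨mem_iUnion.mpr ⟨i, hv⟩, hv⟩, fun hv => hv.2⟩
  have h3 : ∀ v, kv P v =
      (Finset.bipartiteBelow (fun i v => v ∈ S P i) (Finset.univ : Finset ι) v).card := by
    intro v
    rw [kv, Set.ncard_eq_toFinset_card _ (Set.toFinite _)]
    congr 1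
    ext i
    simp [Finset.mem_bipartiteBelow]
  simp only [h2, h3]
  exact h1

/-- **Corner count.** -/
theorem Tiling.corner_count [Fintype ι] (h : Tiling D P) {i₀ j₀ : ι} (hij₀ : i₀ ≠ j₀)
    (hU : (⋃ i, S P i).Finite) :
    ∑ i, (S P i).ncard + (Vb D P).ncard + (Tv D P).ncard
      + 2 * ∑ v ∈ hU.toFinset, exc D P v + 6 ≤ 6 * Fintype.card ι := by
  classical
  have h1 := h.upper_count hij₀
  have h2 := h.double_count hU
  have hUU := h.union_S
  have hFfin : (Fv D P).Finite := hU.subset (by rw [hUU]; exact fun v hv => Or.inl (Or.inl hv))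
  have hTfin : (Tv D P).Finite := hU.subset (by rw [hUU]; exact fun v hv => Or.inl (Or.inr hv))
  have hBfin : (Vb D P).Finite := hU.subset (by rw [hUU]; exact fun v hv => Or.inr hv)
  have hM : hU.toFinset = (hFfin.toFinset ∪ hTfin.toFinset) ∪ hBfin.toFinset := by
    ext v
    simp only [Set.Finite.mem_toFinset, Finset.mem_union, hUU, Set.mem_union]
  have hd1 : Disjoint hFfin.toFinset hTfin.toFinset := by
    rw [Finset.disjoint_left]
    intro v hv hv'
    simp only [Set.Finite.mem_toFinset] at hv hv'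
    exact Set.disjoint_left.mp disj_FT hv hv'
  have hd2 : Disjoint (hFfin.toFinset ∪ hTfin.toFinset) hBfin.toFinset := by
    rw [Finset.disjoint_left]
    intro v hv hv'
    simp only [Set.Finite.mem_toFinset, Finset.mem_union] at hv hv'
    rcases hv with hv | hv
    · exact Set.disjoint_left.mp disj_FB hv hv'
    · exact Set.disjoint_left.mp disj_TB hv hv'
  have eF : ∑ v ∈ hFfin.toFinset, kv P v = ∑ v ∈ hFfin.toFinset, exc D P v
      + 3 * (Fv D P).ncard := by
    rw [Set.ncard_eq_toFinset_card _ hFfin, mul_comm, ← smul_eq_mul, ← Finset.sum_const,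
      ← Finset.sum_add_distrib]
    refine Finset.sum_congr rfl fun v hv => ?_
    have hv' : v ∈ Fv D P := by simpa using hv
    have := h.kv_F hv'
    rw [exc, if_pos hv']
    omega
  have eT : ∑ v ∈ hTfin.toFinset, kv P v = ∑ v ∈ hTfin.toFinset, exc D P v
      + 2 * (Tv D P).ncard := by
    rw [Set.ncard_eq_toFinset_card _ hTfin, mul_comm, ← smul_eq_mul, ← Finset.sum_const,
      ← Finset.sum_add_distrib]
    refine Finset.sum_congr rfl fun v hv => ?_
    have hv' : v ∈ Tv D P := by simpa using hv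
    have := h.kv_T hv'
    have hnF : v ∉ Fv D P := fun h0 => Set.disjoint_left.mp disj_FT h0 hv'
    rw [exc, if_neg hnF]
    omega
  have eB : ∑ v ∈ hBfin.toFinset, kv P v = ∑ v ∈ hBfin.toFinset, exc D P v
      + 2 * (Vb D P).ncard := by
    rw [Set.ncard_eq_toFinset_card _ hBfin, mul_comm, ← smul_eq_mul, ← Finset.sum_const,
      ← Finset.sum_add_distrib]
    refine Finset.sum_congr rfl fun v hv => ?_
    have hv' : v ∈ Vb D P := by simpa using hv
    have := h.kv_B hv'
    have hnF : v ∉ Fv D P := fun h0 => Set.disjoint_left.mp disj_FB h0 hv'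
    rw [exc, if_neg hnF]
    omega
  rw [hM, Finset.sum_union hd2, Finset.sum_union hd1] at h2
  rw [hM, Finset.sum_union hd2, Finset.sum_union hd1]
  omega

end W82
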