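import Mathlib

/-!
Noncrossing convex sets in the plane: elementary lemmas (MP_c2305b_co).
-/

open Set Module

namespace W82

/-- The plane. -/
abbrev V := EuclideanSpace ℝ (Fin 2)

/-- Two sets cross: two points of each outside the other, with meeting segments. -/
def Cross (A B : Set V) : Prop :=
  ∃ a ∈ A \ B, ∃ a' ∈ A \ B, ∃ b ∈ B \ A, ∃ b' ∈ B \ A,
    (segment ℝ a a' ∩ segment ℝ b b').Nonempty

theorem Cross.symm {A B : Set V} (h : Cross A B) : Cross B A := by
  obtain ⟨a, ha, a', ha', b, hb, b', hb', z, hz⟩ := h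
  exact ⟨b, hb, b', hb', a, ha, a', ha', z, hz.2, hz.1⟩

theorem cross_comm {A B : Set V} : Cross A B ↔ Cross B A := ⟨Cross.symm, Cross.symm⟩

/-- In the plane, the kernel of a nonzero functional is spanned by any of its nonzero vectors. -/
theorem exists_smul_of_ker (f : V →L[ℝ] ℝ) (hf : f ≠ 0) {u p : V} (hu : u ≠ 0)
    (h1 : f u = 0) (h2 : f p = 0) : ∃ t : ℝ, p = t • u := by
  set a := f (EuclideanSpace.single 0 1) with ha
  set b := f (EuclideanSpace.single 1 1) with hb
  have key : ∀ q : V, f q = q 0 * a + q 1 * b := by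
    intro q
    have hq : q = q 0 • EuclideanSpace.single 0 (1 : ℝ) + q 1 • EuclideanSpace.single 1 (1 : ℝ) := by
      ext i
      fin_cases i <;> simp
    conv_lhs => rw [hq]
    simp [ha, hb]
  rw [key] at h1 h2
  have hab : a ≠ 0 ∨ b ≠ 0 := by
    by_contra hcon
    push Not at hcon
    apply hf
    ext q
    rw [key, hcon.1, hcon.2]
    simp
  have hu' : u 0 ≠ 0 ∨ u 1 ≠ 0 := by
    by_contra hcon
    push Not at hcon
    apply hu
    ext i
    fin_cases i
    · simpa using hcon.1
    · simpa using hcon.2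
  have hdet : p 0 * u 1 - p 1 * u 0 = 0 := by
    rcases hab with h | h
    · have : a * (p 0 * u 1 - p 1 * u 0) = 0 := by linear_combination u 1 * h2 - p 1 * h1
      exact (mul_eq_zero.mp this).resolve_left h
    · have : b * (p 0 * u 1 - p 1 * u 0) = 0 := by linear_combination p 0 * h1 - u 0 * h2
      exact (mul_eq_zero.mp this).resolve_left h
  rcases hu' with h | h
  · refine ⟨p 0 / u 0, ?_⟩
    ext i
    fin_cases i
    · simp [h]
    · simp only [Fin.mk_one, PiLp.smul_apply, smul_eq_mul]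
      field_simp
      linarith
  · refine ⟨p 1 / u 1, ?_⟩
    ext i
    fin_cases i
    · simp only [Fin.zero_eta, PiLp.smul_apply, smul_eq_mul]
      field_simp
      linarith
    · simp [h]

/-- A functional vanishing on a given nonzero vector. -/
theorem exists_functional (u : V) (hu : u ≠ 0) : ∃ f : V →L[ℝ] ℝ, f ≠ 0 ∧ f u = 0 := by
  refine ⟨(u 1) • EuclideanSpace.proj 0 - (u 0) • EuclideanSpace.proj 1, ?_, ?_⟩
  · intro h
    apply hu
    have h0 := congrArg (fun g : V →L[ℝ] ℝ => g (EuclideanSpace.single 0 1)) h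
    have h1 := congrArg (fun g : V →L[ℝ] ℝ => g (EuclideanSpace.single 1 1)) h
    simp at h0 h1
    ext i
    fin_cases i
    · simpa using h1
    · simpa using h0
  · simp
    ring

/-- A convex set meeting `[x, x']` but not containing `x`, `x'` meets the line only inside. -/
theorem line_inter {E : Set V} (hE : Convex ℝ E) (g : V →L[ℝ] ℝ) (hg : g ≠ 0) {x x' z p : V}
    (hx : x ∉ E) (hx' : x' ∉ E) (hz : z ∈ E) (hzs : z ∈ segment ℝ x x') (hp : p ∈ E)
    (h1 : g x' = g x) (h2 : g p = g x) : p ∈ segment ℝ x x' := by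
  have hne : x' - x ≠ 0 := by
    intro h
    have : x' = x := sub_eq_zero.mp h
    subst this
    rw [segment_same] at hzs
    exact hx (hzs ▸ hz)
  obtain ⟨t, ht⟩ := exists_smul_of_ker g hg (p := p - x) hne (by simp [h1]) (by simp [h2])
  rw [segment_eq_image'] at hzs
  obtain ⟨s, ⟨hs0, hs1⟩, hs⟩ := hzs
  have hp' : p = x + t • (x' - x) := by rw [← ht]; abel
  simp only at hs
  rw [segment_eq_image']
  refine ⟨t, ⟨?_, ?_⟩, hp'.symm⟩
  · by_contra hcon
    push Not at hcon
    -- x in [p, z]
    apply hx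
    have hts : 0 < s - t := by linarith
    have : x = (s / (s - t)) • p + (-t / (s - t)) • z := by
      rw [hp', ← hs]
      have e1 : s / (s - t) + (-t / (s - t)) = 1 := by field_simp; ring
      have e2 : s / (s - t) * t + (-t / (s - t)) * s = 0 := by field_simp; ring
      calc x = (s / (s - t) + (-t / (s - t))) • x
            + (s / (s - t) * t + (-t / (s - t)) * s) • (x' - x) := by rw [e1, e2]; simp
        _ = _ := by module
    rw [this]
    exact hE hp hz (by positivity) (div_nonneg (by linarith) hts.le) (by field_simp; ring)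
  · by_contra hcon
    push Not at hcon
    apply hx'
    have hts : 0 < t - s := by linarith
    have : x' = ((1 - s) / (t - s)) • p + ((t - 1) / (t - s)) • z := by
      rw [hp', ← hs]
      have e1 : (1 - s) / (t - s) + ((t - 1) / (t - s)) = 1 := by field_simp; ring
      have e2 : (1 - s) / (t - s) * t + ((t - 1) / (t - s)) * s = 1 := by field_simp; ring
      calc x' = 1 • x + 1 • (x' - x) := by module
        _ = ((1 - s) / (t - s) + ((t - 1) / (t - s))) • x
            + ((1 - s) / (t - s) * t + ((t - 1) / (t - s)) * s) • (x' - x) := by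
              rw [e1, e2]; simp
        _ = _ := by module
    rw [this]
    exact hE hp hz (div_nonneg (by linarith) hts.le) (div_nonneg (by linarith) hts.le)
      (by field_simp; ring)

/-- Intermediate value on a segment. -/
theorem exists_on_segment (g : V →L[ℝ] ℝ) {e e' : V} {d : ℝ} (h1 : g e ≤ d) (h2 : d ≤ g e') :
    ∃ y ∈ segment ℝ e e', g y = d := by
  have hc : IsPreconnected (segment ℝ e e') := (convex_segment e e').isPreconnected
  obtain ⟨y, hy, hyd⟩ := hc.intermediate_value (left_mem_segment ℝ e e')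
    (right_mem_segment ℝ e e') (g.continuous.continuousOn) (⟨h1, h2⟩ : d ∈ Icc (g e) (g e'))
  exact ⟨y, hy, hyd⟩

theorem le_of_mem_segment (g : V →L[ℝ] ℝ) {e e' y : V} {d : ℝ} (h1 : g e ≤ d) (h2 : g e' ≤ d)
    (hy : y ∈ segment ℝ e e') : g y ≤ d := by
  have : Convex ℝ {x | g x ≤ d} := convex_halfSpace_le g.isLinear d
  exact this.segment_subset h1 h2 hy

theorem ge_of_mem_segment (g : V →L[ℝ] ℝ) {e e' y : V} {d : ℝ} (h1 : d ≤ g e) (h2 : d ≤ g e')
    (hy : y ∈ segment ℝ e e') : d ≤ g y := by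
  have : Convex ℝ {x | d ≤ g x} := convex_halfSpace_ge g.isLinear d
  exact this.segment_subset h1 h2 hy

theorem gt_of_mem_segment (g : V →L[ℝ] ℝ) {e e' y : V} {d : ℝ} (h1 : d < g e) (h2 : d < g e')
    (hy : y ∈ segment ℝ e e') : d < g y := by
  have : Convex ℝ {x | d < g x} := convex_halfSpace_gt g.isLinear d
  exact this.segment_subset h1 h2 hy

theorem lt_of_mem_segment (g : V →L[ℝ] ℝ) {e e' y : V} {d : ℝ} (h1 : g e < d) (h2 : g e' < d)
    (hy : y ∈ segment ℝ e e') : g y < d := by
  have : Convex ℝ {x | g x < d} := convex_halfSpace_lt g.isLinear d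
  exact this.segment_subset h1 h2 hy

/-- If the value at an interior point `z` (different from `x`) of a segment is the maximum, the
functional is constant. -/
theorem eq_of_mem_segment (g : V →L[ℝ] ℝ) {x x' z : V} {d : ℝ} (hz : z ∈ segment ℝ x x')
    (hzx' : z ≠ x') (h1 : g x ≤ d) (h2 : g x' ≤ d) (h : g z = d) : g x = d := by
  obtain ⟨a, b, ha, hb, hab, rfl⟩ := hz
  have : 0 < a := by
    rcases ha.lt_or_eq with h | h
    · exact h
    · exfalso
      apply hzx'
      rw [← h] at hab ⊢
      have : b = 1 := by linarith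
      simp [this]
  simp only [map_add, map_smul, smul_eq_mul] at h
  by_contra hne
  have hlt : g x < d := lt_of_le_of_ne h1 hne
  have e1 : 0 < a * (d - g x) := mul_pos this (sub_pos.mpr hlt)
  have e2 : 0 ≤ b * (d - g x') := mul_nonneg hb (sub_nonneg.mpr h2)
  have e3 : a * (d - g x) + b * (d - g x') = 0 := by
    linear_combination (d : ℝ) * hab - h
  linarith

/-- Connected differences exclude a crossing. -/
theorem not_cross_of_isPreconnected {A B : Set V} (hA : Convex ℝ A) (hB : Convex ℝ B)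
    (h : IsPreconnected (A \ B)) : ¬ Cross A B := by
  rintro ⟨a, ha, a', ha', b, hb, b', hb', z, hz1, hz2⟩
  have hzA : z ∈ A := hA.segment_subset ha.1 ha'.1 hz1
  have hzB : z ∈ B := hB.segment_subset hb.1 hb'.1 hz2
  have hne : b' - b ≠ 0 := by
    intro h0
    have : b' = b := sub_eq_zero.mp h0
    subst this
    rw [segment_same] at hz2
    exact hb.2 (hz2 ▸ hzA)
  obtain ⟨g, hg, hg0⟩ := exists_functional _ hne
  have hbb : g b' = g b := by
    have := hg0
    simp only [map_sub] at this
    linarith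
  have hzb : g z = g b := le_antisymm (le_of_mem_segment g le_rfl hbb.le hz2)
    (ge_of_mem_segment g le_rfl hbb.ge hz2)
  have key : ∀ p ∈ A, g p = g b → p ∈ B := fun p hp hpb =>
    hB.segment_subset hb.1 hb'.1 (line_inter hA g hg hb.2 hb'.2 hzA hz2 hp hbb hpb)
  have hab : g a ≠ g b := fun h0 => ha.2 (key a ha.1 h0)
  have hab' : g a' ≠ g b := fun h0 => ha'.2 (key a' ha'.1 h0)
  have hcov : A \ B ⊆ {x | g x < g b} ∪ {x | g b < g x} := by
    intro p hp
    rcases lt_trichotomy (g p) (g b) with h0 | h0 | h0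
    · exact Or.inl h0
    · exact absurd (key p hp.1 h0) hp.2
    · exact Or.inr h0
  have ho1 : IsOpen {x : V | g x < g b} := isOpen_lt g.continuous continuous_const
  have ho2 : IsOpen {x : V | g b < g x} := isOpen_lt continuous_const g.continuous
  have hboth : (∃ p ∈ A \ B, g p < g b) ∧ (∃ p ∈ A \ B, g b < g p) := by
    rcases lt_or_gt_of_ne hab with h1 | h1
    · rcases lt_or_gt_of_ne hab' with h2 | h2
      · exact absurd hzb (lt_of_mem_segment g h1 h2 hz1).ne
      · exact ⟨⟨a, ha, h1⟩, ⟨a', ha', h2⟩⟩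
    · rcases lt_or_gt_of_ne hab' with h2 | h2
      · exact ⟨⟨a', ha', h2⟩, ⟨a, ha, h1⟩⟩
      · exact absurd hzb (gt_of_mem_segment g h1 h2 hz1).ne'
  obtain ⟨⟨p, hp, hp1⟩, ⟨q, hq, hq1⟩⟩ := hboth
  obtain ⟨r, -, hr1, hr2⟩ := h _ _ ho1 ho2 hcov ⟨p, hp, hp1⟩ ⟨q, hq, hq1⟩
  exact absurd (show g r < g b from hr1) (not_lt.mpr (le_of_lt (show g b < g r from hr2)))

/-- Convex sets separated by a line do not cross. -/
theorem not_cross_of_sep {X E : Set V} (hX : Convex ℝ X) (hE : Convex ℝ E)
    (f : V →L[ℝ] ℝ) (hf : f ≠ 0) (c : ℝ) (h1 : ∀ x ∈ X, f x ≤ c) (h2 : ∀ e ∈ E, c ≤ f e) :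
    ¬ Cross X E := by
  rintro ⟨x, hx, x', hx', e, he, e', he', z, hz1, hz2⟩
  have hzX : z ∈ X := hX.segment_subset hx.1 hx'.1 hz1
  have hzE : z ∈ E := hE.segment_subset he.1 he'.1 hz2
  have hzc : f z = c := le_antisymm (h1 z hzX) (h2 z hzE)
  have hzx : z ≠ x := fun h => hx.2 (h ▸ hzE)
  have hzx' : z ≠ x' := fun h => hx'.2 (h ▸ hzE)
  have hze : z ≠ e := fun h => he.2 (h ▸ hzX)
  have hze' : z ≠ e' := fun h => he'.2 (h ▸ hzX)
  have hxc : f x = c := eq_of_mem_segment f hz1 hzx' (h1 x hx.1) (h1 x' hx'.1) hzc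
  have hxc' : f x' = c := eq_of_mem_segment f (segment_symm ℝ x x' ▸ hz1) hzx (h1 x' hx'.1)
    (h1 x hx.1) hzc
  have hec : f e = c := by
    have := eq_of_mem_segment (-f) (d := -c) hz2 hze' (by simpa using h2 e he.1)
      (by simpa using h2 e' he'.1) (by simpa using hzc)
    simpa using this
  have : e ∈ segment ℝ x x' := line_inter hE f hf hx.2 hx'.2 hzE hz1 he.1 (by rw [hxc, hxc'])
    (by rw [hec, hxc])
  exact he.2 (hX.segment_subset hx.1 hx'.1 this)

/-- KEY lemma: trimming `X` by a half-plane creates a crossing with `E` only if the removed half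
of `E` lies in `X`. -/
theorem key_trim {X E : Set V} (hX : Convex ℝ X) (hE : Convex ℝ E) (hXE : ¬ Cross X E)
    (f : V →L[ℝ] ℝ) (c : ℝ) (h : Cross (X ∩ {p | f p ≤ c}) E) :
    ∀ w ∈ E, c < f w → w ∈ X := by
  -- first the version with a chosen order of `e`, `e'`
  have main : ∀ x x' e e' z : V, x ∈ X → f x ≤ c → x ∉ E → x' ∈ X → f x' ≤ c → x' ∉ E →
      e ∈ E → e ∈ X → c < f e → e' ∈ E → e' ∉ X ∩ {p | f p ≤ c} →
      z ∈ segment ℝ x x' → z ∈ segment ℝ e e' → ∀ w ∈ E, c < f w → w ∈ X := by
    intro x x' e e' z hxX hxc hxE hxX' hxc' hxE' heE heX hec heE' he' hz1 hz2 w hwE hwc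
    by_contra hwX
    have hzX : z ∈ X := hX.segment_subset hxX hxX' hz1
    have hzE : z ∈ E := hE.segment_subset heE heE' hz2
    have hzc : f z ≤ c := le_of_mem_segment f hxc hxc' hz1
    have hec' : f e' ≤ c := by
      by_contra hcon
      push Not at hcon
      exact absurd hzc (not_le.mpr (gt_of_mem_segment f hec hcon hz2))
    have heX' : e' ∉ X := fun h0 => he' ⟨h0, hec'⟩
    have hne : x' - x ≠ 0 := by
      intro h0
      have : x' = x := sub_eq_zero.mp h0
      subst this
      rw [segment_same] at hz1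
      exact hxE (hz1 ▸ hzE)
    obtain ⟨g, hg, hg0⟩ := exists_functional _ hne
    have hxx : g x' = g x := by
      have := hg0
      simp only [map_sub] at this
      linarith
    have hzx : g z = g x := le_antisymm (le_of_mem_segment g le_rfl hxx.le hz1)
      (ge_of_mem_segment g le_rfl hxx.ge hz1)
    have line : ∀ p ∈ E, g p = g x → p ∈ segment ℝ x x' := fun p hp hpx =>
      line_inter hE g hg hxE hxE' hzE hz1 hp hxx hpx
    have linec : ∀ p ∈ E, g p = g x → f p ≤ c := fun p hp hpx =>
      le_of_mem_segment f hxc hxc' (line p hp hpx)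
    have heg : g e ≠ g x := fun h0 => absurd (linec e heE h0) (not_le.mpr hec)
    have heg' : g e' ≠ g x := fun h0 =>
      heX' (hX.segment_subset hxX hxX' (line e' heE' h0))
    have hwg : g w ≠ g x := fun h0 => absurd (linec w hwE h0) (not_le.mpr hwc)
    -- w and e are on the same side
    have contra : ∀ y ∈ segment ℝ e w, g y ≠ g x := by
      intro y hy h0
      exact absurd (linec y (hE.segment_subset heE hwE hy) h0)
        (not_le.mpr (gt_of_mem_segment f hec hwc hy))
    -- final: segment w e' meets the line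
    have fin : ∀ y ∈ segment ℝ w e', g y = g x → False := by
      intro y hy h0
      have hyE : y ∈ E := hE.segment_subset hwE heE' hy
      exact hXE ⟨x, ⟨hxX, hxE⟩, x', ⟨hxX', hxE'⟩, w, ⟨hwE, hwX⟩, e', ⟨heE', heX'⟩, y,
        line y hyE h0, hy⟩
    rcases lt_or_gt_of_ne heg with h1 | h1
    · -- g e < g x
      have h2 : g x < g e' := by
        rcases lt_or_gt_of_ne heg' with h2 | h2
        · exact absurd hzx (lt_of_mem_segment g h1 h2 hz2).ne
        · exact h2
      rcases lt_or_gt_of_ne hwg with h3 | h3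
      · obtain ⟨y, hy, hyx⟩ := exists_on_segment g h3.le h2.le
        exact fin y hy hyx
      · obtain ⟨y, hy, hyx⟩ := exists_on_segment g h1.le h3.le
        exact contra y hy hyx
    · have h2 : g e' < g x := by
        rcases lt_or_gt_of_ne heg' with h2 | h2
        · exact h2
        · exact absurd hzx (gt_of_mem_segment g h1 h2 hz2).ne'
      rcases lt_or_gt_of_ne hwg with h3 | h3
      · obtain ⟨y, hy, hyx⟩ := exists_on_segment g h3.le h1.le
        exact contra y (segment_symm ℝ w e ▸ hy) hyx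
      · obtain ⟨y, hy, hyx⟩ := exists_on_segment g h2.le h3.le
        exact fin y (segment_symm ℝ e' w ▸ hy) hyx
  obtain ⟨x, hx, x', hx', e, he, e', he', z, hz1, hz2⟩ := h
  by_cases h1 : e ∈ X
  · have hec : c < f e := by
      by_contra hcon
      push Not at hcon
      exact he.2 ⟨h1, hcon⟩
    exact main x x' e e' z hx.1.1 hx.1.2 hx.2 hx'.1.1 hx'.1.2 hx'.2 he.1 h1 hec he'.1 he'.2 hz1 hz2
  · by_cases h2 : e' ∈ X
    · have hec : c < f e' := by
        by_contra hcon
        push Not at hcon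
        exact he'.2 ⟨h2, hcon⟩
      exact main x x' e' e z hx.1.1 hx.1.2 hx.2 hx'.1.1 hx'.1.2 hx'.2 he'.1 h2 hec he.1 he.2 hz1
        (segment_symm ℝ e e' ▸ hz2)
    · exact absurd ⟨x, ⟨hx.1.1, hx.2⟩, x', ⟨hx'.1.1, hx'.2⟩, e, ⟨he.1, h1⟩, e', ⟨he'.1, h2⟩, z,
        hz1, hz2⟩ hXE

end W82
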