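import Pool.Agent.W82_c2305b.Hull

/-!
Vertical directions at the corners of the cells.
-/

open Set Module Topology Filter

namespace W82

variable {ι : Type*} {D : Set V} {P : ι → Set V}

/-- Cell `i` contains the direction `e` at `v` in its interior. -/
def Dir (P : ι → Set V) (i : ι) (v e : V) : Prop :=
  ∀ᶠ ε in 𝓝[>] (0 : ℝ), v + ε • e ∈ interior (P i)

theorem Tiling.dir_unique (h : Tiling D P) {i j : ι} {v e : V} (hi : Dir P i v e)
    (hj : Dir P j v e) : i = j := by
  by_contra hij
  obtain ⟨ε, h1, h2⟩ := (hi.and hj).exists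
  exact h.int_disj hij h1 (interior_subset h2)

theorem eventually_add_smul {v e : V} {p : V → Prop} (hp : ∀ᶠ r in 𝓝 v, p r) :
    ∀ᶠ ε in 𝓝[>] (0 : ℝ), p (v + ε • e) := by
  have hcont : Continuous fun t : ℝ => v + t • e := by fun_prop
  have h1 : Tendsto (fun t : ℝ => v + t • e) (𝓝 0) (𝓝 v) := by
    have := hcont.tendsto 0
    simpa using this
  exact (h1.mono_left nhdsWithin_le_nhds).eventually hp

/-- A corner between two others (for the functional `g`) has a vertical direction. -/
theorem Tiling.dir_exists (h : Tiling D P) {i : ι} {v a b e : V} (g : V →L[ℝ] ℝ) (hg : g ≠ 0)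
    (he : e ≠ 0) (hge : g e = 0) (hv : v ∈ (P i).extremePoints ℝ) (ha : a ∈ P i) (hb : b ∈ P i)
    (hav : g a < g v) (hvb : g v < g b) : Dir P i v e ∨ Dir P i v (-e) := by
  obtain ⟨w, hw, hwg⟩ := exists_on_segment g hav.le hvb.le
  have hwo : w ∈ openSegment ℝ a b := by
    refine mem_openSegment_of_ne_left_right ?_ ?_ hw
    · rintro rfl
      linarith
    · rintro rfl
      linarith
  have hwv : w ≠ v := by
    rintro rfl
    have h1 := (mem_extremePoints.mp hv).2 a ha b hb hwo
    rw [h1.1] at hav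
    exact lt_irrefl _ hav
  have hwv' : w - v ≠ 0 := sub_ne_zero.mpr hwv
  obtain ⟨t, ht⟩ := exists_smul_of_ker g hg he hge (p := w - v) (by simp [hwg])
  have ht0 : t ≠ 0 := by
    rintro rfl
    rw [zero_smul] at ht
    exact hwv' ht
  have hba : b - a ≠ 0 := by
    intro h0
    have : b = a := sub_eq_zero.mp h0
    subst this
    linarith
  obtain ⟨f0, hf0, hf0ba⟩ := exists_functional (b - a) hba
  have hfab0 : f0 b = f0 a := by
    have := hf0ba
    simp only [map_sub] at this
    linarith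
  have hfw0 : f0 w = f0 a := le_antisymm (le_of_mem_segment f0 le_rfl hfab0.le hw)
    (ge_of_mem_segment f0 le_rfl hfab0.ge hw)
  have hfv0 : f0 v ≠ f0 w := by
    intro h0
    obtain ⟨s, hs⟩ := exists_smul_of_ker f0 hf0 hwv' (by simp [h0]) hf0ba
    have h1 : g (b - a) = s * g (w - v) := by rw [hs, map_smul, smul_eq_mul]
    have h2 : g (w - v) = 0 := by simp [hwg]
    rw [h2, mul_zero, map_sub] at h1
    linarith
  -- choose the sign
  obtain ⟨f, hf, hfab, hfw, hfv⟩ : ∃ f : V →L[ℝ] ℝ, f ≠ 0 ∧ f b = f a ∧ f w = f a ∧ f v < f w := by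
    rcases lt_or_gt_of_ne hfv0 with h1 | h1
    · exact ⟨f0, hf0, hfab0, hfw0, h1⟩
    · exact ⟨-f0, neg_ne_zero.mpr hf0, by simp [hfab0], by simp [hfw0], by simpa using h1⟩
  -- symmetric points around w on the segment
  have hX : Convex ℝ (segment ℝ a b) := convex_segment a b
  have hwne : w ∉ (segment ℝ a b).extremePoints ℝ := by
    intro h0
    have h1 := (mem_extremePoints.mp h0).2 a (left_mem_segment ℝ a b) b (right_mem_segment ℝ a b)
      hwo
    rw [← h1.1] at hwg
    linarith
  obtain ⟨w', hw', hw1, hw2⟩ := exists_sym_of_not_extreme hX hw hwne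
  have hsegP : segment ℝ a b ⊆ P i := (h.conv i).segment_subset ha hb
  have hfseg : ∀ x ∈ segment ℝ a b, f x = f a := fun x hx =>
    le_antisymm (le_of_mem_segment f le_rfl hfab.le hx) (ge_of_mem_segment f le_rfl hfab.ge hx)
  have hfw' : f w' = 0 := by
    have a1 := hfseg _ hw1
    rw [map_add, hfw] at a1
    linarith
  have hnh := half_nhds (h.conv i) hw' (hsegP hw1) (hsegP hw2) hv.1 f hfw' hfv
  -- points of (v, w) near w are interior
  have hcont : Continuous fun s : ℝ => v + s • (w - v) := by fun_prop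
  have ht1 : Tendsto (fun s : ℝ => v + s • (w - v)) (𝓝[<] 1) (𝓝 w) := by
    have h1 := hcont.tendsto 1
    have h2 : v + (1 : ℝ) • (w - v) = w := by module
    rw [h2] at h1
    exact h1.mono_left nhdsWithin_le_nhds
  have hev := ht1.eventually (eventually_eventually_nhds.mpr hnh)
  have hev0 : ∀ᶠ s in 𝓝[<] (1 : ℝ), 0 < s :=
    (eventually_gt_nhds (zero_lt_one)).filter_mono nhdsWithin_le_nhds
  have hev1 : ∀ᶠ s in 𝓝[<] (1 : ℝ), s < 1 := eventually_mem_nhdsWithin
  obtain ⟨s, hs, hs0, hs1⟩ := (hev.and (hev0.and hev1)).exists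
  have hfp : f (v + s • (w - v)) < f w := by
    simp only [map_add, map_smul, map_sub, smul_eq_mul]
    nlinarith
  have hpint : v + s • (w - v) ∈ interior (P i) := by
    rw [mem_interior_iff_mem_nhds]
    have h1 : ∀ᶠ r in 𝓝 (v + s • (w - v)), f r < f w :=
      f.continuous.continuousAt.eventually_lt continuousAt_const hfp
    filter_upwards [hs, h1] with r hr1 hr2
    exact hr1 hr2.le
  have hall : ∀ x : ℝ, 0 < x → x < s → v + x • (w - v) ∈ interior (P i) := by
    intro x hx0 hxs
    apply (h.conv i).openSegment_self_interior_subset_interior hv.1 hpint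
    refine ⟨1 - x / s, x / s, ?_, by positivity, by ring, ?_⟩
    · rw [sub_pos, div_lt_one hs0]; exact hxs
    · have : x / s * s = x := by field_simp
      calc (1 - x / s) • v + (x / s) • (v + s • (w - v))
          = v + (x / s * s) • (w - v) := by module
        _ = _ := by rw [this]
  rcases lt_or_gt_of_ne ht0 with htn | htp
  · right
    have hev2 : ∀ᶠ ε in 𝓝[>] (0 : ℝ), ε < s * (-t) :=
      (eventually_lt_nhds (by nlinarith : (0 : ℝ) < s * (-t))).filter_mono nhdsWithin_le_nhds
    have hev3 : ∀ᶠ ε in 𝓝[>] (0 : ℝ), 0 < ε := eventually_mem_nhdsWithin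
    filter_upwards [hev2, hev3] with ε h1 h2
    have h3 := hall (ε / (-t)) (div_pos h2 (by linarith)) (by
      rw [div_lt_iff₀ (by linarith)]; exact h1)
    have h4 : v + (ε / (-t)) • (w - v) = v + ε • (-e) := by
      rw [ht, smul_smul]
      have : ε / (-t) * t = -ε := by field_simp
      rw [this]
      module
    rwa [h4] at h3
  · left
    have hev2 : ∀ᶠ ε in 𝓝[>] (0 : ℝ), ε < s * t :=
      (eventually_lt_nhds (by positivity : (0 : ℝ) < s * t)).filter_mono nhdsWithin_le_nhds
    have hev3 : ∀ᶠ ε in 𝓝[>] (0 : ℝ), 0 < ε := eventually_mem_nhdsWithin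
    filter_upwards [hev2, hev3] with ε h1 h2
    have h3 := hall (ε / t) (by positivity) (by rw [div_lt_iff₀ htp]; exact h1)
    have h4 : v + (ε / t) • (w - v) = v + ε • e := by
      rw [ht, smul_smul]
      have : ε / t * t = ε := by field_simp
      rw [this]
    rwa [h4] at h3

/-- At a T-vertex one of the two vertical directions is blocked. -/
theorem Tiling.dir_T (h : Tiling D P) {v e : V} {j : ι} (hj : v ∈ P j)
    (hj' : v ∉ (P j).extremePoints ℝ) :
    (∀ i, v ∈ (P i).extremePoints ℝ → ¬ Dir P i v e) ∨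
      (∀ i, v ∈ (P i).extremePoints ℝ → ¬ Dir P i v (-e)) := by
  obtain ⟨w, hw, hw1, hw2⟩ := exists_sym_of_not_extreme (h.conv j) hj hj'
  obtain ⟨f0, hf0, hf0w⟩ := exists_functional w hw
  obtain ⟨q, hq⟩ := h.int j
  obtain ⟨f, hfw, hfq⟩ : ∃ f : V →L[ℝ] ℝ, f w = 0 ∧ ∃ q ∈ P j, f q < f v := by
    by_cases hex : ∃ q ∈ P j, f0 q < f0 v
    · exact ⟨f0, hf0w, hex⟩
    · push Not at hex
      have := gt_of_mem_interior f0 hf0 hex hq
      exact ⟨-f0, by simp [hf0w], q, interior_subset hq, by simpa using this⟩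
  obtain ⟨q', hq', hqv⟩ := hfq
  have hnh := half_nhds (h.conv j) hw hw1 hw2 hq' f hfw hqv
  rcases le_total (f e) 0 with h1 | h1
  · left
    intro i hi hdir
    have hij : i ≠ j := fun h0 => hj' (h0 ▸ hi)
    have hev := eventually_add_smul (e := e) hnh
    have hev3 : ∀ᶠ ε in 𝓝[>] (0 : ℝ), 0 < ε := eventually_mem_nhdsWithin
    obtain ⟨ε, h2, h3, h4⟩ := (hdir.and (hev.and hev3)).exists
    refine h.int_disj hij h2 (h3 ?_)
    simp only [map_add, map_smul, smul_eq_mul]
    nlinarith
  · right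
    intro i hi hdir
    have hij : i ≠ j := fun h0 => hj' (h0 ▸ hi)
    have hev := eventually_add_smul (e := -e) hnh
    have hev3 : ∀ᶠ ε in 𝓝[>] (0 : ℝ), 0 < ε := eventually_mem_nhdsWithin
    obtain ⟨ε, h2, h3, h4⟩ := (hdir.and (hev.and hev3)).exists
    refine h.int_disj hij h2 (h3 ?_)
    simp only [map_add, map_smul, map_neg, smul_eq_mul]
    nlinarith

/-- At a boundary point at most one of the two vertical directions is available. -/
theorem Tiling.dir_bd (h : Tiling D P) {v e : V} (hv : v ∈ frontier D) {i j : ι}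
    (hi : Dir P i v e) (hj : Dir P j v (-e)) : False := by
  have : Nonempty ι := ⟨i⟩
  obtain ⟨f, hf, hfD⟩ := h.support hv
  have hev3 : ∀ᶠ ε in 𝓝[>] (0 : ℝ), 0 < ε := eventually_mem_nhdsWithin
  obtain ⟨ε, h1, h2⟩ := (hi.and hev3).exists
  obtain ⟨δ, h3, h4⟩ := (hj.and hev3).exists
  have e1 := lt_of_mem_interior f hf (fun x hx => hfD x (h.sub i hx)) h1
  have e2 := lt_of_mem_interior f hf (fun x hx => hfD x (h.sub j hx)) h3
  simp only [map_add, map_smul, map_neg, smul_eq_mul] at e1 e2
  have e3 : ε * f e < 0 := by linarith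
  have e4 : 0 < δ * f e := by linarith
  have e5 : f e < 0 := by
    by_contra hcon
    push Not at hcon
    have := mul_nonneg h2.le hcon
    linarith
  have := mul_neg_of_pos_of_neg h4 e5
  linarith

/-- A functional injective on a finite set. -/
theorem exists_injOn_functional {M : Set V} (hM : M.Finite) :
    ∃ g : V →L[ℝ] ℝ, g ≠ 0 ∧ Set.InjOn g M := by
  -- bad parameters
  let G : ℝ → (V →L[ℝ] ℝ) := fun t => EuclideanSpace.proj 0 + t • EuclideanSpace.proj 1
  have hG : ∀ t x, G t x = x 0 + t * x 1 := by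
    intro t x
    simp [G]
  let bad : Set ℝ := ⋃ p ∈ (M ×ˢ M), {t | p.1 ≠ p.2 ∧ G t (p.1 - p.2) = 0}
  have hbad : bad.Finite := by
    refine (hM.prod hM).biUnion ?_
    rintro ⟨x, y⟩ -
    apply Set.Subsingleton.finite
    rintro t ⟨hxy, ht⟩ s ⟨-, hs⟩
    simp only [hG] at ht hs
    by_contra hts
    have h1 : (t - s) * (x - y) 1 = 0 := by linarith
    have h2 : (x - y) 1 = 0 := (mul_eq_zero.mp h1).resolve_left (sub_ne_zero.mpr hts)
    have h3 : (x - y) 0 = 0 := by rw [h2] at ht; linarith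
    apply hxy
    have : x - y = 0 := by
      ext k
      fin_cases k
      · simpa using h3
      · simpa using h2
    exact sub_eq_zero.mp this
  obtain ⟨t, ht⟩ := hbad.infinite_compl.nonempty
  refine ⟨G t, ?_, ?_⟩
  · intro h0
    have h1 := hG t (EuclideanSpace.single 0 1)
    rw [h0] at h1
    simp at h1
  · intro x hx y hy hxy
    by_contra hne
    apply ht
    refine mem_iUnion₂.mpr ⟨(x, y), ⟨hx, hy⟩, hne, ?_⟩
    simp only [map_sub]
    linarith

end W82
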