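import Pool.Agent.W82_c2305b.WalkC
import Pool.Agent.W_c2305b_h72.NearSym

/-!
Labels of the perfect tiles.
-/

open Set Module Topology Filter MeasureTheory

namespace W82

open C2305b.TL (cr)
open C2305b.Rig (Am Off Pos Conv6 ar6 InBody)
open C2305bH68.Ord (Corners Nx)

variable {ι : Type*} {D : Set V} {P : ι → Set V}

/-- A label of the tile `i`: its vertices, counterclockwise. -/
structure Lbl (T : C2305b.TL.Tiling ι) (S6 : Set V) (i : ι) (q : Fin 6 → V) : Prop where
  edge : ∀ k, T.E i (q k) (q (k + 1))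
  inj : Function.Injective q
  all : ∀ x ∈ S6, ∃ k, q k = x
  mem : ∀ k, q k ∈ S6
  conv : Conv6 q
  area : ar6 q = (volume (convexHull ℝ S6)).toReal

/-- The corners of a perfect cell, counterclockwise from a given one. -/
theorem Tiling.label [Finite ι] (h : Tiling D P)
    (hi : (interior (convexHull ℝ (Vb D P))).Nonempty) {loss : ι → ℝ} {η : ℝ}
    {i : {i : ι // (interior (convexHull ℝ (S P i))).Nonempty}}
    (hp : Perfect D P loss η i) {v w : V} (hw : (h.toTL hi).E i v w) :
    ∃ q : Fin 6 → V, q 0 = v ∧ q 1 = w ∧ Lbl (h.toTL hi) (S P i) i q := by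
  set T := h.toTL hi with hT
  set Sf := (h.S_finite (i : ι)).toFinset with hSf
  have hco : (Sf : Set V) = S P i := Set.Finite.coe_toFinset _
  have hcor : Corners Sf := h.corners i
  have hcard : Sf.card = 6 := by
    rw [hSf, ← Set.ncard_eq_toFinset_card _ (h.S_finite (i : ι))]
    exact hp.card
  have h3 : 3 ≤ Sf.card := by rw [hcard]; norm_num
  have hmem : ∀ x, x ∈ T.W → x ∈ T.P i → x ∈ Sf := by
    intro x hx hxi
    rw [hSf, Set.Finite.mem_toFinset]
    have hx' : x ∈ h.M := hx
    exact hp.only x (h.hull_sub i hxi) (h.mem_M.mp hx')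
  have hvS : v ∈ Sf := hmem v hw.1.1 hw.1.2
  have hnx : ∀ x y, T.E i x y → Nx Sf x y := by
    intro x y hxy
    refine ⟨hmem x hxy.1.1 hxy.1.2, hmem y hxy.2.1.1 hxy.2.1.2, hxy.2.2.1, ?_⟩
    intro z hz
    rw [hco] at hz
    exact hxy.2.2.2.1 z hz
  obtain ⟨q, q0, qinj, qran, qle, qlt, qvol⟩ := C2305bH68.Ord.exists_cyclic_six hcor hcard hvS
  have hqS : ∀ k, q k ∈ Sf := by
    intro k
    have : q k ∈ range q := mem_range_self k
    rw [qran] at this
    exact this
  have hqS' : ∀ k, q k ∈ S P (i : ι) := by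
    intro k
    have := hqS k
    rw [hSf, Set.Finite.mem_toFinset] at this
    exact this
  have hqn : ∀ k, Nx Sf (q k) (q (k + 1)) := by
    intro k
    refine ⟨hqS k, hqS (k + 1), ?_, qle k⟩
    intro h0
    have h1 := qinj h0
    have h2 : ∀ k : ZMod 6, k + 1 ≠ k := by decide
    exact h2 k h1
  have q1 : q 1 = w := by
    have h5 := hqn 0
    rw [zero_add, q0] at h5
    exact C2305bH68.Ord.nx_unique hcor h3 (hnx v w hw) h5
  refine ⟨q, q0, q1, ?_, qinj, ?_, hqS', ?_, ?_⟩
  · intro k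
    obtain ⟨x, hx⟩ := T.exists_next i (v := q k) (h.mem_M.mpr ⟨i, hqS' k⟩)
      (subset_convexHull ℝ _ (hqS' k))
    have h5 := C2305bH68.Ord.nx_unique hcor h3 (hnx _ _ hx) (hqn k)
    subst h5
    exact hx
  · intro x hx
    have h5 : x ∈ (Sf : Set V) := by rw [hco]; exact hx
    rw [← qran] at h5
    obtain ⟨k, hk⟩ := h5
    exact ⟨k, hk⟩
  · apply conv6_of_strict
    intro k l hl hl'
    exact qlt k (q l) (hqS l) (fun h0 => hl (qinj h0)) (fun h0 => hl' (qinj h0))
  · rw [← hco, qvol]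
    rfl

theorem fin6_add (k l m : Fin 6) : k + l + m = k + (l + m) := by
  rw [add_assoc]

/-- Cyclic shift of a label. -/
theorem Lbl.shift {T : C2305b.TL.Tiling ι} {S6 : Set V} {i : ι} {q : Fin 6 → V}
    (hq : Lbl T S6 i q) (m : Fin 6) : Lbl T S6 i (fun k => q (k + m)) where
  edge k := by
    have := hq.edge (k + m)
    have e : k + m + 1 = k + 1 + m := by abel
    rw [e] at this
    exact this
  inj := fun a b hab => by
    have := hq.inj hab
    exact add_right_cancel this
  all x hx := by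
    obtain ⟨k, hk⟩ := hq.all x hx
    exact ⟨k - m, by simpa using hk⟩
  mem k := hq.mem _
  conv := by
    have key : ∀ m i j k : Fin 6, i < j → j < k →
        (i + m < j + m ∧ j + m < k + m) ∨ (j + m < k + m ∧ k + m < i + m) ∨
          (k + m < i + m ∧ i + m < j + m) := by decide
    have e1 : ∀ u v w : V, C2305b.Rig.cr (v - u) (w - u) = C2305b.Rig.cr (w - v) (u - v) := by
      intro u v w; simp only [C2305b.Rig.cr, PiLp.sub_apply]; ring
    intro i j k hij hjk
    rcases key m i j k hij hjk with ⟨h2, h3⟩ | ⟨h2, h3⟩ | ⟨h2, h3⟩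
    · exact hq.conv _ _ _ h2 h3
    · have := hq.conv _ _ _ h2 h3
      rw [e1]; exact this
    · have := hq.conv _ _ _ h2 h3
      rw [e1, e1]; exact this
  area := by
    rw [← hq.area]
    unfold ar6
    congr 1
    rw [← Equiv.sum_comp (Equiv.addRight m) (fun k => C2305b.Rig.cr (q k) (q (k + 1)))]
    refine Finset.sum_congr rfl fun k _ => ?_
    simp only [Equiv.coe_addRight]
    rw [add_right_comm]

/-- Labels with the same start are equal. -/
theorem Lbl.eq [Finite ι] {T : C2305b.TL.Tiling ι} {S6 S6' : Set V} {i : ι} {q q' : Fin 6 → V}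
    (hq : Lbl T S6 i q) (hq' : Lbl T S6' i q') (h0 : q 0 = q' 0) : q = q' := by
  have step : ∀ k, q k = q' k → q (k + 1) = q' (k + 1) := by
    intro k hk
    have h1 := hq.edge k
    have h2 := hq'.edge k
    rw [hk] at h1
    exact (T.next_unique i h1 h2).symm
  have n2 : (0 : Fin 6) + 1 = 1 := rfl
  have n3 : (1 : Fin 6) + 1 = 2 := rfl
  have n4 : (2 : Fin 6) + 1 = 3 := rfl
  have n5 : (3 : Fin 6) + 1 = 4 := rfl
  have n6 : (4 : Fin 6) + 1 = 5 := rfl
  have a1 := step 0 h0
  rw [n2] at a1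
  have a2 := step 1 a1
  rw [n3] at a2
  have a3 := step 2 a2
  rw [n4] at a3
  have a4 := step 3 a3
  rw [n5] at a4
  have a5 := step 4 a4
  rw [n6] at a5
  funext k
  fin_cases k
  exacts [h0, a1, a2, a3, a4, a5]

end W82
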