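import Pool.Agent.W82_c2305b.CoreC
import Pool.Agent.W82_c2305b.LabelG
import Pool.Agent.W_c2305b_h73.Hang3

/-!
The four tiles around a nearly vertical edge.
-/

open Set Module Topology Filter MeasureTheory

namespace W82

open C2305b.TL (cr)
open C2305b.Rig (Am Off Pos Conv6 ar6 InBody)

/-- The hypotheses on the body. -/
structure Hyp (K0 : Set V) (T6 τ g G R0 : ℝ) : Prop where
  gap : Gap K0 T6 τ g
  conv : Convex ℝ K0
  vol : volume K0 ≤ ENNReal.ofReal G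
  G1 : 1 ≤ G
  ball : K0 ⊆ Metric.closedBall 0 R0
  R1 : 1 ≤ R0

/-- Near symmetry of the sextuples of large area. -/
def NSym (K0 : Set V) (T6 ε a b η δ : ℝ) : Prop :=
  ∀ (t : Bool) (q : Fin 6 → V), Conv6 q → (∀ k, InBody K0 a b t ((1 + ε)⁻¹ • q k)) →
    T6 - η ≤ ar6 q → ∀ k, ∀ i : Fin 2, |((q (k + 1) - q k) + (q (k + 4) - q (k + 3))) i| ≤ δ

/-- A tile with good vertices. -/
def Nice {ι : Type*} (D : Set V) (P : ι → Set V) (loss : ι → ℝ) (η : ℝ) (i : ι) : Prop :=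
  Perfect D P loss η i ∧ ∀ v ∈ S P i, GoodV D P loss η v

section

variable {K0 : Set V} {T6 τ g G ε L R0 : ℝ} {ι : Type} [Fintype ι] {D : Set V} {P : ι → Set V}
  {h : Tiling D P} {hi : (interior (convexHull ℝ (Vb D P))).Nonempty} {K : Set V} {A6 a b : ℝ}
  {t : ι → Bool} {c s : ι → ℝ} {o : ι → V} {η : ℝ}

/-- The crosses of consecutive edges. -/
theorem Viol.cross (hV : Viol K0 T6 τ g G ε L h hi K A6 a b t c s o) (hH : Hyp K0 T6 τ g G R0)
    (hη : η ≤ g / 2) {i : {i : ι // (interior (convexHull ℝ (S P i))).Nonempty}}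
    (hp : Perfect D P (lossOf P A6 τ) η i) {q : Fin 6 → V} (hq : Lbl (h.toTL hi) (S P i) i q)
    (k : Fin 6) : 2 * τ ≤ cr (q (k + 1) - q k) (q (k + 2) - q (k + 1)) := by
  have e2 : k + 1 + 1 = k + 2 := by rw [add_assoc]; rfl
  have h1 := hq.edge (k + 1)
  rw [e2] at h1
  have := h.corner_cost hi hH.gap hH.conv hH.vol (by linarith [hH.G1]) hV.eps0.le hV.eps1 hV.epsG
    hV.sub hV.cop hV.TA hη hp h1 (hq.edge k)
  have e : cr (q (k + 2) - q (k + 1)) (q k - q (k + 1)) =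
      cr (q (k + 1) - q k) (q (k + 2) - q (k + 1)) := by
    simp only [cr, PiLp.sub_apply]; ring
  rw [← e]
  exact this

/-- Local coordinates of a label. -/
theorem Viol.loc (hV : Viol K0 T6 τ g G ε L h hi K A6 a b t c s o)
    {i : {i : ι // (interior (convexHull ℝ (S P i))).Nonempty}}
    (hp : Perfect D P (lossOf P A6 τ) η i) {q : Fin 6 → V} (hq : Lbl (h.toTL hi) (S P i) i q) :
    ∃ x : Fin 6 → V, (∀ m, q m = Pos (1 / L ^ 2) 1 0 (t i) (c i) (s i) (o i) (x m)) ∧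
      (∀ m, InBody K0 a b (t i) ((1 + ε)⁻¹ • x m)) ∧ Conv6 x ∧ T6 - η ≤ ar6 x ∧
      (∀ j k, (x j - x k) 0 = ux (1 / L ^ 2) (c i) (s i) (q j - q k)) ∧
      (∀ j k, (x j - x k) 1 = uy (c i) (s i) (q j - q k)) := by
  choose x hx using fun m => hV.cells.loc i (q m) (hq.mem m).1.1
  have hqe : q = fun m => Pos (1 / L ^ 2) 1 0 (t i) (c i) (s i) (o i) (x m) :=
    funext fun m => (hx m).1
  have hdiff : ∀ j k, q j - q k = Am (1 / L ^ 2) (c i) (s i) (x j - x k) := by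
    intro j k
    rw [(hx j).1, (hx k).1, C2305b.Rig.H73.pos_one_zero, C2305b.Rig.H73.pos_one_zero, Am_sub]
    abel
  have hfr := hV.cells.fr i
  have hz : c i * s i - s i * c i = 0 := by ring
  have hone : c i * c i + 1 / L ^ 2 * s i * s i = 1 := by linear_combination hfr
  refine ⟨x, fun m => (hx m).1, fun m => (hx m).2, ?_, ?_, ?_, ?_⟩
  · have h1 := hq.conv
    rw [hqe, conv6_Pos hV.cells.off (hV.cells.fr i)] at h1
    exact h1
  · have h2 := hq.area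
    rw [hqe, ar6_Pos hV.cells.off (hV.cells.fr i)] at h2
    have h1 := hp.small
    rw [lossOf, hp.card] at h1
    push_cast at h1
    have := hV.TA
    rw [h2]
    linarith
  · intro j k
    rw [hdiff, ux_Am, hz, hone]
    ring
  · intro j k
    rw [hdiff, uy_Am, hz, hone]
    ring

/-- Bounded mismatch at a good vertex. -/
theorem Viol.mis (hV : Viol K0 T6 τ g G ε L h hi K A6 a b t c s o) (hH : Hyp K0 T6 τ g G R0)
    (hη : η ≤ g / 2) {v : V} (hg : GoodV D P (lossOf P A6 τ) η v) {l m : ι} (hl : v ∈ P l)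
    (hm : v ∈ P m) : |c l * s m - s l * c m| ≤ 64 * (2 * R0) ^ 2 / τ := by
  have hL := hV.L1
  have hR := hH.R1
  have hν1 : 1 / L ^ 2 ≤ 1 := by
    rw [div_le_one (by positivity)]
    exact one_le_pow₀ hL
  exact h.mis_good hi hH.gap hH.conv hH.vol (by linarith [hH.G1]) hV.eps0.le hV.eps1 hV.epsG
    hV.sub hV.cop hV.TA hη hV.cells hH.ball hV.ab (by positivity) hν1
    (by simp : |(0 : ℝ)| ≤ 0) (by linarith : (1 + 0) * (2 * R0) ≤ 2 * R0) (by linarith) hg hl hm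

/-- Bounded local coordinates. -/
theorem Viol.bd (hV : Viol K0 T6 τ g G ε L h hi K A6 a b t c s o) (hH : Hyp K0 T6 τ g G R0)
    {i : ι} {p q : V} (hp : p ∈ P i) (hq : q ∈ P i) :
    |ux (1 / L ^ 2) (c i) (s i) (p - q)| ≤ 8 * R0 ∧ |uy (c i) (s i) (p - q)| ≤ 8 * R0 := by
  have hL := hV.L1
  have hR := hH.R1
  have hν1 : 1 / L ^ 2 ≤ 1 := by
    rw [div_le_one (by positivity)]
    exact one_le_pow₀ hL
  have h0 : |c i * s i - s i * c i| ≤ 1 := by
    have : c i * s i - s i * c i = 0 := by ring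
    rw [this, abs_zero]
    exact zero_le_one
  have h1 := hV.cells.ux_le hH.ball hV.ab hV.eps0.le hV.eps1 (by positivity) hν1
    (by simp : |(0 : ℝ)| ≤ 0) (by linarith : (1 + 0) * (2 * R0) ≤ 2 * R0) (hV.cells.fr i) hp hq
  have h2 := hV.cells.uy_le hH.ball hV.ab hV.eps0.le hV.eps1 (by positivity) hν1
    (by simp : |(0 : ℝ)| ≤ 0) (by linarith : (1 + 0) * (2 * R0) ≤ 2 * R0) (hV.cells.fr i) h0 hp hq
  constructor
  · linarith
  · linarith

/-- Near symmetry in a perfect tile. -/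
theorem Viol.sym (hV : Viol K0 T6 τ g G ε L h hi K A6 a b t c s o) {δ : ℝ}
    (hN : NSym K0 T6 ε a b η δ) {i : {i : ι // (interior (convexHull ℝ (S P i))).Nonempty}}
    (hp : Perfect D P (lossOf P A6 τ) η i) {q : Fin 6 → V} (hq : Lbl (h.toTL hi) (S P i) i q)
    (k : Fin 6) :
    |ux (1 / L ^ 2) (c i) (s i) (q (k + 1) - q k) +
      ux (1 / L ^ 2) (c i) (s i) (q (k + 4) - q (k + 3))| ≤ δ ∧
    |uy (c i) (s i) (q (k + 1) - q k) + uy (c i) (s i) (q (k + 4) - q (k + 3))| ≤ δ := by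
  obtain ⟨x, -, hb, hc, ha, h0, h1⟩ := hV.loc hp hq
  have e0 := hN (t i) x hc hb ha k 0
  have e1 := hN (t i) x hc hb ha k 1
  rw [PiLp.add_apply, h0, h0] at e0
  rw [PiLp.add_apply, h1, h1] at e1
  exact ⟨e0, e1⟩

end

/-- At most one edge is nearly vertical and goes up. -/
theorem vert_unique {u w : Fin 6 → ℝ} {τ δ R ω : ℝ} (hτ : 0 < τ)
    (hx : ∀ k, 2 * τ ≤ u k * w (k + 1) - w k * u (k + 1)) (hsu : ∀ k, |u k + u (k + 3)| ≤ δ)
    (hsw : ∀ k, |w k + w (k + 3)| ≤ δ) (bu : ∀ k, |u k| ≤ R) (bw : ∀ k, |w k| ≤ R)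
    (h1 : R * δ ≤ τ / 4) (h2 : R * ω ≤ τ / 4) {k : Fin 6} (h0 : |u 0| ≤ ω) (w0 : 0 < w 0)
    (hk : |u k| ≤ ω) (wk : 0 < w k) : k = 0 := by
  have prod : ∀ x y X Y : ℝ, |x| ≤ X → |y| ≤ Y → |x * y| ≤ X * Y := by
    intro x y X Y hxX hyY
    rw [abs_mul]
    exact mul_le_mul hxX hyY (abs_nonneg _) ((abs_nonneg _).trans hxX)
  have hω : 0 ≤ ω := (abs_nonneg _).trans h0
  have n1 : (0 : Fin 6) + 1 = 1 := rfl
  have n2 : (2 : Fin 6) + 1 = 3 := rfl
  have n3 : (3 : Fin 6) + 1 = 4 := rfl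
  have n5 : (5 : Fin 6) + 1 = 0 := rfl
  have n03 : (0 : Fin 6) + 3 = 3 := rfl
  have x0 := hx 0
  rw [n1] at x0
  have x2 := hx 2
  rw [n2] at x2
  have x3 := hx 3
  rw [n3] at x3
  have x5 := hx 5
  rw [n5] at x5
  have su := hsu 0
  rw [n03] at su
  have sw := hsw 0
  rw [n03] at sw
  have u3 : |u 3| ≤ ω + δ := by
    have : u 3 = (u 0 + u 3) - u 0 := by ring
    rw [this]
    refine (abs_sub _ _).trans ?_
    linarith
  have hRω : R * (ω + δ) ≤ τ / 2 := by rw [mul_add]; linarith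
  fin_cases k
  · rfl
  · exfalso
    have a1 := abs_le.mp (prod _ _ _ _ h0 (bw 1))
    have a2 := abs_le.mp (prod _ _ _ _ (bw 0) hk)
    simp only [Fin.mk_one, Fin.isValue] at a2
    linarith [a1.2, a2.1]
  · exfalso
    have a1 := abs_le.mp (prod _ _ _ _ hk (bw 3))
    have a2 := abs_le.mp (prod _ _ _ _ (bw 2) u3)
    simp only [Fin.reduceFinMk, Fin.isValue] at a1
    linarith [a1.2, a2.1]
  · exfalso
    simp only [Fin.reduceFinMk, Fin.isValue] at wk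
    have a1 := abs_le.mp (prod _ _ _ _ h0 (bw 1))
    have h5 : w 0 ≤ δ := by linarith [(abs_le.mp sw).2]
    have h6 : |w 0| ≤ δ := by rw [abs_of_pos w0]; exact h5
    have a2 := abs_le.mp (prod _ _ _ _ h6 (bu 1))
    linarith [a1.2, a2.1]
  · exfalso
    have a1 := abs_le.mp (prod _ _ _ _ u3 (bw 4))
    have a2 := abs_le.mp (prod _ _ _ _ (bw 3) hk)
    simp only [Fin.reduceFinMk, Fin.isValue] at a2
    linarith [a1.2, a2.1]
  · exfalso
    have a1 := abs_le.mp (prod _ _ _ _ hk (bw 0))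
    have a2 := abs_le.mp (prod _ _ _ _ (bw 5) h0)
    simp only [Fin.reduceFinMk, Fin.isValue] at a1
    linarith [a1.2, a2.1]

/-- The two lower edges of a tile with nearly vertical sides. -/
theorem vert_mid {u w : Fin 6 → ℝ} {τ δ R ω : ℝ} (hτ : 0 < τ) (hR : 0 < R)
    (hx : ∀ k, 2 * τ ≤ u k * w (k + 1) - w k * u (k + 1)) (hsu : ∀ k, |u k + u (k + 3)| ≤ δ)
    (hsw : ∀ k, |w k + w (k + 3)| ≤ δ) (bu : ∀ k, |u k| ≤ R) (bw : ∀ k, |w k| ≤ R)
    (h1 : R * δ ≤ τ / 4) (h2 : R * ω ≤ τ / 4) (h0 : |u 0| ≤ ω) (w0 : 0 < w 0) :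
    τ / R ≤ u 4 ∧ τ / R ≤ u 5 ∧ τ / R ≤ w 0 := by
  have prod : ∀ x y X Y : ℝ, |x| ≤ X → |y| ≤ Y → |x * y| ≤ X * Y := by
    intro x y X Y hxX hyY
    rw [abs_mul]
    exact mul_le_mul hxX hyY (abs_nonneg _) ((abs_nonneg _).trans hxX)
  have hω : 0 ≤ ω := (abs_nonneg _).trans h0
  have n1 : (0 : Fin 6) + 1 = 1 := rfl
  have n3 : (3 : Fin 6) + 1 = 4 := rfl
  have n5 : (5 : Fin 6) + 1 = 0 := rfl
  have n03 : (0 : Fin 6) + 3 = 3 := rfl
  have x0 := hx 0
  rw [n1] at x0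
  have x3 := hx 3
  rw [n3] at x3
  have x5 := hx 5
  rw [n5] at x5
  have su := hsu 0
  rw [n03] at su
  have sw := hsw 0
  rw [n03] at sw
  have u3 : |u 3| ≤ ω + δ := by
    have : u 3 = (u 0 + u 3) - u 0 := by ring
    rw [this]
    refine (abs_sub _ _).trans ?_
    linarith
  have hRω : R * (ω + δ) ≤ τ / 2 := by rw [mul_add]; linarith
  -- w 0 is large
  have a1 := abs_le.mp (prod _ _ _ _ h0 (bw 1))
  have hw0 : τ ≤ R * w 0 := by
    have a2 := abs_le.mp (prod (w 0) (u 1) (w 0) R (by rw [abs_of_pos w0]) (bu 1))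
    linarith [a1.2, a2.1]
  have hw0R : w 0 ≤ R := (le_abs_self _).trans (bw 0)
  have hδw : δ ≤ w 0 := by
    have h3 : R * δ ≤ R * w 0 := by linarith
    exact le_of_mul_le_mul_left h3 hR
  -- u 5
  have h5 : τ ≤ u 5 * w 0 := by
    have a2 := abs_le.mp (prod _ _ _ _ (bw 5) h0)
    linarith [a2.1]
  have h5p : 0 < u 5 := by
    by_contra hcon
    push Not at hcon
    have := mul_nonpos_of_nonpos_of_nonneg hcon w0.le
    linarith
  have h5' : τ / R ≤ u 5 := by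
    rw [div_le_iff₀ hR]
    exact h5.trans (mul_le_mul_of_nonneg_left hw0R h5p.le)
  -- u 4
  have a3 := abs_le.mp (prod _ _ _ _ u3 (bw 4))
  have h4 : τ ≤ -w 3 * u 4 := by linarith [a3.2]
  have hw3 : 0 ≤ -w 3 := by linarith [(abs_le.mp sw).2]
  have h4p : 0 < u 4 := by
    by_contra hcon
    push Not at hcon
    have := mul_nonpos_of_nonneg_of_nonpos hw3 hcon
    linarith
  have hw3R : -w 3 ≤ R := (neg_le_abs _).trans (bw 3)
  have h4' : τ / R ≤ u 4 := by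
    rw [div_le_iff₀ hR]
    refine h4.trans ?_
    rw [mul_comm]
    exact mul_le_mul_of_nonneg_left hw3R h4p.le
  refine ⟨h4', h5', ?_⟩
  rw [div_le_iff₀ hR, mul_comm]
  exact hw0

end W82
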