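import Pool.Agent.W82_c2305b.HangA
import Pool.Agent.W_c2305b_h86.Defs

/-!
The four tiles around a nearly vertical edge, part 2.
-/

open Set Module Topology Filter MeasureTheory

namespace W82

open C2305b.TL (cr)
open C2305b.Rig (Am Off Pos Conv6 ar6 InBody)

section

variable {K0 : Set V} {T6 τ g G ε L R0 : ℝ} {ι : Type} [Fintype ι] {D : Set V} {P : ι → Set V}
  {h : Tiling D P} {hi : (interior (convexHull ℝ (Vb D P))).Nonempty} {K : Set V} {A6 a b : ℝ}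
  {t : ι → Bool} {c s : ι → ℝ} {o : ι → V} {η : ℝ}

/-- **The four tiles around an edge of two nice tiles.** -/
theorem Viol.four (hV : Viol K0 T6 τ g G ε L h hi K A6 a b t c s o) (hH : Hyp K0 T6 τ g G R0)
    (hη : η ≤ g / 2) {δ om c1 κ : ℝ} (hN : NSym K0 T6 ε a b η δ)
    (hR : C2305bG.RegAt K0 T6 (1 / L ^ 2) ε a b η om c1 κ)
    {A B : {i : ι // (interior (convexHull ℝ (S P i))).Nonempty}} {v w : V}
    (hA : (h.toTL hi).E A v w) (hB : (h.toTL hi).E B w v)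
    (nA : Nice D P (lossOf P A6 τ) η A) (nB : Nice D P (lossOf P A6 τ) η B)
    (hom : |ux (1 / L ^ 2) (c A) (s A) (w - v)| ≤ om) :
    ∃ (C E : {i : ι // (interior (convexHull ℝ (S P i))).Nonempty}) (qA qB : Fin 6 → V)
      (xA xB : V),
      qA 0 = v ∧ qA 1 = w ∧ Lbl (h.toTL hi) (S P A) A qA ∧
      qB 4 = v ∧ qB 3 = w ∧ Lbl (h.toTL hi) (S P B) B qB ∧
      (h.toTL hi).E C (qA 0) (qA 5) ∧ (h.toTL hi).E C (qA 5) xA ∧
      (h.toTL hi).E E (qB 0) (qB 5) ∧ (h.toTL hi).E E (qB 5) xB ∧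
      xA ∈ P C ∧ xB ∈ P C ∧ qA 5 ∈ P C ∧ qB 5 ∈ P C ∧
      |ux (1 / L ^ 2) (c C) (s C) ((xA - qA 5) - (xB - qB 5))| ≤ δ ∧
      |uy (c C) (s C) ((xA - qA 5) - (xB - qB 5))| ≤ δ ∧
      |c A * s C - s A * c C| ≤ 64 * (2 * R0) ^ 2 / τ ∧
      |c B * s C - s B * c C| ≤ 64 * (2 * R0) ^ 2 / τ ∧
      (|ux (1 / L ^ 2) (c C) (s C) (xA - qA 5)| ≤ 3 * c1 →
        |cr (qA 0 - qA 4) (qB 0 - qB 4)| ≤ κ) := by
  set T := h.toTL hi with hT
  have n01 : (0 : Fin 6) + 1 = 1 := rfl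
  have n12 : (1 : Fin 6) + 1 = 2 := rfl
  have n23 : (2 : Fin 6) + 1 = 3 := rfl
  have n34 : (3 : Fin 6) + 1 = 4 := rfl
  have n45 : (4 : Fin 6) + 1 = 5 := rfl
  have n50 : (5 : Fin 6) + 1 = 0 := rfl
  -- labels of A and B
  obtain ⟨qA, qA0, qA1, lA⟩ := h.label hi nA.1 hA
  obtain ⟨qB', qB0', qB1', lB'⟩ := h.label hi nB.1 hB
  -- shift: qB 3 = w
  set qB : Fin 6 → V := fun k => qB' (k + 3) with hqB
  have lB : Lbl T (S P B) B qB := lB'.shift 3
  have qB3 : qB 3 = w := by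
    have : (3 : Fin 6) + 3 = 0 := rfl
    rw [hqB]; simp only [this]; exact qB0'
  have qB4 : qB 4 = v := by
    have : (4 : Fin 6) + 3 = 1 := rfl
    rw [hqB]; simp only [this]; exact qB1'
  -- the corner at v
  have gv : GoodV D P (lossOf P A6 τ) η v := nA.2 v (by rw [← qA0]; exact lA.mem 0)
  obtain ⟨j, C, u, z, hu, hj, hjz, hkz, hku, hij, hik, hjk, hex⟩ := h.corner hi gv.1 gv.2.1 hA
  have hjB : j = B := T.edge_unique hj hB
  subst hjB
  have eA := lA.edge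
  have eB := lB.edge
  have hu5 : u = qA 5 := by
    have h1 := eA 5
    rw [n50, qA0] at h1
    exact (T.prev_unique A hu h1).symm
  have hz5 : z = qB 5 := by
    have h1 := eB 4
    rw [n45, qB4] at h1
    exact (T.next_unique _ hjz h1).symm
  subst hu5
  subst hz5
  have hvC : v ∈ P C := h.hull_sub C hku.1.2
  have pC : Perfect D P (lossOf P A6 τ) η C := gv.2.2 C hvC
  obtain ⟨qC, qC0, qC1, lC⟩ := h.label hi pC hku
  have eC := lC.edge
  have qC5 : qC 5 = qB 5 := by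
    have h1 := eC 5
    rw [n50, qC0] at h1
    exact T.prev_unique C hkz h1
  -- the corner at qB 5
  have gz : GoodV D P (lossOf P A6 τ) η (qB 5) := nB.2 _ (lB.mem 5)
  have hB50 : T.E j (qB 5) (qB 0) := by
    have h1 := eB 5
    rw [n50] at h1
    exact h1
  obtain ⟨E, k2, u2, z2, hu2, hE1, hE2, hk1, hk2, -, -, -, -⟩ := h.corner hi gz.1 gz.2.1 hB50
  have hu24 : u2 = qB 4 := by
    have h1 := eB 4
    rw [n45] at h1
    exact (T.prev_unique _ hu2 h1).symm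
  subst hu24
  rw [qB4] at hk2
  have hk2C : k2 = C := T.edge_unique hk2 hkz
  subst hk2C
  have hz2 : z2 = qC 4 := by
    have h1 := eC 4
    rw [n45, qC5] at h1
    exact (T.prev_unique _ hk1 h1).symm
  subst hz2
  have hzE : qB 5 ∈ P E := h.hull_sub E hE2.1.2
  have pE : Perfect D P (lossOf P A6 τ) η E := gz.2.2 E hzE
  obtain ⟨qE, qE0, qE1, lE⟩ := h.label hi pE hE2
  have qE5 : qE 5 = qB 0 := by
    have h1 := lE.edge 5
    rw [n50, qE0] at h1
    exact T.prev_unique E hE1 h1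
  -- local coordinates
  obtain ⟨xA, hxA, bA, cA, aA, uA, wA⟩ := hV.loc nA.1 lA
  obtain ⟨xB, hxB, bB, cB, aB, uB, wB⟩ := hV.loc nB.1 (lB.shift 4)
  obtain ⟨xC, hxC, bC, cC, aC, uC, wC⟩ := hV.loc pC lC
  obtain ⟨xE, hxE, bE, cE, aE, uE, wE⟩ := hV.loc pE lE
  have s40 : (0 : Fin 6) + 4 = 4 := rfl
  have s41 : (1 : Fin 6) + 4 = 5 := rfl
  have s42 : (2 : Fin 6) + 4 = 0 := rfl
  have s45 : (5 : Fin 6) + 4 = 3 := rfl
  have hreg := hR ![t A, t j, t k2, t E] ![c A, c j, c k2, c E] ![s A, s j, s k2, s E]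
    ![o A, o j, o k2, o E] ![xA, xB, xC, xE]
    (by intro m; fin_cases m; exacts [hV.cells.fr A, hV.cells.fr j, hV.cells.fr k2, hV.cells.fr E])
    (by intro m; fin_cases m; exacts [cA, cB, cC, cE])
    (by intro m; fin_cases m; exacts [bA, bB, bC, bE])
    (by intro m; fin_cases m; exacts [aA, aB, aC, aE])
    ![qA, fun k => qB (k + 4), qC, qE]
    (by
      intro m k
      fin_cases m
      · exact hxA k
      · exact hxB k
      · exact hxC k
      · exact hxE k)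
    (by change qA 0 = qB (0 + 4); rw [s40, qA0, qB4])
    (by change qA 0 = qC 0; rw [qA0, qC0])
    (by change qA 1 = qB (5 + 4); rw [s45, qA1, qB3])
    (by change qA 5 = qC 1; rw [qC1])
    (by change qB (1 + 4) = qC 5; rw [s41, qC5])
    (by change qB (1 + 4) = qE 0; rw [s41, qE0])
    (by change qB (2 + 4) = qE 5; rw [s42, qE5])
    (by change qC 4 = qE 1; rw [qE1])
    (by
      change |(xA 1 - xA 0) 0| ≤ om
      rw [uA, qA0, qA1]
      exact hom)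
  refine ⟨k2, E, qA, qB, qC 2, qC 4, qA0, qA1, lA, qB4, qB3, lB, ?_, ?_, hE1, hE2, ?_, ?_, ?_, ?_,
    ?_, ?_, ?_, ?_, ?_⟩
  · rw [qA0]; exact hku
  · have h1 := eC 1
    rw [n12, qC1] at h1
    exact h1
  · exact (lC.mem 2).1.1
  · exact (lC.mem 4).1.1
  · rw [← qC1]; exact (lC.mem 1).1.1
  · rw [← qC5]; exact (lC.mem 5).1.1
  · have h1 := (hV.sym hN pC lC 1).1
    have m1 : (1 : Fin 6) + 4 = 5 := rfl
    have m2 : (1 : Fin 6) + 3 = 4 := rfl
    rw [n12, m1, m2, qC1, qC5, ← ux_add] at h1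
    have e : qC 2 - qA 5 - (qC 4 - qB 5) = qC 2 - qA 5 + (qB 5 - qC 4) := by abel
    rw [e]
    exact h1
  · have h1 := (hV.sym hN pC lC 1).2
    have m1 : (1 : Fin 6) + 4 = 5 := rfl
    have m2 : (1 : Fin 6) + 3 = 4 := rfl
    rw [n12, m1, m2, qC1, qC5, ← uy_add] at h1
    have e : qC 2 - qA 5 - (qC 4 - qB 5) = qC 2 - qA 5 + (qB 5 - qC 4) := by abel
    rw [e]
    exact h1
  · exact hV.mis hH hη gv (h.hull_sub A hA.1.2) hvC
  · exact hV.mis hH hη gv (h.hull_sub j hj.2.1.2) hvC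
  · intro hc
    have h1 := hreg (by
      change |(xC 2 - xC 1) 0| ≤ 3 * c1
      rw [uC, qC1]
      exact hc)
    change |C2305b.Rig.cr (qA 0 - qA 4) (qB (2 + 4) - qB (0 + 4))| ≤ κ at h1
    rw [s42, s40] at h1
    exact h1

end

end W82
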