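import Pool.Agent.W82_c2305b.HangB

/-!
The four tiles around a nearly vertical edge, part 3: the data of the field.
-/

open Set Module Topology Filter MeasureTheory

namespace W82

open C2305b.TL (cr)
open C2305b.Rig (Am Off Pos Conv6 ar6 InBody)
open C2305bB (Fr)

/-- The label `q` of the tile `i` starts with a nearly vertical edge going up, and `x` is the other
end of the third edge at the lower apex `q 5`. -/
structure Hang {J : Type} (T : C2305b.TL.Tiling J) (S6 : Set V) (U W : V → ℝ) (ω : ℝ) (i : J)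
    (q : Fin 6 → V) (x : V) : Prop where
  lbl : Lbl T S6 i q
  ver : |U (q 1 - q 0)| ≤ ω
  up : 0 < W (q 1 - q 0)
  third : ∃ j, T.E j (q 0) (q 5) ∧ T.E j (q 5) x

theorem rel_ux_le {ν c s c' s' μ : ℝ} (hν : 0 ≤ ν) (hν1 : ν ≤ 1) (h : c ^ 2 + ν * s ^ 2 = 1)
    (h' : c' ^ 2 + ν * s' ^ 2 = 1) (hm : |c' * s - s' * c| ≤ μ) (p : V) :
    |ux ν c' s' p| ≤ |ux ν c s p| + ν * μ * |uy c s p| ∧
    |uy c' s' p| ≤ |uy c s p| + μ * |ux ν c s p| := by
  have h1 := (rel_bounds hν hν1 h' h).1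
  constructor
  · have e := ux_change (c' := c') (s' := s') h p
    rw [e]
    refine (abs_sub _ _).trans ?_
    rw [abs_mul, abs_mul, abs_mul, abs_of_nonneg hν]
    have a1 : |c' * c + ν * s' * s| * |ux ν c s p| ≤ 1 * |ux ν c s p| :=
      mul_le_mul_of_nonneg_right h1 (abs_nonneg _)
    have a2 : ν * |c' * s - s' * c| * |uy c s p| ≤ ν * μ * |uy c s p| := by
      apply mul_le_mul_of_nonneg_right _ (abs_nonneg _)
      exact mul_le_mul_of_nonneg_left hm hν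
    linarith
  · have e := uy_change (c' := c') (s' := s') h p
    rw [e]
    refine (abs_add_le _ _).trans ?_
    rw [abs_mul, abs_mul]
    have a1 : |c' * c + ν * s' * s| * |uy c s p| ≤ 1 * |uy c s p| :=
      mul_le_mul_of_nonneg_right h1 (abs_nonneg _)
    have a2 : |c' * s - s' * c| * |ux ν c s p| ≤ μ * |ux ν c s p| :=
      mul_le_mul_of_nonneg_right hm (abs_nonneg _)
    linarith

section

variable {K0 : Set V} {T6 τ g G ε L R0 : ℝ} {ι : Type} [Fintype ι] {D : Set V} {P : ι → Set V}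
  {h : Tiling D P} {hi : (interior (convexHull ℝ (Vb D P))).Nonempty} {K : Set V} {A6 a b : ℝ}
  {t : ι → Bool} {c s : ι → ℝ} {o : ι → V} {η : ℝ}

/-- The hypotheses of the numeric lemmas for a label. -/
theorem Viol.num (hV : Viol K0 T6 τ g G ε L h hi K A6 a b t c s o) (hH : Hyp K0 T6 τ g G R0)
    (hη : η ≤ g / 2) {δ : ℝ} (hN : NSym K0 T6 ε a b η δ)
    {i : {i : ι // (interior (convexHull ℝ (S P i))).Nonempty}}
    (hp : Perfect D P (lossOf P A6 τ) η i) {q : Fin 6 → V} (hq : Lbl (h.toTL hi) (S P i) i q)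
    {σ : ℝ} (hσ : σ = 1 ∨ σ = -1) {U W : V → ℝ}
    (hU : ∀ e, U e = σ * ux (1 / L ^ 2) (c i) (s i) e) (hW : ∀ e, W e = σ * uy (c i) (s i) e) :
    (∀ k, 2 * τ ≤ U (q (k + 1) - q k) * W (q (k + 1 + 1) - q (k + 1)) -
      W (q (k + 1) - q k) * U (q (k + 1 + 1) - q (k + 1))) ∧
    (∀ k, |U (q (k + 1) - q k) + U (q (k + 3 + 1) - q (k + 3))| ≤ δ) ∧
    (∀ k, |W (q (k + 1) - q k) + W (q (k + 3 + 1) - q (k + 3))| ≤ δ) ∧
    (∀ k, |U (q (k + 1) - q k)| ≤ 8 * R0) ∧ (∀ k, |W (q (k + 1) - q k)| ≤ 8 * R0) := by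
  have hσ2 : σ * σ = 1 := by rcases hσ with rfl | rfl <;> norm_num
  have hσ1 : |σ| = 1 := by rcases hσ with rfl | rfl <;> norm_num
  have e4 : ∀ k : Fin 6, k + 3 + 1 = k + 4 := fun k => by rw [add_assoc]; rfl
  have e2 : ∀ k : Fin 6, k + 1 + 1 = k + 2 := fun k => by rw [add_assoc]; rfl
  refine ⟨fun k => ?_, fun k => ?_, fun k => ?_, fun k => ?_, fun k => ?_⟩
  · have h1 := hV.cross hH hη hp hq k
    rw [cr_frame (hV.cells.fr i)] at h1
    rw [hU, hU, hW, hW, e2]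
    refine h1.trans_eq ?_
    linear_combination (ux (1 / L ^ 2) (c i) (s i) (q (k + 1) - q k) *
      uy (c i) (s i) (q (k + 2) - q (k + 1)) - uy (c i) (s i) (q (k + 1) - q k) *
      ux (1 / L ^ 2) (c i) (s i) (q (k + 2) - q (k + 1))) * (-hσ2)
  · have h1 := (hV.sym hN hp hq k).1
    rw [hU, hU, ← mul_add, abs_mul, hσ1, one_mul, e4]
    exact h1
  · have h1 := (hV.sym hN hp hq k).2
    rw [hW, hW, ← mul_add, abs_mul, hσ1, one_mul, e4]
    exact h1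
  · rw [hU, abs_mul, hσ1, one_mul]
    exact (hV.bd hH (hq.mem _).1.1 (hq.mem _).1.1).1
  · rw [hW, abs_mul, hσ1, one_mul]
    exact (hV.bd hH (hq.mem _).1.1 (hq.mem _).1.1).2

/-- Uniqueness. -/
theorem Viol.hang_unique (hV : Viol K0 T6 τ g G ε L h hi K A6 a b t c s o)
    (hH : Hyp K0 T6 τ g G R0)
    (hη : η ≤ g / 2) {δ ω : ℝ} (hN : NSym K0 T6 ε a b η δ) (hδ : 8 * R0 * δ ≤ τ / 4)
    (hω : 8 * R0 * ω ≤ τ / 4)
    {i : {i : ι // (interior (convexHull ℝ (S P i))).Nonempty}}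
    (hp : Perfect D P (lossOf P A6 τ) η i) {σ : ℝ} (hσ : σ = 1 ∨ σ = -1) {U W : V → ℝ}
    (hU : ∀ e, U e = σ * ux (1 / L ^ 2) (c i) (s i) e) (hW : ∀ e, W e = σ * uy (c i) (s i) e)
    {q q' : Fin 6 → V} {x x' : V} (hq : Hang (h.toTL hi) (S P i) U W ω i q x)
    (hq' : Hang (h.toTL hi) (S P i) U W ω i q' x') : q = q' ∧ x = x' := by
  have hτ := hH.gap.tau
  have hR := hH.R1
  obtain ⟨h1, h2, h3, h4, h5⟩ := hV.num hH hη hN hp hq.lbl hσ hU hW
  obtain ⟨k, hk⟩ := hq.lbl.all (q' 0) (hq'.lbl.mem 0)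
  have n1 : (0 : Fin 6) + 1 = 1 := rfl
  have hk1 : q (k + 1) = q' 1 := by
    have e1 := hq.lbl.edge k
    have e2 := hq'.lbl.edge 0
    rw [n1, ← hk] at e2
    exact ((h.toTL hi).next_unique i e1 e2).symm
  have hk0 : k = 0 := by
    refine vert_unique (u := fun k => U (q (k + 1) - q k)) (w := fun k => W (q (k + 1) - q k))
      hτ h1 h2 h3 h4 h5 hδ hω ?_ ?_ ?_ ?_
    · exact hq.ver
    · exact hq.up
    · show |U (q (k + 1) - q k)| ≤ ω
      rw [hk1, hk]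
      exact hq'.ver
    · show 0 < W (q (k + 1) - q k)
      rw [hk1, hk]
      exact hq'.up
  rw [hk0] at hk
  have hqq := hq.lbl.eq hq'.lbl hk
  subst hqq
  refine ⟨rfl, ?_⟩
  obtain ⟨j, j1, j2⟩ := hq.third
  obtain ⟨j', j1', j2'⟩ := hq'.third
  have := (h.toTL hi).edge_unique j1 j1'
  subst this
  exact (h.toTL hi).next_unique j j2' j2

/-- The bounds of the data. -/
theorem Viol.hang_bd (hV : Viol K0 T6 τ g G ε L h hi K A6 a b t c s o)
    (hH : Hyp K0 T6 τ g G R0)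
    (hη : η ≤ g / 2) {δ ω : ℝ} (hN : NSym K0 T6 ε a b η δ) (hδ : 8 * R0 * δ ≤ τ / 4)
    (hω : 8 * R0 * ω ≤ τ / 4)
    {i : {i : ι // (interior (convexHull ℝ (S P i))).Nonempty}}
    (hp : Nice D P (lossOf P A6 τ) η i) {σ : ℝ} (hσ : σ = 1 ∨ σ = -1) {U W : V → ℝ}
    (hU : ∀ e, U e = σ * ux (1 / L ^ 2) (c i) (s i) e) (hW : ∀ e, W e = σ * uy (c i) (s i) e)
    {q : Fin 6 → V} {x : V} (hq : Hang (h.toTL hi) (S P i) U W ω i q x) :
    2 * τ / (8 * R0) ≤ U (q 0 - q 4) ∧ |U (q 0 - q 4)| ≤ 8 * R0 ∧ |W (q 0 - q 4)| ≤ 8 * R0 ∧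
      |U (x - q 5)| ≤ (1 + 64 * (2 * R0) ^ 2 / τ) * (8 * R0) ∧
      |W (x - q 5)| ≤ (1 + 64 * (2 * R0) ^ 2 / τ) * (8 * R0) := by
  have hτ := hH.gap.tau
  have hR := hH.R1
  have hL := hV.L1
  have hν0 : 0 ≤ 1 / L ^ 2 := by positivity
  have hν1 : 1 / L ^ 2 ≤ 1 := by
    rw [div_le_one (by positivity)]
    exact one_le_pow₀ hL
  have hσ1 : |σ| = 1 := by rcases hσ with rfl | rfl <;> norm_num
  obtain ⟨h1, h2, h3, h4, h5⟩ := hV.num hH hη hN hp.1 hq.lbl hσ hU hW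
  have hm := vert_mid (u := fun k => U (q (k + 1) - q k)) (w := fun k => W (q (k + 1) - q k))
      hτ (by linarith : 0 < 8 * R0) h1 h2 h3 h4 h5 hδ hω hq.ver hq.up
  have n4 : (4 : Fin 6) + 1 = 5 := rfl
  have n5 : (5 : Fin 6) + 1 = 0 := rfl
  simp only [n4, n5] at hm
  have hUadd : ∀ e f, U (e + f) = U e + U f := by
    intro e f
    rw [hU, hU, hU, ux_add]; ring
  refine ⟨?_, ?_, ?_, ?_, ?_⟩
  · have e : q 0 - q 4 = (q 5 - q 4) + (q 0 - q 5) := by abel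
    rw [e, hUadd]
    have e2 : 2 * τ / (8 * R0) = τ / (8 * R0) + τ / (8 * R0) := by ring
    rw [e2]
    linarith [hm.1, hm.2.1]
  · rw [hU, abs_mul, hσ1, one_mul]
    exact (hV.bd hH (hq.lbl.mem _).1.1 (hq.lbl.mem _).1.1).1
  · rw [hW, abs_mul, hσ1, one_mul]
    exact (hV.bd hH (hq.lbl.mem _).1.1 (hq.lbl.mem _).1.1).2
  all_goals
    obtain ⟨j, j1, j2⟩ := hq.third
    have g0 := hp.2 _ (hq.lbl.mem 0)
    have hm1 := hV.mis hH hη g0 (hq.lbl.mem 0).1.1 (h.hull_sub j j1.1.2)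
    have hb := hV.bd hH (h.hull_sub j j2.2.1.2) (h.hull_sub j j2.1.2)
    have hr := rel_ux_le hν0 hν1 (hV.cells.fr j) (hV.cells.fr i) hm1 (x - q 5)
    set μ := 64 * (2 * R0) ^ 2 / τ with hμ
    have hμ0 : 0 ≤ μ := by positivity
  · rw [hU, abs_mul, hσ1, one_mul]
    refine hr.1.trans ?_
    have b1 : 1 / L ^ 2 * μ * |uy (c j) (s j) (x - q 5)| ≤ 1 * μ * (8 * R0) := by
      apply mul_le_mul _ hb.2 (abs_nonneg _) (by positivity)
      exact mul_le_mul_of_nonneg_right hν1 hμ0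
    rw [add_mul, one_mul]
    linarith [hb.1]
  · rw [hW, abs_mul, hσ1, one_mul]
    refine hr.2.trans ?_
    have b1 : μ * |ux (1 / L ^ 2) (c j) (s j) (x - q 5)| ≤ μ * (8 * R0) :=
      mul_le_mul_of_nonneg_left hb.1 hμ0
    rw [add_mul, one_mul]
    linarith [hb.2]

end

end W82
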