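import Pool.Agent.W82_c2305b.HangC

/-!
The four tiles around a nearly vertical edge, part 4: the relation of the data.
-/

open Set Module Topology Filter MeasureTheory

namespace W82

open C2305b.TL (cr)
open C2305b.Rig (Am Off Pos Conv6 ar6 InBody)
open C2305bB (Fr)

section

variable {K0 : Set V} {T6 τ g G ε L R0 : ℝ} {ι : Type} [Fintype ι] {D : Set V} {P : ι → Set V}
  {h : Tiling D P} {hi : (interior (convexHull ℝ (Vb D P))).Nonempty} {K : Set V} {A6 a b : ℝ}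
  {t : ι → Bool} {c s : ι → ℝ} {o : ι → V} {η : ℝ}

/-- **The data of two tiles with a common nearly vertical edge.** -/
theorem Viol.pair (hV : Viol K0 T6 τ g G ε L h hi K A6 a b t c s o) (hH : Hyp K0 T6 τ g G R0)
    (hη : η ≤ g / 2) {δ δ' om c1 c1' κ ω' ω2 μ : ℝ} (hN : NSym K0 T6 ε a b η δ)
    (hR : C2305bG.RegAt K0 T6 (1 / L ^ 2) ε a b η om c1' κ)
    (hμe : μ = 64 * (2 * R0) ^ 2 / τ)
    (hω' : ω' ≤ om) (hω2 : 8 * R0 * ω2 ≤ τ / 4)
    (hωω : ω' + 1 / L ^ 2 * μ * (8 * R0) + δ ≤ ω2)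
    (hμω : 8 * R0 * (μ * ω') ≤ τ / 8) (hδτ : 8 * R0 * δ ≤ τ / 8)
    (hc1 : 3 * c1 + 1 / L ^ 2 * μ * ((1 + μ) * (8 * R0)) + δ ≤ 3 * c1')
    (hδ' : (1 + μ) * δ ≤ δ') (hδ0 : 0 ≤ δ)
    {A B : {i : ι // (interior (convexHull ℝ (S P i))).Nonempty}} {v w : V}
    (hA : (h.toTL hi).E A v w) (hB : (h.toTL hi).E B w v)
    (nA : Nice D P (lossOf P A6 τ) η A) (nB : Nice D P (lossOf P A6 τ) η B)
    {σA σB : ℝ} (hσA : σA = 1 ∨ σA = -1) (hσB : σB = 1 ∨ σB = -1) {UA WA UB WB : V → ℝ}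
    (hUA : ∀ e, UA e = σA * ux (1 / L ^ 2) (c A) (s A) e)
    (hWA : ∀ e, WA e = σA * uy (c A) (s A) e)
    (hUB : ∀ e, UB e = σB * ux (1 / L ^ 2) (c B) (s B) e)
    (hWB : ∀ e, WB e = σB * uy (c B) (s B) e)
    (hγ : 1 / 2 ≤ σA * σB * (c B * c A + 1 / L ^ 2 * s B * s A))
    (hver : |UA (w - v)| ≤ ω') (hup : 0 < WA (w - v)) :
    ∃ (qA qB : Fin 6 → V) (xA xB : V),
      Hang (h.toTL hi) (S P A) UA WA ω2 A qA xA ∧ Hang (h.toTL hi) (S P B) UB WB ω2 B qB xB ∧
      |UA ((xA - qA 5) - (xB - qB 5))| ≤ δ' ∧ |WA ((xA - qA 5) - (xB - qB 5))| ≤ δ' ∧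
      |UB ((xA - qA 5) - (xB - qB 5))| ≤ δ' ∧ |WB ((xA - qA 5) - (xB - qB 5))| ≤ δ' ∧
      (|UA (xA - qA 5)| ≤ 3 * c1 → |cr (qA 0 - qA 4) (qB 0 - qB 4)| ≤ κ) ∧
      (|UB (xB - qB 5)| ≤ 3 * c1 → |cr (qA 0 - qA 4) (qB 0 - qB 4)| ≤ κ) := by
  have hτ := hH.gap.tau
  have hR1 := hH.R1
  have hL := hV.L1
  set ν := 1 / L ^ 2 with hν
  have hν0 : 0 ≤ ν := by positivity
  have hν1 : ν ≤ 1 := by
    rw [hν, div_le_one (by positivity)]
    exact one_le_pow₀ hL
  have hμ0 : 0 ≤ μ := by rw [hμe]; positivity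
  have aA : |σA| = 1 := by rcases hσA with rfl | rfl <;> norm_num
  have aB : |σB| = 1 := by rcases hσB with rfl | rfl <;> norm_num
  have qσA : σA * σA = 1 := by rcases hσA with rfl | rfl <;> norm_num
  have absA : ∀ e, |UA e| = |ux ν (c A) (s A) e| := fun e => by
    rw [hUA, abs_mul, aA, one_mul]
  have absA' : ∀ e, |WA e| = |uy (c A) (s A) e| := fun e => by
    rw [hWA, abs_mul, aA, one_mul]
  have absB : ∀ e, |UB e| = |ux ν (c B) (s B) e| := fun e => by
    rw [hUB, abs_mul, aB, one_mul]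
  have absB' : ∀ e, |WB e| = |uy (c B) (s B) e| := fun e => by
    rw [hWB, abs_mul, aB, one_mul]
  have hω0 : 0 ≤ ω' := (abs_nonneg _).trans hver
  obtain ⟨C, E, qA, qB, xA, xB, qA0, qA1, lA, qB4, qB3, lB, hC1, hC2, hE1, hE2, mxA, mxB, mA5, mB5,
    d1, d2, m1, m2, hcr⟩ := hV.four hH hη hN hR hA hB nA nB (by
      rw [← absA]; exact hver.trans hω')
  rw [← hμe] at m1 m2
  have m1' : |c C * s A - s C * c A| ≤ μ := by
    rw [← abs_neg]
    have : -(c C * s A - s C * c A) = c A * s C - s A * c C := by ring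
    rw [this]; exact m1
  -- the tile B
  have memv : v ∈ P A := h.hull_sub A hA.1.2
  have memw : w ∈ P A := h.hull_sub A hA.2.1.2
  have bdA := hV.bd hH memw memv
  -- W_A is large
  obtain ⟨h1, h2, h3, h4, h5⟩ := hV.num hH hη hN nA.1 lA hσA hUA hWA
  have hωω2 : ω' ≤ ω2 := by
    have : 0 ≤ ν * μ * (8 * R0) := by positivity
    linarith
  have hm := vert_mid (u := fun k => UA (qA (k + 1) - qA k)) (w := fun k => WA (qA (k + 1) - qA k))
      hτ (by linarith : 0 < 8 * R0) h1 h2 h3 h4 h5 (by linarith) hω2 (by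
        show |UA (qA 1 - qA 0)| ≤ ω2
        rw [qA0, qA1]; exact hver.trans hωω2) (by
        show 0 < WA (qA 1 - qA 0)
        rw [qA0, qA1]; exact hup)
  have hWbig : τ / (8 * R0) ≤ WA (w - v) := by
    have := hm.2.2
    have n01 : (0 : Fin 6) + 1 = 1 := rfl
    rw [n01, qA0, qA1] at this
    exact this
  -- mismatch of A and B
  have gv : GoodV D P (lossOf P A6 τ) η v := nA.2 v (by rw [← qA0]; exact lA.mem 0)
  have m3 : |c B * s A - s B * c A| ≤ μ := by
    rw [hμe]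
    exact hV.mis hH hη gv (h.hull_sub B hB.2.1.2) memv
  -- U_B, W_B of the common edge
  have hUBe : |UB (w - v)| ≤ ω' + ν * μ * (8 * R0) := by
    rw [absB]
    refine (rel_ux_le hν0 hν1 (hV.cells.fr A) (hV.cells.fr B) m3 (w - v)).1.trans ?_
    rw [← absA]
    have : ν * μ * |uy (c A) (s A) (w - v)| ≤ ν * μ * (8 * R0) :=
      mul_le_mul_of_nonneg_left bdA.2 (by positivity)
    linarith
  have hWBe : 1 / 2 * WA (w - v) - μ * ω' ≤ WB (w - v) := by
    have e1 := uy_change (c' := c B) (s' := s B) (hV.cells.fr A) (w - v)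
    have e2 : WB (w - v) = σA * σB * (c B * c A + ν * s B * s A) * WA (w - v) +
        σA * σB * (c B * s A - s B * c A) * UA (w - v) := by
      rw [hWB, hWA, hUA, e1]
      linear_combination (-σB * ((c B * s A - s B * c A) * ux ν (c A) (s A) (w - v) +
        (c B * c A + ν * s B * s A) * uy (c A) (s A) (w - v))) * qσA
    rw [e2]
    have e3 : 1 / 2 * WA (w - v) ≤ σA * σB * (c B * c A + ν * s B * s A) * WA (w - v) :=
      mul_le_mul_of_nonneg_right hγ hup.le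
    have e4 : |σA * σB * (c B * s A - s B * c A) * UA (w - v)| ≤ μ * ω' := by
      rw [abs_mul, abs_mul, abs_mul, aA, aB, one_mul, one_mul]
      exact mul_le_mul m3 hver (abs_nonneg _) hμ0
    linarith [(abs_le.mp e4).1]
  -- the right edge of B
  obtain ⟨k1, k2, k3, k4, k5⟩ := hV.num hH hη hN nB.1 lB hσB hUB hWB
  have n01 : (0 : Fin 6) + 1 = 1 := rfl
  have n03 : (0 : Fin 6) + 3 = 3 := rfl
  have n34 : (3 : Fin 6) + 1 = 4 := rfl
  have r1 := k2 0
  rw [n01, n03, n34, qB4, qB3] at r1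
  have r2 := k3 0
  rw [n01, n03, n34, qB4, qB3] at r2
  have negU : UB (v - w) = -UB (w - v) := by
    rw [hUB, hUB, ux_sub, ux_sub]; ring
  have negW : WB (v - w) = -WB (w - v) := by
    rw [hWB, hWB, uy_sub, uy_sub]; ring
  rw [negU] at r1
  rw [negW] at r2
  have verB : |UB (qB 1 - qB 0)| ≤ ω2 := by
    have e : UB (qB 1 - qB 0) = (UB (qB 1 - qB 0) + -UB (w - v)) + UB (w - v) := by ring
    rw [e]
    refine (abs_add_le _ _).trans ?_
    linarith
  have upB : 0 < WB (qB 1 - qB 0) := by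
    have e1 := (abs_le.mp r2).1
    have e2 : 0 < 8 * R0 := by linarith
    have e3 : 1 / 2 * (τ / (8 * R0)) - μ * ω' - δ ≤ WB (qB 1 - qB 0) := by linarith
    refine lt_of_lt_of_le ?_ e3
    have e4 : 8 * R0 * (1 / 2 * (τ / (8 * R0)) - μ * ω' - δ) =
        τ / 2 - 8 * R0 * (μ * ω') - 8 * R0 * δ := by
      field_simp
    have e5 : 0 < 8 * R0 * (1 / 2 * (τ / (8 * R0)) - μ * ω' - δ) := by rw [e4]; linarith
    exact (mul_pos_iff_of_pos_left e2).mp e5
  have hangA : Hang (h.toTL hi) (S P A) UA WA ω2 A qA xA :=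
    ⟨lA, by rw [qA0, qA1]; exact hver.trans hωω2, by rw [qA0, qA1]; exact hup, C, hC1, hC2⟩
  have hangB : Hang (h.toTL hi) (S P B) UB WB ω2 B qB xB := ⟨lB, verB, upB, E, hE1, hE2⟩
  -- differences in the frames of A and B
  have hμδ : 0 ≤ μ * δ := mul_nonneg hμ0 hδ0
  have hνμ : ν * μ ≤ μ := by
    have := mul_le_mul_of_nonneg_right hν1 hμ0
    rwa [one_mul] at this
  have gen : ∀ l : {i : ι // (interior (convexHull ℝ (S P i))).Nonempty},
      |c l * s C - s l * c C| ≤ μ →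
      |ux ν (c l) (s l) (xA - qA 5 - (xB - qB 5))| ≤ δ' ∧
      |uy (c l) (s l) (xA - qA 5 - (xB - qB 5))| ≤ δ' := by
    intro l hl
    have hr := rel_ux_le hν0 hν1 (hV.cells.fr C) (hV.cells.fr l) hl (xA - qA 5 - (xB - qB 5))
    constructor
    · refine hr.1.trans (le_trans ?_ hδ')
      have := mul_le_mul hνμ d2 (abs_nonneg _) hμ0
      rw [add_mul, one_mul]
      linarith
    · refine hr.2.trans (le_trans ?_ hδ')
      have := mul_le_mul_of_nonneg_left d1 hμ0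
      rw [add_mul, one_mul]
      linarith
  have gA := gen A m1
  have gB := gen B m2
  -- the third edges
  have thirdA : ∀ l : {i : ι // (interior (convexHull ℝ (S P i))).Nonempty},
      |c l * s C - s l * c C| ≤ μ → ∀ e, |ux ν (c C) (s C) e| ≤ 8 * R0 →
      |uy (c C) (s C) e| ≤ 8 * R0 → |ux ν (c C) (s C) e| ≤ |ux ν (c l) (s l) e| +
        ν * μ * ((1 + μ) * (8 * R0)) := by
    intro l hl e he1 he2
    have hl' : |c C * s l - s C * c l| ≤ μ := by
      rw [← abs_neg]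
      have : -(c C * s l - s C * c l) = c l * s C - s l * c C := by ring
      rw [this]; exact hl
    have r1 := (rel_ux_le hν0 hν1 (hV.cells.fr l) (hV.cells.fr C) hl' e).1
    have r2 := (rel_ux_le hν0 hν1 (hV.cells.fr C) (hV.cells.fr l) hl e).2
    refine r1.trans ?_
    have : |uy (c l) (s l) e| ≤ (1 + μ) * (8 * R0) := by
      refine r2.trans ?_
      have := mul_le_mul_of_nonneg_left he1 hμ0
      rw [add_mul, one_mul]
      linarith
    have := mul_le_mul_of_nonneg_left this (by positivity : 0 ≤ ν * μ)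
    linarith
  refine ⟨qA, qB, xA, xB, hangA, hangB, ?_, ?_, ?_, ?_, ?_, ?_⟩
  · rw [absA]; exact gA.1
  · rw [absA']; exact gA.2
  · rw [absB]; exact gB.1
  · rw [absB']; exact gB.2
  · intro hc
    apply hcr
    rw [absA] at hc
    have b := hV.bd hH mxA mA5
    have := thirdA A m1 _ b.1 b.2
    linarith
  · intro hc
    apply hcr
    rw [absB] at hc
    have b := hV.bd hH mxB mB5
    have h6 := thirdA B m2 _ b.1 b.2
    rw [ux_sub ν (c C) (s C) (xA - qA 5) (xB - qB 5)] at d1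
    have e : ux ν (c C) (s C) (xA - qA 5) = (ux ν (c C) (s C) (xA - qA 5) -
        ux ν (c C) (s C) (xB - qB 5)) + ux ν (c C) (s C) (xB - qB 5) := by ring
    rw [e]
    refine (abs_add_le _ _).trans ?_
    linarith

end

end W82
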