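import Pool.Agent.W82_c2305b.HangD

/-!
The four tiles around a nearly vertical edge, part 5: the field in moved tilings.
-/

open Set Module Topology Filter MeasureTheory

namespace W82

open C2305b.TL (cr)
open C2305b.Rig (Am Off Pos Conv6 ar6 InBody)
open C2305bB (Fr mv mvi mvT)
open C2305bG (lx ly)

/-- The frame of the moved tiling, up to a sign. -/
theorem sgn_frame {L c s g1 g2 : ℝ} (hL : 0 < L) (hf : c ^ 2 + (s / L) ^ 2 = 1)
    (hg : g1 ^ 2 + g2 ^ 2 = 1) :
    ∃ σ : ℝ, (σ = 1 ∨ σ = -1) ∧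
      ((mkFr L c s hf).rot g1 g2 hg).c = σ * (c * g1 + s / L * g2) ∧
      ((mkFr L c s hf).rot g1 g2 hg).S = σ * (s / L * g1 - c * g2) ∧
      ∀ e : V, lx L ((mkFr L c s hf).rot g1 g2 hg) (C2305b.TL.rot L g1 g2 hL.ne' hg e) =
          σ * ux (1 / L ^ 2) c s e ∧
        ly L ((mkFr L c s hf).rot g1 g2 hg) (C2305b.TL.rot L g1 g2 hL.ne' hg e) =
          σ * uy c s e := by
  obtain ⟨α, hα, h1, h2⟩ : ∃ α : ℝ, (α = 1 ∨ α = -1) ∧ (mkFr L c s hf).c = α * c ∧
      (mkFr L c s hf).S = α * (s / L) := by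
    unfold mkFr
    split_ifs with h0
    · exact ⟨1, Or.inl rfl, by simp, by simp⟩
    · exact ⟨-1, Or.inr rfl, by simp, by simp⟩
  obtain ⟨β, hβ, h3, h4⟩ := (mkFr L c s hf).rot_cases g1 g2 hg
  have e3 : ((mkFr L c s hf).rot g1 g2 hg).c = β * α * (c * g1 + s / L * g2) := by
    rw [h3, h1, h2]; ring
  have e4 : ((mkFr L c s hf).rot g1 g2 hg).S = β * α * (s / L * g1 - c * g2) := by
    rw [h4, h1, h2]; ring
  refine ⟨β * α, ?_, e3, e4, ?_⟩
  · rcases hα with rfl | rfl <;> rcases hβ with rfl | rfl <;> norm_num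
  · intro e
    have hL' : L ≠ 0 := hL.ne'
    constructor
    · unfold lx ux
      rw [e3, e4, C2305b.TL.rot_0, C2305b.TL.rot_1]
      field_simp
      linear_combination (β * α * (c * e 0 * L ^ 2 + s * e 1)) * hg
    · unfold ly uy
      rw [e3, e4, C2305b.TL.rot_0, C2305b.TL.rot_1]
      field_simp
      linear_combination (β * α * L * (c * e 1 - s * e 0)) * hg

/-- Two frames in the right half plane with a small angle. -/
theorem rel_pos {F G : Fr} (hF : 1 / 2 ≤ F.c) (hG : 1 / 2 ≤ G.c)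
    (hs : |F.c * G.S - F.S * G.c| ≤ 1 / 4) : 1 / 2 ≤ F.c * G.c + F.S * G.S := by
  set γ := F.c * G.c + F.S * G.S with hγ
  set d := F.c * G.S - F.S * G.c with hd
  have h1 : γ ^ 2 + d ^ 2 = 1 := by
    rw [hγ, hd]
    linear_combination (G.c ^ 2 + G.S ^ 2) * F.nrm + G.nrm
  have h2 : d ^ 2 ≤ 1 / 16 := by
    have := sq_le_sq' (by linarith [(abs_le.mp hs).1]) (abs_le.mp hs).2
    linarith
  by_contra hcon
  push Not at hcon
  have h3 : γ ≤ -(1 / 2) := by
    by_contra h4
    push Not at h4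
    nlinarith
  have h4 : G.c = γ * F.c - d * F.S := by
    rw [hγ, hd]
    linear_combination (-G.c) * F.nrm
  have h5 : |d * F.S| ≤ 1 / 4 * 1 := by
    rw [abs_mul]
    exact mul_le_mul hs F.abs_S_le (abs_nonneg _) (by norm_num)
  have h6 : γ * F.c ≤ -(1 / 4) := by nlinarith
  linarith [(abs_le.mp h5).1]

/-- A nearly vertical edge is long. -/
theorem w_big {u w : Fin 6 → ℝ} {τ R ω : ℝ} (hτ : 0 < τ) (hR : 0 < R)
    (hx : ∀ k, 2 * τ ≤ u k * w (k + 1) - w k * u (k + 1)) (bu : ∀ k, |u k| ≤ R)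
    (bw : ∀ k, |w k| ≤ R) (h2 : R * ω ≤ τ / 4) (h0 : |u 0| ≤ ω) : τ / R ≤ |w 0| := by
  have n1 : (0 : Fin 6) + 1 = 1 := rfl
  have x0 := hx 0
  rw [n1] at x0
  have a1 : |u 0 * w 1| ≤ ω * R := by
    rw [abs_mul]
    exact mul_le_mul h0 (bw 1) (abs_nonneg _) ((abs_nonneg _).trans h0)
  have a2 : |w 0 * u 1| ≤ |w 0| * R := by
    rw [abs_mul]
    exact mul_le_mul_of_nonneg_left (bu 1) (abs_nonneg _)
  rw [div_le_iff₀ hR]
  linarith [(abs_le.mp a1).2, (abs_le.mp a2).1]

section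

variable {K0 : Set V} {T6 τ g G ε L R0 : ℝ} {ι : Type} [Fintype ι] {D : Set V} {P : ι → Set V}
  {h : Tiling D P} {hi : (interior (convexHull ℝ (Vb D P))).Nonempty} {K : Set V} {A6 a b : ℝ}
  {t : ι → Bool} {c s : ι → ℝ} {o : ι → V} {η : ℝ}

open Classical in
/-- **The field in moved tilings.** -/
theorem Viol.field (hV : Viol K0 T6 τ g G ε L h hi K A6 a b t c s o) (hH : Hyp K0 T6 τ g G R0)
    (hη : η ≤ g / 2) {δ δ' om c1 c1' κ ω ω' ω2 μ R m0 : ℝ} (hN : NSym K0 T6 ε a b η δ)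
    (hR : C2305bG.RegAt K0 T6 (1 / L ^ 2) ε a b η om c1' κ)
    (hμe : μ = 64 * (2 * R0) ^ 2 / τ) (hLμ : 4 * μ ≤ L)
    (hωe : ω + 1 / L ^ 2 * μ * (8 * R0) ≤ ω')
    (hω' : ω' ≤ om) (hω2 : 8 * R0 * ω2 ≤ τ / 4)
    (hωω : ω' + 1 / L ^ 2 * μ * (8 * R0) + δ ≤ ω2)
    (hμω : 8 * R0 * (μ * ω') ≤ τ / 8) (hδτ : 8 * R0 * δ ≤ τ / 8)
    (hc1 : 3 * c1 + 1 / L ^ 2 * μ * ((1 + μ) * (8 * R0)) + δ ≤ 3 * c1')
    (hδ' : (1 + μ) * δ ≤ δ') (hδ0 : 0 ≤ δ) (hRR : (1 + μ) * (8 * R0) ≤ R)
    (hm0 : m0 ≤ 1) (hm1 : m0 ≤ 2 * τ / (8 * R0))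
    {Bad : Finset ({i : ι // (interior (convexHull ℝ (S P i))).Nonempty} ×
        {i : ι // (interior (convexHull ℝ (S P i))).Nonempty})}
    (hBad : ∀ i j v w, (h.toTL hi).Tw i j v w → (i, j) ∉ Bad →
      Nice D P (lossOf P A6 τ) η i ∧ Nice D P (lossOf P A6 τ) η j)
    (hL0 : 0 < L) (z : V) {g1 g2 : ℝ} (hg : g1 ^ 2 + g2 ^ 2 = 1) :
    ∃ m g' : {i : ι // (interior (convexHull ℝ (S P i))).Nonempty} → V,
      C2305bG.Field L R m0 ω δ' κ c1 (mvT (h.toTL hi) hL0.ne' hg z)
        (fun i => (mkFr L (c i) (s i) (hV.fr i)).rot g1 g2 hg) Bad m g' := by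
  classical
  have hτ := hH.gap.tau
  have hR1 := hH.R1
  set T := h.toTL hi with hT
  set r := C2305b.TL.rot L g1 g2 hL0.ne' hg with hr
  set F' : {i : ι // (interior (convexHull ℝ (S P i))).Nonempty} → Fr :=
    fun i => (mkFr L (c i) (s i) (hV.fr i)).rot g1 g2 hg with hF'
  set ν := 1 / L ^ 2 with hν
  have hν0 : 0 ≤ ν := by positivity
  have hν1 : ν ≤ 1 := by
    rw [hν, div_le_one (by positivity)]
    exact one_le_pow₀ hV.L1
  have hμ0 : 0 ≤ μ := by rw [hμe]; positivity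
  choose σ hσ hσc hσS hσU using fun i : {i : ι // (interior (convexHull ℝ (S P i))).Nonempty} =>
    sgn_frame hL0 (hV.fr i) hg
  set U : {i : ι // (interior (convexHull ℝ (S P i))).Nonempty} → V → ℝ :=
    fun i e => lx L (F' i) (r e) with hU
  set W : {i : ι // (interior (convexHull ℝ (S P i))).Nonempty} → V → ℝ :=
    fun i e => ly L (F' i) (r e) with hW
  have hUe : ∀ i e, U i e = σ i * ux ν (c i) (s i) e := fun i e => (hσU i e).1
  have hWe : ∀ i e, W i e = σ i * uy (c i) (s i) e := fun i e => (hσU i e).2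
  have hδτ4 : 8 * R0 * δ ≤ τ / 4 := by linarith
  -- the data
  let HH : {i : ι // (interior (convexHull ℝ (S P i))).Nonempty} → Prop := fun i =>
    ∃ p : (Fin 6 → V) × V, Hang T (S P i) (U i) (W i) ω2 i p.1 p.2
  let pk : ∀ i : {i : ι // (interior (convexHull ℝ (S P i))).Nonempty}, (Fin 6 → V) × V :=
    fun i => if hh : HH i then hh.choose else (fun _ => 0, 0)
  have hpk : ∀ i, HH i → Hang T (S P i) (U i) (W i) ω2 i (pk i).1 (pk i).2 := by
    intro i hh
    have := hh.choose_spec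
    simp only [pk, dif_pos hh]
    exact this
  let m : {i : ι // (interior (convexHull ℝ (S P i))).Nonempty} → V := fun i =>
    if HH i then r ((pk i).1 0 - (pk i).1 4) else !₂[(F' i).c, L * (F' i).S]
  let g' : {i : ι // (interior (convexHull ℝ (S P i))).Nonempty} → V := fun i =>
    if HH i then r ((pk i).2 - (pk i).1 5) else 0
  have key : ∀ (i : {i : ι // (interior (convexHull ℝ (S P i))).Nonempty}) (q : Fin 6 → V)
      (x : V), Nice D P (lossOf P A6 τ) η i → Hang T (S P i) (U i) (W i) ω2 i q x →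
      m i = r (q 0 - q 4) ∧ g' i = r (x - q 5) := by
    intro i q x hn hq
    have hh : HH i := ⟨(q, x), hq⟩
    obtain ⟨e1, e2⟩ := hV.hang_unique hH hη hN hδτ4 hω2 hn.1 (hσ i) (hUe i) (hWe i) (hpk i hh) hq
    simp only [m, g', if_pos hh]
    rw [e1, e2]
    exact ⟨rfl, rfl⟩
  refine ⟨m, g', ?_, ?_⟩
  · -- bounds
    intro i j v w hTw hij hci
    rw [C2305bB.mvT_Tw] at hTw
    have hn := (hBad i j _ _ hTw hij).1
    by_cases hh : HH i
    · have hq := hpk i hh
      obtain ⟨e1, e2⟩ := key i _ _ hn hq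
      rw [e1, e2]
      obtain ⟨b1, b2, b3, b4, b5⟩ := hV.hang_bd hH hη hN hδτ4 hω2 hn (hσ i) (hUe i) (hWe i) hq
      rw [← hμe] at b4 b5
      have h8 : 8 * R0 ≤ (1 + μ) * (8 * R0) := by
        have : 0 ≤ μ * (8 * R0) := by positivity
        linarith
      exact ⟨hm1.trans b1, b2.trans (h8.trans hRR), b3.trans (h8.trans hRR), b4.trans hRR,
        b5.trans hRR⟩
    · have e1 : m i = !₂[(F' i).c, L * (F' i).S] := by simp only [m, if_neg hh]
      have e2 : g' i = 0 := by simp only [g', if_neg hh]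
      have l1 : lx L (F' i) (m i) = 1 := by
        rw [e1]
        unfold lx
        simp only [Matrix.cons_val_zero, Matrix.cons_val_one]
        have := (F' i).nrm
        have e : (F' i).c * (F' i).c + (F' i).S * (L * (F' i).S) / L =
            (F' i).c ^ 2 + (F' i).S ^ 2 := by field_simp
        rw [e, this]
      have l2 : ly L (F' i) (m i) = 0 := by
        rw [e1]
        unfold ly
        simp only [Matrix.cons_val_zero, Matrix.cons_val_one]
        ring
      have l3 : lx L (F' i) (g' i) = 0 := by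
        rw [e2]; unfold lx; simp
      have l4 : ly L (F' i) (g' i) = 0 := by
        rw [e2]; unfold ly; simp
      have hR1' : 1 ≤ R := by
        have h9 : 0 ≤ μ * (8 * R0) := by positivity
        linarith
      show m0 ≤ lx L (F' i) (m i) ∧ |lx L (F' i) (m i)| ≤ R ∧ |ly L (F' i) (m i)| ≤ R ∧
        |lx L (F' i) (g' i)| ≤ R ∧ |ly L (F' i) (g' i)| ≤ R
      rw [l1, l2, l3, l4, abs_one, abs_zero]
      exact ⟨hm0, hR1', by linarith, by linarith, by linarith⟩
  · -- relation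
    intro i j v w hTw hij hci hcj hx
    rw [C2305bB.mvT_Tw] at hTw
    obtain ⟨ni, nj⟩ := hBad i j _ _ hTw hij
    set v0 := mvi L g1 g2 hL0.ne' hg z v with hv0
    set w0 := mvi L g1 g2 hL0.ne' hg z w with hw0
    have hwv : w - v = r (w0 - v0) := by
      rw [← C2305bB.mv_mvi hL0.ne' hg z v, ← C2305bB.mv_mvi hL0.ne' hg z w, C2305bB.mv_sub]
    have hxi : |U i (w0 - v0)| ≤ ω := by
      have : lx L (F' i) (w - v) = U i (w0 - v0) := by rw [hwv]
      rw [← this]; exact hx
    have hEi : T.E i v0 w0 := hTw.1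
    have hEj : T.E j w0 v0 := hTw.2
    -- mismatch and relative position
    obtain ⟨qi, qi0, qi1, li⟩ := h.label hi ni.1 hEi
    have gv : GoodV D P (lossOf P A6 τ) η v0 := ni.2 _ (by rw [← qi0]; exact li.mem 0)
    have hmis : |c i * s j - s i * c j| ≤ μ := by
      rw [hμe]
      exact hV.mis hH hη gv (h.hull_sub i hEi.1.2) (h.hull_sub j hEj.2.1.2)
    have hmis' : |c j * s i - s j * c i| ≤ μ := by
      rw [← abs_neg]
      have : -(c j * s i - s j * c i) = c i * s j - s i * c j := by ring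
      rw [this]; exact hmis
    have hrel : 1 / 2 ≤ (F' i).c * (F' j).c + (F' i).S * (F' j).S := by
      apply rel_pos hci hcj
      rw [hσc i, hσc j, hσS i, hσS j]
      have e : σ i * (c i * g1 + s i / L * g2) * (σ j * (s j / L * g1 - c j * g2)) -
          σ i * (s i / L * g1 - c i * g2) * (σ j * (c j * g1 + s j / L * g2)) =
          σ i * σ j * ((c i * s j - s i * c j) / L) * (g1 ^ 2 + g2 ^ 2) := by
        field_simp
        ring
      rw [e, hg, mul_one, abs_mul, abs_mul, abs_div, abs_of_pos hL0]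
      have a1 : |σ i| = 1 := by rcases hσ i with h0 | h0 <;> rw [h0] <;> norm_num
      have a2 : |σ j| = 1 := by rcases hσ j with h0 | h0 <;> rw [h0] <;> norm_num
      rw [a1, a2, one_mul, one_mul, div_le_iff₀ hL0]
      linarith
    have hγ : 1 / 2 ≤ σ i * σ j * (c j * c i + ν * s j * s i) := by
      rw [hσc i, hσc j, hσS i, hσS j] at hrel
      have e : σ i * (c i * g1 + s i / L * g2) * (σ j * (c j * g1 + s j / L * g2)) +
          σ i * (s i / L * g1 - c i * g2) * (σ j * (s j / L * g1 - c j * g2)) =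
          σ i * σ j * (c j * c i + ν * s j * s i) * (g1 ^ 2 + g2 ^ 2) := by
        rw [hν]
        field_simp
        ring
      rw [e, hg, mul_one] at hrel
      exact hrel
    have hγ' : 1 / 2 ≤ σ j * σ i * (c i * c j + ν * s i * s j) := by
      have e : σ j * σ i * (c i * c j + ν * s i * s j) =
        σ i * σ j * (c j * c i + ν * s j * s i) := by ring
      rw [e]; exact hγ
    have hωω' : ω ≤ ω' := by
      have : 0 ≤ ν * μ * (8 * R0) := by positivity
      linarith
    have hU0 : ∀ l e, U l (-e) = -U l e := by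
      intro l e
      rw [hUe, hUe]
      simp only [ux, PiLp.neg_apply]
      ring
    have hW0 : ∀ l e, W l (-e) = -W l e := by
      intro l e
      rw [hWe, hWe]
      simp only [uy, PiLp.neg_apply]
      ring
    -- W_i is large
    obtain ⟨h1, h2, h3, h4, h5⟩ := hV.num hH hη hN ni.1 li (hσ i) (hUe i) (hWe i)
    have hωω2 : ω ≤ ω2 := by
      have : 0 ≤ ν * μ * (8 * R0) := by positivity
      linarith
    have n01 : (0 : Fin 6) + 1 = 1 := rfl
    have hbig : τ / (8 * R0) ≤ |W i (w0 - v0)| := by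
      have := w_big (u := fun k => U i (qi (k + 1) - qi k)) (w := fun k => W i (qi (k + 1) - qi k))
        hτ (by linarith : 0 < 8 * R0) h1 h4 h5 hω2 (by
          show |U i (qi 1 - qi 0)| ≤ ω2
          rw [qi0, qi1]; exact hxi.trans hωω2)
      simp only [n01, qi0, qi1] at this
      exact this
    have hpos8 : 0 < 8 * R0 := by linarith
    have hτ8 : 0 < τ / (8 * R0) := by positivity
    by_cases hup : 0 < W i (w0 - v0)
    · -- `i` is on the left
      obtain ⟨qA, qB, xA, xB, hA, hB, d1, d2, d3, d4, k1, k2⟩ := hV.pair hH hη hN hR hμe hω' hω2 hωω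
        hμω hδτ hc1 hδ' hδ0 hEi hEj ni nj (hσ i) (hσ j) (hUe i) (hWe i) (hUe j) (hWe j) hγ
        (hxi.trans hωω') hup
      obtain ⟨m1, g1'⟩ := key i _ _ ni hA
      obtain ⟨m2, g2'⟩ := key j _ _ nj hB
      show |lx L (F' i) (g' i - g' j)| ≤ δ' ∧ |ly L (F' i) (g' i - g' j)| ≤ δ' ∧
        (|lx L (F' i) (g' i)| ≤ 3 * c1 → |cr (m i) (m j)| ≤ κ)
      rw [m1, m2, g1', g2', ← map_sub]
      refine ⟨d1, d2, fun hc => ?_⟩
      rw [C2305b.TL.cr_rot]
      exact k1 hc
    · -- `j` is on the left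
      have hneg : τ / (8 * R0) ≤ W i (v0 - w0) := by
        have e : v0 - w0 = -(w0 - v0) := by abel
        rw [e, hW0]
        push Not at hup
        rw [abs_of_nonpos hup] at hbig
        exact hbig
      have hmem1 : w0 ∈ P i := h.hull_sub i hEi.2.1.2
      have hmem2 : v0 ∈ P i := h.hull_sub i hEi.1.2
      have bdi := hV.bd hH hmem2 hmem1
      have a1 : |σ i| = 1 := by rcases hσ i with h0 | h0 <;> rw [h0] <;> norm_num
      have a2 : |σ j| = 1 := by rcases hσ j with h0 | h0 <;> rw [h0] <;> norm_num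
      have hxi' : |ux ν (c i) (s i) (v0 - w0)| ≤ ω := by
        have e : v0 - w0 = -(w0 - v0) := by abel
        have e2 : |U i (v0 - w0)| = |U i (w0 - v0)| := by rw [e, hU0, abs_neg]
        have e3 : |U i (v0 - w0)| = |ux ν (c i) (s i) (v0 - w0)| := by
          rw [hUe, abs_mul, a1, one_mul]
        rw [← e3, e2]
        exact hxi
      have hverj : |U j (v0 - w0)| ≤ ω' := by
        rw [hUe, abs_mul, a2, one_mul]
        refine (rel_ux_le hν0 hν1 (hV.cells.fr i) (hV.cells.fr j) hmis' (v0 - w0)).1.trans ?_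
        have : ν * μ * |uy (c i) (s i) (v0 - w0)| ≤ ν * μ * (8 * R0) :=
          mul_le_mul_of_nonneg_left bdi.2 (by positivity)
        linarith
      have hupj : 0 < W j (v0 - w0) := by
        have e1 := uy_change (c' := c j) (s' := s j) (hV.cells.fr i) (v0 - w0)
        have qσ : σ i * σ i = 1 := by rcases hσ i with h0 | h0 <;> rw [h0] <;> norm_num
        have e2 : W j (v0 - w0) = σ i * σ j * (c j * c i + ν * s j * s i) * W i (v0 - w0) +
            σ j * ((c j * s i - s j * c i) * ux ν (c i) (s i) (v0 - w0)) := by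
          rw [hWe, hWe, e1]
          linear_combination (-(σ j * (c j * c i + ν * s j * s i) *
            uy (c i) (s i) (v0 - w0))) * qσ
        rw [e2]
        have e3 : 1 / 2 * W i (v0 - w0) ≤ σ i * σ j * (c j * c i + ν * s j * s i) *
            W i (v0 - w0) := mul_le_mul_of_nonneg_right hγ (hτ8.le.trans hneg)
        have e4 : |σ j * ((c j * s i - s j * c i) * ux ν (c i) (s i) (v0 - w0))| ≤ μ * ω := by
          rw [abs_mul, abs_mul, a2, one_mul]
          exact mul_le_mul hmis' hxi' (abs_nonneg _) hμ0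
        have e5 : 8 * R0 * (μ * ω) ≤ τ / 8 := by
          refine le_trans ?_ hμω
          apply mul_le_mul_of_nonneg_left _ hpos8.le
          exact mul_le_mul_of_nonneg_left hωω' hμ0
        have e6 : μ * ω < 1 / 2 * (τ / (8 * R0)) := by
          have : μ * ω ≤ τ / 8 / (8 * R0) := by
            rw [le_div_iff₀ hpos8]; linarith
          have e7 : 1 / 2 * (τ / (8 * R0)) = 4 * (τ / 8 / (8 * R0)) := by ring
          have e8 : 0 < τ / 8 / (8 * R0) := by positivity
          rw [e7]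
          linarith
        linarith [(abs_le.mp e4).1]
      obtain ⟨qA, qB, xA, xB, hA, hB, d1, d2, d3, d4, k1, k2⟩ := hV.pair hH hη hN hR hμe hω' hω2 hωω
        hμω hδτ hc1 hδ' hδ0 hEj hEi nj ni (hσ j) (hσ i) (hUe j) (hWe j) (hUe i) (hWe i) hγ'
        hverj hupj
      obtain ⟨m1, g1'⟩ := key j _ _ nj hA
      obtain ⟨m2, g2'⟩ := key i _ _ ni hB
      show |lx L (F' i) (g' i - g' j)| ≤ δ' ∧ |ly L (F' i) (g' i - g' j)| ≤ δ' ∧
        (|lx L (F' i) (g' i)| ≤ 3 * c1 → |cr (m i) (m j)| ≤ κ)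
      rw [m1, m2, g1', g2', ← map_sub]
      have e : xB - qB 5 - (xA - qA 5) = -(xA - qA 5 - (xB - qB 5)) := by abel
      refine ⟨?_, ?_, fun hc => ?_⟩
      · show |U i (xB - qB 5 - (xA - qA 5))| ≤ δ'
        rw [e, hU0, abs_neg]
        exact d3
      · show |W i (xB - qB 5 - (xA - qA 5))| ≤ δ'
        rw [e, hW0, abs_neg]
        exact d4
      · rw [C2305b.TL.cr_rot]
        have e2 : cr (qB 0 - qB 4) (qA 0 - qA 4) = -cr (qA 0 - qA 4) (qB 0 - qB 4) := by
          simp only [cr]; ring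
        rw [e2, abs_neg]
        exact k2 hc

end

end W82
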