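import Pool.Agent.W82_c2305b.Local

/-!
Shared points lie in the hull of the shared boundary points.
-/

open Set Module Topology

namespace W82

variable {ι : Type*} {D : Set V} {P : ι → Set V}

/-- A connected set of unshared points lies in one cell. -/
theorem Tiling.conn [Finite ι] (h : Tiling D P) {N : Set V} (hN : IsPreconnected N)
    (hND : N ⊆ D) (hNS : ∀ x ∈ N, x ∉ Sh P) {x : V} (hx : x ∈ N) {k : ι} (hk : x ∈ P k) :
    N ⊆ P k := by
  set t' : Set V := ⋃ l : {l // l ≠ k}, P l with ht'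
  have hc' : IsClosed t' := isClosed_iUnion_of_finite fun l => h.closed l
  have hcov : N ⊆ P k ∪ t' := by
    intro y hy
    have hyD := hND hy
    rw [h.cover] at hyD
    obtain ⟨l, hl⟩ := mem_iUnion.mp hyD
    by_cases hlk : l = k
    · exact Or.inl (hlk ▸ hl)
    · exact Or.inr (mem_iUnion.mpr ⟨⟨l, hlk⟩, hl⟩)
  intro y hy
  rcases hcov hy with h1 | h1
  · exact h1
  · exfalso
    rw [isPreconnected_closed_iff] at hN
    obtain ⟨z, hzN, hzk, hz'⟩ := hN (P k) t' (h.closed k) hc' hcov ⟨x, hx, hk⟩ ⟨y, hy, h1⟩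
    obtain ⟨⟨l, hlk⟩, hl⟩ := mem_iUnion.mp hz'
    exact hNS z hzN ⟨k, l, fun h0 => hlk h0.symm, hzk, hl⟩

theorem Tiling.sh_compact [Finite ι] (h : Tiling D P) : IsCompact (Sh P) := by
  have : Sh P = ⋃ p : {p : ι × ι // p.1 ≠ p.2}, P p.1.1 ∩ P p.1.2 := by
    ext x
    constructor
    · rintro ⟨i, j, hij, hi, hj⟩
      exact mem_iUnion.mpr ⟨⟨(i, j), hij⟩, hi, hj⟩
    · intro hx
      obtain ⟨⟨⟨i, j⟩, hij⟩, hi, hj⟩ := mem_iUnion.mp hx
      exact ⟨i, j, hij, hi, hj⟩
  rw [this]
  exact isCompact_iUnion fun p => (h.comp _).inter (h.comp _)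

theorem Tiling.sh_sub (h : Tiling D P) : Sh P ⊆ D := by
  rintro x ⟨i, -, -, hx, -⟩
  exact h.sub i hx

/-- `Vb` is contained in the union of the corner sets. -/
theorem Tiling.vb_sub (h : Tiling D P) {v : V} (hv : v ∈ Vb D P) {i : ι} (hi : v ∈ P i) :
    v ∈ S P i := by
  obtain ⟨⟨j, k, hjk, hj, hk⟩, hfr⟩ := hv
  by_cases hij : i = j
  · subst hij
    exact ⟨h.claimC hfr hjk hj hk, k, hjk.symm, hk⟩
  · exact ⟨h.claimC hfr hij hi hj, j, fun h0 => hij h0.symm, hj⟩

theorem exists_ker_vec (g : V →L[ℝ] ℝ) : ∃ w : V, w ≠ 0 ∧ g w = 0 := by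
  by_contra hcon
  push Not at hcon
  have hinj : Function.Injective (g : V →ₗ[ℝ] ℝ) := by
    rw [injective_iff_map_eq_zero]
    intro a ha
    by_contra hne
    exact hcon a hne ha
  have := LinearMap.finrank_le_finrank_of_injective hinj
  simp at this

/-- A convex subset of a line has finitely many extreme points. -/
theorem extreme_line_finite {X : Set V} (f : V →L[ℝ] ℝ) (hf : f ≠ 0) {c : ℝ}
    (h : ∀ x ∈ X, f x = c) : (X.extremePoints ℝ).Finite := by
  obtain ⟨e, he, hfe⟩ := exists_ker_vec f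
  have hpos : 0 < ‖e‖ ^ 2 := by have := norm_pos_iff.mpr he; positivity
  have hinj : ∀ x ∈ X, ∀ y ∈ X, inner ℝ e x = inner ℝ e y → x = y := by
    intro x hx y hy hxy
    obtain ⟨t, ht⟩ := exists_smul_of_ker f hf he hfe (p := x - y) (by simp [h x hx, h y hy])
    have h1 : inner ℝ e (x - y) = t * ‖e‖ ^ 2 := by
      rw [ht, inner_smul_right, real_inner_self_eq_norm_sq]
    rw [inner_sub_right, hxy, sub_self] at h1
    have ht0 : t = 0 := by
      rcases mul_eq_zero.mp h1.symm with h2 | h2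
      · exact h2
      · exact absurd h2 hpos.ne'
    rw [ht0, zero_smul] at ht
    exact sub_eq_zero.mp ht
  have hsub : X.extremePoints ℝ ⊆ {x | x ∈ X ∧ ∀ y ∈ X, inner ℝ e x ≤ inner ℝ e y} ∪
      {x | x ∈ X ∧ ∀ y ∈ X, inner ℝ e y ≤ inner ℝ e x} := by
    intro x hx
    by_contra hcon
    rw [mem_union, not_or] at hcon
    obtain ⟨h1, h2⟩ := hcon
    have h1' : ∃ a ∈ X, inner ℝ e a < inner ℝ e x := by
      by_contra h0
      push Not at h0
      exact h1 ⟨hx.1, h0⟩
    have h2' : ∃ b ∈ X, inner ℝ e x < inner ℝ e b := by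
      by_contra h0
      push Not at h0
      exact h2 ⟨hx.1, h0⟩
    obtain ⟨a, ha, hax⟩ := h1'
    obtain ⟨b, hb, hxb⟩ := h2'
    obtain ⟨w, hw, hwx⟩ := exists_on_segment (innerSL ℝ e) (d := inner ℝ e x) hax.le hxb.le
    have hwx' : inner ℝ e w = inner ℝ e x := hwx
    -- w = x
    have hfw : f w = c := le_antisymm (le_of_mem_segment f (h a ha).le (h b hb).le hw)
      (ge_of_mem_segment f (h a ha).ge (h b hb).ge hw)
    have hwx2 : w = x := by
      obtain ⟨t, ht⟩ := exists_smul_of_ker f hf he hfe (p := w - x)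
        (by rw [map_sub, hfw, h x hx.1, sub_self])
      have h3 : inner ℝ e (w - x) = t * ‖e‖ ^ 2 := by
        rw [ht, inner_smul_right, real_inner_self_eq_norm_sq]
      rw [inner_sub_right, hwx', sub_self] at h3
      have ht0 : t = 0 := by
        rcases mul_eq_zero.mp h3.symm with h4 | h4
        · exact h4
        · exact absurd h4 hpos.ne'
      rw [ht0, zero_smul] at ht
      exact sub_eq_zero.mp ht
    subst hwx2
    have hwo : w ∈ openSegment ℝ a b := by
      refine mem_openSegment_of_ne_left_right ?_ ?_ hw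
      · rintro rfl
        exact lt_irrefl _ hax
      · rintro rfl
        exact lt_irrefl _ hxb
    have := (mem_extremePoints.mp hx).2 a ha b hb hwo
    rw [this.1] at hax
    exact lt_irrefl _ hax
  refine (Set.Finite.union ?_ ?_).subset hsub
  · apply Set.Subsingleton.finite
    rintro x ⟨hx, hx'⟩ y ⟨hy, hy'⟩
    exact hinj x hx y hy (le_antisymm (hx' y hy) (hy' x hx))
  · apply Set.Subsingleton.finite
    rintro x ⟨hx, hx'⟩ y ⟨hy, hy'⟩
    exact hinj x hx y hy (le_antisymm (hy' x hx) (hx' y hy))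

/-- The corners of a cell are finite in number. -/
theorem Tiling.S_finite [Finite ι] (h : Tiling D P) (i : ι) : (S P i).Finite := by
  have hsub : S P i ⊆ ⋃ j : {j // j ≠ i}, (P i ∩ P j).extremePoints ℝ := by
    rintro v ⟨hv, j, hj, hvj⟩
    refine mem_iUnion.mpr ⟨⟨j, hj⟩, ?_⟩
    exact inter_extremePoints_subset_extremePoints_of_subset inter_subset_left ⟨⟨hv.1, hvj⟩, hv⟩
  refine (Set.finite_iUnion ?_).subset hsub
  rintro ⟨j, hj⟩
  obtain ⟨f, c, hf, h1, h2⟩ := h.sep hj.symm
  exact extreme_line_finite f hf (c := c) fun x hx => le_antisymm (h1 x hx.1) (h2 x hx.2)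

theorem Tiling.vb_finite [Finite ι] (h : Tiling D P) : (Vb D P).Finite := by
  refine (Set.finite_iUnion h.S_finite).subset ?_
  intro v hv
  have hv' := hv
  obtain ⟨⟨i, j, hij, hi, hj⟩, hfr⟩ := hv'
  exact mem_iUnion.mpr ⟨i, h.vb_sub hv hi⟩

/-- Shared points lie in the hull of the shared boundary points. -/
theorem Tiling.sh_hull [Finite ι] (h : Tiling D P) : Sh P ⊆ convexHull ℝ (Vb D P) := by
  intro p hp
  by_contra hpn
  have hι : Nonempty ι := by
    obtain ⟨i, -⟩ := hp
    exact ⟨i⟩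
  -- separation
  obtain ⟨g, hg, hgV⟩ : ∃ g : V →L[ℝ] ℝ, g ≠ 0 ∧ ∀ x ∈ Vb D P, g x < g p := by
    by_cases hV : (Vb D P).Nonempty
    · obtain ⟨g, u, hgu, hug⟩ := geometric_hahn_banach_closed_point (convex_convexHull ℝ _)
        (h.vb_finite.isClosed_convexHull ℝ) hpn
      have hgV : ∀ x ∈ Vb D P, g x < g p := fun x hx =>
        (hgu x (subset_convexHull ℝ _ hx)).trans hug
      refine ⟨g, ?_, hgV⟩
      rintro rfl
      obtain ⟨x, hx⟩ := hV
      have := hgV x hx
      simp at this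
    · refine ⟨EuclideanSpace.proj 0, ?_, fun x hx => absurd ⟨x, hx⟩ hV⟩
      intro h0
      have h1 := congrArg (fun g : V →L[ℝ] ℝ => g (EuclideanSpace.single 0 1)) h0
      simp at h1
  obtain ⟨w, hw, hgw⟩ := exists_ker_vec g
  -- maximise g on Sh
  obtain ⟨q0, hq0, hq0m⟩ := h.sh_compact.exists_isMaxOn ⟨p, hp⟩ g.continuous.continuousOn
  set m := g q0 with hm
  have hmax : ∀ x ∈ Sh P, g x ≤ m := fun x hx => hq0m hx
  have hcm : IsCompact (Sh P ∩ {x | g x = m}) :=
    h.sh_compact.inter_right (isClosed_eq g.continuous continuous_const)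
  obtain ⟨q, hq, hqm⟩ := hcm.exists_isMaxOn ⟨q0, hq0, rfl⟩
    ((innerSL ℝ w).continuous.continuousOn)
  have hqS : q ∈ Sh P := hq.1
  have hgq : g q = m := hq.2
  have hqmax : ∀ x ∈ Sh P, g x = m → inner ℝ w x ≤ inner ℝ w q := fun x hx hxm =>
    hqm (show x ∈ Sh P ∩ {x | g x = m} from ⟨hx, hxm⟩)
  -- q is an interior point of D
  have hqD : q ∈ D := h.sh_sub hqS
  have hqi : q ∈ interior D := by
    by_contra hcon
    have hfr : q ∈ frontier D := ⟨subset_closure hqD, hcon⟩
    have h1 := hgV q ⟨hqS, hfr⟩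
    have h2 := hmax p hp
    rw [hgq] at h1
    linarith
  -- a ball around q inside D
  obtain ⟨r, hr, hball⟩ := Metric.isOpen_iff.mp isOpen_interior q hqi
  -- the upper half ball lies in one cell
  set N : Set V := Metric.ball q r ∩ {x | m < g x} with hN
  have hNconv : Convex ℝ N := (convex_ball q r).inter (convex_halfSpace_gt g.isLinear m)
  have hND : N ⊆ D := fun x hx => interior_subset (hball hx.1)
  have hNS : ∀ x ∈ N, x ∉ Sh P := fun x hx hxS => absurd (hmax x hxS) (not_le.mpr hx.2)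
  have hcl : ∀ x ∈ Metric.ball q r, m ≤ g x → x ∈ closure N := by
    intro x hx hxm
    have h1 := mem_closure_half (-g) (neg_ne_zero.mpr hg) (c := -m) Metric.isOpen_ball hx
      (by simpa using hxm)
    have h2 : Metric.ball q r ∩ {x | (-g) x < -m} = N := by
      ext y
      simp [hN]
    rwa [h2] at h1
  have hNne : N.Nonempty := by
    have : q ∈ closure N := hcl q (Metric.mem_ball_self hr) hgq.ge
    exact closure_nonempty_iff.mp ⟨q, this⟩
  obtain ⟨x0, hx0⟩ := hNne
  obtain ⟨k, hk⟩ : ∃ k, x0 ∈ P k := by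
    have := hND hx0
    rw [h.cover] at this
    exact mem_iUnion.mp this
  have hNk : N ⊆ P k := h.conn hNconv.isPreconnected hND hNS hx0 hk
  have hclk : ∀ x ∈ Metric.ball q r, m ≤ g x → x ∈ P k := fun x hx hxm =>
    closure_minimal hNk (h.closed k) (hcl x hx hxm)
  -- the two neighbours on the line
  set t : ℝ := r / (2 * ‖w‖) with ht
  have hwn : 0 < ‖w‖ := norm_pos_iff.mpr hw
  have ht0 : 0 < t := by positivity
  have htw : ‖t • w‖ < r := by
    rw [norm_smul, Real.norm_of_nonneg ht0.le, ht]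
    field_simp
    linarith
  have hb1 : q + t • w ∈ Metric.ball q r := by
    rw [Metric.mem_ball, dist_eq_norm, add_sub_cancel_left]
    exact htw
  have hb2 : q - t • w ∈ Metric.ball q r := by
    rw [Metric.mem_ball, dist_eq_norm, sub_sub_cancel_left, norm_neg]
    exact htw
  have hg1 : g (q + t • w) = m := by simp [hgw, hgq]
  have hg2 : g (q - t • w) = m := by simp [hgw, hgq]
  have hP1 : q + t • w ∈ P k := hclk _ hb1 hg1.ge
  have hP2 : q - t • w ∈ P k := hclk _ hb2 hg2.ge
  have hun : q + t • w ∉ Sh P := by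
    intro hs
    have := hqmax _ hs hg1
    rw [inner_add_right, inner_smul_right, real_inner_self_eq_norm_sq] at this
    have : 0 < t * ‖w‖ ^ 2 := by positivity
    linarith
  have hint1 : q + t • w ∈ interior (P k) := by
    apply h.mem_int_of_only (hball hb1)
    intro l hl hl'
    exact hun ⟨k, l, hl.symm, hP1, hl'⟩
  have hqint : q ∈ interior (P k) := by
    apply (h.conv k).openSegment_interior_self_subset_interior hint1 hP2
    exact ⟨1 / 2, 1 / 2, by norm_num, by norm_num, by norm_num, by module⟩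
  -- q lies in another cell
  obtain ⟨i, j, hij, hi, hj⟩ := hqS
  by_cases hki : k = i
  · subst hki
    exact h.int_disj hij hqint hj
  · exact h.int_disj hki hqint hi

/-- Interior points of `D` are shared if there are two cells. -/
theorem Tiling.exists_shared_interior [Finite ι] (h : Tiling D P) {i j : ι} (hij : i ≠ j) :
    ∃ x ∈ interior D, x ∈ Sh P := by
  by_contra hcon
  push Not at hcon
  obtain ⟨x, hx⟩ := h.int i
  have hxD : x ∈ interior D := interior_mono (h.sub i) hx
  have hsub : interior D ⊆ P i := h.conn h.convD.interior.isPreconnected interior_subset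
    hcon hxD (interior_subset hx)
  obtain ⟨y, hy⟩ := h.int j
  have hyD : y ∈ interior D := interior_mono (h.sub j) hy
  exact h.int_disj hij.symm hy (hsub hyD)

/-- There are at least two shared boundary points. -/
theorem Tiling.two_vb [Finite ι] (h : Tiling D P) {i j : ι} (hij : i ≠ j) :
    ∃ a ∈ Vb D P, ∃ b ∈ Vb D P, a ≠ b := by
  obtain ⟨x, hxD, hxS⟩ := h.exists_shared_interior hij
  have hx := h.sh_hull hxS
  have hne : (Vb D P).Nonempty := by
    rw [← convexHull_nonempty_iff (𝕜 := ℝ)]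
    exact ⟨x, hx⟩
  obtain ⟨a, ha⟩ := hne
  refine ⟨a, ha, ?_⟩
  by_contra hcon
  push Not at hcon
  have : Vb D P ⊆ {a} := fun b hb => (hcon b hb).symm
  have h2 : convexHull ℝ (Vb D P) ⊆ {a} := convexHull_min this (convex_singleton a)
  have h3 : x = a := h2 hx
  subst h3
  exact ha.2.2 hxD

end W82
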