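import Pool.Agent.W82_c2305b.Cross

/-!
Separation of the two differences of a noncrossing pair (Kirchberger via Helly).
-/

open Set Module

namespace W82

theorem disjoint_hull_small {A B : Set V} (hA : Convex ℝ A) (hB : Convex ℝ B)
    (h : ¬ Cross A B) {S T : Finset V} (hS : (S : Set V) ⊆ A \ B) (hT : (T : Set V) ⊆ B \ A)
    (hcard : S.card + T.card ≤ 4) :
    Disjoint (convexHull ℝ (S : Set V)) (convexHull ℝ (T : Set V)) := by
  have hSA : convexHull ℝ (S : Set V) ⊆ A := convexHull_min (fun x hx => (hS hx).1) hA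
  have hTB : convexHull ℝ (T : Set V) ⊆ B := convexHull_min (fun x hx => (hT hx).1) hB
  rw [Set.disjoint_left]
  intro z hzS hzT
  have hz1 : z ∈ A := hSA hzS
  have hz2 : z ∈ B := hTB hzT
  by_cases h1 : S.card ≤ 1
  · rcases Finset.card_le_one_iff_subset_singleton.mp h1 with ⟨s, hs⟩
    have : convexHull ℝ (S : Set V) ⊆ {s} := by
      refine convexHull_min ?_ (convex_singleton s)
      intro x hx
      simpa using hs hx
    have hzs : z = s := this hzS
    subst hzs
    have hne : (S : Set V).Nonempty := by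
      rw [← convexHull_nonempty_iff (𝕜 := ℝ)]
      exact ⟨z, hzS⟩
    obtain ⟨y, hy⟩ := hne
    have : y = z := by simpa using hs hy
    subst this
    exact (hS hy).2 hz2
  by_cases h2 : T.card ≤ 1
  · rcases Finset.card_le_one_iff_subset_singleton.mp h2 with ⟨s, hs⟩
    have : convexHull ℝ (T : Set V) ⊆ {s} := by
      refine convexHull_min ?_ (convex_singleton s)
      intro x hx
      simpa using hs hx
    have hzs : z = s := this hzT
    subst hzs
    have hne : (T : Set V).Nonempty := by
      rw [← convexHull_nonempty_iff (𝕜 := ℝ)]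
      exact ⟨z, hzT⟩
    obtain ⟨y, hy⟩ := hne
    have : y = z := by simpa using hs hy
    subst this
    exact (hT hy).2 hz1
  have e1 : S.card = 2 := by omega
  have e2 : T.card = 2 := by omega
  obtain ⟨a, a', -, rfl⟩ := Finset.card_eq_two.mp e1
  obtain ⟨b, b', -, rfl⟩ := Finset.card_eq_two.mp e2
  simp only [Finset.coe_insert, Finset.coe_singleton, convexHull_pair] at hzS hzT hS hT
  exact h ⟨a, hS (by simp), a', hS (by simp), b, hT (by simp), b', hT (by simp), z, hzS, hzT⟩

theorem finite_sep {A B : Set V} (hA : Convex ℝ A) (hB : Convex ℝ B)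
    (h : ¬ Cross A B) {S T : Finset V} (hS : (S : Set V) ⊆ A \ B) (hT : (T : Set V) ⊆ B \ A) :
    ∃ (f : V →L[ℝ] ℝ) (c : ℝ), (∀ s ∈ S, f s < c) ∧ (∀ t ∈ T, c < f t) := by
  classical
  let F : V → Set (V × ℝ) := fun i =>
    {p | (i ∈ S → inner ℝ p.1 i < p.2) ∧ (i ∈ T → p.2 < inner ℝ p.1 i)}
  have hconv : ∀ i ∈ S ∪ T, Convex ℝ (F i) := by
    intro i _
    intro p hp q hq a b ha hb hab
    constructor
    · intro hi
      have h1 := hp.1 hi
      have h2 := hq.1 hi
      simp only [Prod.fst_add, Prod.smul_fst, Prod.snd_add, Prod.smul_snd, inner_add_left,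
        inner_smul_left, smul_eq_mul]
      simp only [conj_trivial]
      rcases ha.lt_or_eq with h3 | h3
      · nlinarith
      · have : b = 1 := by linarith
        subst this
        rw [← h3]
        linarith
    · intro hi
      have h1 := hp.2 hi
      have h2 := hq.2 hi
      simp only [Prod.fst_add, Prod.smul_fst, Prod.snd_add, Prod.smul_snd, inner_add_left,
        inner_smul_left, smul_eq_mul]
      simp only [conj_trivial]
      rcases ha.lt_or_eq with h3 | h3
      · nlinarith
      · have : b = 1 := by linarith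
        subst this
        rw [← h3]
        linarith
  have hfin : finrank ℝ (V × ℝ) = 3 := by
    rw [Module.finrank_prod, finrank_euclideanSpace_fin, Module.finrank_self]
  have hinter : ∀ I ⊆ S ∪ T, I.card ≤ finrank ℝ (V × ℝ) + 1 → (⋂ i ∈ I, F i).Nonempty := by
    intro I hI hcard
    rw [hfin] at hcard
    have hIS : ((I.filter (· ∈ S) : Finset V) : Set V) ⊆ A \ B := fun x hx => by
      have : x ∈ I.filter (· ∈ S) := hx
      exact hS (Finset.mem_filter.mp this).2
    have hIT : ((I.filter (· ∈ T) : Finset V) : Set V) ⊆ B \ A := fun x hx => by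
      have : x ∈ I.filter (· ∈ T) := hx
      exact hT (Finset.mem_filter.mp this).2
    have hdis : Disjoint (I.filter (· ∈ S)) (I.filter (· ∈ T)) := by
      rw [Finset.disjoint_left]
      intro x hx hx'
      exact (hIS hx).2 (hIT hx').1
    have hc : (I.filter (· ∈ S)).card + (I.filter (· ∈ T)).card ≤ 4 := by
      rw [← Finset.card_union_of_disjoint hdis]
      refine le_trans (Finset.card_le_card ?_) hcard
      intro x hx
      rcases Finset.mem_union.mp hx with hx | hx
      · exact (Finset.mem_filter.mp hx).1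
      · exact (Finset.mem_filter.mp hx).1
    have hd := disjoint_hull_small hA hB h hIS hIT hc
    obtain ⟨f, u, v, h1, h2, h3⟩ := geometric_hahn_banach_compact_closed
      (convex_convexHull ℝ _) ((I.filter (· ∈ S)).finite_toSet.isCompact_convexHull ℝ)
      (convex_convexHull ℝ _) ((I.filter (· ∈ T)).finite_toSet.isClosed_convexHull ℝ) hd
    refine ⟨((InnerProductSpace.toDual ℝ V).symm f, (u + v) / 2), ?_⟩
    simp only [mem_iInter]
    intro i hi
    constructor
    · intro hiS
      have := h1 i (subset_convexHull ℝ _ (by simp [hi, hiS]))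
      simp only [InnerProductSpace.toDual_symm_apply]
      linarith
    · intro hiT
      have := h3 i (subset_convexHull ℝ _ (by simp [hi, hiT]))
      simp only [InnerProductSpace.toDual_symm_apply]
      linarith
  obtain ⟨p, hp⟩ := Convex.helly_theorem' hconv hinter
  simp only [mem_iInter] at hp
  refine ⟨innerSL ℝ p.1, p.2, ?_, ?_⟩
  · intro s hs
    have := (hp s (Finset.mem_union_left _ hs)).1 hs
    simpa using this
  · intro t ht
    have := (hp t (Finset.mem_union_right _ ht)).2 ht
    simpa using this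

theorem disjoint_hull {A B : Set V} (hA : Convex ℝ A) (hB : Convex ℝ B) (h : ¬ Cross A B) :
    Disjoint (convexHull ℝ (A \ B)) (convexHull ℝ (B \ A)) := by
  rw [Set.disjoint_left]
  intro z hz1 hz2
  rw [convexHull_eq_union_convexHull_finite_subsets] at hz1 hz2
  simp only [mem_iUnion] at hz1 hz2
  obtain ⟨S, hS, hzS⟩ := hz1
  obtain ⟨T, hT, hzT⟩ := hz2
  obtain ⟨f, c, h1, h2⟩ := finite_sep hA hB h hS hT
  have c1 : Convex ℝ {x : V | f x < c} := convex_halfSpace_lt f.isLinear c
  have c2 : Convex ℝ {x : V | c < f x} := convex_halfSpace_gt f.isLinear c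
  have e1 : f z < c := convexHull_min (fun s hs => h1 s hs) c1 hzS
  have e2 : c < f z := convexHull_min (fun s hs => h2 s hs) c2 hzT
  linarith

/-- The separating line of a noncrossing pair of closed convex sets that are closures of their
interiors, neither containing the other. -/
theorem exists_sep {A B : Set V} (hA : Convex ℝ A) (hB : Convex ℝ B) (hBc : IsClosed B)
    (hAi : A ⊆ closure (interior A)) (h : ¬ Cross A B) (hAB : ¬ A ⊆ B) (hBA : ¬ B ⊆ A) :
    ∃ (f : V →L[ℝ] ℝ) (c : ℝ), f ≠ 0 ∧ (∀ x ∈ A \ B, f x ≤ c) ∧ (∀ x ∈ B \ A, c ≤ f x) ∧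
      (∃ x ∈ A \ B, f x < c) := by
  have hsub : convexHull ℝ (interior A \ B) ⊆ convexHull ℝ (A \ B) :=
    convexHull_mono (sdiff_subset_sdiff_left interior_subset)
  have hd : Disjoint (convexHull ℝ (interior A \ B)) (convexHull ℝ (B \ A)) :=
    (disjoint_hull hA hB h).mono_left hsub
  have ho : IsOpen (convexHull ℝ (interior A \ B)) :=
    (isOpen_interior.sdiff hBc).convexHull
  obtain ⟨f, c, h1, h2⟩ := geometric_hahn_banach_open (convex_convexHull ℝ _) ho
    (convex_convexHull ℝ _) hd
  have hne : (interior A \ B).Nonempty := by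
    by_contra hcon
    rw [not_nonempty_iff_eq_empty, sdiff_eq_empty] at hcon
    exact hAB (hAi.trans (closure_minimal hcon hBc))
  obtain ⟨x0, hx0⟩ := hne
  obtain ⟨y0, hy0, hy0'⟩ := not_subset.mp hBA
  have hx1 := h1 x0 (subset_convexHull ℝ _ hx0)
  have hy1 := h2 y0 (subset_convexHull ℝ _ ⟨hy0, hy0'⟩)
  refine ⟨f, c, ?_, ?_, ?_, x0, ⟨interior_subset hx0.1, hx0.2⟩, hx1⟩
  · rintro rfl
    simp at hx1 hy1
    linarith
  · intro x hx
    have hcl : x ∈ closure (interior A \ B) := by
      have h3 : x ∈ Bᶜ ∩ closure (interior A) := ⟨hx.2, hAi hx.1⟩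
      have h4 := (hBc.isOpen_compl).inter_closure h3
      rw [inter_comm] at h4
      exact h4
    have h4 : closure (interior A \ B) ⊆ {x | f x ≤ c} := by
      refine closure_minimal (fun y hy => (h1 y (subset_convexHull ℝ _ hy)).le) ?_
      exact isClosed_le f.continuous continuous_const
    exact h4 hcl
  · intro x hx
    exact h2 x (subset_convexHull ℝ _ hx)

end W82
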