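import Pool.Agent.W82_c2305b.Main

/-!
Local structure of a tiling of a planar convex domain by convex cells.
-/

open Set Module Topology

namespace W82

/-- Tiling of a planar convex body `D` by convex bodies `P i`. -/
structure Tiling {ι : Type*} (D : Set V) (P : ι → Set V) : Prop where
  convD : Convex ℝ D
  compD : IsCompact D
  conv : ∀ i, Convex ℝ (P i)
  comp : ∀ i, IsCompact (P i)
  int : ∀ i, (interior (P i)).Nonempty
  cover : D = ⋃ i, P i
  disj : ∀ i j, i ≠ j → Disjoint (interior (P i)) (interior (P j))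

/-- Shared points. -/
def Sh {ι : Type*} (P : ι → Set V) : Set V := {v | ∃ i j, i ≠ j ∧ v ∈ P i ∧ v ∈ P j}

/-- Shared boundary points. -/
def Vb {ι : Type*} (D : Set V) (P : ι → Set V) : Set V := Sh P ∩ frontier D

/-- Corners of cell `i`. -/
def S {ι : Type*} (P : ι → Set V) (i : ι) : Set V :=
  {v | v ∈ (P i).extremePoints ℝ ∧ ∃ j, j ≠ i ∧ v ∈ P j}

variable {ι : Type*} {D : Set V} {P : ι → Set V}

theorem S_sub_Sh (i : ι) : S P i ⊆ Sh P := by
  rintro v ⟨hv, j, hj, hvj⟩
  exact ⟨i, j, hj.symm, hv.1, hvj⟩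

theorem Tiling.sub (h : Tiling D P) (i : ι) : P i ⊆ D := by
  rw [h.cover]
  exact subset_iUnion P i

theorem Tiling.closed (h : Tiling D P) (i : ι) : IsClosed (P i) := (h.comp i).isClosed

theorem Tiling.reg (h : Tiling D P) (i : ι) : P i ⊆ closure (interior (P i)) := by
  rw [(h.conv i).closure_interior_eq_closure_of_nonempty_interior (h.int i)]
  exact subset_closure

/-- Interiors do not meet the other cells. -/
theorem Tiling.int_disj (h : Tiling D P) {i j : ι} (hij : i ≠ j) {x : V}
    (hx : x ∈ interior (P i)) (hx' : x ∈ P j) : False := by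
  have h1 : x ∈ interior (P i) ∩ closure (interior (P j)) := ⟨hx, h.reg j hx'⟩
  have h2 := isOpen_interior.inter_closure h1
  have h3 : interior (P i) ∩ interior (P j) = ∅ := (h.disj i j hij).inter_eq
  rw [h3, closure_empty] at h2
  exact h2

theorem Tiling.int_nonempty [Nonempty ι] (h : Tiling D P) : (interior D).Nonempty := by
  obtain ⟨i⟩ := ‹Nonempty ι›
  exact (h.int i).mono (interior_mono (h.sub i))

/-- Separation of two cells. -/
theorem Tiling.sep (h : Tiling D P) {i j : ι} (hij : i ≠ j) :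
    ∃ (f : V →L[ℝ] ℝ) (c : ℝ), f ≠ 0 ∧ (∀ x ∈ P i, f x ≤ c) ∧ (∀ x ∈ P j, c ≤ f x) := by
  obtain ⟨f, u, h1, h2⟩ := geometric_hahn_banach_open_open (h.conv i).interior isOpen_interior
    (h.conv j).interior isOpen_interior (h.disj i j hij)
  obtain ⟨x, hx⟩ := h.int i
  obtain ⟨y, hy⟩ := h.int j
  have e1 := h1 x hx
  have e2 := h2 y hy
  refine ⟨f, u, ?_, ?_, ?_⟩
  · rintro rfl
    simp at e1 e2
    linarith
  · intro z hz
    have : closure (interior (P i)) ⊆ {x | f x ≤ u} :=
      closure_minimal (fun w hw => (h1 w hw).le) (isClosed_le f.continuous continuous_const)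
    exact this (h.reg i hz)
  · intro z hz
    have : closure (interior (P j)) ⊆ {x | u ≤ f x} :=
      closure_minimal (fun w hw => (h2 w hw).le) (isClosed_le continuous_const f.continuous)
    exact this (h.reg j hz)

/-- Supporting functional at a boundary point. -/
theorem Tiling.support [Nonempty ι] (h : Tiling D P) {v : V} (hv : v ∈ frontier D) :
    ∃ f : V →L[ℝ] ℝ, f ≠ 0 ∧ ∀ x ∈ D, f x ≤ f v := by
  have hv' : v ∉ interior D := hv.2
  obtain ⟨f, hf⟩ := geometric_hahn_banach_open_point h.convD.interior isOpen_interior hv'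
  obtain ⟨x, hx⟩ := h.int_nonempty
  refine ⟨f, ?_, ?_⟩
  · rintro rfl
    have := hf x hx
    simp at this
  · intro z hz
    have h1 : closure (interior D) ⊆ {x | f x ≤ f v} :=
      closure_minimal (fun w hw => (hf w hw).le) (isClosed_le f.continuous continuous_const)
    apply h1
    rw [h.convD.closure_interior_eq_closure_of_nonempty_interior h.int_nonempty]
    exact subset_closure hz

theorem closure_lt_eq (f : V →L[ℝ] ℝ) (hf : f ≠ 0) (c : ℝ) :
    closure {x | f x < c} = {x | f x ≤ c} := by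
  have h1 : {x : V | f x < c} = f ⁻¹' Iio c := rfl
  have h2 : {x : V | f x ≤ c} = f ⁻¹' Iic c := rfl
  rw [h1, h2, ← closure_Iio' (a := c) ⟨c - 1, by simp⟩]
  exact ((f.isOpenMap_of_ne_zero hf).preimage_closure_eq_closure_preimage f.continuous _).symm

theorem mem_closure_half (f : V →L[ℝ] ℝ) (hf : f ≠ 0) {c : ℝ} {O : Set V} (hO : IsOpen O)
    {p : V} (hp : p ∈ O) (hpc : f p ≤ c) : p ∈ closure (O ∩ {x | f x < c}) := by
  apply hO.inter_closure
  refine ⟨hp, ?_⟩
  rw [closure_lt_eq f hf]
  exact hpc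

/-- The open set of points of the interior of `D` lying outside a given family of cells. -/
theorem Tiling.open_avoid [Finite ι] (h : Tiling D P) (Q : ι → Prop) :
    IsOpen {x | x ∈ interior D ∧ ∀ k, Q k → x ∉ P k} := by
  have : {x | x ∈ interior D ∧ ∀ k, Q k → x ∉ P k} =
      interior D ∩ ⋂ k : {k // Q k}, (P k)ᶜ := by
    ext x
    simp
  rw [this]
  exact isOpen_interior.inter (isOpen_iInter_of_finite fun k => (h.closed k).isOpen_compl)

/-- A point near which only cell `k` is present is an interior point of `P k`. -/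
theorem Tiling.mem_int_of_only [Finite ι] (h : Tiling D P) {x : V} {k : ι}
    (hx : x ∈ interior D) (ho : ∀ l, l ≠ k → x ∉ P l) : x ∈ interior (P k) := by
  have hopen := h.open_avoid (fun l => l ≠ k)
  refine interior_maximal ?_ hopen ⟨hx, ho⟩
  rintro y ⟨hy, hyo⟩
  have hyD : y ∈ D := interior_subset hy
  rw [h.cover] at hyD
  obtain ⟨l, hl⟩ := mem_iUnion.mp hyD
  by_contra hcon
  have : l ≠ k := fun h0 => hcon (h0 ▸ hl)
  exact hyo l this hl

/-- not extreme: two symmetric points -/
theorem exists_sym_of_not_extreme {X : Set V} (hX : Convex ℝ X) {v : V} (hv : v ∈ X)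
    (hne : v ∉ X.extremePoints ℝ) : ∃ w : V, w ≠ 0 ∧ v + w ∈ X ∧ v - w ∈ X := by
  rw [mem_extremePoints] at hne
  push Not at hne
  obtain ⟨x₁, hx₁, x₂, hx₂, hvs, hne'⟩ := hne hv
  obtain ⟨a, b, ha, hb, hab, rfl⟩ := hvs
  have hne12 : x₁ ≠ x₂ := by
    intro h0
    subst h0
    have : a • x₁ + b • x₁ = x₁ := by rw [← add_smul, hab, one_smul]
    exact hne' this.symm this.symm
  -- choose t = min a b
  set t := min a b with ht
  have ht0 : 0 < t := lt_min ha hb
  refine ⟨t • (x₁ - x₂), smul_ne_zero ht0.ne' (sub_ne_zero.mpr hne12), ?_, ?_⟩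
  · have : a • x₁ + b • x₂ + t • (x₁ - x₂) = (a + t) • x₁ + (b - t) • x₂ := by module
    rw [this]
    exact hX hx₁ hx₂ (by linarith) (by have := min_le_right a b; linarith) (by linarith)
  · have : a • x₁ + b • x₂ - t • (x₁ - x₂) = (a - t) • x₁ + (b + t) • x₂ := by module
    rw [this]
    exact hX hx₁ hx₂ (by have := min_le_left a b; linarith) (by linarith) (by linarith)

theorem not_extreme_of_sym {X : Set V} {v w : V} (hw : w ≠ 0) (h1 : v + w ∈ X)
    (h2 : v - w ∈ X) : v ∉ X.extremePoints ℝ := by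
  intro h
  rw [mem_extremePoints] at h
  have hv : v ∈ openSegment ℝ (v + w) (v - w) :=
    ⟨1 / 2, 1 / 2, by norm_num, by norm_num, by norm_num, by module⟩
  have := (h.2 _ h1 _ h2 hv).1
  apply hw
  simpa using this

/-- **Claim A**: if exactly two cells contain the interior point `v`, it is extreme in neither. -/
theorem Tiling.claimA [Finite ι] (h : Tiling D P) {v : V} (hv : v ∈ interior D) {i j : ι}
    (hij : i ≠ j) (ho : ∀ k, v ∈ P k → k = i ∨ k = j) (hvi : v ∈ P i) (hvj : v ∈ P j) :
    v ∉ (P i).extremePoints ℝ := by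
  obtain ⟨f, c, hf, h1, h2⟩ := h.sep hij
  have hvc : f v = c := le_antisymm (h1 v hvi) (h2 v hvj)
  set O : Set V := {x | x ∈ interior D ∧ ∀ k, (k ≠ i ∧ k ≠ j) → x ∉ P k} with hO
  have hOo : IsOpen O := h.open_avoid (fun k => k ≠ i ∧ k ≠ j)
  have hvO : v ∈ O := by
    refine ⟨hv, fun k hk hvk => ?_⟩
    rcases ho k hvk with h0 | h0
    · exact hk.1 h0
    · exact hk.2 h0
  have hsub : O ∩ {x | f x < c} ⊆ P i := by
    rintro x ⟨hxO, hxc⟩
    have hxD : x ∈ D := interior_subset hxO.1
    rw [h.cover] at hxD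
    obtain ⟨k, hk⟩ := mem_iUnion.mp hxD
    by_cases hki : k = i
    · exact hki ▸ hk
    · by_cases hkj : k = j
      · subst hkj
        exact absurd (h2 x hk) (not_le.mpr hxc)
      · exact absurd hk (hxO.2 k ⟨hki, hkj⟩)
  have hle : ∀ p ∈ O, f p ≤ c → p ∈ P i := fun p hp hpc =>
    closure_minimal hsub (h.closed i) (mem_closure_half f hf hOo hp hpc)
  -- a nonzero vector of the kernel
  obtain ⟨w, hw, hfw⟩ : ∃ w : V, w ≠ 0 ∧ f w = 0 := by
    by_contra hcon
    push Not at hcon
    have hinj : Function.Injective (f : V →ₗ[ℝ] ℝ) := by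
      rw [injective_iff_map_eq_zero]
      intro a ha
      by_contra hne
      exact hcon a hne ha
    have := LinearMap.finrank_le_finrank_of_injective hinj
    simp at this
  -- small multiples stay in O
  have hcont : Continuous fun t : ℝ => v + t • w := by fun_prop
  have hnhds : ∀ᶠ t in 𝓝 (0 : ℝ), v + t • w ∈ O := by
    apply hcont.continuousAt.eventually_mem
    simpa using hOo.mem_nhds hvO
  obtain ⟨ε, hε, hball⟩ := Metric.eventually_nhds_iff.mp hnhds
  have e1 : v + (ε / 2) • w ∈ P i := by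
    apply hle _ (hball _)
    · simp [hfw, hvc]
    · rw [Real.dist_eq, sub_zero, abs_of_pos (by positivity)]; linarith
  have e2 : v + (-(ε / 2)) • w ∈ P i := by
    apply hle _ (hball _)
    · simp [hfw, hvc]
    · rw [Real.dist_eq, sub_zero, abs_neg, abs_of_pos (by positivity)]; linarith
  refine not_extreme_of_sym (w := (ε / 2) • w) (smul_ne_zero (by positivity) hw) e1 ?_
  have : v - (ε / 2) • w = v + (-(ε / 2)) • w := by module
  rw [this]
  exact e2

/-- Half-disc lemma: `v ± w` and `q` in a convex set, `f` constant on the line of `w` and smaller at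
`q`; then the set contains a half-neighbourhood of `v`. -/
theorem half_nhds {X : Set V} (hX : Convex ℝ X) {v w q : V} (hw : w ≠ 0) (h1 : v + w ∈ X)
    (h2 : v - w ∈ X) (hq : q ∈ X) (f : V →L[ℝ] ℝ) (hfw : f w = 0) (hfq : f q < f v) :
    ∀ᶠ r in 𝓝 v, f r ≤ f v → r ∈ X := by
  have hf : f ≠ 0 := by
    rintro rfl
    simp at hfq
  have hqv : q - v ≠ 0 := by
    intro h0
    have : q = v := sub_eq_zero.mp h0
    subst this
    exact lt_irrefl _ hfq
  obtain ⟨g, hg, hgq⟩ := exists_functional _ hqv
  have hfqv : f (q - v) < 0 := by simp; linarith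
  have hgw : g w ≠ 0 := by
    intro h0
    obtain ⟨t, ht⟩ := exists_smul_of_ker g hg hqv hgq h0
    rw [ht, map_smul, smul_eq_mul, mul_eq_zero] at hfw
    rcases hfw with h3 | h3
    · rw [h3, zero_smul] at ht
      exact hw ht
    · exact hfqv.ne h3
  -- coordinates
  have hdec : ∀ r : V, r - v = (g (r - v) / g w) • w + (f (r - v) / f (q - v)) • (q - v) := by
    intro r
    set x := r - v - ((g (r - v) / g w) • w + (f (r - v) / f (q - v)) • (q - v)) with hx
    have e1 : f x = 0 := by
      simp only [hx, map_sub f (r - v), map_add, map_smul, smul_eq_mul, hfw, mul_zero, zero_add]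
      rw [div_mul_cancel₀ _ hfqv.ne, sub_self]
    have e2 : g x = 0 := by
      simp only [hx, map_sub g (r - v), map_add, map_smul, smul_eq_mul, hgq, mul_zero, add_zero]
      rw [div_mul_cancel₀ _ hgw, sub_self]
    obtain ⟨t, ht⟩ := exists_smul_of_ker f hf hw hfw e1
    rw [ht, map_smul, smul_eq_mul, mul_eq_zero] at e2
    have ht0 : t = 0 := e2.resolve_right hgw
    rw [ht0, zero_smul] at ht
    exact sub_eq_zero.mp (hx ▸ ht)
  have hcont : Continuous fun r : V => |g (r - v) / g w| + f (r - v) / f (q - v) := by fun_prop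
  have hev : ∀ᶠ r in 𝓝 v, |g (r - v) / g w| + f (r - v) / f (q - v) < 1 := by
    apply hcont.continuousAt.eventually_lt continuousAt_const
    simp
  filter_upwards [hev] with r hr hrf
  set α := g (r - v) / g w with hα
  set β := f (r - v) / f (q - v) with hβ
  have hβ0 : 0 ≤ β := div_nonneg_of_nonpos (by simp; linarith) hfqv.le
  have hr' : r = v + (α • w + β • (q - v)) := by rw [← hdec r]; abel
  have hv : v ∈ X := by
    have : v = (1 / 2 : ℝ) • (v + w) + (1 / 2 : ℝ) • (v - w) := by module
    rw [this]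
    exact hX h1 h2 (by norm_num) (by norm_num) (by norm_num)
  rcases le_or_gt 0 α with ha | ha
  · rw [abs_of_nonneg ha] at hr
    -- r = (1-α-β) v + α (v+w) + β q
    have e3 : r = (1 - β) • ((1 - α / (1 - β)) • v + (α / (1 - β)) • (v + w)) + β • q := by
      have hb1 : 1 - β ≠ 0 := by nlinarith
      rw [hr']
      have : (1 - β) * (α / (1 - β)) = α := by field_simp
      calc v + (α • w + β • (q - v))
          = v + (((1 - β) * (α / (1 - β))) • w + β • (q - v)) := by rw [this]
        _ = _ := by module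
    have hb1 : 0 < 1 - β := by linarith
    rw [e3]
    refine hX (hX hv h1 ?_ ?_ (by ring)) hq hb1.le hβ0 (by ring)
    · rw [sub_nonneg, div_le_one hb1]; linarith
    · positivity
  · rw [abs_of_neg ha] at hr
    have hb1 : 0 < 1 - β := by linarith
    have e3 : r = (1 - β) • ((1 - (-α) / (1 - β)) • v + ((-α) / (1 - β)) • (v - w)) + β • q := by
      have hb1' : 1 - β ≠ 0 := hb1.ne'
      rw [hr']
      have : (1 - β) * ((-α) / (1 - β)) = -α := by field_simp
      calc v + (α • w + β • (q - v))
          = v + ((-((1 - β) * ((-α) / (1 - β)))) • w + β • (q - v)) := by rw [this, neg_neg]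
        _ = _ := by module
    rw [e3]
    refine hX (hX hv h2 ?_ ?_ (by ring)) hq hb1.le hβ0 (by ring)
    · rw [sub_nonneg, div_le_one hb1]; linarith
    · exact div_nonneg (by linarith) hb1.le

/-- **Claim B**: at an interior point extreme in some cell at most one cell is not extreme. -/
theorem Tiling.claimB (h : Tiling D P) {v : V} {i j k : ι} (hjk : j ≠ k)
    (hi : v ∈ (P i).extremePoints ℝ) (hj : v ∈ P j) (hj' : v ∉ (P j).extremePoints ℝ)
    (hk : v ∈ P k) (hk' : v ∉ (P k).extremePoints ℝ) : False := by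
  obtain ⟨f, c, hf, h1, h2⟩ := h.sep hjk
  have hvc : f v = c := le_antisymm (h1 v hj) (h2 v hk)
  have hij : i ≠ j := fun h0 => hj' (h0 ▸ hi)
  have hik : i ≠ k := fun h0 => hk' (h0 ▸ hi)
  obtain ⟨w, hw, hw1, hw2⟩ := exists_sym_of_not_extreme (h.conv j) hj hj'
  obtain ⟨w', hw', hw1', hw2'⟩ := exists_sym_of_not_extreme (h.conv k) hk hk'
  have hfw : f w = 0 := by
    have a1 := h1 _ hw1
    have a2 := h1 _ hw2
    simp only [map_add, map_sub] at a1 a2
    linarith
  have hfw' : f w' = 0 := by
    have a1 := h2 _ hw1'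
    have a2 := h2 _ hw2'
    simp only [map_add, map_sub] at a1 a2
    linarith
  obtain ⟨q, hq⟩ := h.int j
  obtain ⟨q', hq'⟩ := h.int k
  have hqc : f q < f v := hvc ▸ lt_of_mem_interior f hf h1 hq
  have hqc' : (-f) q' < (-f) v := by
    have := gt_of_mem_interior f hf h2 hq'
    simp only [neg_apply, neg_lt_neg_iff]
    rw [hvc]
    exact this
  have n1 := half_nhds (h.conv j) hw hw1 hw2 (interior_subset hq) f hfw hqc
  have n2 := half_nhds (h.conv k) hw' hw1' hw2' (interior_subset hq') (-f) (by simp [hfw'])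
    hqc'
  have hcl : v ∈ closure (interior (P i)) := h.reg i hi.1
  rw [mem_closure_iff_frequently] at hcl
  obtain ⟨r, hr, hr1, hr2⟩ := (hcl.and_eventually (n1.and n2)).exists
  rcases le_total (f r) (f v) with h3 | h3
  · exact h.int_disj hij hr (hr1 h3)
  · exact h.int_disj hik hr (hr2 (by simpa using h3))

/-- **Claim C**: a shared boundary point is extreme in every cell containing it. -/
theorem Tiling.claimC (h : Tiling D P) {v : V} (hv : v ∈ frontier D) {i j : ι} (hij : i ≠ j)
    (hi : v ∈ P i) (hj : v ∈ P j) : v ∈ (P i).extremePoints ℝ := by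
  have : Nonempty ι := ⟨i⟩
  by_contra hne
  obtain ⟨f, hf, hfD⟩ := h.support hv
  obtain ⟨w, hw, hw1, hw2⟩ := exists_sym_of_not_extreme (h.conv i) hi hne
  have hfw : f w = 0 := by
    have a1 := hfD _ (h.sub i hw1)
    have a2 := hfD _ (h.sub i hw2)
    simp only [map_add, map_sub] at a1 a2
    linarith
  obtain ⟨q, hq⟩ := h.int i
  have hqc : f q < f v := lt_of_mem_interior f hf (fun x hx => hfD x (h.sub i hx)) hq
  have n1 := half_nhds (h.conv i) hw hw1 hw2 (interior_subset hq) f hfw hqc
  have hcl : v ∈ closure (interior (P j)) := h.reg j hj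
  rw [mem_closure_iff_frequently] at hcl
  obtain ⟨r, hr, hr1⟩ := (hcl.and_eventually n1).exists
  exact h.int_disj hij.symm hr (hr1 (hfD r (h.sub j (interior_subset hr))))

end W82
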