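import Pool.Agent.W82_c2305b.Kirch

/-!
The partition lemma: a convex domain covered by pairwise noncrossing convex sets is partitioned
into convex cells, each cut out of the domain by finitely many half-planes.
-/

open Set Module

namespace W82

/-- The regular part of a closed set. -/
def reg (X : Set V) : Set V := closure (interior X)

theorem reg_sub {X : Set V} (hX : IsClosed X) : reg X ⊆ X :=
  closure_minimal interior_subset hX

theorem reg_conv {X : Set V} (hX : Convex ℝ X) : Convex ℝ (reg X) := hX.interior.closure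

theorem interior_sub_interior_reg (X : Set V) : interior X ⊆ interior (reg X) :=
  interior_maximal subset_closure isOpen_interior

theorem reg_reg (X : Set V) : reg X ⊆ closure (interior (reg X)) :=
  closure_mono (interior_sub_interior_reg X)

theorem reg_eq {X : Set V} (hX : Convex ℝ X) (hc : IsClosed X) (hi : (interior X).Nonempty) :
    reg X = X := by
  rw [reg, hX.closure_interior_eq_closure_of_nonempty_interior hi, hc.closure_eq]

theorem lt_of_mem_interior (f : V →L[ℝ] ℝ) (hf : f ≠ 0) {S : Set V} {c : ℝ}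
    (h : ∀ y ∈ S, f y ≤ c) {x : V} (hx : x ∈ interior S) : f x < c := by
  have ho : IsOpen (f '' interior S) := f.isOpenMap_of_ne_zero hf _ isOpen_interior
  have hsub : f '' interior S ⊆ interior (Iic c) :=
    interior_maximal (by rintro _ ⟨y, hy, rfl⟩; exact h y (interior_subset hy)) ho
  rw [interior_Iic] at hsub
  exact hsub ⟨x, hx, rfl⟩

theorem gt_of_mem_interior (f : V →L[ℝ] ℝ) (hf : f ≠ 0) {S : Set V} {c : ℝ}
    (h : ∀ y ∈ S, c ≤ f y) {x : V} (hx : x ∈ interior S) : c < f x := by
  have := lt_of_mem_interior (-f) (neg_ne_zero.mpr hf) (S := S) (c := -c)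
    (fun y hy => by simpa using h y hy) hx
  simpa using this

/-- Regular noncrossing family. -/
structure Good {ι : Type*} (C : ι → Set V) : Prop where
  conv : ∀ i, Convex ℝ (C i)
  closed : ∀ i, IsClosed (C i)
  regular : ∀ i, C i ⊆ closure (interior (C i))
  nc : ∀ i j, i ≠ j → ¬ Cross (C i) (C j)

theorem not_cross_empty_left (X : Set V) : ¬ Cross ∅ X := by
  rintro ⟨a, ha, -⟩
  exact ha.1

theorem not_cross_empty_right (X : Set V) : ¬ Cross X ∅ := fun h =>
  not_cross_empty_left X h.symm

/-- Dropping a member contained in another one. -/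
theorem step_drop {ι : Type*} [DecidableEq ι] {C : ι → Set V} (hC : Good C) {i j : ι}
    (hij : i ≠ j) (hsub : C i ⊆ C j) :
    ∃ C' : ι → Set V, Good C' ∧ (∀ k, C' k ⊆ C k) ∧ (⋃ k, C k) ⊆ ⋃ k, C' k ∧
      ¬ (interior (C' i) ∩ interior (C' j)).Nonempty := by
  refine ⟨Function.update C i ∅, ⟨?_, ?_, ?_, ?_⟩, ?_, ?_, ?_⟩
  · intro k
    by_cases hk : k = i
    · subst hk; simpa using convex_empty
    · simpa [Function.update_of_ne hk] using hC.conv k
  · intro k
    by_cases hk : k = i
    · subst hk; simp
    · simpa [Function.update_of_ne hk] using hC.closed k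
  · intro k
    by_cases hk : k = i
    · subst hk; simp
    · simpa [Function.update_of_ne hk] using hC.regular k
  · intro k l hkl
    by_cases hk : k = i
    · subst hk
      simpa using not_cross_empty_left _
    · by_cases hl : l = i
      · subst hl
        simpa using not_cross_empty_right _
      · simpa [Function.update_of_ne hk, Function.update_of_ne hl] using hC.nc k l hkl
  · intro k
    by_cases hk : k = i
    · subst hk; simp
    · simp [Function.update_of_ne hk]
  · intro x hx
    obtain ⟨k, hk⟩ := mem_iUnion.mp hx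
    by_cases hki : k = i
    · subst hki
      refine mem_iUnion.mpr ⟨j, ?_⟩
      rw [Function.update_of_ne hij.symm]
      exact hsub hk
    · refine mem_iUnion.mpr ⟨k, ?_⟩
      rw [Function.update_of_ne hki]
      exact hk
  · simp

section Trim

variable {ι : Type*} (C : ι → Set V) (A B : Set V) (f : V →L[ℝ] ℝ) (c : ℝ)

/-- `X` is on the `A`-side. -/
def SideA (A : Set V) (f : V →L[ℝ] ℝ) (c : ℝ) (X : Set V) : Prop := ∀ x ∈ X, c < f x → x ∈ A

/-- `X` is on the `B`-side. -/
def SideB (B : Set V) (f : V →L[ℝ] ℝ) (c : ℝ) (X : Set V) : Prop := ∀ x ∈ X, f x < c → x ∈ B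

open Classical in
/-- The trimmed set. -/
noncomputable def trim (A B : Set V) (f : V →L[ℝ] ℝ) (c : ℝ) (X : Set V) : Set V :=
  X ∩ (if SideA A f c X then {p | f p ≤ c} else univ) ∩
    (if SideB B f c X then {p | c ≤ f p} else univ)

variable {A B f c}

theorem trim_sub (X : Set V) : trim A B f c X ⊆ X := fun _ hx => hx.1.1

theorem trim_conv {X : Set V} (hX : Convex ℝ X) : Convex ℝ (trim A B f c X) := by
  unfold trim
  refine (hX.inter ?_).inter ?_
  · split_ifs
    · exact convex_halfSpace_le f.isLinear c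
    · exact convex_univ
  · split_ifs
    · exact convex_halfSpace_ge f.isLinear c
    · exact convex_univ

theorem trim_closed {X : Set V} (hX : IsClosed X) : IsClosed (trim A B f c X) := by
  unfold trim
  refine (hX.inter ?_).inter ?_
  · split_ifs
    · exact isClosed_le f.continuous continuous_const
    · exact isClosed_univ
  · split_ifs
    · exact isClosed_le continuous_const f.continuous
    · exact isClosed_univ

theorem trim_le {X : Set V} (h : SideA A f c X) {p : V} (hp : p ∈ trim A B f c X) : f p ≤ c := by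
  unfold trim at hp
  rw [if_pos h] at hp
  exact hp.1.2

theorem trim_ge {X : Set V} (h : SideB B f c X) {p : V} (hp : p ∈ trim A B f c X) : c ≤ f p := by
  unfold trim at hp
  rw [if_pos h] at hp
  exact hp.2

theorem trim_of_A {X : Set V} (h : SideA A f c X) (h' : ¬ SideB B f c X) :
    trim A B f c X = X ∩ {p | f p ≤ c} := by
  unfold trim
  rw [if_pos h, if_neg h', inter_univ]

theorem trim_of_B {X : Set V} (h : ¬ SideA A f c X) (h' : SideB B f c X) :
    trim A B f c X = X ∩ {p | c ≤ f p} := by
  unfold trim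
  rw [if_neg h, if_pos h', inter_univ]

theorem trim_of_none {X : Set V} (h : ¬ SideA A f c X) (h' : ¬ SideB B f c X) :
    trim A B f c X = X := by
  unfold trim
  rw [if_neg h, if_neg h', inter_univ, inter_univ]

theorem not_both {X : Set V} (hf : f ≠ 0) (hi : (interior (trim A B f c X)).Nonempty)
    (h : SideA A f c X) (h' : SideB B f c X) : False := by
  obtain ⟨x, hx⟩ := hi
  have h1 := lt_of_mem_interior f hf (fun y hy => trim_le h hy) hx
  have h2 := gt_of_mem_interior f hf (fun y hy => trim_ge h' hy) hx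
  linarith

theorem neg_set (X : Set V) : (X ∩ {p | (-f) p ≤ -c}) = X ∩ {p | c ≤ f p} := by
  ext p
  simp

/-- Trimming creates no crossing. -/
theorem not_cross_trim {X E : Set V} (hX : Convex ℝ X) (hE : Convex ℝ E) (h : ¬ Cross X E)
    (hf : f ≠ 0) (hXi : (interior (trim A B f c X)).Nonempty)
    (hEi : (interior (trim A B f c E)).Nonempty) :
    ¬ Cross (trim A B f c X) (trim A B f c E) := by
  by_cases xa : SideA A f c X
  · have xb : ¬ SideB B f c X := fun xb => not_both hf hXi xa xb
    by_cases ea : SideA A f c E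
    · have eb : ¬ SideB B f c E := fun eb => not_both hf hEi ea eb
      rw [trim_of_A xa xb, trim_of_A ea eb]
      rintro ⟨a, ha, a', ha', b, hb, b', hb', z, hz1, hz2⟩
      exact h ⟨a, ⟨ha.1.1, fun h0 => ha.2 ⟨h0, ha.1.2⟩⟩, a',
        ⟨ha'.1.1, fun h0 => ha'.2 ⟨h0, ha'.1.2⟩⟩, b, ⟨hb.1.1, fun h0 => hb.2 ⟨h0, hb.1.2⟩⟩, b',
        ⟨hb'.1.1, fun h0 => hb'.2 ⟨h0, hb'.1.2⟩⟩, z, hz1, hz2⟩
    · by_cases eb : SideB B f c E
      · exact not_cross_of_sep (trim_conv hX) (trim_conv hE) f hf c (fun x hx => trim_le xa hx)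
          (fun x hx => trim_ge eb hx)
      · rw [trim_of_A xa xb, trim_of_none ea eb]
        intro hcr
        have := key_trim hX hE h f c hcr
        exact ea fun w hw hwc => xa w (this w hw hwc) hwc
  · by_cases xb : SideB B f c X
    · by_cases ea : SideA A f c E
      · rw [cross_comm]
        exact not_cross_of_sep (trim_conv hE) (trim_conv hX) f hf c (fun x hx => trim_le ea hx)
          (fun x hx => trim_ge xb hx)
      · by_cases eb : SideB B f c E
        · rw [trim_of_B xa xb, trim_of_B ea eb]
          rintro ⟨a, ha, a', ha', b, hb, b', hb', z, hz1, hz2⟩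
          exact h ⟨a, ⟨ha.1.1, fun h0 => ha.2 ⟨h0, ha.1.2⟩⟩, a',
            ⟨ha'.1.1, fun h0 => ha'.2 ⟨h0, ha'.1.2⟩⟩, b, ⟨hb.1.1, fun h0 => hb.2 ⟨h0, hb.1.2⟩⟩,
            b', ⟨hb'.1.1, fun h0 => hb'.2 ⟨h0, hb'.1.2⟩⟩, z, hz1, hz2⟩
        · rw [trim_of_B xa xb, trim_of_none ea eb, ← neg_set]
          intro hcr
          have := key_trim hX hE h (-f) (-c) hcr
          exact eb fun w hw hwc => xb w (this w hw (by simpa using hwc)) hwc
    · rw [trim_of_none xa xb]
      by_cases ea : SideA A f c E
      · have eb : ¬ SideB B f c E := fun eb => not_both hf hEi ea eb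
        rw [trim_of_A ea eb, cross_comm]
        intro hcr
        have := key_trim hE hX (fun h0 => h h0.symm) f c hcr
        exact xa fun w hw hwc => ea w (this w hw hwc) hwc
      · by_cases eb : SideB B f c E
        · rw [trim_of_B ea eb, cross_comm, ← neg_set]
          intro hcr
          have := key_trim hE hX (fun h0 => h h0.symm) (-f) (-c) hcr
          exact xb fun w hw hwc => eb w (this w hw (by simpa using hwc)) hwc
        · rw [trim_of_none ea eb]
          exact h

end Trim

/-- One step of the untangling: an overlapping pair is separated. -/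
theorem step {ι : Type*} [Finite ι] {C : ι → Set V} (hC : Good C) {i j : ι}
    (hij : i ≠ j) :
    ∃ C' : ι → Set V, Good C' ∧ (∀ k, C' k ⊆ C k) ∧ (⋃ k, C k) ⊆ ⋃ k, C' k ∧
      ¬ (interior (C' i) ∩ interior (C' j)).Nonempty := by
  classical
  by_cases h1 : C i ⊆ C j
  · exact step_drop hC hij h1
  by_cases h2 : C j ⊆ C i
  · obtain ⟨C', a, b, c, d⟩ := step_drop hC hij.symm h2
    exact ⟨C', a, b, c, by rwa [inter_comm]⟩
  obtain ⟨f, c, hf, hA, hB, x0, hx0, hx0c⟩ := exists_sep (hC.conv i) (hC.conv j) (hC.closed j)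
    (hC.regular i) (hC.nc i j hij) h1 h2
  -- a point of `C j \ C i` strictly on the other side
  have hy0 : ∃ y ∈ C j \ C i, c < f y := by
    have hne : (interior (C j) \ C i).Nonempty := by
      by_contra hcon
      rw [not_nonempty_iff_eq_empty, sdiff_eq_empty] at hcon
      exact h2 ((hC.regular j).trans (closure_minimal hcon (hC.closed i)))
    obtain ⟨y, hy⟩ := hne
    have ho : IsOpen (interior (C j) \ C i) := isOpen_interior.sdiff (hC.closed i)
    refine ⟨y, ⟨interior_subset hy.1, hy.2⟩, ?_⟩
    refine gt_of_mem_interior f hf (S := interior (C j) \ C i)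
      (fun z hz => hB z ⟨interior_subset hz.1, hz.2⟩) ?_
    rwa [ho.interior_eq]
  obtain ⟨y0, hy0, hy0c⟩ := hy0
  have hAA : SideA (C i) f c (C i) := fun x hx _ => hx
  have hBB : SideB (C j) f c (C j) := fun x hx _ => hx
  have hAB : ¬ SideB (C j) f c (C i) := fun h => hx0.2 (h x0 hx0.1 hx0c)
  have hBA : ¬ SideA (C i) f c (C j) := fun h => hy0.2 (h y0 hy0.1 hy0c)
  have hTi : trim (C i) (C j) f c (C i) = C i ∩ {p | f p ≤ c} := trim_of_A hAA hAB
  have hTj : trim (C i) (C j) f c (C j) = C j ∩ {p | c ≤ f p} := trim_of_B hBA hBB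
  have hclT : ∀ k, IsClosed (trim (C i) (C j) f c (C k)) := fun k => trim_closed (hC.closed k)
  refine ⟨fun k => reg (trim (C i) (C j) f c (C k)), ⟨?_, ?_, ?_, ?_⟩, ?_, ?_, ?_⟩
  · intro k
    exact reg_conv (trim_conv (hC.conv k))
  · intro k
    exact isClosed_closure
  · intro k
    exact reg_reg _
  · intro k l hkl
    by_cases hk : (interior (trim (C i) (C j) f c (C k))).Nonempty
    · by_cases hl : (interior (trim (C i) (C j) f c (C l))).Nonempty
      · rw [reg_eq (trim_conv (hC.conv k)) (hclT k) hk, reg_eq (trim_conv (hC.conv l)) (hclT l) hl]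
        exact not_cross_trim (hC.conv k) (hC.conv l) (hC.nc k l hkl) hf hk hl
      · rw [not_nonempty_iff_eq_empty] at hl
        simp only [reg, hl, closure_empty]
        exact not_cross_empty_right _
    · rw [not_nonempty_iff_eq_empty] at hk
      simp only [reg, hk, closure_empty]
      exact not_cross_empty_left _
  · intro k
    exact (reg_sub (hclT k)).trans (trim_sub _)
  · -- the union is preserved
    have hclU : IsClosed (⋃ k, reg (trim (C i) (C j) f c (C k))) :=
      isClosed_iUnion_of_finite fun k => isClosed_closure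
    have hdense : Dense {x : V | f x ≠ c} := by
      have : Dense (f ⁻¹' {c}ᶜ) := (dense_compl_singleton c).preimage (f.isOpenMap_of_ne_zero hf)
      exact this
    have main : ∀ k, ∀ p ∈ interior (C k), f p ≠ c →
        p ∈ ⋃ k, reg (trim (C i) (C j) f c (C k)) := by
      intro k p hp hpc
      rcases lt_or_gt_of_ne hpc with hlt | hgt
      · have ho : IsOpen (interior (C k) ∩ {x | f x < c}) :=
          isOpen_interior.inter (isOpen_lt f.continuous continuous_const)
        have hpo : p ∈ interior (C k) ∩ {x | f x < c} := ⟨hp, hlt⟩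
        by_cases hkB : SideB (C j) f c (C k)
        · refine mem_iUnion.mpr ⟨i, subset_closure (interior_maximal ?_ ho hpo)⟩
          rw [hTi]
          intro x hx
          refine ⟨?_, show f x ≤ c from le_of_lt hx.2⟩
          by_contra hxi
          have hxj : x ∈ C j := hkB x (interior_subset hx.1) hx.2
          exact absurd (hB x ⟨hxj, hxi⟩) (not_le.mpr hx.2)
        · refine mem_iUnion.mpr ⟨k, subset_closure (interior_maximal ?_ ho hpo)⟩
          intro x hx
          refine ⟨⟨interior_subset hx.1, ?_⟩, ?_⟩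
          · split_ifs
            · exact (show f x ≤ c from le_of_lt hx.2)
            · trivial
          · rw [if_neg hkB]
            trivial
      · have ho : IsOpen (interior (C k) ∩ {x | c < f x}) :=
          isOpen_interior.inter (isOpen_lt continuous_const f.continuous)
        have hpo : p ∈ interior (C k) ∩ {x | c < f x} := ⟨hp, hgt⟩
        by_cases hkA : SideA (C i) f c (C k)
        · refine mem_iUnion.mpr ⟨j, subset_closure (interior_maximal ?_ ho hpo)⟩
          rw [hTj]
          intro x hx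
          refine ⟨?_, show c ≤ f x from le_of_lt hx.2⟩
          by_contra hxj
          have hxi : x ∈ C i := hkA x (interior_subset hx.1) hx.2
          exact absurd (hA x ⟨hxi, hxj⟩) (not_le.mpr hx.2)
        · refine mem_iUnion.mpr ⟨k, subset_closure (interior_maximal ?_ ho hpo)⟩
          intro x hx
          refine ⟨⟨interior_subset hx.1, ?_⟩, ?_⟩
          · rw [if_neg hkA]
            trivial
          · split_ifs
            · exact (show c ≤ f x from le_of_lt hx.2)
            · trivial
    refine iUnion_subset fun k => ?_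
    refine (hC.regular k).trans (closure_minimal ?_ hclU)
    refine (hdense.open_subset_closure_inter isOpen_interior).trans (closure_minimal ?_ hclU)
    rintro p ⟨hp, hpc⟩
    exact main k p hp hpc
  · rintro ⟨x, hx1, hx2⟩
    have e1 : f x < c := lt_of_mem_interior f hf
      (fun y hy => trim_le hAA (reg_sub (hclT i) hy)) hx1
    have e2 : c < f x := gt_of_mem_interior f hf
      (fun y hy => trim_ge hBB (reg_sub (hclT j) hy)) hx2
    linarith

/-- Untangling: a regular noncrossing family can be shrunk to a nonoverlapping one with the same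
union. -/
theorem untangle {ι : Type*} [Finite ι] {C : ι → Set V} (hC : Good C) :
    ∃ C' : ι → Set V, Good C' ∧ (∀ k, C' k ⊆ C k) ∧ (⋃ k, C k) ⊆ ⋃ k, C' k ∧
      ∀ i j, i ≠ j → ¬ (interior (C' i) ∩ interior (C' j)).Nonempty := by
  -- the set of overlapping pairs
  let ov : (ι → Set V) → Set (ι × ι) := fun C =>
    {p | p.1 ≠ p.2 ∧ (interior (C p.1) ∩ interior (C p.2)).Nonempty}
  have main : ∀ n : ℕ, ∀ C : ι → Set V, Good C → (ov C).ncard ≤ n →
      ∃ C' : ι → Set V, Good C' ∧ (∀ k, C' k ⊆ C k) ∧ (⋃ k, C k) ⊆ ⋃ k, C' k ∧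
      ∀ i j, i ≠ j → ¬ (interior (C' i) ∩ interior (C' j)).Nonempty := by
    intro n
    induction n with
    | zero =>
      intro C hC hn
      refine ⟨C, hC, fun _ => Subset.rfl, Subset.rfl, ?_⟩
      intro i j hij hne
      have : ov C = ∅ := (Set.ncard_eq_zero (Set.toFinite _)).mp (Nat.le_zero.mp hn)
      have hmem : (i, j) ∈ ov C := ⟨hij, hne⟩
      rw [this] at hmem
      exact hmem
    | succ n ih =>
      intro C hC hn
      by_cases hex : ∃ i j, i ≠ j ∧ (interior (C i) ∩ interior (C j)).Nonempty
      · obtain ⟨i, j, hij, hne⟩ := hex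
        obtain ⟨C1, g1, s1, u1, d1⟩ := step hC hij
        have hlt : (ov C1).ncard < (ov C).ncard := by
          refine Set.ncard_lt_ncard ?_ (Set.toFinite _)
          refine ⟨?_, ?_⟩
          · rintro ⟨k, l⟩ ⟨hkl, x, hx1, hx2⟩
            exact ⟨hkl, x, interior_mono (s1 k) hx1, interior_mono (s1 l) hx2⟩
          · intro hsub
            have : (i, j) ∈ ov C := ⟨hij, hne⟩
            exact d1 (hsub this).2
        obtain ⟨C2, g2, s2, u2, d2⟩ := ih C1 g1 (by omega)
        exact ⟨C2, g2, fun k => (s2 k).trans (s1 k), u1.trans u2, d2⟩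
      · push Not at hex
        refine ⟨C, hC, fun _ => Subset.rfl, Subset.rfl, ?_⟩
        intro i j hij hne
        exact hne.ne_empty (hex i j hij)
  exact main _ C hC le_rfl

/-- **Partition lemma.** A closed convex set with interior points, covered by finitely many
pairwise noncrossing closed convex sets with interior points, is the union of convex cells, each
contained in its covering set, cut out by finitely many half-planes, with disjoint interiors. -/
theorem partition {ι : Type*} [Finite ι] {K : ι → Set V} (hconv : ∀ i, Convex ℝ (K i))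
    (hclosed : ∀ i, IsClosed (K i)) (hint : ∀ i, (interior (K i)).Nonempty)
    (hnc : ∀ i j, i ≠ j → ¬ Cross (K i) (K j)) {D : Set V} (hD : Convex ℝ D) (hDc : IsClosed D)
    (hDi : (interior D).Nonempty) (hcov : D ⊆ ⋃ i, K i) :
    ∃ (J : Set ι) (P : ι → Set V) (f : ι → ι → V →L[ℝ] ℝ) (c : ι → ι → ℝ),
      (∀ i ∈ J, ∀ j ∈ J, i ≠ j → f i j ≠ 0 ∧ f j i = - f i j ∧ c j i = - c i j) ∧
      (∀ i ∈ J, P i = {x | x ∈ D ∧ ∀ j ∈ J, i ≠ j → f i j x ≤ c i j}) ∧
      (∀ i ∈ J, P i ⊆ K i) ∧ (∀ i ∈ J, (interior (P i)).Nonempty) ∧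
      D = ⋃ i ∈ J, P i := by
  classical
  have hgood : Good K := by
    refine ⟨hconv, hclosed, fun i => ?_, hnc⟩
    rw [(hconv i).closure_interior_eq_closure_of_nonempty_interior (hint i)]
    exact subset_closure
  obtain ⟨C, hC, hCK, hKC, hdis⟩ := untangle hgood
  -- regular parts inside `D`
  set R : ι → Set V := fun i => reg (C i ∩ D) with hR
  have hRc : ∀ i, IsClosed (R i) := fun i => isClosed_closure
  have hRconv : ∀ i, Convex ℝ (R i) := fun i => reg_conv ((hC.conv i).inter hD)
  have hRsub : ∀ i, R i ⊆ C i ∩ D := fun i => reg_sub ((hC.closed i).inter hDc)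
  have hRreg : ∀ i, R i ⊆ closure (interior (R i)) := fun i => reg_reg _
  have hDR : D ⊆ ⋃ i, R i := by
    have hclU : IsClosed (⋃ i, R i) := isClosed_iUnion_of_finite fun i => hRc i
    have hDD : D ⊆ closure (interior D) := by
      rw [hD.closure_interior_eq_closure_of_nonempty_interior hDi]
      exact subset_closure
    refine hDD.trans (closure_minimal ?_ hclU)
    intro p hp
    obtain ⟨i, hi⟩ := mem_iUnion.mp (hKC (hcov (interior_subset hp)))
    have h1 : p ∈ interior D ∩ closure (interior (C i)) := ⟨hp, hC.regular i hi⟩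
    have h2 := isOpen_interior.inter_closure h1
    refine mem_iUnion.mpr ⟨i, ?_⟩
    have h3 : R i = closure (interior D ∩ interior (C i)) := by
      simp only [hR, reg, interior_inter, inter_comm]
    rw [h3]
    exact h2
  set J : Set ι := {i | (interior (R i)).Nonempty} with hJ
  have hRJ : ∀ i, i ∉ J → R i = ∅ := by
    intro i hi
    have : interior (R i) = ∅ := not_nonempty_iff_eq_empty.mp hi
    have h2 := hRreg i
    rw [this, closure_empty] at h2
    exact subset_empty_iff.mp h2
  have hRd : ∀ i j, i ≠ j → Disjoint (interior (R i)) (interior (R j)) := by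
    intro i j hij
    rw [Set.disjoint_left]
    intro x hx1 hx2
    exact hdis i j hij ⟨x, interior_mono ((hRsub i).trans inter_subset_left) hx1,
      interior_mono ((hRsub j).trans inter_subset_left) hx2⟩
  -- separating functionals
  have hsep : ∀ i j, i ∈ J → j ∈ J → i ≠ j → ∃ (g : V →L[ℝ] ℝ) (u : ℝ), g ≠ 0 ∧
      (∀ x ∈ R i, g x ≤ u) ∧ (∀ x ∈ R j, u ≤ g x) := by
    intro i j hi hj hij
    obtain ⟨g, u, h1, h2⟩ := geometric_hahn_banach_open_open (hRconv i).interior isOpen_interior
      (hRconv j).interior isOpen_interior (hRd i j hij)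
    obtain ⟨x, hx⟩ := hi
    obtain ⟨y, hy⟩ := hj
    have e1 := h1 x hx
    have e2 := h2 y hy
    refine ⟨g, u, ?_, ?_, ?_⟩
    · rintro rfl
      simp at e1 e2
      linarith
    · intro z hz
      have : closure (interior (R i)) ⊆ {x | g x ≤ u} :=
        closure_minimal (fun w hw => (h1 w hw).le) (isClosed_le g.continuous continuous_const)
      exact this (hRreg i hz)
    · intro z hz
      have : closure (interior (R j)) ⊆ {x | u ≤ g x} :=
        closure_minimal (fun w hw => (h2 w hw).le) (isClosed_le continuous_const g.continuous)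
      exact this (hRreg j hz)
  -- antisymmetric choice, using a linear order on `ι`
  obtain ⟨e, he⟩ : ∃ e : ι → ℕ, Function.Injective e := by
    have := Fintype.ofFinite ι
    exact ⟨fun i => (Fintype.equivFin ι i : ℕ), fun i j h =>
      (Fintype.equivFin ι).injective (Fin.ext h)⟩
  have hch : ∀ i j, ∃ (g : V →L[ℝ] ℝ) (u : ℝ), i ∈ J → j ∈ J → i ≠ j → g ≠ 0 ∧
      (∀ x ∈ R i, g x ≤ u) ∧ (∀ x ∈ R j, u ≤ g x) := by
    intro i j
    by_cases h : i ∈ J ∧ j ∈ J ∧ i ≠ j
    · obtain ⟨g, u, h1⟩ := hsep i j h.1 h.2.1 h.2.2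
      exact ⟨g, u, fun _ _ _ => h1⟩
    · exact ⟨0, 0, fun a b c => absurd ⟨a, b, c⟩ h⟩
  choose g u hgu using hch
  let f : ι → ι → V →L[ℝ] ℝ := fun i j => if e i < e j then g i j else - g j i
  let c : ι → ι → ℝ := fun i j => if e i < e j then u i j else - u j i
  have hfc : ∀ i ∈ J, ∀ j ∈ J, i ≠ j → f i j ≠ 0 ∧ f j i = - f i j ∧ c j i = - c i j ∧
      (∀ x ∈ R i, f i j x ≤ c i j) ∧ (∀ x ∈ R j, c i j ≤ f i j x) := by
    intro i hi j hj hij
    have hne : e i ≠ e j := fun h => hij (he h)
    rcases lt_or_gt_of_ne hne with h | h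
    · obtain ⟨h1, h2, h3⟩ := hgu i j hi hj hij
      have h' : ¬ e j < e i := by omega
      simp only [f, c, if_pos h, if_neg h']
      exact ⟨h1, by simp, by simp, h2, h3⟩
    · obtain ⟨h1, h2, h3⟩ := hgu j i hj hi hij.symm
      have h' : ¬ e i < e j := by omega
      simp only [f, c, if_pos h, if_neg h']
      refine ⟨neg_ne_zero.mpr h1, by simp, by simp, ?_, ?_⟩
      · intro x hx
        simpa using h3 x hx
      · intro x hx
        simpa using h2 x hx
  refine ⟨J, fun i => {x | x ∈ D ∧ ∀ j ∈ J, i ≠ j → f i j x ≤ c i j}, f, c, ?_, ?_, ?_, ?_, ?_⟩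
  · intro i hi j hj hij
    obtain ⟨h1, h2, h3, -, -⟩ := hfc i hi j hj hij
    exact ⟨h1, h2, h3⟩
  · intro i _
    rfl
  · -- P i ⊆ K i
    intro i hi
    have hconvP : Convex ℝ {x | x ∈ D ∧ ∀ j ∈ J, i ≠ j → f i j x ≤ c i j} := by
      have : {x | x ∈ D ∧ ∀ j ∈ J, i ≠ j → f i j x ≤ c i j} =
          D ∩ ⋂ (j : ι) (_ : j ∈ J) (_ : i ≠ j), {x | f i j x ≤ c i j} := by
        ext x; simp
      rw [this]
      exact hD.inter (convex_iInter fun j => convex_iInter fun _ => convex_iInter fun _ =>
        convex_halfSpace_le (f i j).isLinear _)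
    have hRP : R i ⊆ {x | x ∈ D ∧ ∀ j ∈ J, i ≠ j → f i j x ≤ c i j} := by
      intro x hx
      exact ⟨(hRsub i hx).2, fun j hj hij => (hfc i hi j hj hij).2.2.2.1 x hx⟩
    have hintP : interior {x | x ∈ D ∧ ∀ j ∈ J, i ≠ j → f i j x ≤ c i j} ⊆ R i := by
      intro x hx
      have hxD : x ∈ D := (interior_subset hx).1
      obtain ⟨j, hj⟩ := mem_iUnion.mp (hDR hxD)
      have hjJ : j ∈ J := by
        by_contra hcon
        rw [hRJ j hcon] at hj
        exact hj
      by_cases hij : i = j
      · subst hij; exact hj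
      · have h1 : f i j x < c i j := lt_of_mem_interior (f i j) (hfc i hi j hjJ hij).1
          (fun y hy => hy.2 j hjJ hij) hx
        have h2 := (hfc i hi j hjJ hij).2.2.2.2 x hj
        exact absurd h2 (not_le.mpr h1)
    have hne : (interior {x | x ∈ D ∧ ∀ j ∈ J, i ≠ j → f i j x ≤ c i j}).Nonempty :=
      (show (interior (R i)).Nonempty from hi).mono (interior_mono hRP)
    intro x hx
    have hx2 : x ∈ closure (interior {x | x ∈ D ∧ ∀ j ∈ J, i ≠ j → f i j x ≤ c i j}) := by
      rw [hconvP.closure_interior_eq_closure_of_nonempty_interior hne]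
      exact subset_closure hx
    have hx3 : x ∈ R i := closure_minimal hintP (hRc i) hx2
    exact hCK i (hRsub i hx3).1
  · intro i hi
    have hRP : R i ⊆ {x | x ∈ D ∧ ∀ j ∈ J, i ≠ j → f i j x ≤ c i j} := by
      intro x hx
      exact ⟨(hRsub i hx).2, fun j hj hij => (hfc i hi j hj hij).2.2.2.1 x hx⟩
    exact (show (interior (R i)).Nonempty from hi).mono (interior_mono hRP)
  · apply Subset.antisymm
    · intro x hx
      obtain ⟨i, hi⟩ := mem_iUnion.mp (hDR hx)
      have hiJ : i ∈ J := by
        by_contra hcon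
        rw [hRJ i hcon] at hi
        exact hi
      refine mem_iUnion₂.mpr ⟨i, hiJ, hx, fun j hj hij => (hfc i hiJ j hj hij).2.2.2.1 x hi⟩
    · refine iUnion₂_subset fun i _ => ?_
      intro x hx
      exact hx.1

end W82
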