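import Pool.Agent.W82_c2305b.Energy

/-!
Nearly equal frames at a good vertex.
-/

open Set Module Topology Filter MeasureTheory

namespace W82

open C2305b.TL (cr)
open C2305b.Rig (Am Off Pos Conv6 ar6 InBody)

variable {ι : Type*} {D : Set V} {P : ι → Set V}

theorem cr_Am {ν c s : ℝ} (h : c ^ 2 + ν * s ^ 2 = 1) (u v : V) :
    cr (Am ν c s u) (Am ν c s v) = cr u v := by
  simp only [cr, Am, PiLp.toLp_apply, Matrix.cons_val_zero, Matrix.cons_val_one]
  linear_combination (u 0 * v 1 - u 1 * v 0) * h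

theorem Am_sub (ν c s : ℝ) (u v : V) : Am ν c s (u - v) = Am ν c s u - Am ν c s v := by
  ext i
  fin_cases i
  · simp [Am]; ring
  · simp [Am]; ring

theorem Off_sub (ν co so : ℝ) (t : Bool) (u v : V) :
    Off ν co so t (u - v) = Off ν co so t u - Off ν co so t v := by
  cases t
  · rfl
  · exact Am_sub ν co so u v

theorem cr_Off {ν co so : ℝ} (h : co ^ 2 + ν * so ^ 2 = 1) (t : Bool) (u v : V) :
    cr (Off ν co so t u) (Off ν co so t v) = cr u v := by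
  cases t
  · rfl
  · exact cr_Am h u v

theorem Pos_sub (ν co so : ℝ) (t : Bool) (c s : ℝ) (o u v : V) :
    Pos ν co so t c s o u - Pos ν co so t c s o v = Am ν c s (Off ν co so t (u - v)) := by
  rw [Off_sub, Am_sub]
  simp [Pos]

theorem cr_Pos {ν co so c s : ℝ} (ho : co ^ 2 + ν * so ^ 2 = 1) (h : c ^ 2 + ν * s ^ 2 = 1)
    (t : Bool) (o x y z : V) :
    cr (Pos ν co so t c s o y - Pos ν co so t c s o x)
      (Pos ν co so t c s o z - Pos ν co so t c s o x) = cr (y - x) (z - x) := by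
  rw [Pos_sub, Pos_sub, cr_Am h, cr_Off ho]

theorem conv6_Pos {ν co so c s : ℝ} (ho : co ^ 2 + ν * so ^ 2 = 1) (h : c ^ 2 + ν * s ^ 2 = 1)
    (t : Bool) (o : V) (q : Fin 6 → V) :
    Conv6 (fun k => Pos ν co so t c s o (q k)) ↔ Conv6 q := by
  constructor
  · intro h1 i j k hij hjk
    have := h1 i j k hij hjk
    rw [rig_cr, cr_Pos ho h] at this
    exact this
  · intro h1 i j k hij hjk
    rw [rig_cr, cr_Pos ho h]
    exact h1 i j k hij hjk

/-- The shoelace area in terms of differences. -/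
theorem ar6_eq (q : Fin 6 → V) :
    ar6 q = (∑ k, cr (q k - q 0) (q (k + 1) - q 0)) / 2 := by
  have n2 : (0 : Fin 6) + 1 = 1 := rfl
  have n3 : (1 : Fin 6) + 1 = 2 := rfl
  have n4 : (2 : Fin 6) + 1 = 3 := rfl
  have n5 : (3 : Fin 6) + 1 = 4 := rfl
  have n6 : (4 : Fin 6) + 1 = 5 := rfl
  have n7 : (5 : Fin 6) + 1 = 0 := rfl
  simp only [ar6, Fin.sum_univ_six, n2, n3, n4, n5, n6, n7, rig_cr]
  simp [cr]
  ring

theorem ar6_Pos {ν co so c s : ℝ} (ho : co ^ 2 + ν * so ^ 2 = 1) (h : c ^ 2 + ν * s ^ 2 = 1)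
    (t : Bool) (o : V) (q : Fin 6 → V) :
    ar6 (fun k => Pos ν co so t c s o (q k)) = ar6 q := by
  rw [ar6_eq, ar6_eq]
  simp only [cr_Pos ho h]

/-- The cells lie in copies of the local bodies. -/
structure Cells (P : ι → Set V) (K0 : Set V) (ν ε a b co so : ℝ) (t : ι → Bool) (c s : ι → ℝ)
    (o : ι → V) : Prop where
  off : co ^ 2 + ν * so ^ 2 = 1
  fr : ∀ i, c i ^ 2 + ν * s i ^ 2 = 1
  loc : ∀ i, ∀ p ∈ P i, ∃ x : V, p = Pos ν co so (t i) (c i) (s i) (o i) x ∧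
    InBody K0 a b (t i) ((1 + ε)⁻¹ • x)

/-- The conclusion of the rigidity statement for fixed data. -/
def RigAt (K0 : Set V) (T6 ν ε a b co so η κ : ℝ) : Prop :=
  ∀ (t : Fin 3 → Bool) (c s : Fin 3 → ℝ) (o : Fin 3 → V) (q : Fin 3 → Fin 6 → V),
      (∀ i, c i ^ 2 + ν * s i ^ 2 = 1) → (∀ i, Conv6 (q i)) →
      (∀ i k, InBody K0 a b (t i) ((1 + ε)⁻¹ • q i k)) →
      (∀ i, T6 - η ≤ ar6 (q i)) →
      (∀ i, Pos ν co so (t i) (c i) (s i) (o i) (q i 0) =
        Pos ν co so (t (i+1)) (c (i+1)) (s (i+1)) (o (i+1)) (q (i+1) 0)) →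
      (∀ i, Pos ν co so (t i) (c i) (s i) (o i) (q i 5) =
        Pos ν co so (t (i+1)) (c (i+1)) (s (i+1)) (o (i+1)) (q (i+1) 1)) →
      ∀ i j, |c i * s j - s i * c j| ≤ κ

/-- **Rigidity at a good vertex.** -/
theorem Tiling.rigid [Finite ι] (h : Tiling D P)
    (hi : (interior (convexHull ℝ (Vb D P))).Nonempty) {K0 : Set V}
    {ν ε a b co so A6 T6 τ η κ : ℝ} {t : ι → Bool} {c s : ι → ℝ} {o : ι → V}
    (hC : Cells P K0 ν ε a b co so t c s o) (hT : T6 ≤ A6)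
    (hR : RigAt K0 T6 ν ε a b co so η κ) {v : V} (hv : GoodV D P (lossOf P A6 τ) η v)
    {i : {i : ι // (interior (convexHull ℝ (S P i))).Nonempty}} {w : V}
    (hE : (h.toTL hi).E i v w) :
    (∃ j, (h.toTL hi).E j w v) ∧ ∀ l m, v ∈ P l → v ∈ P m → |c l * s m - s l * c m| ≤ κ := by
  obtain ⟨hvF, hk3, hperf⟩ := hv
  obtain ⟨j, k, u, z, hu, hj, hjz, hkz, hku, hij, hik, hjk, hex⟩ := h.corner hi hvF hk3 hE
  refine ⟨⟨j, hj⟩, ?_⟩
  have hvi : v ∈ P i := h.hull_sub i hE.1.2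
  have hvj : v ∈ P j := h.hull_sub j hj.2.1.2
  have hvk : v ∈ P k := h.hull_sub k hku.1.2
  -- sextuples
  obtain ⟨qi, qi0, qi1, qi5, qic, qiS, qia⟩ := h.sextuple hi (hperf i hvi) hE hu
  obtain ⟨qk, qk0, qk1, qk5, qkc, qkS, qka⟩ := h.sextuple hi (hperf k hvk) hku hkz
  obtain ⟨qj, qj0, qj1, qj5, qjc, qjS, qja⟩ := h.sextuple hi (hperf j hvj) hjz hj
  -- local coordinates
  have hloc : ∀ (l : ι) (q : Fin 6 → V), (∀ m, q m ∈ S P l) → ∃ x : Fin 6 → V,
      (∀ m, q m = Pos ν co so (t l) (c l) (s l) (o l) (x m)) ∧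
      ∀ m, InBody K0 a b (t l) ((1 + ε)⁻¹ • x m) := by
    intro l q hq
    choose x hx using fun m => hC.loc l (q m) (hq m).1.1
    exact ⟨x, fun m => (hx m).1, fun m => (hx m).2⟩
  obtain ⟨xi, hxi, hbi⟩ := hloc i qi qiS
  obtain ⟨xk, hxk, hbk⟩ := hloc k qk qkS
  obtain ⟨xj, hxj, hbj⟩ := hloc j qj qjS
  have harea : ∀ (l : ι) (q x : Fin 6 → V), Perfect D P (lossOf P A6 τ) η l →
      (∀ m, q m = Pos ν co so (t l) (c l) (s l) (o l) (x m)) → Conv6 q →
      ar6 q = (volume (convexHull ℝ (S P l))).toReal → Conv6 x ∧ T6 - η ≤ ar6 x := by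
    intro l q x hpl hx hqc hqa
    have hq : q = fun m => Pos ν co so (t l) (c l) (s l) (o l) (x m) := funext hx
    constructor
    · rw [hq, conv6_Pos hC.off (hC.fr l)] at hqc
      exact hqc
    · rw [hq, ar6_Pos hC.off (hC.fr l)] at hqa
      have h1 := hpl.small
      rw [lossOf, hpl.card] at h1
      push_cast at h1
      rw [hqa]
      linarith
  obtain ⟨ci, ai⟩ := harea i qi xi (hperf i hvi) hxi qic qia
  obtain ⟨ck, ak⟩ := harea k qk xk (hperf k hvk) hxk qkc qka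
  obtain ⟨cj, aj⟩ := harea j qj xj (hperf j hvj) hxj qjc qja
  have hf := hR ![t i, t k, t j] ![c i, c k, c j] ![s i, s k, s j] ![o i, o k, o j]
    ![xi, xk, xj]
    (by intro m; fin_cases m; exacts [hC.fr i, hC.fr k, hC.fr j])
    (by intro m; fin_cases m; exacts [ci, ck, cj])
    (by intro m; fin_cases m; exacts [hbi, hbk, hbj])
    (by intro m; fin_cases m; exacts [ai, ak, aj])
    (by
      intro m
      fin_cases m
      · change Pos ν co so (t i) (c i) (s i) (o i) (xi 0) = Pos ν co so (t k) (c k) (s k) (o k) (xk 0)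
        rw [← hxi, ← hxk, qi0, qk0]
      · change Pos ν co so (t k) (c k) (s k) (o k) (xk 0) = Pos ν co so (t j) (c j) (s j) (o j) (xj 0)
        rw [← hxk, ← hxj, qk0, qj0]
      · change Pos ν co so (t j) (c j) (s j) (o j) (xj 0) = Pos ν co so (t i) (c i) (s i) (o i) (xi 0)
        rw [← hxj, ← hxi, qj0, qi0])
    (by
      intro m
      fin_cases m
      · change Pos ν co so (t i) (c i) (s i) (o i) (xi 5) = Pos ν co so (t k) (c k) (s k) (o k) (xk 1)
        rw [← hxi, ← hxk, qi5, qk1]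
      · change Pos ν co so (t k) (c k) (s k) (o k) (xk 5) = Pos ν co so (t j) (c j) (s j) (o j) (xj 1)
        rw [← hxk, ← hxj, qk5, qj1]
      · change Pos ν co so (t j) (c j) (s j) (o j) (xj 5) = Pos ν co so (t i) (c i) (s i) (o i) (xi 1)
        rw [← hxj, ← hxi, qj5, qi1])
  -- all pairs
  have hall : ∀ l, v ∈ P l → ∃ m : Fin 3, c l = (![c i, c k, c j] : Fin 3 → ℝ) m ∧
      s l = (![s i, s k, s j] : Fin 3 → ℝ) m := by
    intro l hl
    rcases hex l hl with rfl | rfl | rfl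
    · exact ⟨0, rfl, rfl⟩
    · exact ⟨2, rfl, rfl⟩
    · exact ⟨1, rfl, rfl⟩
  intro l m hl hm
  obtain ⟨l', hl1, hl2⟩ := hall l hl
  obtain ⟨m', hm1, hm2⟩ := hall m hm
  rw [hl1, hl2, hm1, hm2]
  exact hf l' m'

end W82
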