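import Pool.Agent.W_c2305b_h35.Flux

/-!
Selection of a block: pure combinatorics, and disjointness of open sides.
-/

open Set Module Finset

namespace W82

/-- **Selection.** Among `nb` blocks, outside `Ex`, some block has many good sides and small
cost. -/
theorem select_block {b W nb E : ℕ} (hnb : nb * W ≤ b) (good : ℕ → ℕ)
    (cost : ℕ → ℝ) (Ex : Finset ℕ) (hEx : Ex.card ≤ E) {c K : ℝ} (hc : 0 < c) (hK : 0 < K)
    (hgood : ∀ β < nb, good β ≤ W) (hcost : ∀ β, 0 ≤ cost β)
    (hk : 4 * c * b ≤ (∑ β ∈ range nb, (good β : ℝ)) + W)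
    (hcs : ∑ β ∈ (range nb) \ Ex, cost β ≤ K * b) (hb : 0 < b)
    (hbig : (E + 1) * W ≤ 2 * c * b) :
    ∃ β < nb, β ∉ Ex ∧ c * W ≤ good β ∧ cost β ≤ K / c * W := by
  by_contra hcon
  push Not at hcon
  have hb' : (0 : ℝ) < b := by exact_mod_cast hb
  have h1 : ∑ β ∈ range nb, (good β : ℝ) ≤
      (∑ β ∈ (range nb) \ Ex, (good β : ℝ)) + E * W := by
    rw [← Finset.sum_inter_add_sum_sdiff (range nb) Ex]
    have h2 : ∑ β ∈ range nb ∩ Ex, (good β : ℝ) ≤ E * W := by
      calc ∑ β ∈ range nb ∩ Ex, (good β : ℝ) ≤ ∑ β ∈ range nb ∩ Ex, (W : ℝ) := by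
            refine Finset.sum_le_sum fun β hβ => ?_
            exact_mod_cast hgood β (Finset.mem_range.mp (Finset.mem_inter.mp hβ).1)
        _ = (range nb ∩ Ex).card * W := by rw [Finset.sum_const, nsmul_eq_mul]
        _ ≤ E * W := by
            apply mul_le_mul_of_nonneg_right _ (Nat.cast_nonneg _)
            exact_mod_cast (Finset.card_le_card Finset.inter_subset_right).trans hEx
    linarith
  have h3 : 2 * c * b ≤ ∑ β ∈ (range nb) \ Ex, (good β : ℝ) := by
    have : ((E : ℝ) + 1) * W = E * W + W := by ring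
    linarith
  have h4 : ∀ β ∈ (range nb) \ Ex, (good β : ℝ) < c * W + c / K * cost β := by
    intro β hβ
    rw [Finset.mem_sdiff, Finset.mem_range] at hβ
    by_cases hg : c * W ≤ good β
    · have h5 := hcon β hβ.1 hβ.2 hg
      have h6 : (W : ℝ) = c / K * (K / c * W) := by field_simp
      have h7 : (W : ℝ) < c / K * cost β := by
        rw [h6]
        exact mul_lt_mul_of_pos_left h5 (by positivity)
      have h8 : (good β : ℝ) ≤ W := by exact_mod_cast hgood β hβ.1
      have h9 : 0 ≤ c * W := by positivity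
      linarith
    · push Not at hg
      have := hcost β
      have : 0 ≤ c / K * cost β := by positivity
      linarith
  have hne : ((range nb) \ Ex).Nonempty := by
    rw [Finset.nonempty_iff_ne_empty]
    intro h0
    rw [h0, Finset.sum_empty] at h3
    have : 0 < 2 * c * b := by positivity
    linarith
  have h5 := Finset.sum_lt_sum_of_nonempty hne h4
  rw [Finset.sum_add_distrib, Finset.sum_const, nsmul_eq_mul, ← Finset.mul_sum] at h5
  have h6 : ((((range nb) \ Ex).card : ℝ)) * (c * W) ≤ c * b := by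
    have h7 : (((range nb) \ Ex).card : ℝ) ≤ nb := by
      have := Finset.card_le_card (Finset.sdiff_subset (s := range nb) (t := Ex))
      rw [Finset.card_range] at this
      exact_mod_cast this
    have h8 : (nb : ℝ) * W ≤ b := by exact_mod_cast hnb
    have h9 : (((range nb) \ Ex).card : ℝ) * (c * W) ≤ nb * (c * W) :=
      mul_le_mul_of_nonneg_right h7 (by positivity)
    nlinarith
  have h7 : c / K * ∑ β ∈ (range nb) \ Ex, cost β ≤ c * b := by
    calc c / K * ∑ β ∈ (range nb) \ Ex, cost β ≤ c / K * (K * b) :=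
          mul_le_mul_of_nonneg_left hcs (by positivity)
      _ = c * b := by field_simp
  linarith

open C2305b.TL in
/-- The open sides of a tile are disjoint. -/
theorem open_side_unique {ι : Type*} (T : C2305b.TL.Tiling ι) {i : ι} {v w v' w' x : V}
    (h : T.E i v w) (h' : T.E i v' w') (hx : x ∈ openSegment ℝ v w)
    (hx' : x ∈ openSegment ℝ v' w') : v' = v := by
  obtain ⟨y, hy⟩ := T.nonem i
  have hwv : w - v ≠ 0 := sub_ne_zero.mpr h.2.2.1
  have hwv' : w' - v' ≠ 0 := sub_ne_zero.mpr h'.2.2.1
  have p1 := cr_pos_of_mem_interior hwv h.2.2.2.1 hy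
  have p2 := cr_pos_of_mem_interior hwv' h'.2.2.2.1 hy
  have n1 := h.2.2.2.1 v' h'.1.2
  have n2 := h.2.2.2.1 w' h'.2.1.2
  obtain ⟨a, b, ha, hb, hab, hxe⟩ := hx'
  rw [openSegment_eq_image'] at hx
  obtain ⟨θ, ⟨hθ0, hθ1⟩, hxθ⟩ := hx
  simp only at hxθ
  have h0 : cr (w - v) (x - v) = 0 := by
    rw [← hxθ]
    have : v + θ • (w - v) - v = θ • (w - v) := by abel
    rw [this, cr_smul_right, cr_self, mul_zero]
  have h1 : cr (w - v) (x - v) = a * cr (w - v) (v' - v) + b * cr (w - v) (w' - v) := by
    have : x - v = a • (v' - v) + b • (w' - v) := by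
      rw [← hxe, smul_sub, smul_sub]
      have hv : v = a • v + b • v := by rw [← add_smul, hab, one_smul]
      conv_lhs => rw [hv]
      abel
    rw [this, cr_add_right, cr_smul_right, cr_smul_right]
  have z1 : cr (w - v) (v' - v) = 0 := by
    have := mul_nonneg ha.le n1
    have := mul_nonneg hb.le n2
    have h2 : a * cr (w - v) (v' - v) = 0 := by linarith
    rcases mul_eq_zero.mp h2 with h3 | h3
    · exact absurd h3 ha.ne'
    · exact h3
  have z2 : cr (w - v) (w' - v) = 0 := by
    have := mul_nonneg ha.le n1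
    have := mul_nonneg hb.le n2
    have h2 : b * cr (w - v) (w' - v) = 0 := by linarith
    rcases mul_eq_zero.mp h2 with h3 | h3
    · exact absurd h3 hb.ne'
    · exact h3
  obtain ⟨s, hs⟩ := exists_smul_of_cr_eq_zero hwv z1
  obtain ⟨t, ht⟩ := exists_smul_of_cr_eq_zero hwv z2
  have hv' : v' = v + s • (w - v) := by rw [← hs]; abel
  have hw' : w' = v + t • (w - v) := by rw [← ht]; abel
  have hdiff : w' - v' = (t - s) • (w - v) := by
    rw [hv', hw', sub_smul]; abel
  -- direction
  have hts : 0 < t - s := by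
    rw [hdiff, cr_smul_left] at p2
    have h3 : cr (w - v) (y - v') = cr (w - v) (y - v) := by
      have : y - v' = (y - v) - s • (w - v) := by rw [hv']; abel
      rw [this, cr_sub_right, cr_smul_right, cr_self, mul_zero, sub_zero]
    rw [h3] at p2
    exact pos_of_mul_pos_left p2 p1.le
  -- the coefficient of x
  have hθ : θ = a * s + b * t := by
    have h3 : θ • (w - v) = (a * s + b * t) • (w - v) := by
      have h4 : x - v = θ • (w - v) := by rw [← hxθ]; abel
      have h5 : x - v = (a * s + b * t) • (w - v) := by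
        rw [← hxe, hv', hw']
        have hv : v = a • v + b • v := by rw [← add_smul, hab, one_smul]
        rw [smul_add, smul_add, add_smul, mul_smul, mul_smul]
        conv_lhs => rw [hv]
        conv_lhs => rw [← hv]
        have : a • v + a • s • (w - v) + (b • v + b • t • (w - v)) - v =
          (a • v + b • v) - v + (a • s • (w - v) + b • t • (w - v)) := by abel
        rw [this, ← hv]
        abel
      rw [← h4, h5]
    have h4 : (θ - (a * s + b * t)) • (w - v) = 0 := by rw [sub_smul, h3, sub_self]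
    rcases smul_eq_zero.mp h4 with h5 | h5
    · linarith
    · exact absurd h5 hwv
  -- v' and w' are not in the open segment
  have k1 : ¬ (0 < s ∧ s < 1) := by
    rintro ⟨s0, s1⟩
    apply h.2.2.2.2 v' h'.1.1
    rw [openSegment_eq_image']
    exact ⟨s, ⟨s0, s1⟩, hv'.symm⟩
  have k2 : ¬ (0 < t ∧ t < 1) := by
    rintro ⟨t0, t1⟩
    apply h.2.2.2.2 w' h'.2.1.1
    rw [openSegment_eq_image']
    exact ⟨t, ⟨t0, t1⟩, hw'.symm⟩
  have hs0 : s ≤ 0 := by
    by_contra hcon
    push Not at hcon
    have hs1 : 1 ≤ s := by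
      by_contra h3
      push Not at h3
      exact k1 ⟨hcon, h3⟩
    have h4 : a * 1 ≤ a * s := mul_le_mul_of_nonneg_left hs1 ha.le
    have h5 : b * 1 ≤ b * t := mul_le_mul_of_nonneg_left (by linarith) hb.le
    linarith
  have ht1 : 1 ≤ t := by
    by_contra hcon
    push Not at hcon
    have ht0 : t ≤ 0 := by
      by_contra h3
      push Not at h3
      exact k2 ⟨h3, hcon⟩
    have h4 : a * s ≤ 0 := mul_nonpos_of_nonneg_of_nonpos ha.le hs0
    have h5 : b * t ≤ 0 := mul_nonpos_of_nonneg_of_nonpos hb.le ht0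
    linarith
  -- v is not in the open segment of v' w'
  have hs00 : s = 0 := by
    by_contra hcon
    have hs1 : s < 0 := lt_of_le_of_ne hs0 hcon
    apply h'.2.2.2.2 v h.1.1
    rw [openSegment_eq_image']
    refine ⟨(-s) / (t - s), ⟨by apply div_pos <;> linarith, ?_⟩, ?_⟩
    · rw [div_lt_one hts]; linarith
    · simp only
      rw [hdiff, smul_smul, div_mul_cancel₀ _ hts.ne', hv', neg_smul]
      abel
  rw [hv', hs00, zero_smul, add_zero]

end W82
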