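import Pool.Agent.W82_c2305b.Corner
import Pool.Agent.W_c2305b_h35.Counting

/-!
The tiling of the hull of the shared boundary points is sharp.
-/

open Set Module

namespace W82

variable {ι : Type*} {D : Set V} {P : ι → Set V}

/-- The vertices of the tiling `toTL` are corners of tiles or boundary points. -/
theorem Tiling.toTL_sharp [Finite ι] (h : Tiling D P)
    (hi : (interior (convexHull ℝ (Vb D P))).Nonempty) : (h.toTL hi).Sharp := by
  intro w hw
  by_cases hwi : w ∈ interior (h.toTL hi).R
  · right
    have hw' : w ∈ h.union_finite.toFinset := hw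
    rw [Set.Finite.mem_toFinset] at hw'
    obtain ⟨i, hwS⟩ := mem_iUnion.mp hw'
    have hnd := h.nondeg (v := w) hwi hwS.1.1
    refine ⟨⟨i, hnd⟩, ?_⟩
    exact inter_extremePoints_subset_extremePoints_of_subset (h.hull_sub i)
      ⟨subset_convexHull ℝ _ hwS, hwS.1⟩
  · exact Or.inl hwi

end W82
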