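import Pool.Agent.W82_c2305b.Sel1
import Pool.Agent.W82_c2305b.Sharp
import Pool.Agent.W_c2305b_h19.Blk
import Pool.Agent.W_c2305b_h57.Chords
import Pool.Agent.W_c2305b_h68.Cyc2

/-!
The cycle of the shared boundary points and its blocks.
-/

open Set Module MeasureTheory

namespace W82

open C2305b.TL

variable {ι : Type} {D : Set V} {P : ι → Set V}

/-- The cyclic order of the shared boundary points. -/
structure Cycle (D : Set V) (P : ι → Set V) (b : ℕ) (q : ℕ → V) : Prop where
  side : ∀ k, Side D P (q k) (q (k + 1))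
  per : ∀ k, q (k + b) = q k
  surj : ∀ z ∈ Vb D P, ∃ k < b, q k = z
  inj : ∀ k < b, ∀ k' < b, q k = q k' → k = k'
  ori : ∀ a j k, a < j → j < k → k < a + b → 0 ≤ cr (q j - q a) (q k - q a)

theorem Tiling.exists_cycle [Finite ι] (h : Tiling D P)
    (hi : (interior (convexHull ℝ (Vb D P))).Nonempty) :
    ∃ q : ℕ → V, Cycle D P (Vb D P).ncard q := by
  set T := h.sideTL hi with hT
  have hverts : T.verts () = h.vb_finite.toFinset := by
    ext v
    rw [T.mem_verts]
    change (v ∈ h.vb_finite.toFinset ∧ v ∈ convexHull ℝ (h.vb_finite.toFinset : Set V)) ↔ _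
    exact ⟨fun h0 => h0.1, fun h0 => ⟨h0, subset_convexHull ℝ _ h0⟩⟩
  have hcard : (T.verts ()).card = (Vb D P).ncard := by
    rw [hverts, ← Set.ncard_eq_toFinset_card _ h.vb_finite]
  obtain ⟨v, hv⟩ : (Vb D P).Nonempty := by
    by_contra hcon
    rw [not_nonempty_iff_eq_empty] at hcon
    rw [hcon, convexHull_empty, interior_empty] at hi
    exact not_nonempty_empty hi
  obtain ⟨q, h0, hE, hper, hall, hinj, -, hori⟩ := C2305bH68.Cyc.exists_nat_cycle T () (v := v) (by
    rw [hverts, Set.Finite.mem_toFinset]; exact hv)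
  rw [hcard] at hper hall hinj hori
  refine ⟨q, fun k => (h.side_iff hi).mpr (hE k), hper, ?_, fun k hk k' hk' => hinj k k' hk hk',
    hori⟩
  intro z hz
  exact hall z (by rw [hverts, Set.Finite.mem_toFinset]; exact hz)

namespace Cycle

variable {b : ℕ} {q : ℕ → V}

theorem mem (C : Cycle D P b q) (k : ℕ) : q k ∈ Vb D P := (C.side k).1

theorem sum_sides [Finite ι] (C : Cycle D P (Vb D P).ncard q) (h : Tiling D P)
    (hi : (interior (convexHull ℝ (Vb D P))).Nonempty) (f : V × V → ℝ) :
    ∑ p ∈ h.sides hi, f p = ∑ r ∈ Finset.range (Vb D P).ncard, f (q r, q (r + 1)) := by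
  classical
  symm
  apply Finset.sum_bij (fun r _ => (q r, q (r + 1)))
  · intro r _
    rw [h.mem_sides hi]
    exact C.side r
  · intro r hr r' hr' he
    rw [Finset.mem_range] at hr hr'
    exact C.inj r hr r' hr' (congrArg Prod.fst he)
  · intro p hp
    rw [h.mem_sides hi] at hp
    obtain ⟨r, hr, hrp⟩ := C.surj p.1 hp.1
    refine ⟨r, Finset.mem_range.mpr hr, ?_⟩
    have h1 := (h.side_iff hi).mp (C.side r)
    have h2 := (h.side_iff hi).mp hp
    rw [← hrp] at h2
    have h3 := (h.sideTL hi).next_unique () h2 h1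
    exact Prod.ext hrp h3
  · intro r _
    rfl

/-- Points after the block are on the left of its chord. -/
theorem left_of (C : Cycle D P b q) {a W k : ℕ} (hW : 1 ≤ W) (h1 : a + W ≤ k)
    (h2 : k ≤ a + b) : 0 ≤ cr (q (a + W) - q a) (q k - q a) := by
  rcases h1.eq_or_lt with h1 | h1
  · rw [← h1, cr_self]
  rcases h2.eq_or_lt with h2 | h2
  · rw [h2, C.per, sub_self, cr_zero_right]
  exact C.ori a (a + W) k (by omega) h1 h2

theorem left_of' (C : Cycle D P b q) {a W k : ℕ} (hW : 1 ≤ W) (haW : a + W ≤ b) (hk : k ≤ b)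
    (h1 : k ≤ a ∨ a + W ≤ k) : 0 ≤ cr (q (a + W) - q a) (q k - q a) := by
  rcases h1 with h1 | h1
  · rw [← C.per k]
    exact C.left_of hW (by omega) (by omega)
  · exact C.left_of hW h1 (by omega)

/-- The chord of a block does not have the hull on its right side for two blocks. -/
theorem wide_unique [Finite ι] (C : Cycle D P b q) (_h : Tiling D P)
    (hi : (interior (convexHull ℝ (Vb D P))).Nonempty) {a a' W : ℕ} (hW : 1 ≤ W)
    (haW : a + W ≤ b) (haW' : a' + W ≤ b) (hbW : W < b) (hdis : a + W ≤ a' ∨ a' + W ≤ a)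
    (hw : ∀ p ∈ convexHull ℝ (Vb D P), cr (q (a + W) - q a) (p - q a) ≤ 0)
    (hw' : ∀ p ∈ convexHull ℝ (Vb D P), cr (q (a' + W) - q a') (p - q a') ≤ 0) : False := by
  obtain ⟨z, hz⟩ := hi
  have hne : ∀ a, a + W ≤ b → q (a + W) ≠ q a := by
    intro a haW he
    rcases haW.eq_or_lt with h0 | h0
    · have h1 : q (a + W) = q 0 := by rw [h0]; have := C.per 0; rwa [zero_add] at this
      rw [h1] at he
      have := C.inj 0 (by omega) a (by omega) he
      omega
    · have := C.inj (a + W) h0 a (by omega) he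
      omega
  set A := q a with hA
  set B := q (a + W) with hB
  set A' := q a' with hA'
  set B' := q (a' + W) with hB'
  have hBA : B - A ≠ 0 := sub_ne_zero.mpr (hne a haW)
  have hBA' : B' - A' ≠ 0 := sub_ne_zero.mpr (hne a' haW')
  have hVb : ∀ k, q k ∈ convexHull ℝ (Vb D P) := fun k => subset_convexHull ℝ _ (C.mem k)
  -- A', B' on the line A B
  have e1 : cr (B - A) (A' - A) = 0 :=
    le_antisymm (hw _ (hVb a')) (C.left_of' hW haW (by omega) (by omega))
  have e2 : cr (B - A) (B' - A) = 0 :=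
    le_antisymm (hw _ (hVb (a' + W))) (C.left_of' hW haW haW' (by omega))
  obtain ⟨s, hs⟩ := exists_smul_of_cr_eq_zero hBA e1
  obtain ⟨t, ht⟩ := exists_smul_of_cr_eq_zero hBA e2
  have hdiff : B' - A' = (t - s) • (B - A) := by
    rw [sub_smul, ← hs, ← ht]; abel
  have key : ∀ x : V, cr (B' - A') (x - A') = (t - s) * cr (B - A) (x - A) := by
    intro x
    rw [hdiff, cr_smul_left]
    congr 1
    have : x - A' = (x - A) - (A' - A) := by abel
    rw [this, cr_sub_right, e1, sub_zero]
  -- strictly right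
  have hz1 : cr (B - A) (z - A) < 0 := by
    have := cr_pos_of_mem_interior (u := -(B - A)) (v := A) (neg_ne_zero.mpr hBA)
      (fun x hx => by rw [cr_neg_left]; linarith [hw x hx]) hz
    rw [cr_neg_left] at this
    linarith
  have hz2 : cr (B' - A') (z - A') < 0 := by
    have := cr_pos_of_mem_interior (u := -(B' - A')) (v := A') (neg_ne_zero.mpr hBA')
      (fun x hx => by rw [cr_neg_left]; linarith [hw' x hx]) hz
    rw [cr_neg_left] at this
    linarith
  have hts : 0 < t - s := by
    rw [key] at hz2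
    by_contra hcon
    push Not at hcon
    have := mul_nonneg_of_nonpos_of_nonpos hcon hz1.le
    linarith
  -- a point of the cycle strictly right of A' B'
  obtain ⟨m, hm, hm'⟩ : ∃ m < b, cr (B' - A') (q m - A') < 0 := by
    by_contra hcon
    push Not at hcon
    have h1 : ∀ x ∈ Vb D P, 0 ≤ cr (B' - A') (x - A') := by
      intro x hx
      obtain ⟨k, hk, rfl⟩ := C.surj x hx
      exact hcon k hk
    have h2 := Tiling.convex_cr (B' - A') A'
    have h3 : ∀ x ∈ convexHull ℝ (Vb D P), 0 ≤ cr (B' - A') (x - A') :=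
      fun x hx => convexHull_min h1 h2 hx
    have := h3 z (interior_subset hz)
    linarith
  have n1 : ¬ (m ≤ a' ∨ a' + W ≤ m) := fun h0 => by
    have := C.left_of' hW haW' hm.le h0
    linarith
  have n2 : ¬ (m ≤ a ∨ a + W ≤ m) := fun h0 => by
    have h1 := C.left_of' hW haW hm.le h0
    rw [key] at hm'
    have := mul_nonneg hts.le h1
    linarith
  push Not at n1 n2
  omega

/-- No point of the hull is beyond the chords of two blocks. -/
theorem beyond_unique [Finite ι] (C : Cycle D P b q) (h : Tiling D P) {a a' W : ℕ} (hW : 1 ≤ W)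
    (haW : a + W ≤ b) (haW' : a' + W ≤ b) (hdis : a + W ≤ a' ∨ a' + W ≤ a)
    (hw : ¬ ∀ p ∈ convexHull ℝ (Vb D P), cr (q (a + W) - q a) (p - q a) ≤ 0)
    (hw' : ¬ ∀ p ∈ convexHull ℝ (Vb D P), cr (q (a' + W) - q a') (p - q a') ≤ 0) {z : V}
    (hz : z ∈ convexHull ℝ (Vb D P)) :
    ¬ (cr (q (a + W) - q a) (z - q a) < 0 ∧ cr (q (a' + W) - q a') (z - q a') < 0) := by
  have hVD : convexHull ℝ (Vb D P) ⊆ D :=
    convexHull_min (fun x hx => h.sh_sub hx.1) h.convD
  have hVi : ∀ k, q k ∉ interior (convexHull ℝ (Vb D P)) := by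
    intro k hk
    exact (C.mem k).2.2 (interior_mono hVD hk)
  have hVb : ∀ k, q k ∈ convexHull ℝ (Vb D P) := fun k => subset_convexHull ℝ _ (C.mem k)
  push Not at hw hw'
  refine chords_disjoint (convex_convexHull ℝ _) (hVb _) (hVb _) (hVb _) (hVb _) (hVi _) (hVi _)
    (hVi _) (hVi _) ?_ ?_ ?_ ?_ ?_ hw hw' z hz
  · rintro ⟨h1, -⟩
    have := C.inj a (by omega) a' (by omega) h1
    omega
  · exact C.left_of' hW haW (by omega) (by omega)
  · exact C.left_of' hW haW haW' (by omega)
  · exact C.left_of' hW haW' (by omega) (by omega)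
  · exact C.left_of' hW haW' haW (by omega)

end Cycle

/-- Vertices of the tiling on the open sides are T-vertices. -/
theorem Tiling.tv_of_side [Finite ι] (h : Tiling D P) {p q w : V} (hs : Side D P p q)
    (hw : w ∈ h.M) (hseg : w ∈ openSegment ℝ p q) : w ∈ Tv D P := by
  obtain ⟨i, hi⟩ := h.mem_M.mp hw
  obtain ⟨k, hk, -⟩ := h.cap_cell hs
  have hwD : w ∈ D := h.sub i hi.1.1
  have hint : w ∈ interior D := by
    by_contra hcon
    apply hs.2.2.2.2 w _ hseg
    refine ⟨S_sub_Sh i hi, ?_⟩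
    rw [frontier, h.compD.isClosed.closure_eq]
    exact ⟨hwD, hcon⟩
  refine ⟨hint, ⟨i, hi⟩, k, hk (openSegment_subset_segment ℝ p q hseg), ?_⟩
  intro hext
  have h1 := hext.2 (hk (left_mem_segment ℝ p q)) (hk (right_mem_segment ℝ p q)) hseg
  rw [← h1] at hseg
  exact hs.2.2.1 (left_mem_openSegment_iff.mp hseg).symm

end W82
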