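import Pool.Agent.W82_c2305b.Sel2
import Pool.Agent.W82_c2305b.Account

/-!
Existence of a cheap block with many good sides.
-/

open Set Module MeasureTheory

namespace W82

open C2305b.TL
open C2305bB (Blk Cost goodSides Meets Lvl1 Lvl2 Fr Fits mis)
open C2305bH52 (needle)

variable {ι : Type} {D : Set V} {P : ι → Set V}

open Classical in
/-- A bad pair is met by at most two blocks. -/
theorem Tiling.meets_sum [Finite ι] (h : Tiling D P)
    (hi : (interior (convexHull ℝ (Vb D P))).Nonempty) {b W : ℕ} {q : ℕ → V}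
    (C : Cycle D P b q) (hW : 1 ≤ W) (Q : Finset ℕ) (hQ : ∀ β ∈ Q, β * W + W ≤ b)
    (hw : ∀ β ∈ Q, ¬ ∀ p ∈ convexHull ℝ (Vb D P),
      cr (q (β * W + W) - q (β * W)) (p - q (β * W)) ≤ 0)
    (Bad : Finset ({i : ι // (interior (convexHull ℝ (S P i))).Nonempty} ×
        {i : ι // (interior (convexHull ℝ (S P i))).Nonempty})) :
    ∑ β ∈ Q, (Bad.filter fun s => Meets (h.toTL hi) (q (β * W)) (q (β * W + W)) s).card ≤
      2 * Bad.card := by
  set T := h.toTL hi with hT
  have hR : T.R = convexHull ℝ (Vb D P) := rfl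
  simp only [Finset.card_filter]
  rw [Finset.sum_comm]
  have key : ∀ s ∈ Bad, ∑ β ∈ Q,
      (if Meets T (q (β * W)) (q (β * W + W)) s then 1 else 0) ≤ 2 := by
    intro s _
    rw [← Finset.card_filter]
    by_cases hex : ∃ v w, T.Tw s.1 s.2 v w
    · obtain ⟨v, w, hTw⟩ := hex
      have hne : s.1 ≠ s.2 := by
        intro h0
        have h1 := T.common_self s.1
        have h2 : (v, w) ∈ T.common s.1 s.1 := T.mem_common.mpr (by rw [← h0] at hTw; exact hTw)
        rw [h1] at h2
        simp at h2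
      have huniq : ∀ v' w', T.Tw s.1 s.2 v' w' → v' = v ∧ w' = w := by
        intro v' w' h'
        have h1 := T.common_unique (h.toTL_sharp hi) hne (d := (v', w')) (e := (v, w))
          (T.mem_common.mpr h') (T.mem_common.mpr hTw)
        exact ⟨congrArg Prod.fst h1, congrArg Prod.snd h1⟩
      have hvR : v ∈ T.R := by
        rw [← T.union]; exact mem_iUnion.mpr ⟨s.1, hTw.1.1.2⟩
      have hwR : w ∈ T.R := by
        rw [← T.union]; exact mem_iUnion.mpr ⟨s.1, hTw.1.2.1.2⟩
      have hone : ∀ z ∈ T.R, (Q.filter fun β =>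
          cr (q (β * W + W) - q (β * W)) (z - q (β * W)) < 0).card ≤ 1 := by
        intro z hz
        rw [Finset.card_le_one]
        intro β hβ β' hβ'
        rw [Finset.mem_filter] at hβ hβ'
        by_contra hne'
        have hdis : β * W + W ≤ β' * W ∨ β' * W + W ≤ β * W := by
          rcases Nat.lt_or_ge β β' with h1 | h1
          · left
            calc β * W + W = (β + 1) * W := by ring
              _ ≤ β' * W := Nat.mul_le_mul_right _ h1
          · right
            have h2 : β' < β := lt_of_le_of_ne h1 (Ne.symm hne')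
            calc β' * W + W = (β' + 1) * W := by ring
              _ ≤ β * W := Nat.mul_le_mul_right _ h2
        exact C.beyond_unique h hW (hQ β hβ.1) (hQ β' hβ'.1) hdis (hw β hβ.1) (hw β' hβ'.1)
          (by rw [← hR]; exact hz) ⟨hβ.2, hβ'.2⟩
      have hsub : (Q.filter fun β => Meets T (q (β * W)) (q (β * W + W)) s) ⊆
          (Q.filter fun β => cr (q (β * W + W) - q (β * W)) (v - q (β * W)) < 0) ∪
          (Q.filter fun β => cr (q (β * W + W) - q (β * W)) (w - q (β * W)) < 0) := by
        intro β hβ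
        rw [Finset.mem_filter] at hβ
        obtain ⟨hβQ, v', w', h', hor⟩ := hβ
        obtain ⟨rfl, rfl⟩ := huniq v' w' h'
        rw [Finset.mem_union, Finset.mem_filter, Finset.mem_filter]
        rcases hor with h1 | h1
        · exact Or.inl ⟨hβQ, h1⟩
        · exact Or.inr ⟨hβQ, h1⟩
      refine (Finset.card_le_card hsub).trans ((Finset.card_union_le _ _).trans ?_)
      have h1 := hone v hvR
      have h2 := hone w hwR
      omega
    · have : (Q.filter fun β => Meets T (q (β * W)) (q (β * W + W)) s) = ∅ := by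
        rw [Finset.filter_eq_empty_iff]
        rintro β _ ⟨v, w, h', -⟩
        exact hex ⟨v, w, h'⟩
      rw [this]
      simp
  calc ∑ s ∈ Bad, ∑ β ∈ Q, (if Meets T (q (β * W)) (q (β * W + W)) s then 1 else 0)
      ≤ ∑ s ∈ Bad, 2 := Finset.sum_le_sum key
    _ = 2 * Bad.card := by rw [Finset.sum_const, smul_eq_mul, mul_comm]

/-- Vertices on the open sides of the blocks. -/
theorem Tiling.verts_sum [Finite ι] (h : Tiling D P)
    (hi : (interior (convexHull ℝ (Vb D P))).Nonempty) {b W : ℕ} {q : ℕ → V}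
    (C : Cycle D P b q) (hW : 1 ≤ W) (Q : Finset ℕ) (hQ : ∀ β ∈ Q, β * W + W ≤ b) :
    ∑ β ∈ Q, ((h.toTL hi).sideVerts W (fun r => q (β * W + r))).card ≤ (Tv D P).ncard := by
  classical
  set T := h.toTL hi with hT
  have hmem : ∀ β w, w ∈ T.sideVerts W (fun r => q (β * W + r)) ↔
      w ∈ T.W ∧ ∃ r < W, w ∈ openSegment ℝ (q (β * W + r)) (q (β * W + r + 1)) := by
    intro β w
    unfold Tiling.sideVerts
    rw [Finset.mem_filter]
    rfl
  have hTfin : (Tv D P).Finite := h.union_finite.subset (by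
    rw [h.union_S]; exact fun v hv => Or.inl (Or.inr hv))
  rw [Set.ncard_eq_toFinset_card _ hTfin, ← Finset.card_biUnion]
  · apply Finset.card_le_card
    intro w hw
    rw [Finset.mem_biUnion] at hw
    obtain ⟨β, hβ, hw⟩ := hw
    rw [hmem] at hw
    obtain ⟨hwW, r, hr, hseg⟩ := hw
    rw [Set.Finite.mem_toFinset]
    exact h.tv_of_side (C.side _) hwW hseg
  · intro β hβ β' hβ' hne
    rw [Function.onFun, Finset.disjoint_left]
    intro w hw hw'
    rw [hmem] at hw hw'
    obtain ⟨-, r, hr, hseg⟩ := hw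
    obtain ⟨-, r', hr', hseg'⟩ := hw'
    have h1 := open_side_unique (h.sideTL hi) ((h.side_iff hi).mp (C.side _))
      ((h.side_iff hi).mp (C.side _)) hseg hseg'
    have hb1 := hQ β hβ
    have hb2 := hQ β' hβ'
    have h2 := C.inj _ (by omega) _ (by omega) h1
    apply hne
    have e1 : (β * W + r) / W = β := by
      rw [mul_comm, Nat.mul_add_div (by omega), Nat.div_eq_of_lt hr, add_zero]
    have e2 : (β' * W + r') / W = β' := by
      rw [mul_comm, Nat.mul_add_div (by omega), Nat.div_eq_of_lt hr', add_zero]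
    rw [← e1, ← e2, h2]

/-- Sum over blocks. -/
theorem sum_blocks (g : ℕ → ℕ) (W nb : ℕ) :
    ∑ k ∈ Finset.range (nb * W), g k =
      ∑ β ∈ Finset.range nb, ∑ r ∈ Finset.range W, g (β * W + r) := by
  induction nb with
  | zero => simp
  | succ nb ih =>
    rw [Finset.sum_range_succ, ← ih, Nat.succ_mul, Finset.sum_range_add]

open Classical in
/-- The number of blocks which are not flat. -/
theorem Tiling.nonflat [Finite ι] (h : Tiling D P)
    (hi : (interior (convexHull ℝ (Vb D P))).Nonempty) {b W M nb : ℕ} {q : ℕ → V} {L : ℝ}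
    (C : Cycle D P b q) (hW : 1 ≤ W) (hnb : nb * W ≤ b) :
    ((Finset.range nb).filter fun β => ∃ k, k + 1 < W ∧ ∃ j < 2 * M,
      cr (ray L (j * (Real.pi / M))) (q (β * W + k + 1) - q (β * W + k)) < 0 ∧
      0 ≤ cr (ray L (j * (Real.pi / M))) (q (β * W + k + 1 + 1) - q (β * W + k + 1))).card ≤
      2 * M := by
  set Q := (Finset.range nb).filter fun β => ∃ k, k + 1 < W ∧ ∃ j < 2 * M,
      cr (ray L (j * (Real.pi / M))) (q (β * W + k + 1) - q (β * W + k)) < 0 ∧
      0 ≤ cr (ray L (j * (Real.pi / M))) (q (β * W + k + 1 + 1) - q (β * W + k + 1)) with hQ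
  have hch : ∀ β, ∃ k j, β ∈ Q → k + 1 < W ∧ j < 2 * M ∧
      cr (ray L (j * (Real.pi / M))) (q (β * W + k + 1) - q (β * W + k)) < 0 ∧
      0 ≤ cr (ray L (j * (Real.pi / M))) (q (β * W + k + 1 + 1) - q (β * W + k + 1)) := by
    intro β
    by_cases hβ : β ∈ Q
    · obtain ⟨k, hk, j, hj, h1, h2⟩ := (Finset.mem_filter.mp hβ).2
      exact ⟨k, j, fun _ => ⟨hk, hj, h1, h2⟩⟩
    · exact ⟨0, 0, fun h0 => absurd h0 hβ⟩
  choose k j hkj using hch
  have h1 : Q.card ≤ (Finset.range (2 * M)).card := by
    apply Finset.card_le_card_of_injOn j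
    · intro β hβ
      rw [Finset.mem_coe, Finset.mem_range]
      exact (hkj β hβ).2.1
    · intro β hβ β' hβ' he
      obtain ⟨a1, a2, a3, a4⟩ := hkj β hβ
      obtain ⟨b1, b2, b3, b4⟩ := hkj β' hβ'
      rw [he] at a3 a4
      have hβb : β * W + W ≤ b := by
        have := Finset.mem_range.mp (Finset.mem_filter.mp hβ).1
        calc β * W + W = (β + 1) * W := by ring
          _ ≤ nb * W := Nat.mul_le_mul_right _ this
          _ ≤ b := hnb
      have hβb' : β' * W + W ≤ b := by
        have := Finset.mem_range.mp (Finset.mem_filter.mp hβ').1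
        calc β' * W + W = (β' + 1) * W := by ring
          _ ≤ nb * W := Nat.mul_le_mul_right _ this
          _ ≤ b := hnb
      have h2 := (h.sideTL hi).mark_unique (i := ()) (b := b) (q := q)
        (fun k => (h.side_iff hi).mp (C.side k)) C.per C.inj _ (by omega) (by omega)
        a3 a4 b3 b4
      have e1 : (β * W + k β) / W = β := by
        rw [mul_comm, Nat.mul_add_div (by omega), Nat.div_eq_of_lt (by omega), add_zero]
      have e2 : (β' * W + k β') / W = β' := by
        rw [mul_comm, Nat.mul_add_div (by omega), Nat.div_eq_of_lt (by omega), add_zero]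
      rw [← e1, ← e2, h2]
  rwa [Finset.card_range] at h1

open Classical in
/-- At most one block is wide. -/
theorem Tiling.wide_card [Finite ι] (h : Tiling D P)
    (hi : (interior (convexHull ℝ (Vb D P))).Nonempty) {b W nb : ℕ} {q : ℕ → V}
    (C : Cycle D P b q) (hW : 1 ≤ W) (hnb : nb * W ≤ b) (hWb : W < b) :
    ((Finset.range nb).filter fun β => ∀ p ∈ convexHull ℝ (Vb D P),
      cr (q (β * W + W) - q (β * W)) (p - q (β * W)) ≤ 0).card ≤ 1 := by
  rw [Finset.card_le_one]
  intro β hβ β' hβ'
  rw [Finset.mem_filter, Finset.mem_range] at hβ hβ'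
  by_contra hne
  have hβb : β * W + W ≤ b := by
    calc β * W + W = (β + 1) * W := by ring
      _ ≤ nb * W := Nat.mul_le_mul_right _ hβ.1
      _ ≤ b := hnb
  have hβb' : β' * W + W ≤ b := by
    calc β' * W + W = (β' + 1) * W := by ring
      _ ≤ nb * W := Nat.mul_le_mul_right _ hβ'.1
      _ ≤ b := hnb
  have hdis : β * W + W ≤ β' * W ∨ β' * W + W ≤ β * W := by
    rcases Nat.lt_or_ge β β' with h1 | h1
    · left
      calc β * W + W = (β + 1) * W := by ring
        _ ≤ β' * W := Nat.mul_le_mul_right _ h1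
    · right
      have h2 : β' < β := lt_of_le_of_ne h1 (Ne.symm hne)
      calc β' * W + W = (β' + 1) * W := by ring
        _ ≤ β * W := Nat.mul_le_mul_right _ h2
  exact C.wide_unique h hi hW hβb hβb' hWb hdis hβ.2 hβ'.2

end W82
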