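import Pool.Agent.W82_c2305b.WalkA
import Pool.Agent.W_c2305b_h68.Cyc2

/-!
The walk, part 2: width of the hull, reached cells, count.
-/

open Set Module Topology Filter MeasureTheory
open scoped Pointwise

namespace W82

open C2305b.TL (cr)

variable {ι : Type*} {D : Set V} {P : ι → Set V}

/-- A linear functional which varies by at most `m` on each cell varies by at most `2 b m` on the
hull of the shared boundary points. -/
theorem Tiling.width [Finite ι] (h : Tiling D P)
    (hi : (interior (convexHull ℝ (Vb D P))).Nonempty) (f : V →ₗ[ℝ] ℝ) {m : ℝ}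
    (hm : ∀ i, ∀ p ∈ P i, ∀ q ∈ P i, |f p - f q| ≤ m) {x y : V}
    (hx : x ∈ convexHull ℝ (Vb D P)) (hy : y ∈ convexHull ℝ (Vb D P)) :
    f x - f y ≤ 2 * (Vb D P).ncard * m := by
  set T := h.sideTL hi with hT
  have hverts : T.verts () = h.vb_finite.toFinset := by
    ext v
    rw [T.mem_verts]
    change (v ∈ h.vb_finite.toFinset ∧ v ∈ convexHull ℝ (h.vb_finite.toFinset : Set V)) ↔ _
    exact ⟨fun h0 => h0.1, fun h0 => ⟨h0, subset_convexHull ℝ _ h0⟩⟩
  have hcard : (T.verts ()).card = (Vb D P).ncard := by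
    rw [hverts, ← Set.ncard_eq_toFinset_card _ h.vb_finite]
  obtain ⟨v, hv⟩ : (Vb D P).Nonempty := by
    by_contra hcon
    rw [not_nonempty_iff_eq_empty] at hcon
    rw [hcon, convexHull_empty, interior_empty] at hi
    exact not_nonempty_empty hi
  obtain ⟨q, h0, hE, -, hall, -⟩ := C2305bH68.Cyc.exists_nat_cycle T () (v := v) (by
    rw [hverts, Set.Finite.mem_toFinset]; exact hv)
  have hstep : ∀ k, |f (q (k + 1)) - f (q k)| ≤ m := by
    intro k
    have hs := (h.side_iff hi).mpr (hE k)
    obtain ⟨j, hj, -⟩ := h.cap_cell hs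
    exact hm j _ (hj (right_mem_segment ℝ _ _)) _ (hj (left_mem_segment ℝ _ _))
  have hm0 : 0 ≤ m := (abs_nonneg _).trans (hstep 0)
  have hind : ∀ k, |f (q k) - f v| ≤ k * m := by
    intro k
    induction k with
    | zero => rw [h0]; simp
    | succ k ih =>
      have e : f (q (k + 1)) - f v = (f (q (k + 1)) - f (q k)) + (f (q k) - f v) := by ring
      rw [e]
      refine (abs_add_le _ _).trans ?_
      have := hstep k
      push_cast
      linarith
  have hvb : ∀ z ∈ Vb D P, |f z - f v| ≤ (Vb D P).ncard * m := by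
    intro z hz
    obtain ⟨k, hk, rfl⟩ := hall z (by rw [hverts, Set.Finite.mem_toFinset]; exact hz)
    refine (hind k).trans ?_
    apply mul_le_mul_of_nonneg_right _ hm0
    rw [hcard] at hk
    exact_mod_cast hk.le
  have hhull : ∀ z ∈ convexHull ℝ (Vb D P), |f z - f v| ≤ (Vb D P).ncard * m := by
    intro z hz
    have hconv : Convex ℝ {z : V | |f z - f v| ≤ (Vb D P).ncard * m} := by
      have h1 : Convex ℝ {z : V | f z ≤ f v + (Vb D P).ncard * m} :=
        convex_halfSpace_le f.isLinear _
      have h2 : Convex ℝ {z : V | f v - (Vb D P).ncard * m ≤ f z} :=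
        convex_halfSpace_ge f.isLinear _
      have h3 : {z : V | |f z - f v| ≤ (Vb D P).ncard * m} =
          {z : V | f z ≤ f v + (Vb D P).ncard * m} ∩ {z : V | f v - (Vb D P).ncard * m ≤ f z} := by
        ext z
        simp only [Set.mem_ofPred_eq, mem_inter_iff, abs_le]
        constructor
        · rintro ⟨h1, h2⟩; constructor <;> linarith
        · rintro ⟨h1, h2⟩; constructor <;> linarith
      rw [h3]
      exact h1.inter h2
    exact convexHull_min hvb hconv hz
  have h1 := abs_le.mp (hhull x hx)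
  have h2 := abs_le.mp (hhull y hy)
  have h3 : 2 * (Vb D P).ncard * m = (Vb D P).ncard * m + (Vb D P).ncard * m := by ring
  rw [h3]
  linarith [h1.2, h2.1]

/-- A functional as a linear map. -/
noncomputable def uxL (ν c s : ℝ) : V →ₗ[ℝ] ℝ where
  toFun := ux ν c s
  map_add' := ux_add ν c s
  map_smul' := fun r p => by simp only [ux, PiLp.smul_apply, smul_eq_mul, RingHom.id_apply]; ring

open Classical in
/-- Perfect cells which reach a bad vertex in `n` steps. -/
noncomputable def reach [Fintype ι] (D : Set V) (P : ι → Set V) (loss : ι → ℝ) (η : ℝ) :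
    ℕ → Finset ι
  | 0 => Finset.univ.filter fun i => Perfect D P loss η i ∧ ∃ v ∈ S P i, ¬ GoodV D P loss η v
  | n + 1 => reach D P loss η n ∪ Finset.univ.filter fun j =>
      ∃ i ∈ reach D P loss η n, Perfect D P loss η i ∧ ∃ v, GoodV D P loss η v ∧ v ∈ S P i ∧
        v ∈ S P j

theorem Tiling.reach_card [Fintype ι] (h : Tiling D P) (loss : ι → ℝ) (η : ℝ) (n : ℕ) :
    (reach D P loss η n).card ≤ 19 ^ n * (reach D P loss η 0).card := by
  classical
  induction n with
  | zero => simp
  | succ n ih =>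
    have h1 : (Finset.univ.filter fun j =>
      ∃ i ∈ reach D P loss η n, Perfect D P loss η i ∧ ∃ v, GoodV D P loss η v ∧ v ∈ S P i ∧
        v ∈ S P j).card ≤ 18 * (reach D P loss η n).card := by
      have hsub : (Finset.univ.filter fun j =>
        ∃ i ∈ reach D P loss η n, Perfect D P loss η i ∧ ∃ v, GoodV D P loss η v ∧ v ∈ S P i ∧
          v ∈ S P j) ⊆ (reach D P loss η n).biUnion fun i =>
            if Perfect D P loss η i then
              ((h.S_finite i).toFinset.filter fun v => GoodV D P loss η v).biUnion fun v =>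
                Finset.univ.filter fun j => v ∈ S P j
            else ∅ := by
        intro j hj
        obtain ⟨-, i, hi, hp, v, hg, hvi, hvj⟩ := Finset.mem_filter.mp hj
        rw [Finset.mem_biUnion]
        refine ⟨i, hi, ?_⟩
        rw [if_pos hp, Finset.mem_biUnion]
        refine ⟨v, ?_, Finset.mem_filter.mpr ⟨Finset.mem_univ _, hvj⟩⟩
        rw [Finset.mem_filter, Set.Finite.mem_toFinset]
        exact ⟨hvi, hg⟩
      refine (Finset.card_le_card hsub).trans ?_
      rw [mul_comm]
      refine Finset.card_biUnion_le_card_mul _ _ _ fun i _ => ?_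
      by_cases hp : Perfect D P loss η i
      · rw [if_pos hp]
        have h6 : ((h.S_finite i).toFinset.filter fun v => GoodV D P loss η v).card ≤ 6 := by
          refine (Finset.card_filter_le _ _).trans ?_
          rw [← Set.ncard_eq_toFinset_card _ (h.S_finite i), hp.card]
        refine (Finset.card_biUnion_le_card_mul _ _ 3 fun v hv => ?_).trans ?_
        · have hg := (Finset.mem_filter.mp hv).2
          have := hg.2.1
          rw [kv, Set.ncard_eq_toFinset_card _ (Set.toFinite _)] at this
          rw [← this]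
          apply Finset.card_le_card
          intro j hj
          rw [Set.Finite.mem_toFinset]
          exact (Finset.mem_filter.mp hj).2
        · omega
      · rw [if_neg hp]
        simp
    have h2 : (reach D P loss η (n + 1)).card ≤
        (reach D P loss η n).card + 18 * (reach D P loss η n).card := by
      rw [reach]
      refine (Finset.card_union_le _ _).trans ?_
      convert Nat.add_le_add_left h1 _
    refine h2.trans ?_
    rw [pow_succ]
    linarith

theorem reach_mono [Fintype ι] (loss : ι → ℝ) (η : ℝ) (n : ℕ) :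
    reach D P loss η 0 ⊆ reach D P loss η n := by
  classical
  induction n with
  | zero => exact Finset.Subset.refl _
  | succ n ih => exact ih.trans (by rw [reach]; exact Finset.subset_union_left)

open Classical in
/-- The cells with a bad vertex are at most as many as the bad edges. -/
theorem Tiling.reach_zero [Fintype ι] (h : Tiling D P)
    (hi : (interior (convexHull ℝ (Vb D P))).Nonempty) (loss : ι → ℝ) (η : ℝ) :
    (reach D P loss η 0).card ≤ 4 * ∑ i ∈ Finset.univ.filter (fun i => ¬ Perfect D P loss η i),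
        ((S P i).ncard + h.tn i) := by
  refine le_trans ?_ (h.bad_edges hi loss η)
  set T := h.toTL hi with hT
  -- for every cell of `reach 0` an edge
  have hch : ∀ i : ι, ∃ d : (Σ _ : {i : ι // (interior (convexHull ℝ (S P i))).Nonempty}, V × V),
      i ∈ reach D P loss η 0 → (d.1 : ι) = i ∧ T.E d.1 d.2.1 d.2.2 ∧
        ¬ GoodV D P loss η d.2.1 := by
    intro i
    by_cases hp : i ∈ reach D P loss η 0
    · obtain ⟨-, hperf, v, hv, hng⟩ := Finset.mem_filter.mp hp
      have hvF := (hperf.full v hv).1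
      have hnd := h.nondeg (h.fv_interior hi hvF) hv.1.1
      obtain ⟨w, hw⟩ := T.exists_next ⟨i, hnd⟩ (v := v) (h.mem_M.mpr ⟨i, hv⟩)
        (subset_convexHull ℝ _ hv)
      exact ⟨⟨⟨i, hnd⟩, (v, w)⟩, fun _ => ⟨rfl, hw, hng⟩⟩
    · obtain ⟨j⟩ : Nonempty {i : ι // (interior (convexHull ℝ (S P i))).Nonempty} := by
        have hR : T.R.Nonempty := hi.mono interior_subset
        rw [← T.union] at hR
        obtain ⟨x, hx⟩ := hR
        obtain ⟨j, -⟩ := mem_iUnion.mp hx
        exact ⟨j⟩
      exact ⟨⟨j, (0, 0)⟩, fun h0 => absurd h0 hp⟩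
  choose d hd using hch
  rw [← Finset.card_sigma]
  refine Finset.card_le_card_of_injOn d ?_ ?_
  · intro i hi'
    obtain ⟨h1, h2, h3⟩ := hd i hi'
    rw [Finset.mem_coe, Finset.mem_sigma]
    refine ⟨Finset.mem_univ _, ?_⟩
    rw [Finset.mem_filter, T.mem_edges]
    exact ⟨h2, h3⟩
  · intro i hi' j hj' hij
    rw [← (hd i hi').1, ← (hd j hj').1, hij]

/-- **The walk.** -/
theorem Tiling.walk [Fintype ι] (h : Tiling D P)
    (hi : (interior (convexHull ℝ (Vb D P))).Nonempty) {K K0 : Set V}
    {T6 A6 τ g ε G η ν a b co so R0 Ro M κ : ℝ} {t : ι → Bool} {c s : ι → ℝ} {o : ι → V}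
    (hG : Gap K0 T6 τ g) (hK0c : Convex ℝ K0) (hG0 : volume K0 ≤ ENNReal.ofReal G)
    (hGnn : 0 ≤ G) (hε : 0 ≤ ε) (hε1 : ε ≤ 1) (hεG : 3 * ε * G ≤ g / 2)
    (hKε : K ⊆ (1 + ε) • K0) (hcop : Copies P K) (hT : T6 ≤ A6) (hη : η ≤ g / 2)
    (hC : Cells P K0 ν ε a b co so t c s o) (hK : K0 ⊆ Metric.closedBall 0 R0)
    (hab : a ^ 2 + b ^ 2 = 1) (hν : 0 ≤ ν) (hν1 : ν ≤ 1) (hso : |so| ≤ Ro)
    (hM : (1 + Ro) * (2 * R0) ≤ M) (hM0 : 0 < M) (hκ : 0 ≤ κ)
    (hR : RigAt K0 T6 ν ε a b co so η κ) {N : ℕ} (hNκ : N * κ ≤ 1)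
    (hN : 8 * M * (Vb D P).ncard < N * (τ ^ 2 / (32 * M ^ 3)))
    {i₀ : ι} (hp₀ : Perfect D P (lossOf P A6 τ) η i₀) :
    i₀ ∈ reach D P (lossOf P A6 τ) η N := by
  classical
  set T := h.toTL hi with hT'
  set cc := τ ^ 2 / (32 * M ^ 3) with hcc
  have hτ : 0 < τ := hG.tau
  have hcc0 : 0 < cc := by rw [hcc]; positivity
  set f : V → ℝ := ux ν (c i₀) (s i₀) with hf
  have h₀ := hC.fr i₀
  -- width
  have hwidth : ∀ x ∈ convexHull ℝ (Vb D P), ∀ y ∈ convexHull ℝ (Vb D P),
      f x - f y ≤ 8 * M * (Vb D P).ncard := by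
    intro x hx y hy
    have := h.width hi (uxL ν (c i₀) (s i₀)) (m := 4 * M) (fun i p hp q hq => by
      have h1 := hC.ux_le hK hab hε hε1 hν hν1 hso hM h₀ hp hq
      rw [ux_sub] at h1
      exact h1) hx hy
    change f x - f y ≤ _ at this
    linarith
  have hSconv : ∀ i, S P i ⊆ convexHull ℝ (Vb D P) := fun i v hv => h.sh_hull (S_sub_Sh i hv)
  obtain ⟨v₀, hv₀⟩ : (S P i₀).Nonempty := by
    apply Set.nonempty_of_ncard_ne_zero
    rw [hp₀.card]
    norm_num
  have main : ∀ n : ℕ, n ≤ N → ∀ i, Perfect D P (lossOf P A6 τ) η i →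
      |c i₀ * s i - s i₀ * c i| ≤ ((N : ℝ) - n) * κ →
      (∃ v ∈ S P i, f v₀ + ((N : ℝ) - n) * cc ≤ f v) →
      i ∈ reach D P (lossOf P A6 τ) η n := by
    intro n
    induction n with
    | zero =>
      intro _ i _ _ ⟨v, hv, hfv⟩
      exfalso
      have := hwidth v (hSconv i hv) v₀ (hSconv i₀ hv₀)
      simp only [Nat.cast_zero, sub_zero] at hfv
      linarith
    | succ n ih =>
      intro hn i hp hmis hex
      have hn' : n ≤ N := by omega
      have hnN : ((n : ℝ) + 1) ≤ N := by exact_mod_cast hn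
      -- the vertex with largest first coordinate
      obtain ⟨v, hv, hmax⟩ := (h.S_finite i).exists_maximalFor f (S P i) (by
        apply Set.nonempty_of_ncard_ne_zero
        rw [hp.card]
        norm_num)
      have hmax' : ∀ x ∈ S P i, f x ≤ f v := by
        intro x hx
        rcases le_total (f x) (f v) with h1 | h1
        · exact h1
        · exact hmax hx h1
      obtain ⟨v', hv', hfv'⟩ := hex
      have hfv : f v₀ + ((N : ℝ) - ((n + 1 : ℕ) : ℝ)) * cc ≤ f v := hfv'.trans (hmax' v' hv')
      by_cases hg : GoodV D P (lossOf P A6 τ) η v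
      · have hvF := (hp.full v hv).1
        have hnd := h.nondeg (h.fv_interior hi hvF) hv.1.1
        obtain ⟨w, hw⟩ := T.exists_next ⟨i, hnd⟩ (v := v) (h.mem_M.mpr ⟨i, hv⟩)
          (subset_convexHull ℝ _ hv)
        obtain ⟨j, k, u, z, hu, hj, hjz, hkz, hku, hij, hik, hjk, hall⟩ :=
          h.corner hi hvF (hp.full v hv).2 hw
        have hvj : v ∈ P j := h.hull_sub j hj.2.1.2
        have hvk : v ∈ P k := h.hull_sub k hku.1.2
        have hpj := hg.2.2 j hvj
        have hpk := hg.2.2 k hvk
        -- the three corners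
        have c1 := h.corner_cost hi hG hK0c hG0 hGnn hε hε1 hεG hKε hcop hT hη (i := ⟨i, hnd⟩) hp
          hw hu
        have c2 := h.corner_cost hi hG hK0c hG0 hGnn hε hε1 hεG hKε hcop hT hη (i := k) hpk
          hku hkz
        have c3 := h.corner_cost hi hG hK0c hG0 hGnn hε hε1 hεG hKε hcop hT hη (i := j) hpj
          hjz hj
        have hmis1 : |c i₀ * s i - s i₀ * c i| ≤ 1 := by
          refine hmis.trans (le_trans ?_ hNκ)
          apply mul_le_mul_of_nonneg_right _ hκ
          push_cast
          have : (0 : ℝ) ≤ n := Nat.cast_nonneg _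
          linarith
        have hwP : w ∈ P i := h.hull_sub i hw.2.1.2
        have huP : u ∈ P i := h.hull_sub i hu.1.2
        have hvP : v ∈ P i := hv.1.1
        have hwS : w ∈ S P i := hp.only w hwP (h.mem_M.mp hw.2.1.1)
        have huS : u ∈ S P i := hp.only u huP (h.mem_M.mp hu.1.1)
        have b1 := hC.ux_le hK hab hε hε1 hν hν1 hso hM h₀ hwP hvP
        have b2 := hC.uy_le hK hab hε hε1 hν hν1 hso hM h₀ hmis1 hwP hvP
        have b3 := hC.ux_le hK hab hε hε1 hν hν1 hso hM h₀ huP hvP
        have b4 := hC.uy_le hK hab hε hε1 hν hν1 hso hM h₀ hmis1 huP hvP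
        have n1 : ux ν (c i₀) (s i₀) (w - v) ≤ 0 := by
          rw [ux_sub]
          have := hmax' w hwS
          simp only [hf] at this
          linarith
        have n2 : ux ν (c i₀) (s i₀) (u - v) ≤ 0 := by
          rw [ux_sub]
          have := hmax' u huS
          simp only [hf] at this
          linarith
        rw [cr_frame h₀] at c1 c2 c3
        have hz := step_num hτ hM0 b1 b2 b3 b4 n1 n2 c1 c2 c3
        rw [ux_sub] at hz
        -- the next cell
        have hzP : z ∈ P j := h.hull_sub j hjz.2.1.2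
        have hzS : z ∈ S P j := hpj.only z hzP (h.mem_M.mp hjz.2.1.1)
        have hjr : (j : ι) ∈ reach D P (lossOf P A6 τ) η n := by
          apply ih hn' j hpj
          · refine (rel_tri hν hν1 h₀ (hC.fr i) (hC.fr j)).trans ?_
            have h2 := (h.rigid hi hC hT hR hg hw).2 i j hvP hvj
            push_cast at hmis
            have h3 : ((N : ℝ) - n) * κ = ((N : ℝ) - (n + 1)) * κ + κ := by ring
            rw [h3]
            linarith
          · refine ⟨z, hzS, ?_⟩
            push_cast at hfv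
            have h3 : ((N : ℝ) - n) * cc = ((N : ℝ) - (n + 1)) * cc + cc := by ring
            rw [h3]
            simp only [hf] at hfv ⊢
            linarith
        rw [reach, Finset.mem_union]
        right
        rw [Finset.mem_filter]
        refine ⟨Finset.mem_univ _, j, hjr, hpj, v, hg, ?_, hv⟩
        exact (h.fv_cells hvF).mp hvj
      · apply reach_mono
        rw [reach, Finset.mem_filter]
        exact ⟨Finset.mem_univ _, hp, v, hv, hg⟩
  apply main N le_rfl i₀ hp₀
  · rw [sub_self, zero_mul]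
    have : c i₀ * s i₀ - s i₀ * c i₀ = 0 := by ring
    rw [this, abs_zero]
  · refine ⟨v₀, hv₀, ?_⟩
    rw [sub_self, zero_mul, add_zero]

end W82
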