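import Pool.Agent.W82_c2305b.WalkB

/-!
The walk with bounded mismatch.
-/

open Set Module Topology Filter MeasureTheory
open scoped Pointwise

namespace W82

open C2305b.TL (cr)

variable {ι : Type*} {D : Set V} {P : ι → Set V}

/-- Change of frame for the second coordinate. -/
theorem uy_change {ν c s c' s' : ℝ} (h : c ^ 2 + ν * s ^ 2 = 1) (p : V) :
    uy c' s' p = (c' * s - s' * c) * ux ν c s p + (c' * c + ν * s' * s) * uy c s p := by
  simp only [uy, ux]
  linear_combination (s' * p 0 - c' * p 1) * h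

/-- Change of frame for the first coordinate. -/
theorem ux_change {ν c s c' s' : ℝ} (h : c ^ 2 + ν * s ^ 2 = 1) (p : V) :
    ux ν c' s' p = (c' * c + ν * s' * s) * ux ν c s p - ν * (c' * s - s' * c) * uy c s p := by
  simp only [uy, ux]
  linear_combination (-(c' * p 0) - ν * s' * p 1) * h

/-- A common edge bounds the mismatch. -/
theorem Cells.common_bound {K0 : Set V} {ν ε a b co so R0 Ro M : ℝ} {t : ι → Bool} {c s : ι → ℝ}
    {o : ι → V} (hC : Cells P K0 ν ε a b co so t c s o) (hK : K0 ⊆ Metric.closedBall 0 R0)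
    (hab : a ^ 2 + b ^ 2 = 1) (hε : 0 ≤ ε) (hε1 : ε ≤ 1) (hν : 0 ≤ ν) (hν1 : ν ≤ 1)
    (hso : |so| ≤ Ro) (hM : (1 + Ro) * (2 * R0) ≤ M) {l m : ι} {p q : V}
    (hpl : p ∈ P l) (hql : q ∈ P l) (hpm : p ∈ P m) (hqm : q ∈ P m) :
    |c l * s m - s l * c m| * |ux ν (c l) (s l) (p - q)| ≤ 8 * M := by
  have h0 : ∀ i : ι, |c i * s i - s i * c i| ≤ 1 := by
    intro i
    have : c i * s i - s i * c i = 0 := by ring
    rw [this, abs_zero]
    exact zero_le_one
  have h1 := hC.uy_le hK hab hε hε1 hν hν1 hso hM (hC.fr m) (h0 m) hpm hqm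
  have h2 := hC.uy_le hK hab hε hε1 hν hν1 hso hM (hC.fr l) (h0 l) hpl hql
  have h3 := (rel_bounds hν hν1 (hC.fr m) (hC.fr l)).1
  rw [uy_change (hC.fr l)] at h1
  set X := ux ν (c l) (s l) (p - q) with hX
  set Y := uy (c l) (s l) (p - q) with hY
  have e : (c l * s m - s l * c m) * X = -((c m * s l - s m * c l) * X) := by ring
  rw [← abs_mul, e, abs_neg]
  have h4 : (c m * s l - s m * c l) * X = ((c m * s l - s m * c l) * X +
      (c m * c l + ν * s m * s l) * Y) - (c m * c l + ν * s m * s l) * Y := by ring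
  rw [h4]
  refine (abs_sub _ _).trans ?_
  rw [abs_mul (c m * c l + ν * s m * s l)]
  have h5 : |c m * c l + ν * s m * s l| * |Y| ≤ 1 * |Y| :=
    mul_le_mul_of_nonneg_right h3 (abs_nonneg _)
  linarith

/-- Mismatch between a cell and one of its two neighbours at a good vertex. -/
theorem Cells.one_of_two {K0 : Set V} {ν ε a b co so R0 Ro M τ : ℝ} {t : ι → Bool}
    {c s : ι → ℝ} {o : ι → V} (hC : Cells P K0 ν ε a b co so t c s o)
    (hK : K0 ⊆ Metric.closedBall 0 R0)
    (hab : a ^ 2 + b ^ 2 = 1) (hε : 0 ≤ ε) (hε1 : ε ≤ 1) (hν : 0 ≤ ν) (hν1 : ν ≤ 1)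
    (hso : |so| ≤ Ro) (hM : (1 + Ro) * (2 * R0) ≤ M) (hM0 : 0 < M) (hτ : 0 < τ) {i j k : ι}
    {v w u : V} (hvi : v ∈ P i) (hwi : w ∈ P i) (hui : u ∈ P i) (hvj : v ∈ P j) (hwj : w ∈ P j)
    (hvk : v ∈ P k) (huk : u ∈ P k) (hcr : 2 * τ ≤ cr (w - v) (u - v)) :
    |c i * s j - s i * c j| ≤ 32 * M ^ 2 / τ ∨ |c i * s k - s i * c k| ≤ 32 * M ^ 2 / τ := by
  have h0 : |c i * s i - s i * c i| ≤ 1 := by
    have : c i * s i - s i * c i = 0 := by ring
    rw [this, abs_zero]
    exact zero_le_one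
  have b2 := hC.uy_le hK hab hε hε1 hν hν1 hso hM (hC.fr i) h0 hwi hvi
  have b4 := hC.uy_le hK hab hε hε1 hν hν1 hso hM (hC.fr i) h0 hui hvi
  have d1 := hC.common_bound hK hab hε hε1 hν hν1 hso hM hwi hvi hwj hvj
  have d2 := hC.common_bound hK hab hε hε1 hν hν1 hso hM hui hvi huk hvk
  rw [cr_frame (hC.fr i)] at hcr
  set X1 := ux ν (c i) (s i) (w - v)
  set X2 := ux ν (c i) (s i) (u - v)
  set Y1 := uy (c i) (s i) (w - v)
  set Y2 := uy (c i) (s i) (u - v)
  have e1 : X1 * Y2 - Y1 * X2 ≤ 4 * M * |X1| + 4 * M * |X2| := by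
    have := le_abs_self (X1 * Y2)
    have := neg_abs_le (Y1 * X2)
    have h1 : |X1 * Y2| ≤ |X1| * (4 * M) := by
      rw [abs_mul]; exact mul_le_mul_of_nonneg_left b4 (abs_nonneg _)
    have h2 : |Y1 * X2| ≤ (4 * M) * |X2| := by
      rw [abs_mul]; exact mul_le_mul_of_nonneg_right b2 (abs_nonneg _)
    linarith
  have key : ∀ x y : ℝ, 0 ≤ x → τ / (4 * M) ≤ y → x * y ≤ 8 * M → x ≤ 32 * M ^ 2 / τ := by
    intro x y hx hy hxy
    rw [div_le_iff₀ (by positivity)] at hy
    rw [le_div_iff₀ hτ]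
    have h1 : x * τ ≤ x * (y * (4 * M)) := mul_le_mul_of_nonneg_left hy hx
    have h2 : x * (y * (4 * M)) = (x * y) * (4 * M) := by ring
    have h3 : (x * y) * (4 * M) ≤ 8 * M * (4 * M) :=
      mul_le_mul_of_nonneg_right hxy (by positivity)
    nlinarith
  by_cases hc1 : τ / (4 * M) ≤ |X1|
  · left
    exact key _ _ (abs_nonneg _) hc1 d1
  · right
    push Not at hc1
    refine key _ _ (abs_nonneg _) ?_ d2
    rw [div_le_iff₀ (by positivity)]
    rw [lt_div_iff₀ (by positivity)] at hc1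
    linarith

/-- **Bounded mismatch at a good vertex.** -/
theorem Tiling.mis_good [Finite ι] (h : Tiling D P)
    (hi : (interior (convexHull ℝ (Vb D P))).Nonempty) {K K0 : Set V}
    {T6 A6 τ g ε G η ν a b co so R0 Ro M : ℝ} {t : ι → Bool} {c s : ι → ℝ} {o : ι → V}
    (hG : Gap K0 T6 τ g) (hK0c : Convex ℝ K0) (hG0 : volume K0 ≤ ENNReal.ofReal G)
    (hGnn : 0 ≤ G) (hε : 0 ≤ ε) (hε1 : ε ≤ 1) (hεG : 3 * ε * G ≤ g / 2)
    (hKε : K ⊆ (1 + ε) • K0) (hcop : Copies P K) (hT : T6 ≤ A6) (hη : η ≤ g / 2)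
    (hC : Cells P K0 ν ε a b co so t c s o) (hK : K0 ⊆ Metric.closedBall 0 R0)
    (hab : a ^ 2 + b ^ 2 = 1) (hν : 0 ≤ ν) (hν1 : ν ≤ 1) (hso : |so| ≤ Ro)
    (hM : (1 + Ro) * (2 * R0) ≤ M) (hM0 : 0 < M) {v : V}
    (hg : GoodV D P (lossOf P A6 τ) η v) {l m : ι} (hl : v ∈ P l) (hm : v ∈ P m) :
    |c l * s m - s l * c m| ≤ 64 * M ^ 2 / τ := by
  set T := h.toTL hi with hT'
  have hτ : 0 < τ := hG.tau
  obtain ⟨hvF, hk3, hperf⟩ := hg
  have hlS := (h.fv_cells hvF).mp hl
  have hnd := h.nondeg (h.fv_interior hi hvF) hl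
  obtain ⟨w, hw⟩ := T.exists_next ⟨l, hnd⟩ (v := v) (h.mem_M.mpr ⟨l, hlS⟩)
    (subset_convexHull ℝ _ hlS)
  obtain ⟨j, k, u, z, hu, hj, hjz, hkz, hku, hij, hik, hjk, hall⟩ := h.corner hi hvF hk3 hw
  have hvi : v ∈ P l := hl
  have hvj : v ∈ P j := h.hull_sub j hj.2.1.2
  have hvk : v ∈ P k := h.hull_sub k hku.1.2
  have hwi : w ∈ P l := h.hull_sub l hw.2.1.2
  have hui : u ∈ P l := h.hull_sub l hu.1.2
  have hwj : w ∈ P j := h.hull_sub j hj.1.2
  have hzj : z ∈ P j := h.hull_sub j hjz.2.1.2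
  have hzk : z ∈ P k := h.hull_sub k hkz.1.2
  have huk : u ∈ P k := h.hull_sub k hku.2.1.2
  have c1 := h.corner_cost hi hG hK0c hG0 hGnn hε hε1 hεG hKε hcop hT hη (i := ⟨l, hnd⟩)
    (hperf l hl) hw hu
  have c2 := h.corner_cost hi hG hK0c hG0 hGnn hε hε1 hεG hKε hcop hT hη (i := k)
    (hperf k hvk) hku hkz
  have c3 := h.corner_cost hi hG hK0c hG0 hGnn hε hε1 hεG hKε hcop hT hη (i := j)
    (hperf j hvj) hjz hj
  have o1 := hC.one_of_two hK hab hε hε1 hν hν1 hso hM hM0 hτ hvi hwi hui hvj hwj hvk huk c1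
  have o2 := hC.one_of_two hK hab hε hε1 hν hν1 hso hM hM0 hτ hvk huk hzk hvi hui hvj hzj c2
  have o3 := hC.one_of_two hK hab hε hε1 hν hν1 hso hM hM0 hτ hvj hzj hwj hvk hzk hvi hwi c3
  have hsym : ∀ x y : ι, |c x * s y - s x * c y| = |c y * s x - s y * c x| := by
    intro x y
    rw [← abs_neg]
    congr 1
    ring
  have h0 : ∀ x : ι, |c x * s x - s x * c x| = 0 := by
    intro x
    have : c x * s x - s x * c x = 0 := by ring
    rw [this, abs_zero]
  have tri : ∀ x y z : ι, |c x * s z - s x * c z| ≤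
      |c x * s y - s x * c y| + |c y * s z - s y * c z| := fun x y z =>
    rel_tri hν hν1 (hC.fr x) (hC.fr y) (hC.fr z)
  have hpos : 0 ≤ 32 * M ^ 2 / τ := by positivity
  have e2 : 64 * M ^ 2 / τ = 32 * M ^ 2 / τ + 32 * M ^ 2 / τ := by ring
  -- all three pairs
  have pij : |c l * s j - s l * c j| ≤ 64 * M ^ 2 / τ := by
    rw [e2]
    have t1 := tri l k j
    rw [hsym k l] at o2
    rw [hsym j k, hsym j l] at o3
    rcases o1 with h1 | h1
    · linarith
    · rcases o3 with h3 | h3 <;> linarith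
  have pik : |c l * s k - s l * c k| ≤ 64 * M ^ 2 / τ := by
    rw [e2]
    have t1 := tri l j k
    rw [hsym k l, hsym k j] at o2
    rw [hsym j l] at o3
    rcases o1 with h1 | h1
    · rcases o2 with h2 | h2 <;> linarith
    · linarith
  have pjk : |c j * s k - s j * c k| ≤ 64 * M ^ 2 / τ := by
    rw [e2]
    have t1 := tri j l k
    rw [hsym j l] at t1
    rw [hsym k l, hsym k j] at o2
    rw [hsym j l] at o3
    rcases o3 with h3 | h3
    · linarith
    · rcases o2 with h2 | h2 <;> linarith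
  rcases hall m hm with rfl | rfl | rfl
  · rw [h0]; positivity
  · exact pij
  · exact pik

/-- **The walk with bounded mismatch.** -/
theorem Tiling.walk2 [Fintype ι] (h : Tiling D P)
    (hi : (interior (convexHull ℝ (Vb D P))).Nonempty) {K K0 : Set V}
    {T6 A6 τ g ε G η ν a b co so R0 Ro M κ : ℝ} {t : ι → Bool} {c s : ι → ℝ} {o : ι → V}
    (hG : Gap K0 T6 τ g) (hK0c : Convex ℝ K0) (hG0 : volume K0 ≤ ENNReal.ofReal G)
    (hGnn : 0 ≤ G) (hε : 0 ≤ ε) (hε1 : ε ≤ 1) (hεG : 3 * ε * G ≤ g / 2)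
    (hKε : K ⊆ (1 + ε) • K0) (hcop : Copies P K) (hT : T6 ≤ A6) (hη : η ≤ g / 2)
    (hC : Cells P K0 ν ε a b co so t c s o) (hK : K0 ⊆ Metric.closedBall 0 R0)
    (hab : a ^ 2 + b ^ 2 = 1) (hν : 0 ≤ ν) (hν1 : ν ≤ 1) (hso : |so| ≤ Ro)
    (hM : (1 + Ro) * (2 * R0) ≤ M) (hM0 : 0 < M) (hκ : 0 ≤ κ)
    (hmisg : ∀ v, GoodV D P (lossOf P A6 τ) η v → ∀ l m, v ∈ P l → v ∈ P m →
      |c l * s m - s l * c m| ≤ κ) {N : ℕ} (hNκ : ν * (N * κ) ^ 2 ≤ 1 / 4)
    (hN : 8 * M * (Vb D P).ncard < N * (τ ^ 2 / (256 * M ^ 3)))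
    {i₀ : ι} (hp₀ : Perfect D P (lossOf P A6 τ) η i₀) :
    i₀ ∈ reach D P (lossOf P A6 τ) η N := by
  classical
  set T := h.toTL hi with hT'
  set cc := τ ^ 2 / (256 * M ^ 3) with hcc
  have hτ : 0 < τ := hG.tau
  have hcc0 : 0 < cc := by rw [hcc]; positivity
  set f : V → ℝ := ux ν (c i₀) (s i₀) with hf
  have h₀ := hC.fr i₀
  -- width
  have hwidth : ∀ x ∈ convexHull ℝ (Vb D P), ∀ y ∈ convexHull ℝ (Vb D P),
      f x - f y ≤ 8 * M * (Vb D P).ncard := by
    intro x hx y hy
    have := h.width hi (uxL ν (c i₀) (s i₀)) (m := 4 * M) (fun i p hp q hq => by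
      have h1 := hC.ux_le hK hab hε hε1 hν hν1 hso hM h₀ hp hq
      rw [ux_sub] at h1
      exact h1) hx hy
    change f x - f y ≤ _ at this
    linarith
  have hSconv : ∀ i, S P i ⊆ convexHull ℝ (Vb D P) := fun i v hv => h.sh_hull (S_sub_Sh i hv)
  obtain ⟨v₀, hv₀⟩ : (S P i₀).Nonempty := by
    apply Set.nonempty_of_ncard_ne_zero
    rw [hp₀.card]
    norm_num
  have main : ∀ n : ℕ, n ≤ N → ∀ i, Perfect D P (lossOf P A6 τ) η i →
      |c i₀ * s i - s i₀ * c i| ≤ ((N : ℝ) - n) * κ →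
      (∃ v ∈ S P i, f v₀ + ((N : ℝ) - n) * cc ≤ f v) →
      i ∈ reach D P (lossOf P A6 τ) η n := by
    intro n
    induction n with
    | zero =>
      intro _ i _ _ ⟨v, hv, hfv⟩
      exfalso
      have := hwidth v (hSconv i hv) v₀ (hSconv i₀ hv₀)
      simp only [Nat.cast_zero, sub_zero] at hfv
      linarith
    | succ n ih =>
      intro hn i hp hmis hex
      have hn' : n ≤ N := by omega
      have hnN : ((n : ℝ) + 1) ≤ N := by exact_mod_cast hn
      -- the vertex with largest first coordinate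
      obtain ⟨v, hv, hmax⟩ := (h.S_finite i).exists_maximalFor f (S P i) (by
        apply Set.nonempty_of_ncard_ne_zero
        rw [hp.card]
        norm_num)
      have hmax' : ∀ x ∈ S P i, f x ≤ f v := by
        intro x hx
        rcases le_total (f x) (f v) with h1 | h1
        · exact h1
        · exact hmax hx h1
      obtain ⟨v', hv', hfv'⟩ := hex
      have hfv : f v₀ + ((N : ℝ) - ((n + 1 : ℕ) : ℝ)) * cc ≤ f v := hfv'.trans (hmax' v' hv')
      by_cases hg : GoodV D P (lossOf P A6 τ) η v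
      · have hvF := (hp.full v hv).1
        have hnd := h.nondeg (h.fv_interior hi hvF) hv.1.1
        obtain ⟨w, hw⟩ := T.exists_next ⟨i, hnd⟩ (v := v) (h.mem_M.mpr ⟨i, hv⟩)
          (subset_convexHull ℝ _ hv)
        obtain ⟨j, k, u, z, hu, hj, hjz, hkz, hku, hij, hik, hjk, hall⟩ :=
          h.corner hi hvF (hp.full v hv).2 hw
        have hvj : v ∈ P j := h.hull_sub j hj.2.1.2
        have hvk : v ∈ P k := h.hull_sub k hku.1.2
        have hpj := hg.2.2 j hvj
        have hpk := hg.2.2 k hvk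
        -- the three corners
        have c1 := h.corner_cost hi hG hK0c hG0 hGnn hε hε1 hεG hKε hcop hT hη (i := ⟨i, hnd⟩) hp
          hw hu
        have c2 := h.corner_cost hi hG hK0c hG0 hGnn hε hε1 hεG hKε hcop hT hη (i := k) hpk
          hku hkz
        have c3 := h.corner_cost hi hG hK0c hG0 hGnn hε hε1 hεG hKε hcop hT hη (i := j) hpj
          hjz hj
        have hwP : w ∈ P i := h.hull_sub i hw.2.1.2
        have huP : u ∈ P i := h.hull_sub i hu.1.2
        have hvP : v ∈ P i := hv.1.1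
        have hwS : w ∈ S P i := hp.only w hwP (h.mem_M.mp hw.2.1.1)
        have huS : u ∈ S P i := hp.only u huP (h.mem_M.mp hu.1.1)
        -- relative frame
        set γ := c i₀ * c i + ν * s i₀ * s i with hγ
        set σ := c i₀ * s i - s i₀ * c i with hσ
        have hγσ : γ ^ 2 + ν * σ ^ 2 = 1 := rel_unit h₀ (hC.fr i)
        have hσN : |σ| ≤ N * κ := by
          refine hmis.trans ?_
          apply mul_le_mul_of_nonneg_right _ hκ
          push_cast
          have : (0 : ℝ) ≤ n := Nat.cast_nonneg _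
          linarith
        have hνσ : ν * σ ^ 2 ≤ 1 / 4 := by
          refine le_trans ?_ hNκ
          apply mul_le_mul_of_nonneg_left _ hν
          rw [← sq_abs]
          exact pow_le_pow_left₀ (abs_nonneg _) hσN 2
        have hγ2 : (1 / 2 : ℝ) ^ 2 ≤ |γ| ^ 2 := by
          rw [sq_abs]; linarith
        have hγ1 : 1 / 2 ≤ |γ| := by
          by_contra hcon
          push Not at hcon
          have := pow_lt_pow_left₀ hcon (abs_nonneg γ) (n := 2) (by norm_num)
          linarith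
        have hγ0 : γ ≠ 0 := by
          intro h0
          rw [h0, abs_zero] at hγ1
          norm_num at hγ1
        have hself : |c i * s i - s i * c i| ≤ 1 := by
          have : c i * s i - s i * c i = 0 := by ring
          rw [this, abs_zero]
          exact zero_le_one
        have crγ : ∀ p q : V, cr p q = ux ν (c i₀) (s i₀) p * (uy (c i) (s i) q / γ) -
            uy (c i) (s i) p / γ * ux ν (c i₀) (s i₀) q := by
          intro p q
          have ep : ux ν (c i₀) (s i₀) p =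
              γ * ux ν (c i) (s i) p - ν * σ * uy (c i) (s i) p := ux_change (hC.fr i) p
          have eq : ux ν (c i₀) (s i₀) q =
              γ * ux ν (c i) (s i) q - ν * σ * uy (c i) (s i) q := ux_change (hC.fr i) q
          rw [cr_frame (hC.fr i), ep, eq]
          field_simp
          ring
        have ybound : ∀ p ∈ P i, ∀ q ∈ P i, |uy (c i) (s i) (p - q) / γ| ≤ 4 * (2 * M) := by
          intro p hp q hq
          have h1 := hC.uy_le hK hab hε hε1 hν hν1 hso hM (hC.fr i) hself hp hq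
          rw [abs_div, div_le_iff₀ (by linarith)]
          have : 4 * (2 * M) * (1 / 2) ≤ 4 * (2 * M) * |γ| :=
            mul_le_mul_of_nonneg_left hγ1 (by positivity)
          linarith
        have xbound : ∀ p ∈ P i, ∀ q ∈ P i, |ux ν (c i₀) (s i₀) (p - q)| ≤ 4 * (2 * M) := by
          intro p hp q hq
          have h1 := hC.ux_le hK hab hε hε1 hν hν1 hso hM h₀ hp hq
          linarith
        have n1 : ux ν (c i₀) (s i₀) (w - v) ≤ 0 := by
          rw [ux_sub]
          have := hmax' w hwS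
          simp only [hf] at this
          linarith
        have n2 : ux ν (c i₀) (s i₀) (u - v) ≤ 0 := by
          rw [ux_sub]
          have := hmax' u huS
          simp only [hf] at this
          linarith
        rw [crγ] at c1 c2 c3
        have hz := step_num hτ (by positivity : 0 < 2 * M) (xbound w hwP v hvP)
          (ybound w hwP v hvP) (xbound u huP v hvP) (ybound u huP v hvP) n1 n2 c1 c2 c3
        rw [ux_sub] at hz
        have hcc' : τ ^ 2 / (32 * (2 * M) ^ 3) = cc := by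
          rw [hcc]; congr 1; ring
        rw [hcc'] at hz
        -- the next cell
        have hzP : z ∈ P j := h.hull_sub j hjz.2.1.2
        have hzS : z ∈ S P j := hpj.only z hzP (h.mem_M.mp hjz.2.1.1)
        have hjr : (j : ι) ∈ reach D P (lossOf P A6 τ) η n := by
          apply ih hn' j hpj
          · refine (rel_tri hν hν1 h₀ (hC.fr i) (hC.fr j)).trans ?_
            have h2 := hmisg v hg i j hvP hvj
            push_cast at hmis
            have h3 : ((N : ℝ) - n) * κ = ((N : ℝ) - (n + 1)) * κ + κ := by ring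
            rw [h3]
            linarith
          · refine ⟨z, hzS, ?_⟩
            push_cast at hfv
            have h3 : ((N : ℝ) - n) * cc = ((N : ℝ) - (n + 1)) * cc + cc := by ring
            rw [h3]
            simp only [hf] at hfv ⊢
            linarith
        rw [reach, Finset.mem_union]
        right
        rw [Finset.mem_filter]
        refine ⟨Finset.mem_univ _, j, hjr, hpj, v, hg, ?_, hv⟩
        exact (h.fv_cells hvF).mp hvj
      · apply reach_mono
        rw [reach, Finset.mem_filter]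
        exact ⟨Finset.mem_univ _, hp, v, hv, hg⟩
  apply main N le_rfl i₀ hp₀
  · rw [sub_self, zero_mul]
    have : c i₀ * s i₀ - s i₀ * c i₀ = 0 := by ring
    rw [this, abs_zero]
  · refine ⟨v₀, hv₀, ?_⟩
    rw [sub_self, zero_mul, add_zero]

end W82
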